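import Pool.Agent.Lib.MP_bae66e_nt.E3.N3d
import Pool.Agent.Lib.MP_bae66e_nt.Mg.G002

/-!
# N3e: the number of large values of a prime polynomial
-/

set_option autoImplicit false

namespace Pool.Agent.E3

open Finset MeasureTheory Real
open Pool.Agent.Lib.MP_bae66e_nt.AP3 (prI mem_prI)

/-- PROOF. `large_values` with `A = B`, `η = 1/a` (`2 α + 1/a + 1/a = 2 α + 2/a`), `f = ch χ` (`ch_norm_le`);
`PR χ R t = DP (ch χ) (IS R) t` by definition. -/
theorem nlv : NLV := by
  intro a ha B α hα hα1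
  obtain ⟨X₀, h⟩ := large_values a α B (1 / a) ha hα.le (Nat.cast_nonneg B) (by positivity)
  refine ⟨X₀, fun X hX W χ R h1 h2 T hT hV => ?_⟩
  have key := h X hX R (ch χ) T h1 (by rw [Real.rpow_natCast]; exact h2) (ch_norm_le χ) hT
    (fun t ht => hV t ht)
  have he : 2 * α + 1 / a + 1 / a = 2 * α + 2 / a := by ring
  rwa [he] at key

end Pool.Agent.E3
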