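import Pool.Agent.Lib.MP_bae66e_nt.Mg.G012
import Pool.Agent.Lib.MP_bae66e_nt.Mg.G021

/-!
# D4: the windows of the rough integers at well spaced points
-/

set_option autoImplicit false

namespace Pool.Agent.E3

open Finset MeasureTheory Real
open Pool.Agent.Lib.MP_bae66e_nt.AP3 (Rough prI KT)

private theorem D4_ch_mul_conj {W : ℕ} (χ : DirichletCharacter ℂ W) (n : ℕ) :
    ch χ n * (starRingEnd ℂ) (ch χ n) = ch (1 : DirichletCharacter ℂ W) n := by
  unfold ch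
  by_cases h : IsUnit (n : ZMod W)
  · rw [MulChar.one_apply h, RCLike.mul_conj]
    obtain ⟨a, ha⟩ := h
    rw [← ha, DirichletCharacter.unit_norm_eq_one]
    simp
  · rw [MulChar.map_nonunit χ h, MulChar.map_nonunit _ h, zero_mul]

private theorem D4_ph_mul_conj (t t' y : ℝ) :
    ph t y * (starRingEnd ℂ) (ph t' y) = ph (t - t') y := by
  unfold ph
  rw [← Complex.exp_conj, ← Complex.exp_add]
  congr 1
  rw [map_mul, Complex.conj_I, Complex.conj_ofReal]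
  push_cast
  ring

private theorem D4_ph_norm (u x : ℝ) : ‖ph u x‖ = 1 := by
  unfold ph
  exact Complex.norm_exp_ofReal_mul_I _

private theorem D4_term {W : ℕ} (χ : DirichletCharacter ℂ W) (t t' g d : ℝ) (n : ℕ) (y : ℝ) :
    ((d * g : ℝ) : ℂ) * (ch χ n * ph t y * (starRingEnd ℂ) (ch χ n * ph t' y)) =
      (d : ℂ) * (ch (1 : DirichletCharacter ℂ W) n * ph (t - t') y * (g : ℂ)) := by
  rw [map_mul, ← D4_ch_mul_conj χ, ← D4_ph_mul_conj t t' y]
  push_cast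
  ring

private theorem D4_ch_one {W : ℕ} (n : ℕ) :
    ch (1 : DirichletCharacter ℂ W) n = if W.Coprime n then (1 : ℂ) else 0 := by
  unfold ch
  by_cases h : W.Coprime n
  · rw [if_pos h]
    exact MulChar.one_apply ((ZMod.isUnit_iff_coprime n W).2 h.symm)
  · rw [if_neg h]
    exact MulChar.map_nonunit _ fun h' => h ((ZMod.isUnit_iff_coprime n W).1 h').symm

private theorem D4_ch_zero {W : ℕ} (χ : DirichletCharacter ℂ W) (n : ℕ) (h : ¬ W.Coprime n) :
    ch χ n = 0 := by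
  unfold ch
  exact MulChar.map_nonunit _ fun h' => h ((ZMod.isUnit_iff_coprime n W).1 h').symm

private theorem D4_sq3 (a b c : ℂ) : ‖a - b - c‖ ^ 2 ≤ 3 * (‖a‖ ^ 2 + ‖b‖ ^ 2 + ‖c‖ ^ 2) := by
  have h1 : ‖a - b - c‖ ≤ ‖a‖ + ‖b‖ + ‖c‖ := by
    refine (norm_sub_le _ _).trans ?_
    have := norm_sub_le a b
    linarith
  have h2 : ‖a - b - c‖ ^ 2 ≤ (‖a‖ + ‖b‖ + ‖c‖) ^ 2 :=
    pow_le_pow_left₀ (norm_nonneg _) h1 2
  nlinarith [sq_nonneg (‖a‖ - ‖b‖), sq_nonneg (‖a‖ - ‖c‖), sq_nonneg (‖b‖ - ‖c‖)]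

/-- the decomposition of the window of the rough integers -/
private theorem D4_split {W : ℕ} (hW : 1 ≤ W) (χ : DirichletCharacter ℂ W) (β : ℝ) (z Z : ℕ)
    (hZ1 : 1 ≤ Z) (t x : ℝ) (u : ℕ → ℝ) :
    WIN (ch χ) β (RS z Z) t x =
      (∑ n ∈ Icc 1 Z, ((dsum u n : ℝ) : ℂ) *
        (ch χ n * ph t (Real.log n) * (((gs β x (Real.log n) / n : ℝ)) : ℂ)))
      - (∑ n ∈ Icc 1 Z,
        (((dsum u n - free ((prI 0 z).filter (fun ℓ => ¬ ℓ ∣ W)) n) : ℝ) : ℂ) *
        (ch χ n * ph t (Real.log n) * (((gs β x (Real.log n) / n : ℝ)) : ℂ)))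
      - ch χ 1 * ph t (Real.log (1 : ℕ)) * (((gs β x (Real.log (1 : ℕ)) / (1 : ℕ) : ℝ)) : ℂ) := by
  classical
  obtain ⟨F, hF⟩ : ∃ F : ℕ → ℂ, ∀ n, F n = ch χ n * ph t (Real.log n) *
    (((gs β x (Real.log n) / n : ℝ)) : ℂ) := ⟨_, fun _ => rfl⟩
  have hIcc : Icc 1 Z = insert 1 (Icc 2 Z) := by
    ext n
    simp only [Finset.mem_Icc, Finset.mem_insert]
    omega
  have hr1 : Rough z 1 := by
    intro p hp h1
    exact absurd (Nat.dvd_one.1 h1) hp.one_lt.ne'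
  have h1 : ∀ n ∈ Icc 1 Z, ((free ((prI 0 z).filter (fun ℓ => ¬ ℓ ∣ W)) n : ℝ) : ℂ) * F n =
      if Rough z n then F n else 0 := by
    intro n hn
    have h2 := rough_free hW χ z n (Finset.mem_Icc.1 hn).1
    rw [hF, mul_assoc (ch χ n), ← mul_assoc, ← h2]
    by_cases hr : Rough z n
    · rw [if_pos hr, if_pos hr]
    · rw [if_neg hr, if_neg hr, zero_mul]
  have h2 : (∑ n ∈ Icc 1 Z, ((free ((prI 0 z).filter (fun ℓ => ¬ ℓ ∣ W)) n : ℝ) : ℂ) * F n) - F 1 =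
      WIN (ch χ) β (RS z Z) t x := by
    rw [Finset.sum_congr rfl h1, hIcc, Finset.sum_insert (by simp), if_pos hr1,
      add_sub_cancel_left]
    unfold WIN RS
    rw [Finset.sum_filter]
    refine Finset.sum_congr rfl fun n _ => ?_
    rw [hF]
  rw [← h2, ← hF 1]
  congr 1
  rw [← Finset.sum_sub_distrib]
  refine Finset.sum_congr rfl fun n _ => ?_
  rw [hF]
  push_cast
  ring

/-- PROOF. `b0, c` from `kernel`, `θ = c / 20`; `u, e` the weights of `kernel` for `b, z`; `F t n = ch χ n ph t (log n) gs β x (log n)/n`.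
By `rough_free` (as in `rough_window`) `WIN (ch χ) β (RS z Z) t x = ∑_{n ≤ Z} free n F t n - F t 1
= ∑ dsum u n F t n - ∑ (dsum u n - free n) F t n - F t 1`.
(1) By `kernel` (`v = t`, `|t| ≤ X ≤ exp (5x)`) the first sum is `≤ 2 √(π/β) KT z exp (- t²/(4β)) + C exp (- c x)`; the sum over `t ∈ T` of
the squares is `≤ (C / log z)² ∑_t exp (- t²/(2β)) + C #T exp (- 2 c x)`, and
`∑_t exp (- t²/(2β)) ≤ exp (- T₀²/(4β)) ∑_t exp (- t²/(4β)) ≤ C exp (- T₀²/(4β))` (`spaced_gauss`).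
(2) `dual_schur` with `M = {n ∈ Icc 1 Z : (n, W) = 1}`, `w n = dsum e n · gs / n ≥ 0` (`dsum e n ≥ dsum u n - free n ≥ 0`),
`N = {n ∈ M : dsum e n > 0}` (for the other `n ∈ M` `dsum u n - free n = 0`), `b n = (dsum u n - free n) gs / n`,
`φ t n = ch χ n ph t (log n)`: by `kernel` for `e` the row sums are `≤ B = C exp (-b) / log z + #T C exp (- c x)` and
`∑_N ‖b n‖² / w n ≤ ∑_N (dsum u n - free n) gs / n ≤ ∑_{n ≤ Z} dsum e n ch 1 n gs / n ≤ B` (`kernel`, `v = 0`). So the sum over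
`t ∈ T` of the squares is `≤ B² ≤ 2 C² exp (-2b) / (log z)² + 2 (#T C exp (- c x))²`.
(3) `‖F t 1‖² ≤ exp (- 2 β x²)`.
Total (`(a+b+c)² ≤ 3(a²+b²+c²)`) as stated, since `#T² C exp (- 2 c x) ≤ C X^(2θ) X^(- 0.9 c) ≤ X^(-θ) / 10` for `X ≥ X₀`. -/
theorem rough_T : ∃ θ : ℝ, 0 < θ ∧ θ ≤ 1 / 20 ∧ ∃ b0 : ℕ, ∀ β : ℝ, 0 < β → ∃ C : ℝ, 1 ≤ C ∧
    ∀ W : ℕ, 1 ≤ W → ∃ X₀ : ℕ, ∀ X : ℕ, X₀ ≤ X → ∀ (χ : DirichletCharacter ℂ W) (b z : ℕ), b0 ≤ b → 2 ≤ z →
    W ≤ z → ∀ (x : ℝ) (Z : ℕ), 0.45 * Real.log X ≤ x → (8 * b + 12) * Real.log z ≤ x → Real.exp (2 * x) ≤ Z →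
    ∀ T : Finset ℝ, Spaced T → ∀ T₀ : ℝ, 0 ≤ T₀ → (∀ t ∈ T, T₀ ≤ |t| ∧ |t| ≤ X) → (#T : ℝ) ≤ (X : ℝ) ^ θ →
      ∑ t ∈ T, ‖WIN (ch χ) β (RS z Z) t x‖ ^ 2
        ≤ C / (Real.log z) ^ 2 * (Real.exp (-(2 * (b : ℝ))) + Real.exp (-(T₀ ^ 2 / (4 * β))))
          + (X : ℝ) ^ (-θ) := by
  classical
  obtain ⟨b0, c, hc, hc4, HK⟩ := kernel
  refine ⟨c / 20, by positivity, by linarith, b0, fun β hβ => ?_⟩
  obtain ⟨Cg, hCg, HG⟩ := spaced_gauss (1 / (4 * β)) (by positivity)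
  obtain ⟨sp, hsp⟩ : ∃ sp : ℝ, sp = Real.sqrt (π / β) := ⟨_, rfl⟩
  have hsp0 : 0 ≤ sp := by rw [hsp]; exact Real.sqrt_nonneg _
  refine ⟨24 * sp ^ 2 * Cg ^ 2 + 1, by
    have : 0 ≤ 24 * sp ^ 2 * Cg ^ 2 := by positivity
    linarith, fun W hW => ?_⟩
  obtain ⟨Ck, hCk, HK2⟩ := HK β hβ W hW
  refine ⟨⌈Real.exp ((15 * Ck ^ 2 / c + c / β) / 0.45)⌉₊ + 2, ?_⟩
  intro X hX χ b z hb hz hWz x Z hxX hxz hZexp T hT T₀ hT₀ hTX hTcard
  obtain ⟨u, e, hue, hker⟩ := HK2 b z hb hz hWz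
  have hXe : Real.exp ((15 * Ck ^ 2 / c + c / β) / 0.45) ≤ (X : ℝ) := by
    refine (Nat.le_ceil _).trans ?_
    exact_mod_cast (by omega : ⌈Real.exp ((15 * Ck ^ 2 / c + c / β) / 0.45)⌉₊ ≤ X)
  have hX2 : (2 : ℝ) ≤ X := by exact_mod_cast (by omega : 2 ≤ X)
  have hX0 : (0 : ℝ) < X := by linarith
  have hlogX : (15 * Ck ^ 2 / c + c / β) / 0.45 ≤ Real.log X :=
    (Real.le_log_iff_exp_le hX0).mpr hXe
  have hxbig : 15 * Ck ^ 2 / c + c / β ≤ x := by
    rw [div_le_iff₀ (by norm_num)] at hlogX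
    linarith
  have hq1 : 0 < 15 * Ck ^ 2 / c := by positivity
  have hq2 : 0 < c / β := by positivity
  have hx1 : 15 * Ck ^ 2 / c ≤ x := by linarith
  have hx2 : c / β ≤ x := by linarith
  have hx0 : 0 < x := by linarith
  have hz' : (2 : ℝ) ≤ z := by exact_mod_cast hz
  have hlz : 0 < Real.log z := Real.log_pos (by linarith)
  have hZ1 : 1 ≤ Z := by
    have h1 : (0 : ℝ) < Z := lt_of_lt_of_le (Real.exp_pos _) hZexp
    exact_mod_cast h1
  have hKT0 := Pool.Agent.Lib.MP_bae66e_nt.AP3.KT_pos z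
  have hKT : KT z ≤ 1 / Real.log z := by
    refine (Pool.Agent.Lib.MP_bae66e_nt.AP3.KT_le z (by omega)).trans ?_
    exact one_div_le_one_div_of_le hlz (Real.log_le_log (by linarith) (by linarith))
  -- trivial case
  rcases Finset.eq_empty_or_nonempty T with hTe | hTne
  · rw [hTe, Finset.sum_empty]
    have h1 : 0 ≤ (X : ℝ) ^ (-(c / 20)) := Real.rpow_nonneg hX0.le _
    have h2 : 0 ≤ (24 * sp ^ 2 * Cg ^ 2 + 1) / Real.log z ^ 2 *
        (Real.exp (-(2 * (b : ℝ))) + Real.exp (-(T₀ ^ 2 / (4 * β)))) := by positivity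
    linarith
  have hT1 : (1 : ℝ) ≤ #T := by exact_mod_cast hTne.card_pos
  obtain ⟨E, hE⟩ : ∃ E : ℝ, E = Real.exp (-(c * x)) := ⟨_, rfl⟩
  have hE0 : 0 < E := by rw [hE]; exact Real.exp_pos _
  have hvbd : ∀ v : ℝ, |v| ≤ 2 * X → |v| ≤ Real.exp (5 * x) := by
    intro v hv
    refine hv.trans ?_
    rw [← Real.log_le_iff_le_exp (by positivity), Real.log_mul (by norm_num) hX0.ne']
    have h2 : Real.log 2 ≤ Real.log X := Real.log_le_log (by norm_num) hX2
    have h3 : 0 ≤ Real.log 2 := Real.log_nonneg (by norm_num)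
    nlinarith
  have hexpform : ∀ s : ℝ, Real.exp (-(s ^ 2 / (4 * β))) = Real.exp (-(1 / (4 * β) * s ^ 2)) := by
    intro s
    congr 1
    ring
  have hgs : ∀ n : ℕ, 1 ≤ n → 0 < gs β x (Real.log n) / n := fun n hn => by
    have : (0 : ℝ) < n := by exact_mod_cast hn
    unfold gs
    positivity
  -- the three parts
  obtain ⟨A, hA⟩ : ∃ A : ℝ → ℂ, ∀ t, A t = ∑ n ∈ Icc 1 Z, ((dsum u n : ℝ) : ℂ) *
      (ch χ n * ph t (Real.log n) * (((gs β x (Real.log n) / n : ℝ)) : ℂ)) := ⟨_, fun _ => rfl⟩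
  obtain ⟨B, hB⟩ : ∃ B : ℝ → ℂ, ∀ t, B t = ∑ n ∈ Icc 1 Z,
      (((dsum u n - free ((prI 0 z).filter (fun ℓ => ¬ ℓ ∣ W)) n) : ℝ) : ℂ) *
      (ch χ n * ph t (Real.log n) * (((gs β x (Real.log n) / n : ℝ)) : ℂ)) := ⟨_, fun _ => rfl⟩
  obtain ⟨F, hF⟩ : ∃ F : ℝ → ℂ, ∀ t, F t = ch χ 1 * ph t (Real.log (1 : ℕ)) *
      (((gs β x (Real.log (1 : ℕ)) / (1 : ℕ) : ℝ)) : ℂ) := ⟨_, fun _ => rfl⟩
  have hsplit : ∀ t, WIN (ch χ) β (RS z Z) t x = A t - B t - F t := fun t => by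
    rw [hA, hB, hF]
    exact D4_split hW χ β z Z hZ1 t x u
  -- part 1
  have hpart1 : ∑ t ∈ T, ‖A t‖ ^ 2 ≤ 8 * sp ^ 2 * Cg / Real.log z ^ 2 *
      Real.exp (-(T₀ ^ 2 / (4 * β))) + 2 * (#T * (Ck * E) ^ 2) := by
    have h1 : ∀ t ∈ T, ‖A t‖ ^ 2 ≤ 8 * sp ^ 2 / Real.log z ^ 2 * Real.exp (-(T₀ ^ 2 / (4 * β))) *
        Real.exp (-(1 / (4 * β) * (0 - t) ^ 2)) + 2 * (Ck * E) ^ 2 := by
      intro t ht
      have h2 := (hker χ x t Z hxz hZexp (hvbd t (by linarith [(hTX t ht).2]))).1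
      rw [← hA, ← hsp, ← hE] at h2
      obtain ⟨g, hg⟩ : ∃ g : ℝ, g = Real.exp (-(t ^ 2 / (4 * β))) := ⟨_, rfl⟩
      have hg0 : 0 < g := by rw [hg]; exact Real.exp_pos _
      have h3 : ‖A t‖ ≤ 2 * (sp / Real.log z) * g + Ck * E := by
        refine h2.trans (add_le_add ?_ le_rfl)
        have h4 : 2 * (sp * KT z * Real.exp (-(t ^ 2 / (4 * β)))) ≤ 2 * (sp / Real.log z) * g := by
          rw [← hg]
          have h5 : sp * KT z ≤ sp * (1 / Real.log z) := mul_le_mul_of_nonneg_left hKT hsp0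
          have h6 : sp * KT z * g ≤ sp * (1 / Real.log z) * g :=
            mul_le_mul_of_nonneg_right h5 hg0.le
          calc 2 * (sp * KT z * g) ≤ 2 * (sp * (1 / Real.log z) * g) := by linarith
            _ = _ := by ring
        split_ifs
        · exact h4
        · positivity
      have h5 : ‖A t‖ ^ 2 ≤ 2 * (2 * (sp / Real.log z) * g) ^ 2 + 2 * (Ck * E) ^ 2 := by
        have h6 : ‖A t‖ ^ 2 ≤ (2 * (sp / Real.log z) * g + Ck * E) ^ 2 :=
          pow_le_pow_left₀ (norm_nonneg _) h3 2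
        nlinarith [sq_nonneg (2 * (sp / Real.log z) * g - Ck * E)]
      refine h5.trans (add_le_add ?_ le_rfl)
      have h7 : g ≤ Real.exp (-(T₀ ^ 2 / (4 * β))) := by
        rw [hg]
        refine Real.exp_le_exp.mpr (neg_le_neg ?_)
        have h8 : T₀ ^ 2 ≤ t ^ 2 := by
          rw [← sq_abs t]
          exact pow_le_pow_left₀ hT₀ (hTX t ht).1 2
        exact div_le_div_of_nonneg_right h8 (by positivity)
      have h8 : Real.exp (-(1 / (4 * β) * (0 - t) ^ 2)) = g := by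
        rw [hg, hexpform]
        congr 1
        ring
      rw [h8]
      calc 2 * (2 * (sp / Real.log z) * g) ^ 2 = 8 * sp ^ 2 / Real.log z ^ 2 * g * g := by
            ring
        _ ≤ 8 * sp ^ 2 / Real.log z ^ 2 * Real.exp (-(T₀ ^ 2 / (4 * β))) * g := by
            refine mul_le_mul_of_nonneg_right ?_ hg0.le
            exact mul_le_mul_of_nonneg_left h7 (by positivity)
    refine (Finset.sum_le_sum h1).trans ?_
    rw [Finset.sum_add_distrib, ← Finset.mul_sum, Finset.sum_const, nsmul_eq_mul]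
    have h2 := HG T hT 0
    have h3 : 8 * sp ^ 2 / Real.log z ^ 2 * Real.exp (-(T₀ ^ 2 / (4 * β))) *
        ∑ t ∈ T, Real.exp (-(1 / (4 * β) * (0 - t) ^ 2)) ≤
        8 * sp ^ 2 / Real.log z ^ 2 * Real.exp (-(T₀ ^ 2 / (4 * β))) * Cg :=
      mul_le_mul_of_nonneg_left h2 (by positivity)
    have h4 : 8 * sp ^ 2 / Real.log z ^ 2 * Real.exp (-(T₀ ^ 2 / (4 * β))) * Cg =
        8 * sp ^ 2 * Cg / Real.log z ^ 2 * Real.exp (-(T₀ ^ 2 / (4 * β))) := by ring
    have h5 : (#T : ℝ) * (2 * (Ck * E) ^ 2) = 2 * (#T * (Ck * E) ^ 2) := by ring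
    linarith
  -- part 2
  have hpart2 : ∑ t ∈ T, ‖B t‖ ^ 2 ≤ 2 * (sp ^ 2 * Cg ^ 2 / Real.log z ^ 2 *
      Real.exp (-(2 * (b : ℝ)))) + 2 * (#T * (Ck * E)) ^ 2 := by
    obtain ⟨eb, heb⟩ : ∃ eb : ℝ, eb = Real.exp (-(b : ℝ)) := ⟨_, rfl⟩
    have heb0 : 0 < eb := by rw [heb]; exact Real.exp_pos _
    obtain ⟨R, hR⟩ : ∃ R : ℝ, R = eb * (sp * Cg / Real.log z) + #T * (Ck * E) := ⟨_, rfl⟩
    have hR0 : 0 ≤ R := by rw [hR]; positivity
    have hd0 : ∀ n, 1 ≤ n → 0 ≤ dsum u n - free ((prI 0 z).filter (fun ℓ => ¬ ℓ ∣ W)) n :=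
      fun n hn => by linarith [(hue n hn).1]
    have he0 : ∀ n, 1 ≤ n → 0 ≤ dsum e n := fun n hn => (hd0 n hn).trans (hue n hn).2
    have hsub : (Icc 1 Z).filter (fun n => W.Coprime n ∧ 0 < dsum e n) ⊆ Icc 1 Z :=
      Finset.filter_subset _ _
    have key := dual_schur T ((Icc 1 Z).filter (fun n => W.Coprime n ∧ 0 < dsum e n)) (Icc 1 Z)
      hsub (fun t n => ch χ n * ph t (Real.log n))
      (fun n => dsum e n * (gs β x (Real.log n) / n)) R hR0
      (fun n hn => mul_nonneg (he0 n (Finset.mem_Icc.1 hn).1) (hgs n (Finset.mem_Icc.1 hn).1).le)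
      (fun n hn => mul_pos (Finset.mem_filter.1 hn).2.2
        (hgs n (Finset.mem_Icc.1 (Finset.mem_filter.1 hn).1).1))
      ?_ (fun n => (((dsum u n - free ((prI 0 z).filter (fun ℓ => ¬ ℓ ∣ W)) n) : ℝ) : ℂ) *
        ((gs β x (Real.log n) / n : ℝ) : ℂ))
    · have e1 : ∀ t ∈ T, ‖B t‖ ^ 2 =
          ‖∑ n ∈ (Icc 1 Z).filter (fun n => W.Coprime n ∧ 0 < dsum e n),
            (((dsum u n - free ((prI 0 z).filter (fun ℓ => ¬ ℓ ∣ W)) n) : ℝ) : ℂ) *
            ((gs β x (Real.log n) / n : ℝ) : ℂ) * (ch χ n * ph t (Real.log n))‖ ^ 2 := by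
        intro t _
        rw [hB]
        congr 2
        rw [Finset.sum_filter]
        refine Finset.sum_congr rfl fun n hn => ?_
        have hn1 := (Finset.mem_Icc.1 hn).1
        by_cases hcop : W.Coprime n
        · by_cases hpos : 0 < dsum e n
          · rw [if_pos ⟨hcop, hpos⟩]
            ring
          · rw [if_neg (fun h => hpos h.2)]
            have h1 : dsum u n - free ((prI 0 z).filter (fun ℓ => ¬ ℓ ∣ W)) n = 0 :=
              le_antisymm ((hue n hn1).2.trans (not_lt.mp hpos)) (hd0 n hn1)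
            rw [h1, Complex.ofReal_zero, zero_mul]
        · rw [if_neg (fun h => hcop h.1), D4_ch_zero χ n hcop, zero_mul, zero_mul, mul_zero]
      rw [Finset.sum_congr rfl e1]
      refine key.trans ?_
      -- the second factor
      have hfac : ∑ n ∈ (Icc 1 Z).filter (fun n => W.Coprime n ∧ 0 < dsum e n),
          ‖(((dsum u n - free ((prI 0 z).filter (fun ℓ => ¬ ℓ ∣ W)) n) : ℝ) : ℂ) *
            ((gs β x (Real.log n) / n : ℝ) : ℂ)‖ ^ 2 /
            (dsum e n * (gs β x (Real.log n) / n)) ≤ R := by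
        have h1 : ∀ n ∈ (Icc 1 Z).filter (fun n => W.Coprime n ∧ 0 < dsum e n),
            ‖(((dsum u n - free ((prI 0 z).filter (fun ℓ => ¬ ℓ ∣ W)) n) : ℝ) : ℂ) *
            ((gs β x (Real.log n) / n : ℝ) : ℂ)‖ ^ 2 /
            (dsum e n * (gs β x (Real.log n) / n)) ≤
            (if W.Coprime n then 1 else 0) * (dsum e n * (gs β x (Real.log n) / n)) := by
          intro n hn
          rw [Finset.mem_filter] at hn
          have hn1 := (Finset.mem_Icc.1 hn.1).1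
          have hg := hgs n hn1
          have hd := hd0 n hn1
          rw [if_pos hn.2.1, one_mul, norm_mul, Complex.norm_real, Complex.norm_real,
            Real.norm_of_nonneg hg.le, Real.norm_of_nonneg hd,
            div_le_iff₀ (mul_pos hn.2.2 hg), ← sq]
          refine pow_le_pow_left₀ (by positivity) ?_ 2
          exact mul_le_mul_of_nonneg_right (hue n hn1).2 hg.le
        have h2 : ∑ n ∈ (Icc 1 Z).filter (fun n => W.Coprime n ∧ 0 < dsum e n),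
            (if W.Coprime n then 1 else 0) * (dsum e n * (gs β x (Real.log n) / n)) ≤
            ∑ n ∈ Icc 1 Z, (if W.Coprime n then 1 else 0) *
              (dsum e n * (gs β x (Real.log n) / n)) := by
          refine Finset.sum_le_sum_of_subset_of_nonneg hsub fun n hn _ => ?_
          have hn1 := (Finset.mem_Icc.1 hn).1
          have h3 := mul_nonneg (he0 n hn1) (hgs n hn1).le
          split_ifs
          · rw [one_mul]; exact h3
          · rw [zero_mul]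
        have h3 := (hker 1 x 0 Z hxz hZexp (hvbd 0 (by rw [abs_zero]; positivity))).2
        have h4 : ∑ n ∈ Icc 1 Z, ((dsum e n : ℝ) : ℂ) * (ch (1 : DirichletCharacter ℂ W) n *
            ph 0 (Real.log n) * (((gs β x (Real.log n) / n : ℝ)) : ℂ)) =
            ((∑ n ∈ Icc 1 Z, (if W.Coprime n then 1 else 0) *
              (dsum e n * (gs β x (Real.log n) / n)) : ℝ) : ℂ) := by
          rw [Complex.ofReal_sum]
          refine Finset.sum_congr rfl fun n _ => ?_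
          have h5 : ph 0 (Real.log n) = 1 := by
            unfold ph
            simp
          rw [h5, mul_one, D4_ch_one]
          split_ifs
          · push_cast
            ring
          · push_cast
            ring
        rw [h4, Complex.norm_real, Real.norm_eq_abs, if_pos rfl, ← hsp, ← hE, ← heb] at h3
        have h5 := le_abs_self (∑ n ∈ Icc 1 Z, (if W.Coprime n then 1 else 0) *
              (dsum e n * (gs β x (Real.log n) / n)))
        have h6 : Real.exp (-((0 : ℝ) ^ 2 / (4 * β))) = 1 := by simp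
        rw [h6, mul_one] at h3
        have h7 : eb * (sp * KT z) ≤ eb * (sp * Cg / Real.log z) := by
          refine mul_le_mul_of_nonneg_left ?_ heb0.le
          have h8 : sp * KT z ≤ sp * (1 / Real.log z) := mul_le_mul_of_nonneg_left hKT hsp0
          refine h8.trans ?_
          rw [mul_one_div]
          refine div_le_div_of_nonneg_right ?_ hlz.le
          nlinarith
        have h8 : Ck * E ≤ #T * (Ck * E) := by
          have : 0 ≤ Ck * E := by positivity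
          nlinarith
        have h9 := Finset.sum_le_sum h1
        rw [hR]
        linarith
      have h10 : R * ∑ n ∈ (Icc 1 Z).filter (fun n => W.Coprime n ∧ 0 < dsum e n),
          ‖(((dsum u n - free ((prI 0 z).filter (fun ℓ => ¬ ℓ ∣ W)) n) : ℝ) : ℂ) *
            ((gs β x (Real.log n) / n : ℝ) : ℂ)‖ ^ 2 /
            (dsum e n * (gs β x (Real.log n) / n)) ≤ R * R := mul_le_mul_of_nonneg_left hfac hR0
      refine h10.trans ?_
      have h11 : Real.exp (-(2 * (b : ℝ))) = eb ^ 2 := by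
        rw [heb, ← Real.exp_nat_mul]
        congr 1
        push_cast
        ring
      rw [h11, hR]
      have h12 : sp ^ 2 * Cg ^ 2 / Real.log z ^ 2 * eb ^ 2 = (eb * (sp * Cg / Real.log z)) ^ 2 := by
        ring
      rw [h12]
      nlinarith [sq_nonneg (eb * (sp * Cg / Real.log z) - #T * (Ck * E))]
    · intro t ht
      have hrow : ∀ t' ∈ T, ‖∑ n ∈ Icc 1 Z,
          ((dsum e n * (gs β x (Real.log n) / n) : ℝ) : ℂ) *
            (ch χ n * ph t (Real.log n) * (starRingEnd ℂ) (ch χ n * ph t' (Real.log n)))‖ ≤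
          eb * (sp * KT z) * Real.exp (-(1 / (4 * β) * (t - t') ^ 2)) + Ck * E := by
        intro t' ht'
        have hterm : ∀ n ∈ Icc 1 Z, ((dsum e n * (gs β x (Real.log n) / n) : ℝ) : ℂ) *
            (ch χ n * ph t (Real.log n) * (starRingEnd ℂ) (ch χ n * ph t' (Real.log n))) =
            ((dsum e n : ℝ) : ℂ) * (ch (1 : DirichletCharacter ℂ W) n * ph (t - t') (Real.log n) *
              ((gs β x (Real.log n) / n : ℝ) : ℂ)) := fun n _ =>
          D4_term χ t t' (gs β x (Real.log n) / n) (dsum e n) n (Real.log n)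
        rw [Finset.sum_congr rfl hterm]
        have hv : |t - t'| ≤ Real.exp (5 * x) := by
          refine hvbd _ ((abs_sub t t').trans ?_)
          linarith [(hTX t ht).2, (hTX t' ht').2]
        have h1 := (hker 1 x (t - t') Z hxz hZexp hv).2
        rw [if_pos rfl, ← hsp, ← hE, ← heb, hexpform] at h1
        refine h1.trans (le_of_eq ?_)
        ring
      refine (Finset.sum_le_sum hrow).trans ?_
      rw [Finset.sum_add_distrib, ← Finset.mul_sum, Finset.sum_const, nsmul_eq_mul, hR]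
      refine add_le_add ?_ le_rfl
      calc eb * (sp * KT z) * ∑ t' ∈ T, Real.exp (-(1 / (4 * β) * (t - t') ^ 2))
          ≤ eb * (sp * (1 / Real.log z)) * Cg := by
            refine mul_le_mul ?_ (HG T hT t) (Finset.sum_nonneg fun _ _ => (Real.exp_pos _).le)
              (by positivity)
            exact mul_le_mul_of_nonneg_left (mul_le_mul_of_nonneg_left hKT hsp0) heb0.le
        _ = eb * (sp * Cg / Real.log z) := by ring
  -- part 3
  have hpart3 : ∑ t ∈ T, ‖F t‖ ^ 2 ≤ #T * E ^ 2 := by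
    have h1 : ∀ t ∈ T, ‖F t‖ ^ 2 ≤ E ^ 2 := by
      intro t _
      refine pow_le_pow_left₀ (norm_nonneg _) ?_ 2
      rw [hF, norm_mul, norm_mul, D4_ph_norm, mul_one, Complex.norm_real,
        Real.norm_of_nonneg (hgs 1 le_rfl).le]
      have h2 : ‖ch χ 1‖ ≤ 1 := (PC_ch χ).bd 1
      have h3 : gs β x (Real.log (1 : ℕ)) / (1 : ℕ) ≤ E := by
        rw [hE]
        unfold gs
        rw [Nat.cast_one, Real.log_one, div_one, sub_zero]
        refine Real.exp_le_exp.mpr (neg_le_neg ?_)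
        have h4 : c ≤ x * β := (div_le_iff₀ hβ).mp hx2
        nlinarith
      calc ‖ch χ 1‖ * (gs β x (Real.log (1 : ℕ)) / (1 : ℕ)) ≤ 1 * E :=
            mul_le_mul h2 h3 (hgs 1 le_rfl).le zero_le_one
        _ = E := one_mul _
    refine (Finset.sum_le_sum h1).trans ?_
    rw [Finset.sum_const, nsmul_eq_mul]
  -- the error
  have herr : 15 * Ck ^ 2 * (#T : ℝ) ^ 2 * E ^ 2 ≤ (X : ℝ) ^ (-(c / 20)) := by
    have h1 : (#T : ℝ) ^ 2 ≤ Real.exp (c * x / 4.5) := by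
      have h2 : (#T : ℝ) ≤ Real.exp (c * x / 9) := by
        refine hTcard.trans ?_
        rw [Real.rpow_def_of_pos hX0]
        refine Real.exp_le_exp.mpr ?_
        nlinarith
      calc (#T : ℝ) ^ 2 ≤ Real.exp (c * x / 9) ^ 2 :=
            pow_le_pow_left₀ (Nat.cast_nonneg _) h2 2
        _ = Real.exp (c * x / 4.5) := by
            rw [← Real.exp_nat_mul]
            congr 1
            push_cast
            ring
    have h3 : Real.exp (-(c * x / 9)) ≤ (X : ℝ) ^ (-(c / 20)) := by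
      rw [Real.rpow_def_of_pos hX0]
      refine Real.exp_le_exp.mpr ?_
      nlinarith
    have h4 : 15 * Ck ^ 2 ≤ Real.exp (c * x) := by
      have h5 : 15 * Ck ^ 2 ≤ c * x := by
        rw [div_le_iff₀ hc] at hx1
        linarith
      have h6 := Real.add_one_le_exp (c * x)
      linarith
    have h5 : E ^ 2 = Real.exp (-(2 * (c * x))) := by
      rw [hE, ← Real.exp_nat_mul]
      congr 1
      push_cast
      ring
    refine le_trans ?_ h3
    rw [h5]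
    calc 15 * Ck ^ 2 * (#T : ℝ) ^ 2 * Real.exp (-(2 * (c * x)))
        ≤ Real.exp (c * x) * Real.exp (c * x / 4.5) * Real.exp (-(2 * (c * x))) := by
          refine mul_le_mul_of_nonneg_right ?_ (Real.exp_pos _).le
          exact mul_le_mul h4 h1 (by positivity) (Real.exp_pos _).le
      _ = Real.exp (c * x + c * x / 4.5 + -(2 * (c * x))) := by
          rw [Real.exp_add, Real.exp_add]
      _ ≤ Real.exp (-(c * x / 9)) := by
          refine Real.exp_le_exp.mpr ?_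
          have : 0 < c * x := by positivity
          norm_num
          nlinarith
  -- conclusion
  have hfin : ∀ t ∈ T, ‖WIN (ch χ) β (RS z Z) t x‖ ^ 2 ≤
      3 * (‖A t‖ ^ 2 + ‖B t‖ ^ 2 + ‖F t‖ ^ 2) := fun t _ => by
    rw [hsplit]
    exact D4_sq3 _ _ _
  refine (Finset.sum_le_sum hfin).trans ?_
  rw [← Finset.mul_sum, Finset.sum_add_distrib, Finset.sum_add_distrib]
  obtain ⟨e2, he2⟩ : ∃ e2 : ℝ, e2 = Real.exp (-(2 * (b : ℝ))) := ⟨_, rfl⟩
  obtain ⟨eT, heT⟩ : ∃ eT : ℝ, eT = Real.exp (-(T₀ ^ 2 / (4 * β))) := ⟨_, rfl⟩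
  have he20 : 0 < e2 := by rw [he2]; exact Real.exp_pos _
  have heT0 : 0 < eT := by rw [heT]; exact Real.exp_pos _
  rw [← heT] at hpart1
  rw [← he2] at hpart2
  rw [← he2, ← heT]
  have hP : 0 ≤ sp ^ 2 / Real.log z ^ 2 := by positivity
  have hL : 0 < 1 / Real.log z ^ 2 := by positivity
  have hm1 : 8 * sp ^ 2 * Cg / Real.log z ^ 2 * eT ≤ 8 * sp ^ 2 * Cg ^ 2 / Real.log z ^ 2 * eT := by
    refine mul_le_mul_of_nonneg_right ?_ heT0.le
    refine div_le_div_of_nonneg_right ?_ (by positivity)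
    have : 0 ≤ sp ^ 2 := by positivity
    nlinarith [mul_nonneg this (by nlinarith : (0 : ℝ) ≤ Cg ^ 2 - Cg)]
  have hm2 : 2 * (sp ^ 2 * Cg ^ 2 / Real.log z ^ 2 * e2) ≤
      8 * sp ^ 2 * Cg ^ 2 / Real.log z ^ 2 * e2 := by
    have h1 : 0 ≤ sp ^ 2 * Cg ^ 2 / Real.log z ^ 2 * e2 := by positivity
    have h2 : 8 * sp ^ 2 * Cg ^ 2 / Real.log z ^ 2 * e2 =
        8 * (sp ^ 2 * Cg ^ 2 / Real.log z ^ 2 * e2) := by ring
    rw [h2]
    linarith
  have hm3 : (24 * sp ^ 2 * Cg ^ 2 + 1) / Real.log z ^ 2 * (e2 + eT) =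
      3 * (8 * sp ^ 2 * Cg ^ 2 / Real.log z ^ 2 * e2) +
      3 * (8 * sp ^ 2 * Cg ^ 2 / Real.log z ^ 2 * eT) + 1 / Real.log z ^ 2 * (e2 + eT) := by
    ring
  have hm4 : 0 ≤ 1 / Real.log z ^ 2 * (e2 + eT) := by positivity
  have hm5 : 3 * (2 * (#T * (Ck * E) ^ 2) + 2 * (#T * (Ck * E)) ^ 2 + #T * E ^ 2) ≤
      15 * Ck ^ 2 * (#T : ℝ) ^ 2 * E ^ 2 := by
    have h1 : (#T : ℝ) ≤ (#T : ℝ) ^ 2 := by nlinarith
    have h2 : (#T : ℝ) * E ^ 2 ≤ Ck ^ 2 * (#T : ℝ) ^ 2 * E ^ 2 := by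
      have h3 : (#T : ℝ) ≤ Ck ^ 2 * (#T : ℝ) ^ 2 := by
        have h4 : (1 : ℝ) ≤ Ck ^ 2 := one_le_pow₀ hCk
        have h5 : 1 * (#T : ℝ) ^ 2 ≤ Ck ^ 2 * (#T : ℝ) ^ 2 :=
          mul_le_mul_of_nonneg_right h4 (sq_nonneg _)
        linarith
      exact mul_le_mul_of_nonneg_right h3 (by positivity)
    have h3 : (#T : ℝ) * (Ck * E) ^ 2 ≤ Ck ^ 2 * (#T : ℝ) ^ 2 * E ^ 2 := by
      have h4 : (#T : ℝ) * (Ck * E) ^ 2 ≤ (#T : ℝ) ^ 2 * (Ck * E) ^ 2 :=
        mul_le_mul_of_nonneg_right h1 (by positivity)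
      calc _ ≤ _ := h4
        _ = _ := by ring
    have h4 : ((#T : ℝ) * (Ck * E)) ^ 2 = Ck ^ 2 * (#T : ℝ) ^ 2 * E ^ 2 := by ring
    rw [h4]
    linarith
  rw [hm3]
  linarith

end Pool.Agent.E3
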