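import Pool.Agent.Lib.MP_bae66e_nt.Mg.G027

/-!
# Y9: the windows of the rough integers are small in mean square
-/

set_option autoImplicit false

namespace Pool.Agent.E3

open Finset MeasureTheory Real

private theorem Y9_ch_norm {W : ℕ} (χ : DirichletCharacter ℂ W) (n : ℕ) : ‖ch χ n‖ ≤ 1 :=
  DirichletCharacter.norm_le_one χ _

private theorem Y9_ch_mul {W : ℕ} (χ : DirichletCharacter ℂ W) (m n : ℕ) :
    ch χ (m * n) = ch χ m * ch χ n := by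
  unfold ch
  rw [Nat.cast_mul, map_mul]

private theorem Y9_lp_nonneg (n : ℕ) : 0 ≤ lp n := by
  unfold lp
  split_ifs
  · exact Real.log_natCast_nonneg n
  · exact le_rfl

private theorem Y9_lpc_norm {W : ℕ} (χ : DirichletCharacter ℂ W) (n : ℕ) : ‖lpc χ n‖ ≤ lp n := by
  unfold lpc
  rw [norm_mul, Complex.norm_real, Real.norm_eq_abs, abs_of_nonneg (Y9_lp_nonneg n)]
  have h1 := Y9_ch_norm χ n
  have h2 := Y9_lp_nonneg n
  nlinarith

private theorem Y9_gs0 (β x y : ℝ) : 0 ≤ gs β x y := by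
  unfold gs
  exact (Real.exp_pos _).le

private theorem Y9_mem {z N n : ℕ} (h : n ∈ RS z N) : 2 ≤ n ∧ n ≤ N ∧ z < n := by
  classical
  unfold RS at h
  rw [Finset.mem_filter, Finset.mem_Icc] at h
  obtain ⟨⟨h1, h2⟩, h3⟩ := h
  have h4 := h3 n.minFac (Nat.minFac_prime (by omega)) (Nat.minFac_dvd n)
  exact ⟨h1, h2, lt_of_lt_of_le h4 (Nat.minFac_le (by omega))⟩

private theorem Y9_DP_le (a : ℕ → ℂ) (S : Finset ℕ) (u : ℝ) : ‖DP a S u‖ ≤ ∑ n ∈ S, ‖a n‖ / n := by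
  unfold DP
  refine (norm_sum_le _ _).trans (Finset.sum_le_sum fun n _ => ?_)
  rw [norm_mul, norm_mul, Complex.norm_real, Real.norm_eq_abs,
    abs_of_nonneg (by positivity : (0 : ℝ) ≤ 1 / n)]
  have h1 : ‖ph u (Real.log n)‖ = 1 := by
    unfold ph
    exact Complex.norm_exp_ofReal_mul_I _
  rw [h1, mul_one, mul_one_div]

/-- the sums over the rough integers with a character -/
private theorem Y9_tb_ch {β C : ℝ} (h : ∀ (z N : ℕ) (x : ℝ), 2 ≤ z →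
    ∑ n ∈ RS z N, gs β x (Real.log n) / n ≤ C / Real.log z) {W : ℕ} (χ : DirichletCharacter ℂ W)
    (z N : ℕ) (x : ℝ) (hz : 2 ≤ z) :
    ∑ n ∈ RS z N, ‖ch χ n‖ * gs β x (Real.log n) / n ≤ C / Real.log z := by
  refine le_trans (Finset.sum_le_sum fun n _ => ?_) (h z N x hz)
  apply div_le_div_of_nonneg_right _ (Nat.cast_nonneg n)
  have h1 := Y9_ch_norm χ n
  have h2 := Y9_gs0 β x (Real.log n)
  nlinarith

/-- the sums over the rough primes with a character -/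
private theorem Y9_tb_lpc {β C : ℝ} (h : ∀ (N : ℕ) (x : ℝ),
    ∑ n ∈ Icc 1 N, lp n * gs β x (Real.log n) / n ≤ C) {W : ℕ} (χ : DirichletCharacter ℂ W)
    (z N : ℕ) (x : ℝ) :
    ∑ n ∈ RS z N, ‖lpc χ n‖ * gs β x (Real.log n) / n ≤ C := by
  refine le_trans (Finset.sum_le_sum fun n _ => ?_) (le_trans
    (Finset.sum_le_sum_of_subset_of_nonneg (s := RS z N) (t := Icc 1 N) ?_ ?_) (h N x))
  · apply div_le_div_of_nonneg_right _ (Nat.cast_nonneg n)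
    exact mul_le_mul_of_nonneg_right (Y9_lpc_norm χ n) (Y9_gs0 _ _ _)
  · intro n hn
    obtain ⟨h1, h2, -⟩ := Y9_mem hn
    rw [Finset.mem_Icc]
    omega
  · intro n _ _
    exact div_nonneg (mul_nonneg (Y9_lp_nonneg n) (Y9_gs0 _ _ _)) (Nat.cast_nonneg n)

private theorem Y9_BW : ∃ K : ℝ, 1 ≤ K ∧ ∀ (W : ℕ) (χ : DirichletCharacter ℂ W) (η L T₀ t M : ℝ)
    (z N : ℕ), 0 < η → η ≤ 1 → 1 ≤ L → 0 ≤ T₀ → T₀ ≤ |t| → |t| ≤ Real.exp L → 2 ≤ z →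
    Real.exp (η * L) ≤ z → (N : ℝ) ≤ Real.exp (4 * L) →
    (∀ u : ℝ, T₀ / 2 ≤ |u| → |u| ≤ 2 * Real.exp L → ‖DP (lpc χ) (RS z N) u‖ ≤ M) →
    ∫ x : ℝ, ‖BW (lpc χ) (ch χ) (RS z N) (RS z N) 2 t x‖ ^ 2
      ≤ M ^ 2 * (K / (η ^ 2 * L)) + Real.exp (-(T₀ ^ 2 / 32)) * (K / η ^ 2 * L) := by
  obtain ⟨Cr, hCr, hr⟩ := tb_rough 2 (by norm_num)
  obtain ⟨Cp, hCp, hp⟩ := tb_prime 4 (by norm_num)
  obtain ⟨Cm, hCm, hm⟩ := win_ms 2 (by norm_num)
  obtain ⟨Cm4, hCm4, hm4⟩ := win_ms 4 (by norm_num)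
  obtain ⟨Cs, hCs, hs⟩ := win_sum 2 (by norm_num)
  have hK1 : 0 ≤ 5 * Cm * Cr ^ 2 := by positivity
  have hK2 : 0 ≤ 250 * Cs ^ 2 * Cr ^ 2 * Cm4 * Cp ^ 2 := by positivity
  refine ⟨1 + 5 * Cm * Cr ^ 2 + 250 * Cs ^ 2 * Cr ^ 2 * Cm4 * Cp ^ 2, by linarith, ?_⟩
  intro W χ η L T₀ t M z N hη hη1 hL hT₀ ht htU hz hzL hN hM
  have hL0 : 0 < L := by linarith
  have hz0 : (0 : ℝ) < z := by exact_mod_cast (by omega : 0 < z)
  have hlz : η * L ≤ Real.log z := by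
    rw [Real.le_log_iff_exp_le hz0]
    exact hzL
  have hηL : 0 < η * L := by positivity
  have hlz0 : 0 < Real.log z := by linarith
  have hS : ∀ n ∈ RS z N, 1 ≤ n ∧ Real.log n ≤ 4 * L := by
    intro n hn
    obtain ⟨h1, h2, -⟩ := Y9_mem hn
    have hn0 : (0 : ℝ) < n := by exact_mod_cast (by omega : 0 < n)
    refine ⟨by omega, ?_⟩
    rw [Real.log_le_iff_le_exp hn0]
    exact le_trans (by exact_mod_cast h2) hN
  have hτ : Cr / Real.log z ≤ Cr / (η * L) := div_le_div_of_nonneg_left (by linarith) hηL hlz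
  have hch : ∀ x : ℝ, ∑ n ∈ RS z N, ‖ch χ n‖ * gs 2 x (Real.log n) / n ≤ Cr / (η * L) :=
    fun x => (Y9_tb_ch hr χ z N x hz).trans hτ
  have hlpc : ∀ x : ℝ, ∑ n ∈ RS z N, ‖lpc χ n‖ * gs 4 x (Real.log n) / n ≤ Cp :=
    fun x => Y9_tb_lpc hp χ z N x
  have h1 := hm (ch χ) (RS z N) t (Cr / (η * L)) (4 * L) (by linarith) hS hch
  have h2 := hm4 (lpc χ) (RS z N) t Cp (4 * L) (by linarith) hS hlpc
  have h3 := hs (ch χ) (RS z N) (Cr / (η * L)) (4 * L) (by linarith) hS hch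
  have hb₀ : ∀ u : ℝ, ‖DP (ch χ) (RS z N) u‖ ≤ 5 * Cs * Cr / η := by
    intro u
    refine (Y9_DP_le _ _ _).trans (h3.trans ?_)
    have h4 : Cs * (Cr / (η * L)) * (4 * L + 1) ≤ Cs * (Cr / (η * L)) * (5 * L) :=
      mul_le_mul_of_nonneg_left (by linarith) (by positivity)
    refine h4.trans (le_of_eq ?_)
    field_simp
  have h4 := BW_ms (lpc χ) (ch χ) (RS z N) (RS z N) t T₀ (Real.exp L) M (5 * Cs * Cr / η) hT₀ ht htU
    hM hb₀
  have h5 : ∫ x : ℝ, ‖WIN (ch χ) 2 (RS z N) t x‖ ^ 2 ≤ 5 * Cm * Cr ^ 2 / (η ^ 2 * L) := by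
    refine h1.trans ?_
    have h6 : Cm * (Cr / (η * L)) ^ 2 * (4 * L + 1) ≤ Cm * (Cr / (η * L)) ^ 2 * (5 * L) :=
      mul_le_mul_of_nonneg_left (by linarith) (by positivity)
    refine h6.trans (le_of_eq ?_)
    field_simp
  have h6 : ∫ x : ℝ, ‖WIN (lpc χ) 4 (RS z N) t x‖ ^ 2 ≤ 5 * Cm4 * Cp ^ 2 * L := by
    refine h2.trans ?_
    have h7 : Cm4 * Cp ^ 2 * (4 * L + 1) ≤ Cm4 * Cp ^ 2 * (5 * L) :=
      mul_le_mul_of_nonneg_left (by linarith) (by positivity)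
    linarith
  refine h4.trans (add_le_add ?_ ?_)
  · refine mul_le_mul_of_nonneg_left (h5.trans ?_) (sq_nonneg M)
    apply div_le_div_of_nonneg_right _ (by positivity)
    linarith
  · have h7 : 2 * Real.exp (-(T₀ ^ 2 / 32)) * (5 * Cs * Cr / η) ^ 2 *
        (∫ x : ℝ, ‖WIN (lpc χ) 4 (RS z N) t x‖ ^ 2) ≤
        2 * Real.exp (-(T₀ ^ 2 / 32)) * (5 * Cs * Cr / η) ^ 2 * (5 * Cm4 * Cp ^ 2 * L) :=
      mul_le_mul_of_nonneg_left h6 (by positivity)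
    refine h7.trans ?_
    have h8 : 2 * Real.exp (-(T₀ ^ 2 / 32)) * (5 * Cs * Cr / η) ^ 2 * (5 * Cm4 * Cp ^ 2 * L) =
        Real.exp (-(T₀ ^ 2 / 32)) * ((250 * Cs ^ 2 * Cr ^ 2 * Cm4 * Cp ^ 2) / η ^ 2 * L) := by
      field_simp
      ring
    rw [h8]
    apply mul_le_mul_of_nonneg_left _ (Real.exp_pos _).le
    apply mul_le_mul_of_nonneg_right _ hL0.le
    apply div_le_div_of_nonneg_right _ (by positivity)
    linarith

private theorem Y9_floor {L : ℝ} (hL : 1 ≤ L) :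
    1 ≤ ⌊Real.exp (4 * L)⌋₊ ∧ (⌊Real.exp (4 * L)⌋₊ : ℝ) ≤ Real.exp (4 * L) ∧
      2 * L ≤ Real.log (⌊Real.exp (4 * L)⌋₊ : ℝ) ∧
      ∀ n : ℕ, (n : ℝ) ≤ Real.exp L → n ≤ ⌊Real.exp (4 * L)⌋₊ := by
  have h0 : Real.exp (4 * L) = Real.exp (2 * L) * Real.exp (2 * L) := by
    rw [← Real.exp_add]
    congr 1
    ring
  have h1 : 3 ≤ Real.exp (2 * L) := by
    have := Real.add_one_le_exp (2 * L)
    linarith
  have h2 : Real.exp (2 * L) ≤ ⌊Real.exp (4 * L)⌋₊ := by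
    have h3 := Nat.lt_floor_add_one (Real.exp (4 * L))
    nlinarith
  have h3 : (0 : ℝ) < ⌊Real.exp (4 * L)⌋₊ := by linarith
  refine ⟨by exact_mod_cast h3, Nat.floor_le (Real.exp_pos _).le, ?_, ?_⟩
  · rw [Real.le_log_iff_exp_le h3]
    exact h2
  · intro n hn
    apply Nat.le_floor
    refine hn.trans (Real.exp_le_exp.2 (by linarith))

/-- PROOF. Every `n ∈ RS z N` has a prime factor `> z`, so `z < n ≤ N`. -/
theorem cu_RS (z N : ℕ) (a : ℕ → ℂ) (β t x : ℝ) :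
    WIN (cu z N a) β (RS z N) t x = WIN a β (RS z N) t x ∧ DP (cu z N a) (RS z N) t = DP a (RS z N) t := by
  have h : ∀ n ∈ RS z N, cu z N a n = a n := by
    intro n hn
    obtain ⟨h1, h2, h3⟩ := Y9_mem hn
    unfold cu
    rw [if_pos ⟨h3, h2⟩]
  constructor
  · unfold WIN
    refine Finset.sum_congr rfl fun n hn => ?_
    rw [h n hn]
  · unfold DP
    refine Finset.sum_congr rfl fun n hn => ?_
    rw [h n hn]

/-- PROOF. Let `N' = ⌊exp (4L)⌋₊`, `S = RS z N'`. `log z ≥ η L`.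
(1) `x‖WIN (ch χ) 2 S t x‖ ≤ ‖WIN (lpc χ) 2 S t x‖ + ‖BW (lpc χ) (ch χ) S S 2 t x‖ + C/log z` for `x ∈ [ηL, L]` (`log_win_le 2` with
`c = ch χ`; `x ≤ √z`, `2 x ≤ log N'` for large `L`).
(2) `∫ ‖WIN (lpc χ) 2 S t x‖² ≤ 4 δ₁ L` (`z2cut` at the scale `4L` with `η/4`, `N₁ = z`, `N₂ = N = N'`, `cu_RS`).
(3) `BW_ms` with `U = exp L`: `M = 4 δ₂ L` (`dpcut` at the scale `4L`, `T₀/2 ≥` its `T₀`; `2 exp L ≤ exp (4L)`), `b₀ = C (4L+1)/log z`
(`win_sum 2`, `tb_rough 2`), `∫ ‖WIN (ch χ) 2 S‖² ≤ C (4L + 1)/(log z)²` (`win_ms 2`, `tb_rough 2`), `∫ ‖WIN (lpc χ) 4 S‖² ≤ C (4L+1)`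
(`win_ms 4`, `tb_prime 4`): `∫ ‖BW‖² ≤ C' (δ₂² L/η² + exp (- T₀²/32) L / η²)`.
So `∫_{[ηL, L]} x² ‖WIN (ch χ) 2 S t x‖² dx ≤ 3 (4 δ₁ L + C' (δ₂² + exp (-T₀²/32)) L/η² + C² /(η² L)) ≤ δ η² L`
for suitable `δ₁, δ₂, T₀`, `L ≥ L₀`; and `x ≥ η L`. -/
theorem z2r_aux : ∀ W : ℕ, 1 ≤ W → ∀ η δ : ℝ, 0 < η → η ≤ 1 → 0 < δ → ∃ T₀ L₀ : ℝ, 1 ≤ T₀ ∧ 1 ≤ L₀ ∧
    ∀ L : ℝ, L₀ ≤ L → ∀ (χ : DirichletCharacter ℂ W) (t : ℝ), T₀ ≤ |t| → |t| ≤ Real.exp L →
    ∀ z : ℕ, Real.exp (η * L) ≤ z → (z : ℝ) ≤ Real.exp L →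
      ∫ x in Set.Icc (η * L) L, ‖WIN (ch χ) 2 (RS z ⌊Real.exp (4 * L)⌋₊) t x‖ ^ 2 ≤ δ / L := by
  intro W hW η δ hη hη1 hδ
  obtain ⟨K, hK, hBW⟩ := Y9_BW
  obtain ⟨Cl, hCl, hl⟩ := log_win_le 2 (by norm_num)
  have hη0 : (0 : ℝ) < η ^ 4 := by positivity
  set δ₁ := δ * η ^ 2 / 48 with hδ₁
  have hδ₁0 : 0 < δ₁ := by positivity
  set δ₂ := Real.sqrt (δ * η ^ 4 / (192 * K)) with hδ₂
  have hδ₂0 : 0 < δ₂ := Real.sqrt_pos.2 (by positivity)
  have hδ₂s : δ₂ ^ 2 = δ * η ^ 4 / (192 * K) := Real.sq_sqrt (by positivity)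
  obtain ⟨T₁, L₁, hT₁, hL₁, hz2⟩ := z2cut W hW (η / 4) δ₁ (by positivity) (by linarith) hδ₁0
  obtain ⟨T₂, L₂, hT₂, hL₂, hdp⟩ := dpcut W hW (η / 4) δ₂ (by positivity) (by linarith) hδ₂0
  set T₀ := T₁ + 2 * T₂ + 384 * K / (δ * η ^ 4) with hT₀
  have hTK : 0 ≤ 384 * K / (δ * η ^ 4) := by positivity
  set L₀ := L₁ + L₂ + 8 / η ^ 2 + 12 * Cl ^ 2 / (δ * η ^ 4) + 1 with hL₀
  have hLa : 0 ≤ 8 / η ^ 2 := by positivity
  have hLb : 0 ≤ 12 * Cl ^ 2 / (δ * η ^ 4) := by positivity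
  refine ⟨T₀, L₀, by linarith, by linarith, ?_⟩
  intro L hL χ t ht htL z hz hzL
  have hL1 : 1 ≤ L := by linarith
  have hL0 : 0 < L := by linarith
  have hηL : 0 < η * L := by positivity
  obtain ⟨hN1, hN2, hN3, hN4⟩ := Y9_floor hL1
  set N := ⌊Real.exp (4 * L)⌋₊ with hN
  have hz1 : (1 : ℝ) < z := lt_of_lt_of_le (by rw [Real.one_lt_exp_iff]; exact hηL) hz
  have hz2' : 2 ≤ z := by
    have : 1 < z := by exact_mod_cast hz1
    omega
  have hz0 : (0 : ℝ) < z := by linarith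
  have hlz : η * L ≤ Real.log z := by
    rw [Real.le_log_iff_exp_le hz0]
    exact hz
  have hexp4 : Real.exp L ≤ Real.exp (4 * L) := Real.exp_le_exp.2 (by linarith)
  have he : η / 4 * (4 * L) = η * L := by ring
  -- the windows of the primes
  have hA : ∫ x : ℝ, ‖WIN (lpc χ) 2 (RS z N) t x‖ ^ 2 ≤ 4 * δ₁ * L := by
    have h1 := hz2 (4 * L) (by linarith) χ t (by linarith) (htL.trans hexp4) z z N N
      (by rw [he]; exact hz) le_rfl (hN4 z hzL) le_rfl hN2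
    have h2 : ∀ x : ℝ, WIN (cu z N (lpc χ)) 2 (RS z N) t x = WIN (lpc χ) 2 (RS z N) t x :=
      fun x => (cu_RS z N (lpc χ) 2 t x).1
    simp only [h2] at h1
    linarith
  -- the bilinear windows
  have hB : ∫ x : ℝ, ‖BW (lpc χ) (ch χ) (RS z N) (RS z N) 2 t x‖ ^ 2 ≤
      (4 * δ₂ * L) ^ 2 * (K / (η ^ 2 * L)) + Real.exp (-(T₀ ^ 2 / 32)) * (K / η ^ 2 * L) := by
    refine hBW W χ η L T₀ t (4 * δ₂ * L) z N hη hη1 hL1 (by linarith) ht htL hz2' hz hN2 ?_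
    intro u hu huL
    have h1 := hdp (4 * L) (by linarith) χ u (by linarith) (huL.trans ?_) z z N N
      (by rw [he]; exact hz) le_rfl (hN4 z hzL) le_rfl hN2
    · rw [(cu_RS z N (lpc χ) 2 u 0).2] at h1
      linarith
    · have h3 : Real.exp (4 * L) = Real.exp (3 * L) * Real.exp L := by
        rw [← Real.exp_add]
        congr 1
        ring
      have h4 : 2 ≤ Real.exp (3 * L) := by
        have := Real.add_one_le_exp (3 * L)
        linarith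
      rw [h3]
      exact mul_le_mul_of_nonneg_right h4 (Real.exp_pos _).le
  have hexpT : Real.exp (-(T₀ ^ 2 / 32)) ≤ δ * η ^ 4 / (12 * K) := by
    have h1 : 384 * K / (δ * η ^ 4) ≤ T₀ := by linarith
    have hT1 : 1 ≤ T₀ := by linarith
    have h2 : T₀ / 32 ≤ Real.exp (T₀ ^ 2 / 32) := by
      have := Real.add_one_le_exp (T₀ ^ 2 / 32)
      nlinarith
    have h3 : 12 * K / (δ * η ^ 4) ≤ Real.exp (T₀ ^ 2 / 32) := by
      have h4 : 12 * K / (δ * η ^ 4) = 384 * K / (δ * η ^ 4) / 32 := by ring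
      rw [h4]
      linarith
    rw [Real.exp_neg, inv_le_comm₀ (Real.exp_pos _) (by positivity), inv_div]
    exact h3
  have hB' : ∫ x : ℝ, ‖BW (lpc χ) (ch χ) (RS z N) (RS z N) 2 t x‖ ^ 2 ≤ δ * η ^ 2 / 12 * L +
      δ * η ^ 2 / 12 * L := by
    refine hB.trans (add_le_add (le_of_eq ?_) ?_)
    · have h1 : (4 * δ₂ * L) ^ 2 = 16 * δ₂ ^ 2 * L ^ 2 := by ring
      rw [h1, hδ₂s]
      field_simp
      ring
    · have h1 : Real.exp (-(T₀ ^ 2 / 32)) * (K / η ^ 2 * L) ≤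
          δ * η ^ 4 / (12 * K) * (K / η ^ 2 * L) :=
        mul_le_mul_of_nonneg_right hexpT (by positivity)
      refine h1.trans (le_of_eq ?_)
      field_simp
  -- pointwise
  have hpt : ∀ x ∈ Set.Icc (η * L) L, ‖WIN (ch χ) 2 (RS z N) t x‖ ^ 2 ≤
      3 / (η * L) ^ 2 * (‖WIN (lpc χ) 2 (RS z N) t x‖ ^ 2 +
        ‖BW (lpc χ) (ch χ) (RS z N) (RS z N) 2 t x‖ ^ 2 + (Cl / (η * L)) ^ 2) := by
    intro x hx
    obtain ⟨hx1, hx2⟩ := hx
    have hx0 : 0 < x := by linarith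
    have hsq : x ≤ Real.sqrt z := by
      apply Real.le_sqrt_of_sq_le
      have h1 : L ^ 2 ≤ Real.exp (η * L) := by
        have h2 : Real.exp (η * L) = Real.exp (η * L / 2) ^ 2 := by
          rw [← Real.exp_nat_mul]
          congr 1
          push_cast
          ring
        rw [h2]
        apply pow_le_pow_left₀ hL0.le
        have h3 := Real.quadratic_le_exp_of_nonneg (by positivity : 0 ≤ η * L / 2)
        have h4 : 8 ≤ η ^ 2 * L := by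
          have h5 : 8 / η ^ 2 ≤ L := by linarith
          rw [div_le_iff₀ (by positivity)] at h5
          linarith
        nlinarith
      nlinarith
    have h1 := hl (ch χ) (fun m n _ _ => Y9_ch_mul χ m n) (Y9_ch_norm χ) t x z N hz2' hN1 hx0.le
      (by linarith) hsq
    have h2 : (fun n => ((lp n : ℝ) : ℂ) * ch χ n) = lpc χ := rfl
    rw [h2] at h1
    have h3 : Cl / Real.log z ≤ Cl / (η * L) := div_le_div_of_nonneg_left (by linarith) hηL hlz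
    set A := WIN (lpc χ) 2 (RS z N) t x with hAdef
    set B := BW (lpc χ) (ch χ) (RS z N) (RS z N) 2 t x with hBdef
    set R := WIN (ch χ) 2 (RS z N) t x with hRdef
    have h4 : x * ‖R‖ ≤ ‖A‖ + ‖B‖ + Cl / (η * L) := by
      have h5 : (x : ℂ) * R = ((x : ℂ) * R - A - B) + A + B := by ring
      have h6 : ‖(x : ℂ) * R‖ = x * ‖R‖ := by
        rw [norm_mul, Complex.norm_real, Real.norm_eq_abs, abs_of_pos hx0]
      have h7 := norm_add₃_le (a := (x : ℂ) * R - A - B) (b := A) (c := B)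
      rw [← h5, h6] at h7
      linarith
    have h5 : η * L * ‖R‖ ≤ ‖A‖ + ‖B‖ + Cl / (η * L) :=
      le_trans (mul_le_mul_of_nonneg_right hx1 (norm_nonneg _)) h4
    have h6 : (η * L * ‖R‖) ^ 2 ≤ 3 * (‖A‖ ^ 2 + ‖B‖ ^ 2 + (Cl / (η * L)) ^ 2) := by
      have h7 : (η * L * ‖R‖) ^ 2 ≤ (‖A‖ + ‖B‖ + Cl / (η * L)) ^ 2 :=
        pow_le_pow_left₀ (by positivity) h5 2
      nlinarith [sq_nonneg (‖A‖ - ‖B‖), sq_nonneg (‖A‖ - Cl / (η * L)),
        sq_nonneg (‖B‖ - Cl / (η * L))]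
    have h7 : ‖R‖ ^ 2 = (η * L * ‖R‖) ^ 2 / (η * L) ^ 2 := by
      field_simp
    rw [h7, div_mul_eq_mul_div]
    exact div_le_div_of_nonneg_right h6 (by positivity)
  -- integration
  have iA := (planch_WIN (lpc χ) (RS z N) 2 t (by norm_num)).1
  have iR := (planch_WIN (ch χ) (RS z N) 2 t (by norm_num)).1
  have iB := (planch_BW (lpc χ) (ch χ) (RS z N) (RS z N) 2 t (by norm_num)).1
  have iAB : IntegrableOn (fun x : ℝ => ‖WIN (lpc χ) 2 (RS z N) t x‖ ^ 2 +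
      ‖BW (lpc χ) (ch χ) (RS z N) (RS z N) 2 t x‖ ^ 2) (Set.Icc (η * L) L) :=
    iA.integrableOn.add iB.integrableOn
  have hle : η * L ≤ L := by nlinarith
  have iC : IntegrableOn (fun _ : ℝ => (Cl / (η * L)) ^ 2) (Set.Icc (η * L) L) :=
    integrableOn_const (by rw [Real.volume_Icc]; exact ENNReal.ofReal_ne_top)
  calc ∫ x in Set.Icc (η * L) L, ‖WIN (ch χ) 2 (RS z N) t x‖ ^ 2
      ≤ ∫ x in Set.Icc (η * L) L, 3 / (η * L) ^ 2 * (‖WIN (lpc χ) 2 (RS z N) t x‖ ^ 2 +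
        ‖BW (lpc χ) (ch χ) (RS z N) (RS z N) 2 t x‖ ^ 2 + (Cl / (η * L)) ^ 2) := by
        apply setIntegral_mono_on iR.integrableOn _ measurableSet_Icc hpt
        exact (iAB.add iC).const_mul _
    _ = 3 / (η * L) ^ 2 * ((∫ x in Set.Icc (η * L) L, ‖WIN (lpc χ) 2 (RS z N) t x‖ ^ 2) +
        (∫ x in Set.Icc (η * L) L, ‖BW (lpc χ) (ch χ) (RS z N) (RS z N) 2 t x‖ ^ 2) +
        ∫ x in Set.Icc (η * L) L, (Cl / (η * L)) ^ 2) := by
        rw [integral_const_mul, integral_add iAB iC, integral_add iA.integrableOn iB.integrableOn]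
    _ ≤ 3 / (η * L) ^ 2 * (4 * δ₁ * L + (δ * η ^ 2 / 12 * L + δ * η ^ 2 / 12 * L) +
        L * (Cl / (η * L)) ^ 2) := by
        apply mul_le_mul_of_nonneg_left _ (by positivity)
        refine add_le_add (add_le_add ?_ ?_) ?_
        · refine le_trans (setIntegral_le_integral iA ?_) hA
          exact Filter.Eventually.of_forall fun x => by positivity
        · refine le_trans (setIntegral_le_integral iB ?_) hB'
          exact Filter.Eventually.of_forall fun x => by positivity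
        · rw [setIntegral_const, smul_eq_mul, Measure.real, Real.volume_Icc,
            ENNReal.toReal_ofReal (by linarith)]
          apply mul_le_mul_of_nonneg_right _ (sq_nonneg _)
          linarith
    _ ≤ δ / L := by
        have h1 : Cl ^ 2 / (η ^ 2 * L) ≤ δ * η ^ 2 / 12 * L := by
          have h2 : 12 * Cl ^ 2 / (δ * η ^ 4) ≤ L := by linarith
          rw [div_le_iff₀ (by positivity)] at h2 ⊢
          have h3 : L * (δ * η ^ 4) ≤ L * (δ * η ^ 4) * L := le_mul_of_one_le_right (by positivity) hL1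
          nlinarith
        have h2 : L * (Cl / (η * L)) ^ 2 = Cl ^ 2 / (η ^ 2 * L) := by
          field_simp
        rw [h2]
        have h3 : 4 * δ₁ * L = δ * η ^ 2 / 12 * L := by
          rw [hδ₁]
          ring
        rw [h3]
        have h4 : δ * η ^ 2 / 12 * L + (δ * η ^ 2 / 12 * L + δ * η ^ 2 / 12 * L) +
            Cl ^ 2 / (η ^ 2 * L) ≤ δ * η ^ 2 / 3 * L := by linarith
        refine (mul_le_mul_of_nonneg_left h4 (by positivity)).trans (le_of_eq ?_)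
        field_simp

/-- PROOF. `cut_WIN` with `S = RS z N'`, `N' = ⌊exp (4L)⌋₊`, `τ = C/log z ≤ C/(ηL)` (`tb_rough 1`): the filtered sets for `N` and `N'`
coincide (`N₂ ≤ N`, `N₂ ≤ exp L ≤ N'`), and `[log N₁, log N₂] ⊆ [ηL, L]`; `z2r_aux` with `δ/4`;
`10 τ² ≤ 10 C²/(η² L²) ≤ δ/(2L)` for large `L`. -/
theorem z2r : ∀ W : ℕ, 1 ≤ W → ∀ η δ : ℝ, 0 < η → η ≤ 1 → 0 < δ → ∃ T₀ L₀ : ℝ, 1 ≤ T₀ ∧ 1 ≤ L₀ ∧
    ∀ L : ℝ, L₀ ≤ L → ∀ (χ : DirichletCharacter ℂ W) (t : ℝ), T₀ ≤ |t| → |t| ≤ Real.exp L →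
    ∀ z N₁ N₂ N : ℕ, Real.exp (η * L) ≤ z → z ≤ N₁ → N₁ ≤ N₂ → N₂ ≤ N → (N₂ : ℝ) ≤ Real.exp L →
      ∫ x : ℝ, ‖WIN (cu N₁ N₂ (ch χ)) 2 (RS z N) t x‖ ^ 2 ≤ δ / L := by
  intro W hW η δ hη hη1 hδ
  obtain ⟨T₀, L₁, hT₀, hL₁, haux⟩ := z2r_aux W hW η (δ / 4) hη hη1 (by positivity)
  obtain ⟨C, hC, hr⟩ := tb_rough 1 (by norm_num)
  have hLa : 0 ≤ 20 * C ^ 2 / (η ^ 2 * δ) := by positivity
  refine ⟨T₀, L₁ + 20 * C ^ 2 / (η ^ 2 * δ), hT₀, by linarith, ?_⟩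
  intro L hL χ t ht htL z N₁ N₂ N hz hzN hN12 hN2 hN2L
  have hL1 : 1 ≤ L := by linarith
  have hL0 : 0 < L := by linarith
  have hηL : 0 < η * L := by positivity
  obtain ⟨hN'1, hN'2, hN'3, hN'4⟩ := Y9_floor hL1
  set N' := ⌊Real.exp (4 * L)⌋₊ with hN'
  have hz1 : (1 : ℝ) < z := lt_of_lt_of_le (by rw [Real.one_lt_exp_iff]; exact hηL) hz
  have hz2' : 2 ≤ z := by
    have : 1 < z := by exact_mod_cast hz1
    omega
  have hz0 : (0 : ℝ) < z := by linarith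
  have hlz : η * L ≤ Real.log z := by
    rw [Real.le_log_iff_exp_le hz0]
    exact hz
  have hzN2 : (z : ℝ) ≤ N₂ := by exact_mod_cast hzN.trans hN12
  have h1 := haux L (by linarith) χ t ht htL z hz (hzN2.trans hN2L)
  have hset : (RS z N).filter (fun n => N₁ < n ∧ n ≤ N₂) =
      (RS z N').filter (fun n => N₁ < n ∧ n ≤ N₂) := by
    classical
    have hN2' := hN'4 N₂ hN2L
    unfold RS
    ext n
    simp only [Finset.mem_filter, Finset.mem_Icc]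
    constructor
    · rintro ⟨⟨⟨h2, h3⟩, h4⟩, h5, h6⟩
      exact ⟨⟨⟨h2, h6.trans hN2'⟩, h4⟩, h5, h6⟩
    · rintro ⟨⟨⟨h2, h3⟩, h4⟩, h5, h6⟩
      exact ⟨⟨⟨h2, h6.trans hN2⟩, h4⟩, h5, h6⟩
  have h2 : ∀ x : ℝ, WIN (cu N₁ N₂ (ch χ)) 2 (RS z N) t x =
      WIN (ch χ) 2 ((RS z N').filter (fun n => N₁ < n ∧ n ≤ N₂)) t x := by
    intro x
    rw [WIN_cu, hset]
  simp only [h2]
  have hτ : C / Real.log z ≤ C / (η * L) := div_le_div_of_nonneg_left (by linarith) hηL hlz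
  have h3 := cut_WIN (ch χ) (RS z N') t (C / (η * L)) N₁ N₂ (by omega) hN12
    (fun n hn => by
      have := (Y9_mem hn).1
      omega)
    (fun x => (Y9_tb_ch hr χ z N' x hz2').trans hτ)
  refine h3.trans ?_
  have hN10 : (0 : ℝ) < N₁ := by exact_mod_cast (by omega : 0 < N₁)
  have hN20 : (0 : ℝ) < N₂ := by exact_mod_cast (by omega : 0 < N₂)
  have h4 : ∫ x in Set.Icc (Real.log N₁) (Real.log N₂), ‖WIN (ch χ) 2 (RS z N') t x‖ ^ 2 ≤
      δ / 4 / L := by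
    refine le_trans (setIntegral_mono_set ?_ ?_ ?_) h1
    · exact (planch_WIN (ch χ) (RS z N') 2 t (by norm_num)).1.integrableOn
    · exact Filter.Eventually.of_forall fun x => by positivity
    · refine Filter.Eventually.of_forall fun x hx => ?_
      have h5 : Real.log z ≤ Real.log N₁ := Real.log_le_log hz0 (by exact_mod_cast hzN)
      have h6 : Real.log N₂ ≤ L := by
        rw [Real.log_le_iff_le_exp hN20]
        exact hN2L
      exact ⟨hlz.trans (h5.trans hx.1), hx.2.trans h6⟩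
  have h5 : 10 * (C / (η * L)) ^ 2 ≤ δ / 2 / L := by
    have h6 : 20 * C ^ 2 / (η ^ 2 * δ) ≤ L := by linarith
    rw [div_le_iff₀ (by positivity)] at h6
    have h7 : 10 * (C / (η * L)) ^ 2 = 10 * C ^ 2 / (η ^ 2 * L) / L := by
      field_simp
    rw [h7]
    apply div_le_div_of_nonneg_right _ hL0.le
    rw [div_le_iff₀ (by positivity)]
    linarith
  have h6 : δ / L = 2 * (δ / 4 / L) + δ / 2 / L := by
    field_simp
    ring
  rw [h6]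
  linarith

end Pool.Agent.E3
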