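import Pool.Agent.Lib.MP_bae66e_nt.Mg.G028
import Pool.Agent.Lib.MP_bae66e_nt.Mg.G019
import Pool.Agent.Lib.MP_bae66e_nt.E3.Y9

/-!
# Q2b: the bilinear window at well spaced points
-/

set_option autoImplicit false

namespace Pool.Agent.E3

open Finset MeasureTheory Real

open Classical in
private lemma Q2b_mem_RS (z N n : ℕ) : n ∈ RS z N ↔
    2 ≤ n ∧ n ≤ N ∧ Pool.Agent.Lib.MP_bae66e_nt.AP3.Rough z n := by
  unfold RS
  rw [Finset.mem_filter, Finset.mem_Icc]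
  tauto

private lemma Q2b_lt {z N n : ℕ} (hn : n ∈ RS z N) : z < n := by
  rw [Q2b_mem_RS] at hn
  have h1 : n ≠ 1 := by omega
  have h2 := hn.2.2 n.minFac (Nat.minFac_prime h1) (Nat.minFac_dvd n)
  exact lt_of_lt_of_le h2 (Nat.minFac_le (by omega))

private lemma Q2b_cu {A Z n : ℕ} (a : ℕ → ℂ) (hn1 : 1 < n) (hnZ : n ≤ Z) :
    a n = cu A Z a n + cu 1 A a n := by
  unfold cu
  by_cases h : n ≤ A
  · rw [if_neg (fun h1 => absurd h1.1 (not_lt.2 h)), if_pos ⟨hn1, h⟩, zero_add]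
  · rw [if_pos ⟨not_le.1 h, hnZ⟩, if_neg (fun h1 => h h1.2), add_zero]

/-- PROOF. `a = cu Z D a + cu D Z' a` etc. on `RS z Z`: every `n ∈ RS z Z` has `1 < n ≤ Z`, so exactly one of `1 < n ≤ D`, `D < n ≤ Z` holds
(`1 ≤ D ≤ Z`); `BW` is bilinear. -/
theorem BW_split (a b : ℕ → ℂ) (z Z D M : ℕ) (hD : 1 ≤ D) (hDZ : D ≤ Z) (hM : 1 ≤ M) (hMZ : M ≤ Z) (β t x : ℝ) :
    BW a b (RS z Z) (RS z Z) β t x = BW a (cu M Z b) (RS z Z) (RS z Z) β t x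
      + BW (cu D Z a) (cu 1 M b) (RS z Z) (RS z Z) β t x
      + BW (cu 1 D a) (cu 1 M b) (RS z Z) (RS z Z) β t x := by
  unfold BW
  rw [← Finset.sum_add_distrib, ← Finset.sum_add_distrib]
  refine Finset.sum_congr rfl fun d hd => ?_
  rw [← Finset.sum_add_distrib, ← Finset.sum_add_distrib]
  refine Finset.sum_congr rfl fun m hm => ?_
  rw [Q2b_mem_RS] at hd hm
  have h1 := Q2b_cu (A := D) (Z := Z) (n := d) a (by omega) hd.2.1
  have h2 := Q2b_cu (A := M) (Z := Z) (n := m) b (by omega) hm.2.1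
  have h3 : a d * b m = a d * cu M Z b m + cu D Z a d * cu 1 M b m + cu 1 D a d * cu 1 M b m := by
    calc a d * b m = a d * (cu M Z b m + cu 1 M b m) := by rw [← h2]
      _ = a d * cu M Z b m + a d * cu 1 M b m := by ring
      _ = a d * cu M Z b m + (cu D Z a d + cu 1 D a d) * cu 1 M b m := by rw [← h1]
      _ = _ := by ring
  rw [h3]
  ring

private lemma Q2b_norm_ch {W : ℕ} (χ : DirichletCharacter ℂ W) (n : ℕ) : ‖ch χ n‖ ≤ 1 :=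
  DirichletCharacter.norm_le_one χ _

private lemma Q2b_norm_ph (t y : ℝ) : ‖ph t y‖ = 1 := Complex.norm_exp_ofReal_mul_I _

private lemma Q2b_norm_lpc {W : ℕ} (χ : DirichletCharacter ℂ W) (n : ℕ) :
    ‖lpc χ n‖ ≤ Real.log n := by
  have h0 : 0 ≤ lp n ∧ lp n ≤ Real.log n := by
    unfold lp
    split_ifs
    · exact ⟨Real.log_natCast_nonneg n, le_rfl⟩
    · exact ⟨le_rfl, Real.log_natCast_nonneg n⟩
  unfold lpc
  rw [norm_mul, Complex.norm_real, Real.norm_of_nonneg h0.1]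
  exact (mul_le_of_le_one_right h0.1 (Q2b_norm_ch χ n)).trans h0.2

private lemma Q2b_harm (N : ℕ) : ∑ n ∈ Icc 1 N, 1 / (n : ℝ) ≤ 1 + Real.log N := by
  have h := harmonic_le_one_add_log N
  rw [harmonic_eq_sum_Icc] at h
  push_cast at h
  simpa [one_div] using h

private lemma Q2b_sum {X z : ℕ} :
    ∑ n ∈ RS z (X ^ 2), 1 / (n : ℝ) ≤ 1 + 2 * Real.log X := by
  have h1 : ∑ n ∈ RS z (X ^ 2), 1 / (n : ℝ) ≤ ∑ n ∈ Icc 1 (X ^ 2), 1 / (n : ℝ) := by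
    refine Finset.sum_le_sum_of_subset_of_nonneg ?_ fun n _ _ => by positivity
    intro n hn
    rw [Q2b_mem_RS] at hn
    rw [Finset.mem_Icc]
    omega
  refine h1.trans ((Q2b_harm (X ^ 2)).trans (le_of_eq ?_))
  rw [Nat.cast_pow, Real.log_pow]
  norm_num

/-- PROOF. `L = log X`. The pairs with `cu 1 D a d ≠ 0`, `cu 1 M b m ≠ 0` have `log d + log m ≤ 0.97 L ≤ x - 0.02 L`, so the window is
`≤ exp (- (0.02 L)²) (∑_{d ≤ X²} log d / d) (∑_{m ≤ X²} 1/m) ≤ exp (- 0.0004 L²) 2 L (1 + 2L)² ≤ 1/X` for large `X`. -/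
theorem BW_short : ∃ X₀ : ℕ, ∀ X : ℕ, X₀ ≤ X → ∀ (W : ℕ) (χ : DirichletCharacter ℂ W) (z : ℕ) (t x : ℝ),
    0.99 * Real.log X ≤ x →
    ‖BW (cu 1 (Nat.sqrt X) (lpc χ)) (cu 1 ⌊(X : ℝ) ^ (0.47 : ℝ)⌋₊ (ch χ)) (RS z (X ^ 2)) (RS z (X ^ 2)) 1 t x‖
      ≤ 1 / X := by
  refine ⟨⌈Real.exp 10000⌉₊, fun X hX W χ z t x hx => ?_⟩
  have hXe : Real.exp 10000 ≤ (X : ℝ) := (Nat.le_ceil _).trans (by exact_mod_cast hX)
  have hX0 : (0 : ℝ) < X := lt_of_lt_of_le (Real.exp_pos _) hXe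
  have hL : 10000 ≤ Real.log X := (Real.le_log_iff_exp_le hX0).2 hXe
  have hX1 : 1 ≤ X := by
    have : X ≠ 0 := by
      rintro rfl
      simp at hX0
    omega
  obtain ⟨L, hLdef⟩ : ∃ L, L = Real.log X := ⟨_, rfl⟩
  rw [← hLdef] at hL hx
  have hterm : ∀ d ∈ RS z (X ^ 2), ∀ m ∈ RS z (X ^ 2),
      ‖cu 1 (Nat.sqrt X) (lpc χ) d * cu 1 ⌊(X : ℝ) ^ (0.47 : ℝ)⌋₊ (ch χ) m *
        (ph t (Real.log d) * ph t (Real.log m)) *
        (((gs 1 x (Real.log d + Real.log m) / (d * m) : ℝ)) : ℂ)‖ ≤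
      Real.exp (-(0.0004 * L ^ 2)) * L * ((1 / (d : ℝ)) * (1 / (m : ℝ))) := by
    intro d hd m hm
    rw [Q2b_mem_RS] at hd hm
    have hd0 : (0 : ℝ) < d := by exact_mod_cast (by omega : 0 < d)
    have hm0 : (0 : ℝ) < m := by exact_mod_cast (by omega : 0 < m)
    have hR : 0 ≤ Real.exp (-(0.0004 * L ^ 2)) * L * ((1 / (d : ℝ)) * (1 / (m : ℝ))) := by
      have : 0 ≤ L := by linarith
      positivity
    by_cases h1 : 1 < d ∧ d ≤ Nat.sqrt X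
    · by_cases h2 : 1 < m ∧ m ≤ ⌊(X : ℝ) ^ (0.47 : ℝ)⌋₊
      · have e1 : cu 1 (Nat.sqrt X) (lpc χ) d = lpc χ d := by
          unfold cu
          rw [if_pos h1]
        have e2 : cu 1 ⌊(X : ℝ) ^ (0.47 : ℝ)⌋₊ (ch χ) m = ch χ m := by
          unfold cu
          rw [if_pos h2]
        rw [e1, e2]
        have hlogd : 2 * Real.log d ≤ L := by
          have h3 : d * d ≤ X := (Nat.mul_le_mul h1.2 h1.2).trans (Nat.sqrt_le X)
          have h4 : Real.log ((d : ℝ) * d) ≤ Real.log X := by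
            apply Real.log_le_log (by positivity)
            exact_mod_cast h3
          rw [Real.log_mul hd0.ne' hd0.ne'] at h4
          rw [hLdef]
          linarith
        have hlogm : Real.log m ≤ 0.47 * L := by
          have h3 : (m : ℝ) ≤ (X : ℝ) ^ (0.47 : ℝ) := by
            refine le_trans ?_ (Nat.floor_le (by positivity))
            exact_mod_cast h2.2
          have h4 := Real.log_le_log hm0 h3
          rwa [Real.log_rpow hX0, ← hLdef] at h4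
        have hlogd0 : 0 ≤ Real.log (d : ℝ) := Real.log_natCast_nonneg d
        have hg : gs 1 x (Real.log d + Real.log m) ≤ Real.exp (-(0.0004 * L ^ 2)) := by
          unfold gs
          apply Real.exp_le_exp.2
          have h5 : 0.02 * L ≤ x - (Real.log d + Real.log m) := by linarith
          have h6 : (0.02 * L) ^ 2 ≤ (x - (Real.log d + Real.log m)) ^ 2 :=
            pow_le_pow_left₀ (by linarith) h5 2
          nlinarith
        have hg0 : 0 ≤ gs 1 x (Real.log d + Real.log m) := (Real.exp_pos _).le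
        rw [norm_mul, norm_mul, norm_mul, norm_mul, Q2b_norm_ph, Q2b_norm_ph, mul_one, mul_one,
          Complex.norm_real, Real.norm_of_nonneg (by positivity)]
        have h7 : ‖lpc χ d‖ ≤ L := by
          have := Q2b_norm_lpc χ d
          linarith
        have h8 := Q2b_norm_ch χ m
        calc ‖lpc χ d‖ * ‖ch χ m‖ * (gs 1 x (Real.log d + Real.log m) / (d * m))
            ≤ L * 1 * (Real.exp (-(0.0004 * L ^ 2)) / (d * m)) := by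
              gcongr
          _ = _ := by
            field_simp
      · have e2 : cu 1 ⌊(X : ℝ) ^ (0.47 : ℝ)⌋₊ (ch χ) m = 0 := by
          unfold cu
          rw [if_neg h2]
        rw [e2, mul_zero, zero_mul, zero_mul, norm_zero]
        exact hR
    · have e1 : cu 1 (Nat.sqrt X) (lpc χ) d = 0 := by
        unfold cu
        rw [if_neg h1]
      rw [e1, zero_mul, zero_mul, zero_mul, norm_zero]
      exact hR
  have hS := Q2b_sum (X := X) (z := z)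
  rw [← hLdef] at hS
  have hS0 : 0 ≤ ∑ n ∈ RS z (X ^ 2), 1 / (n : ℝ) := Finset.sum_nonneg fun n _ => by positivity
  have h1 : ‖BW (cu 1 (Nat.sqrt X) (lpc χ)) (cu 1 ⌊(X : ℝ) ^ (0.47 : ℝ)⌋₊ (ch χ))
      (RS z (X ^ 2)) (RS z (X ^ 2)) 1 t x‖ ≤
      Real.exp (-(0.0004 * L ^ 2)) * L * ((∑ n ∈ RS z (X ^ 2), 1 / (n : ℝ)) *
        ∑ n ∈ RS z (X ^ 2), 1 / (n : ℝ)) := by
    unfold BW
    refine (norm_sum_le _ _).trans ?_
    rw [Finset.sum_mul_sum, Finset.mul_sum]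
    refine Finset.sum_le_sum fun d hd => ?_
    refine (norm_sum_le _ _).trans ?_
    rw [Finset.mul_sum]
    exact Finset.sum_le_sum fun m hm => hterm d hd m hm
  refine h1.trans ?_
  have h2 : (1 : ℝ) / X = Real.exp (-L) := by
    rw [hLdef, Real.exp_neg, Real.exp_log hX0, one_div]
  rw [h2]
  have hL0 : 0 ≤ L := by linarith
  have h3 : 3 * L ≤ Real.exp L := by
    have := Real.quadratic_le_exp_of_nonneg hL0
    nlinarith
  have h4 : L ≤ Real.exp L := by linarith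
  calc Real.exp (-(0.0004 * L ^ 2)) * L * ((∑ n ∈ RS z (X ^ 2), 1 / (n : ℝ)) *
        ∑ n ∈ RS z (X ^ 2), 1 / (n : ℝ))
      ≤ Real.exp (-(0.0004 * L ^ 2)) * Real.exp L * (Real.exp L * Real.exp L) := by
        have h5 : ∑ n ∈ RS z (X ^ 2), 1 / (n : ℝ) ≤ Real.exp L := by linarith
        gcongr
    _ = Real.exp (-(0.0004 * L ^ 2) + L + (L + L)) := by
      rw [← Real.exp_add, ← Real.exp_add, ← Real.exp_add]
    _ ≤ Real.exp (-L) := by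
      apply Real.exp_le_exp.2
      nlinarith

/-- PROOF. Let `L = log X`, `S = RS z (X²)`, `a = lpc χ`, `b = ch χ`, `D = √X`, `M = ⌊X^0.47⌋`, `η L ≤ log z`. `BW_split`, `BW_le` and
`(u+v+w)² ≤ 3(u² + v² + w²)`.
(1) `∑_t ‖BW a (cu M Z b) 1 t x‖² ≤ 2 sup_t (∫ ‖WIN a 2 S t‖²) ∑_t ∫ ‖WIN (cu M Z b) 2 S t‖² ≤ 2 · 2 δ₁ L · C L / (η L)²
= 4 C δ₁/η²`: `z2cut` at the scale `2L` with `η/2`, `N₁ = z`, `N₂ = N = X²` (`cu_RS`; `|t| ≤ X ≤ exp (2L)`), `long_rough`.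
(2) `∑_t ‖BW (cu D Z a) (cu 1 M b) 1 t x‖² ≤ 2 sup_t (∫ ‖WIN (cu 1 M b) 2 S t‖²) ∑_t ∫ ‖WIN (cu D Z a) 2 S t‖²
≤ 2 (δ₂/L) (C L²/(η L)) = 2 C δ₂/η`: `z2r` at the scale `L` (`cu 1 M b = cu z M b` on `S`, `N₁ = z ≤ M`), `long_prime`.
(3) `BW_short`: `#T / X² ≤ 1/X`. Take `θ` the minimum of the two, `b0` the maximum; choose `δ₁, δ₂`, then `T₀`, `X₀`. -/
theorem q_bil : ∃ θ : ℝ, 0 < θ ∧ θ ≤ 1 / 20 ∧ ∃ b0 : ℕ, ∀ W : ℕ, 1 ≤ W → ∀ η δ : ℝ, 0 < η → η ≤ 1 / 20 → 0 < δ →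
    ∃ T₀ : ℝ, 1 ≤ T₀ ∧ ∃ X₀ : ℕ, ∀ X : ℕ, X₀ ≤ X → ∀ (χ : DirichletCharacter ℂ W) (z : ℕ),
    (X : ℝ) ^ η ≤ z → (8 * b0 + 12) * Real.log z ≤ 0.45 * Real.log X →
    ∀ x : ℝ, 0.99 * Real.log X ≤ x →
    ∀ T : Finset ℝ, Spaced T → (∀ t ∈ T, T₀ ≤ |t| ∧ |t| ≤ X) → (#T : ℝ) ≤ (X : ℝ) ^ θ →
      ∑ t ∈ T, ‖BW (lpc χ) (ch χ) (RS z (X ^ 2)) (RS z (X ^ 2)) 1 t x‖ ^ 2 ≤ δ := by
  classical
  obtain ⟨θ₁, hθ₁, hθ₁', b₁, C₁, hC₁, hR⟩ := long_rough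
  obtain ⟨θ₂, hθ₂, hθ₂', b₂, C₂, hC₂, hP⟩ := long_prime
  obtain ⟨X₃, hSh⟩ := BW_short
  refine ⟨min θ₁ θ₂, lt_min hθ₁ hθ₂, (min_le_left _ _).trans hθ₁', max b₁ b₂,
    fun W hW η δ hη hη1 hδ => ?_⟩
  obtain ⟨X₁, hR⟩ := hR W hW
  obtain ⟨X₂, hP⟩ := hP W hW
  have hδ₁ : 0 < δ * η ^ 2 / (36 * C₁) := by positivity
  have hδ₂ : 0 < δ * η / (18 * C₂) := by positivity
  obtain ⟨T₁, L₁, hT₁, hL₁, hcut⟩ := z2cut W hW (η / 2) (δ * η ^ 2 / (36 * C₁)) (by positivity)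
    (by linarith) hδ₁
  obtain ⟨T₂, L₂, hT₂, hL₂, hr⟩ := z2r W hW η (δ * η / (18 * C₂)) hη (by linarith) hδ₂
  refine ⟨max T₁ T₂, hT₁.trans (le_max_left _ _), max (max X₁ X₂) (max X₃
    ⌈Real.exp (max (max L₁ L₂) (max (W / η) (max (9 / δ) (2 / η))))⌉₊),
    fun X hX χ z hXz hzL x hx T hT hTX hTc => ?_⟩
  have hXX₁ : X₁ ≤ X := ((le_max_left _ _).trans (le_max_left _ _)).trans hX
  have hXX₂ : X₂ ≤ X := ((le_max_right _ _).trans (le_max_left _ _)).trans hX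
  have hXX₃ : X₃ ≤ X := ((le_max_left _ _).trans (le_max_right _ _)).trans hX
  have hXX₄ : ⌈Real.exp (max (max L₁ L₂) (max (W / η) (max (9 / δ) (2 / η))))⌉₊ ≤ X :=
    ((le_max_right _ _).trans (le_max_right _ _)).trans hX
  have hXe : Real.exp (max (max L₁ L₂) (max (W / η) (max (9 / δ) (2 / η)))) ≤ (X : ℝ) :=
    (Nat.le_ceil _).trans (by exact_mod_cast hXX₄)
  have hX0 : (0 : ℝ) < X := lt_of_lt_of_le (Real.exp_pos _) hXe
  obtain ⟨L, hLdef⟩ : ∃ L, L = Real.log X := ⟨_, rfl⟩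
  have hexpL : Real.exp L = X := by rw [hLdef, Real.exp_log hX0]
  have hLmax : max (max L₁ L₂) (max (W / η) (max (9 / δ) (2 / η))) ≤ L := by
    rw [hLdef]
    exact (Real.le_log_iff_exp_le hX0).2 hXe
  have hLL₁ : L₁ ≤ L := ((le_max_left _ _).trans (le_max_left _ _)).trans hLmax
  have hLL₂ : L₂ ≤ L := ((le_max_right _ _).trans (le_max_left _ _)).trans hLmax
  have hLW : W / η ≤ L := ((le_max_left _ _).trans (le_max_right _ _)).trans hLmax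
  have hLδ : 9 / δ ≤ L :=
    (((le_max_left _ _).trans (le_max_right _ _)).trans (le_max_right _ _)).trans hLmax
  have hLη : 2 / η ≤ L :=
    (((le_max_right _ _).trans (le_max_right _ _)).trans (le_max_right _ _)).trans hLmax
  have hL1 : 1 ≤ L := hL₁.trans hLL₁
  have hL0 : 0 < L := by linarith
  have hXL : L + 1 ≤ X := by
    rw [← hexpL]
    exact Real.add_one_le_exp L
  have hX1 : 1 ≤ X := by
    have : (1 : ℝ) ≤ X := by linarith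
    exact_mod_cast this
  have hX1' : (1 : ℝ) ≤ X := by exact_mod_cast hX1
  -- the size of `z`
  have hzexp : Real.exp (η * L) ≤ z := by
    rw [Real.rpow_def_of_pos hX0, ← hLdef, mul_comm] at hXz
    exact hXz
  have hz0 : (0 : ℝ) < z := lt_of_lt_of_le (Real.exp_pos _) hzexp
  have hlogz : η * L ≤ Real.log z := (Real.le_log_iff_exp_le hz0).2 hzexp
  have hηL : η * L + 1 ≤ z := (Real.add_one_le_exp _).trans hzexp
  have hzW : W ≤ z := by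
    have h1 : (W : ℝ) ≤ η * L := by
      rw [div_le_iff₀ hη] at hLW
      linarith
    have h2 : (W : ℝ) ≤ z := by linarith
    exact_mod_cast h2
  have hz2 : 2 ≤ z := by
    have h1 : 2 ≤ η * L := by
      rw [div_le_iff₀ hη] at hLη
      linarith
    have h2 : (2 : ℝ) ≤ z := by linarith
    exact_mod_cast h2
  have hlz : 0 < Real.log z := Real.log_pos (by exact_mod_cast hz2)
  have hz1 : (8 * (b₁ : ℝ) + 12) * Real.log z ≤ 0.45 * Real.log X := by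
    refine le_trans (mul_le_mul_of_nonneg_right ?_ hlz.le) hzL
    have : (b₁ : ℝ) ≤ ((max b₁ b₂ : ℕ) : ℝ) := by exact_mod_cast le_max_left _ _
    linarith
  have hz2' : (8 * (b₂ : ℝ) + 12) * Real.log z ≤ 0.45 * Real.log X := by
    refine le_trans (mul_le_mul_of_nonneg_right ?_ hlz.le) hzL
    have : (b₂ : ℝ) ≤ ((max b₁ b₂ : ℕ) : ℝ) := by exact_mod_cast le_max_right _ _
    linarith
  have hlogz2 : Real.log z ≤ 0.47 * L := by
    have h1 : 12 * Real.log z ≤ 0.45 * L := by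
      rw [hLdef]
      refine le_trans (mul_le_mul_of_nonneg_right ?_ hlz.le) hz1
      have : (0 : ℝ) ≤ b₁ := Nat.cast_nonneg _
      linarith
    linarith
  -- `M`
  obtain ⟨M, hM⟩ : ∃ M, M = ⌊(X : ℝ) ^ (0.47 : ℝ)⌋₊ := ⟨_, rfl⟩
  have hXpow : (X : ℝ) ^ (0.47 : ℝ) = Real.exp (0.47 * L) := by
    rw [Real.rpow_def_of_pos hX0, ← hLdef, mul_comm]
  have hzM : z ≤ M := by
    rw [hM]
    apply Nat.le_floor
    rw [hXpow]
    exact (Real.log_le_iff_le_exp hz0).1 hlogz2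
  have hM1 : 1 ≤ M := le_trans (by omega) hzM
  have hMX : (M : ℝ) ≤ Real.exp L := by
    rw [hM]
    refine (Nat.floor_le (by positivity)).trans ?_
    rw [hXpow]
    exact Real.exp_le_exp.2 (by linarith)
  have hMX2 : M ≤ X ^ 2 := by
    rw [hexpL] at hMX
    have h1 : M ≤ X := by exact_mod_cast hMX
    exact h1.trans (Nat.le_self_pow two_ne_zero X)
  have hD1 : 1 ≤ Nat.sqrt X := Nat.sqrt_pos.2 (by omega)
  have hDX : Nat.sqrt X ≤ X ^ 2 := (Nat.sqrt_le_self X).trans (Nat.le_self_pow two_ne_zero X)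
  have hzX2 : z ≤ X ^ 2 := hzM.trans hMX2
  -- the windows of the long sums
  have hTc1 : (#T : ℝ) ≤ (X : ℝ) ^ θ₁ :=
    hTc.trans (Real.rpow_le_rpow_of_exponent_le hX1' (min_le_left _ _))
  have hTc2 : (#T : ℝ) ≤ (X : ℝ) ^ θ₂ :=
    hTc.trans (Real.rpow_le_rpow_of_exponent_le hX1' (min_le_right _ _))
  have hA := hR X hXX₁ χ z hz2 hzW hz1 T hT (fun t ht => (hTX t ht).2) hTc1
  have hB := hP X hXX₂ χ z hz2 hzW hz2' T hT (fun t ht => (hTX t ht).2) hTc2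
  rw [← hM, ← hLdef] at hA
  rw [← hLdef] at hB
  -- the short windows
  have hI1 : ∀ t ∈ T, ∫ x : ℝ, ‖WIN (lpc χ) 2 (RS z (X ^ 2)) t x‖ ^ 2 ≤
      δ * η ^ 2 / (36 * C₁) * (2 * L) := by
    intro t ht
    have h1 : |t| ≤ Real.exp (2 * L) := by
      refine (hTX t ht).2.trans ?_
      rw [← hexpL]
      exact Real.exp_le_exp.2 (by linarith)
    have h2 := hcut (2 * L) (by linarith) χ t ((le_max_left _ _).trans (hTX t ht).1) h1 z z
      (X ^ 2) (X ^ 2) (by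
        have : η / 2 * (2 * L) = η * L := by ring
        rw [this]
        exact hzexp) le_rfl hzX2 le_rfl (by
        have : Real.exp (2 * L) = (X : ℝ) ^ 2 := by
          rw [two_mul, Real.exp_add, hexpL, sq]
        rw [this]
        push_cast
        exact le_rfl)
    have h3 : ∀ x : ℝ, WIN (cu z (X ^ 2) (lpc χ)) 2 (RS z (X ^ 2)) t x =
        WIN (lpc χ) 2 (RS z (X ^ 2)) t x := fun x => (cu_RS z (X ^ 2) (lpc χ) 2 t x).1
    simp only [h3] at h2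
    exact h2
  have hI2 : ∀ t ∈ T, ∫ x : ℝ, ‖WIN (cu 1 M (ch χ)) 2 (RS z (X ^ 2)) t x‖ ^ 2 ≤
      δ * η / (18 * C₂) / L := by
    intro t ht
    have h1 : |t| ≤ Real.exp L := by
      rw [hexpL]
      exact (hTX t ht).2
    have h2 := hr L hLL₂ χ t ((le_max_right _ _).trans (hTX t ht).1) h1 z z M (X ^ 2) hzexp
      le_rfl hzM hMX2 hMX
    have h3 : ∀ x : ℝ, WIN (cu z M (ch χ)) 2 (RS z (X ^ 2)) t x =
        WIN (cu 1 M (ch χ)) 2 (RS z (X ^ 2)) t x := by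
      intro x
      unfold WIN
      refine Finset.sum_congr rfl fun n hn => ?_
      have h4 := Q2b_lt hn
      have h5 : cu z M (ch χ) n = cu 1 M (ch χ) n := by
        unfold cu
        by_cases h6 : n ≤ M
        · rw [if_pos ⟨h4, h6⟩, if_pos ⟨by omega, h6⟩]
        · rw [if_neg fun h7 => h6 h7.2, if_neg fun h7 => h6 h7.2]
      rw [h5]
    simp only [h3] at h2
    exact h2
  -- the three parts
  have hnn : ∀ (a : ℕ → ℂ) (t : ℝ), 0 ≤ ∫ x : ℝ, ‖WIN a 2 (RS z (X ^ 2)) t x‖ ^ 2 :=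
    fun a t => integral_nonneg fun x => by positivity
  have hP1 : ∑ t ∈ T, ‖BW (lpc χ) (cu M (X ^ 2) (ch χ)) (RS z (X ^ 2)) (RS z (X ^ 2)) 1 t x‖ ^ 2 ≤
      δ / 9 := by
    calc ∑ t ∈ T, ‖BW (lpc χ) (cu M (X ^ 2) (ch χ)) (RS z (X ^ 2)) (RS z (X ^ 2)) 1 t x‖ ^ 2
        ≤ ∑ t ∈ T, 2 * (δ * η ^ 2 / (36 * C₁) * (2 * L)) *
            ∫ x : ℝ, ‖WIN (cu M (X ^ 2) (ch χ)) 2 (RS z (X ^ 2)) t x‖ ^ 2 := by
          refine Finset.sum_le_sum fun t ht => ?_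
          refine (BW_le _ _ _ _ t x).trans ?_
          rw [← mul_assoc]
          apply mul_le_mul_of_nonneg_right _ (hnn _ t)
          exact mul_le_mul_of_nonneg_left (hI1 t ht) two_pos.le
      _ = 2 * (δ * η ^ 2 / (36 * C₁) * (2 * L)) *
            ∑ t ∈ T, ∫ x : ℝ, ‖WIN (cu M (X ^ 2) (ch χ)) 2 (RS z (X ^ 2)) t x‖ ^ 2 := by
          rw [Finset.mul_sum]
      _ ≤ 2 * (δ * η ^ 2 / (36 * C₁) * (2 * L)) * (C₁ * L / (Real.log z) ^ 2) := by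
          gcongr
      _ ≤ 2 * (δ * η ^ 2 / (36 * C₁) * (2 * L)) * (C₁ * L / (η * L) ^ 2) := by
          gcongr
      _ = δ / 9 := by
          field_simp
          ring
  have hP2 : ∑ t ∈ T, ‖BW (cu (Nat.sqrt X) (X ^ 2) (lpc χ)) (cu 1 M (ch χ)) (RS z (X ^ 2))
      (RS z (X ^ 2)) 1 t x‖ ^ 2 ≤ δ / 9 := by
    calc ∑ t ∈ T, ‖BW (cu (Nat.sqrt X) (X ^ 2) (lpc χ)) (cu 1 M (ch χ)) (RS z (X ^ 2))
          (RS z (X ^ 2)) 1 t x‖ ^ 2
        ≤ ∑ t ∈ T, 2 * (δ * η / (18 * C₂) / L) *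
            ∫ x : ℝ, ‖WIN (cu (Nat.sqrt X) (X ^ 2) (lpc χ)) 2 (RS z (X ^ 2)) t x‖ ^ 2 := by
          refine Finset.sum_le_sum fun t ht => ?_
          refine (BW_le _ _ _ _ t x).trans ?_
          have h1 := hI2 t ht
          have h2 := hnn (cu (Nat.sqrt X) (X ^ 2) (lpc χ)) t
          calc 2 * ((∫ x' : ℝ, ‖WIN (cu (Nat.sqrt X) (X ^ 2) (lpc χ)) 2 (RS z (X ^ 2)) t x'‖ ^ 2) *
                ∫ x' : ℝ, ‖WIN (cu 1 M (ch χ)) 2 (RS z (X ^ 2)) t x'‖ ^ 2)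
              ≤ 2 * ((∫ x' : ℝ, ‖WIN (cu (Nat.sqrt X) (X ^ 2) (lpc χ)) 2
                (RS z (X ^ 2)) t x'‖ ^ 2) * (δ * η / (18 * C₂) / L)) := by gcongr
            _ = _ := by ring
      _ = 2 * (δ * η / (18 * C₂) / L) *
            ∑ t ∈ T, ∫ x : ℝ, ‖WIN (cu (Nat.sqrt X) (X ^ 2) (lpc χ)) 2 (RS z (X ^ 2)) t x‖ ^ 2 := by
          rw [Finset.mul_sum]
      _ ≤ 2 * (δ * η / (18 * C₂) / L) * (C₂ * L ^ 2 / Real.log z) := by
          gcongr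
      _ ≤ 2 * (δ * η / (18 * C₂) / L) * (C₂ * L ^ 2 / (η * L)) := by
          gcongr
      _ = δ / 9 := by
          field_simp
          ring
  have hP3 : ∑ t ∈ T, ‖BW (cu 1 (Nat.sqrt X) (lpc χ)) (cu 1 M (ch χ)) (RS z (X ^ 2))
      (RS z (X ^ 2)) 1 t x‖ ^ 2 ≤ δ / 9 := by
    have h1 : ∀ t ∈ T, ‖BW (cu 1 (Nat.sqrt X) (lpc χ)) (cu 1 M (ch χ)) (RS z (X ^ 2))
        (RS z (X ^ 2)) 1 t x‖ ^ 2 ≤ (1 / (X : ℝ)) ^ 2 := by
      intro t _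
      rw [hM]
      exact pow_le_pow_left₀ (norm_nonneg _) (hSh X hXX₃ W χ z t x hx) 2
    refine (Finset.sum_le_sum h1).trans ?_
    rw [Finset.sum_const, nsmul_eq_mul]
    have h2 : (#T : ℝ) ≤ X := by
      refine hTc1.trans ?_
      have := Real.rpow_le_rpow_of_exponent_le hX1' (by linarith : θ₁ ≤ 1)
      rwa [Real.rpow_one] at this
    calc (#T : ℝ) * (1 / (X : ℝ)) ^ 2 ≤ (X : ℝ) * (1 / (X : ℝ)) ^ 2 := by gcongr
      _ = 1 / (X : ℝ) := by field_simp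
      _ ≤ δ / 9 := by
        rw [div_le_div_iff₀ hX0 (by norm_num)]
        rw [div_le_iff₀ hδ] at hLδ
        nlinarith
  calc ∑ t ∈ T, ‖BW (lpc χ) (ch χ) (RS z (X ^ 2)) (RS z (X ^ 2)) 1 t x‖ ^ 2
      ≤ ∑ t ∈ T, 3 * (‖BW (lpc χ) (cu M (X ^ 2) (ch χ)) (RS z (X ^ 2)) (RS z (X ^ 2)) 1 t x‖ ^ 2 +
          ‖BW (cu (Nat.sqrt X) (X ^ 2) (lpc χ)) (cu 1 M (ch χ)) (RS z (X ^ 2))
            (RS z (X ^ 2)) 1 t x‖ ^ 2 +
          ‖BW (cu 1 (Nat.sqrt X) (lpc χ)) (cu 1 M (ch χ)) (RS z (X ^ 2))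
            (RS z (X ^ 2)) 1 t x‖ ^ 2) := by
        refine Finset.sum_le_sum fun t _ => ?_
        rw [BW_split (lpc χ) (ch χ) z (X ^ 2) (Nat.sqrt X) M hD1 hDX hM1 hMX2 1 t x]
        obtain ⟨u, hu⟩ : ∃ u, u = BW (lpc χ) (cu M (X ^ 2) (ch χ)) (RS z (X ^ 2))
          (RS z (X ^ 2)) 1 t x := ⟨_, rfl⟩
        obtain ⟨v, hv⟩ : ∃ v, v = BW (cu (Nat.sqrt X) (X ^ 2) (lpc χ)) (cu 1 M (ch χ))
          (RS z (X ^ 2)) (RS z (X ^ 2)) 1 t x := ⟨_, rfl⟩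
        obtain ⟨w, hw⟩ : ∃ w, w = BW (cu 1 (Nat.sqrt X) (lpc χ)) (cu 1 M (ch χ))
          (RS z (X ^ 2)) (RS z (X ^ 2)) 1 t x := ⟨_, rfl⟩
        rw [← hu, ← hv, ← hw]
        have h1 : ‖u + v + w‖ ≤ ‖u‖ + ‖v‖ + ‖w‖ :=
          (norm_add_le _ _).trans (add_le_add (norm_add_le _ _) le_rfl)
        have h2 := pow_le_pow_left₀ (norm_nonneg _) h1 2
        nlinarith [sq_nonneg (‖u‖ - ‖v‖), sq_nonneg (‖v‖ - ‖w‖), sq_nonneg (‖u‖ - ‖w‖)]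
    _ = 3 * (∑ t ∈ T, ‖BW (lpc χ) (cu M (X ^ 2) (ch χ)) (RS z (X ^ 2)) (RS z (X ^ 2)) 1 t x‖ ^ 2 +
          ∑ t ∈ T, ‖BW (cu (Nat.sqrt X) (X ^ 2) (lpc χ)) (cu 1 M (ch χ)) (RS z (X ^ 2))
            (RS z (X ^ 2)) 1 t x‖ ^ 2 +
          ∑ t ∈ T, ‖BW (cu 1 (Nat.sqrt X) (lpc χ)) (cu 1 M (ch χ)) (RS z (X ^ 2))
            (RS z (X ^ 2)) 1 t x‖ ^ 2) := by
        rw [← Finset.mul_sum, Finset.sum_add_distrib, Finset.sum_add_distrib]
    _ ≤ 3 * (δ / 9 + δ / 9 + δ / 9) := by gcongr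
    _ = δ := by ring

end Pool.Agent.E3
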