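import Pool.Agent.Lib.MP_bae66e_nt.Mg.G028
import Pool.Agent.Lib.MP_bae66e_nt.E3.Q2b
import Pool.Agent.Lib.MP_bae66e_nt.E3.D4
import Pool.Agent.Lib.MP_bae66e_nt.Mg.G001

/-!
# Q3: the values of `Q` at well spaced points
-/

set_option autoImplicit false

namespace Pool.Agent.E3

open Finset MeasureTheory Real

private lemma Q3_sq6 {a b c d e f : ℝ} :
    (a + b + c + d + e + f) ^ 2 ≤ 6 * (a ^ 2 + b ^ 2 + c ^ 2 + d ^ 2 + e ^ 2 + f ^ 2) := by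
  nlinarith [sq_nonneg (a - b), sq_nonneg (a - c), sq_nonneg (a - d), sq_nonneg (a - e),
    sq_nonneg (a - f), sq_nonneg (b - c), sq_nonneg (b - d), sq_nonneg (b - e),
    sq_nonneg (b - f), sq_nonneg (c - d), sq_nonneg (c - e), sq_nonneg (c - f),
    sq_nonneg (d - e), sq_nonneg (d - f), sq_nonneg (e - f)]

/-- the choice of `b` -/
private lemma Q3_b (C δ : ℝ) (hC : 1 ≤ C) (hδ : 0 < δ) (b : ℕ) (hb2 : 2 ≤ b)
    (hb : 184320 * C / δ ≤ b) :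
    C * (32 * ((b : ℝ) + 2)) ^ 2 * Real.exp (-(2 * (b : ℝ))) ≤ δ / 60 := by
  have hb2' : (2 : ℝ) ≤ b := by exact_mod_cast hb2
  have hb0 : (0 : ℝ) < b := by linarith
  have h1 : (2 * (b : ℝ)) ^ 3 / 6 ≤ Real.exp (2 * b) := by
    have := Real.pow_div_factorial_le_exp (2 * (b : ℝ)) (by positivity) 3
    simpa [Nat.factorial] using this
  have h2 : Real.exp (-(2 * (b : ℝ))) ≤ 6 / (2 * (b : ℝ)) ^ 3 := by
    rw [Real.exp_neg, ← one_div]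
    have h3 : (6 : ℝ) / (2 * (b : ℝ)) ^ 3 = 1 / ((2 * (b : ℝ)) ^ 3 / 6) := by
      field_simp
    rw [h3]
    exact one_div_le_one_div_of_le (by positivity) h1
  have h4 : C * (32 * ((b : ℝ) + 2)) ^ 2 ≤ C * (4096 * (b : ℝ) ^ 2) := by
    refine mul_le_mul_of_nonneg_left ?_ (by linarith)
    nlinarith
  have h5 : C * (32 * ((b : ℝ) + 2)) ^ 2 * Real.exp (-(2 * (b : ℝ))) ≤
      C * (4096 * (b : ℝ) ^ 2) * (6 / (2 * (b : ℝ)) ^ 3) :=
    mul_le_mul h4 h2 (Real.exp_pos _).le (by positivity)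
  refine h5.trans ?_
  have h6 : C * (4096 * (b : ℝ) ^ 2) * (6 / (2 * (b : ℝ)) ^ 3) = 3072 * C / b := by
    field_simp
    ring
  rw [h6, div_le_div_iff₀ hb0 (by norm_num)]
  rw [div_le_iff₀ hδ] at hb
  linarith

/-- the choice of `T₀` -/
private lemma Q3_T (C η δ T₀ : ℝ) (hC : 1 ≤ C) (hη : 0 < η) (hδ : 0 < δ) (h1 : 1 ≤ T₀)
    (h2 : 240 * C / (η ^ 2 * δ) ≤ T₀) :
    C / η ^ 2 * Real.exp (-(T₀ ^ 2 / (4 * 1))) ≤ δ / 60 := by
  have h3 : Real.exp (-(T₀ ^ 2 / (4 * 1))) ≤ 4 / T₀ := by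
    rw [Real.exp_neg, ← one_div]
    have h4 : (4 : ℝ) / T₀ = 1 / (T₀ / 4) := by field_simp
    rw [h4]
    refine one_div_le_one_div_of_le (by positivity) ?_
    have h5 := Real.add_one_le_exp (T₀ ^ 2 / (4 * 1))
    nlinarith
  have h6 : C / η ^ 2 * Real.exp (-(T₀ ^ 2 / (4 * 1))) ≤ C / η ^ 2 * (4 / T₀) :=
    mul_le_mul_of_nonneg_left h3 (by positivity)
  refine h6.trans ?_
  rw [div_mul_div_comm, div_le_div_iff₀ (by positivity) (by norm_num)]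
  rw [div_le_iff₀ (by positivity)] at h2
  linarith

/-- the small terms -/
private lemma Q3_exp (L δ : ℝ) (hδ : 0 < δ) (h : 60 / δ ≤ L) (hL : 0 < L) :
    Real.exp (-L) ≤ δ / 60 := by
  rw [Real.exp_neg, ← one_div]
  have h1 : δ / 60 = 1 / (60 / δ) := by field_simp
  rw [h1]
  refine one_div_le_one_div_of_le (by positivity) (h.trans ?_)
  have := Real.add_one_le_exp L
  linarith

private lemma Q3_pow (L θ δ : ℝ) (hθ : 0 < θ) (hδ : 0 < δ) (hL : 0 < L)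
    (h : 360 / (θ ^ 3 * δ) ≤ L) : L ^ 2 * Real.exp (-(θ * L)) ≤ δ / 60 := by
  have h1 : (θ * L) ^ 3 / 6 ≤ Real.exp (θ * L) := by
    have := Real.pow_div_factorial_le_exp (θ * L) (by positivity) 3
    simpa [Nat.factorial] using this
  have h2 : Real.exp (-(θ * L)) ≤ 6 / (θ * L) ^ 3 := by
    rw [Real.exp_neg, ← one_div]
    have h3 : (6 : ℝ) / (θ * L) ^ 3 = 1 / ((θ * L) ^ 3 / 6) := by
      field_simp
    rw [h3]
    exact one_div_le_one_div_of_le (by positivity) h1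
  refine (mul_le_mul_of_nonneg_left h2 (by positivity)).trans ?_
  have h3 : L ^ 2 * (6 / (θ * L) ^ 3) = 6 / (θ ^ 3 * L) := by
    field_simp
  rw [h3, div_le_div_iff₀ (by positivity) (by norm_num)]
  rw [div_le_iff₀ (by positivity)] at h
  linarith

private lemma Q3_log (C η L δ lz : ℝ) (hC : 1 ≤ C) (hη : 0 < η) (hδ : 0 < δ) (hL : 1 ≤ L)
    (h : 60 * C / (η ^ 2 * δ) ≤ L) (hlz : η * L ≤ lz) : C / lz ^ 2 ≤ δ / 60 := by
  have h0 : 0 < η * L := by positivity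
  have h1 : C / lz ^ 2 ≤ C / (η * L) ^ 2 := by
    refine div_le_div_of_nonneg_left (by linarith) (by positivity) ?_
    exact pow_le_pow_left₀ h0.le hlz 2
  refine h1.trans ?_
  rw [div_le_div_iff₀ (by positivity) (by norm_num)]
  rw [div_le_iff₀ (by positivity)] at h
  have h2 : C * 60 ≤ L * (η ^ 2 * δ) := by linarith
  have h3 : L * (η ^ 2 * δ) ≤ L ^ 2 * (η ^ 2 * δ) :=
    mul_le_mul_of_nonneg_right (by nlinarith) (by positivity)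
  nlinarith

private lemma Q3_a1 (L : ℝ) (hL : 9 ≤ L) : 13 * L - 2 * L ^ 2 ≤ -L := by nlinarith

private lemma Q3_a2 (L x : ℝ) (hL : 0 < L) (h : 0.99 * L ≤ x) : 0.98 * L ^ 2 ≤ x ^ 2 := by
  nlinarith

private lemma Q3_a3 (b η L lz : ℝ) (hb : 0 ≤ b) (hL : 0 < L) (hη : η = 1 / (32 * (b + 2)))
    (h : lz ≤ η * L + 1) (hL5 : 5 * (8 * b + 12) ≤ L) : (8 * b + 12) * lz ≤ 0.45 * L := by
  have h1 : (8 * b + 12) * lz ≤ (8 * b + 12) * (η * L + 1) :=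
    mul_le_mul_of_nonneg_left h (by positivity)
  have h2 : (8 * b + 12) * η ≤ 1 / 4 := by
    rw [hη, mul_one_div, div_le_div_iff₀ (by positivity) (by norm_num)]
    linarith
  have h3 := mul_le_mul_of_nonneg_right h2 hL.le
  have h4 : (8 * b + 12) * (η * L + 1) = (8 * b + 12) * η * L + (8 * b + 12) := by ring
  linarith

private lemma Q3_a4 (η L : ℝ) (hη : 0 < η) (hL : 0 < L) (h : 8 / η ^ 2 ≤ L) :
    L ^ 2 ≤ Real.exp (η * L) := by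
  have h2 := Real.pow_div_factorial_le_exp (η * L) (by positivity) 4
  have h3 : (η * L) ^ 4 / 24 ≤ Real.exp (η * L) := by
    simpa [Nat.factorial] using h2
  refine le_trans ?_ h3
  rw [div_le_iff₀ (by positivity)] at h
  have h4 : 64 ≤ (L * η ^ 2) ^ 2 := by nlinarith
  have h5 : (η * L) ^ 4 = L ^ 2 * (L * η ^ 2) ^ 2 := by ring
  rw [h5]
  have h6 : 0 ≤ L ^ 2 := by positivity
  nlinarith

private lemma Q3_a5 (η L : ℝ) (hη : η ≤ 1 / 64) (hL : 9 ≤ L) (z : ℝ) (hz0 : 0 ≤ z)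
    (hz : z ≤ 2 * Real.exp (η * L)) : z * z ≤ Real.exp L := by
  have h2 : z * z ≤ 4 * Real.exp (2 * (η * L)) := by
    have h3 : Real.exp (2 * (η * L)) = Real.exp (η * L) * Real.exp (η * L) := by
      rw [← Real.exp_add]
      congr 1
      ring
    rw [h3]
    have h4 := mul_le_mul hz hz hz0 (by positivity)
    linarith
  have h6 : (4 : ℝ) ≤ Real.exp (L / 2) := by
    have := Real.add_one_le_exp (L / 2)
    linarith
  have h7 : Real.exp (2 * (η * L)) ≤ Real.exp (L / 2) := by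
    refine Real.exp_le_exp.mpr ?_
    nlinarith
  have h8 : Real.exp L = Real.exp (L / 2) * Real.exp (L / 2) := by
    rw [← Real.exp_add]
    congr 1
    ring
  refine h2.trans ?_
  rw [h8]
  exact mul_le_mul h6 h7 (Real.exp_pos _).le (Real.exp_pos _).le

private lemma Q3_a6 (L : ℝ) (hL : 9 ≤ L) (N E : ℝ) (hN0 : 0 ≤ N) (hN : N ≤ Real.exp L)
    (hE : E = (1 + 2 * L) ^ 3 * Real.exp (-L ^ 2)) : N * E ^ 2 ≤ Real.exp (-L) := by
  have hE0 : 0 ≤ E := by rw [hE]; positivity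
  have h1 : E ≤ Real.exp (6 * L - L ^ 2) := by
    rw [hE]
    have h2 : (1 + 2 * L) ^ 3 ≤ Real.exp (2 * L) ^ 3 := by
      refine pow_le_pow_left₀ (by positivity) ?_ 3
      have := Real.add_one_le_exp (2 * L)
      linarith
    calc (1 + 2 * L) ^ 3 * Real.exp (-L ^ 2) ≤ Real.exp (2 * L) ^ 3 * Real.exp (-L ^ 2) :=
          mul_le_mul_of_nonneg_right h2 (Real.exp_pos _).le
      _ = Real.exp (6 * L - L ^ 2) := by
          rw [← Real.exp_nat_mul, ← Real.exp_add]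
          congr 1
          push_cast
          ring
  have h3 : E ^ 2 ≤ Real.exp (12 * L - 2 * L ^ 2) := by
    refine (pow_le_pow_left₀ hE0 h1 2).trans (le_of_eq ?_)
    rw [← Real.exp_nat_mul]
    congr 1
    push_cast
    ring
  calc N * E ^ 2 ≤ Real.exp L * Real.exp (12 * L - 2 * L ^ 2) :=
        mul_le_mul hN h3 (by positivity) (Real.exp_pos _).le
    _ = Real.exp (13 * L - 2 * L ^ 2) := by
        rw [← Real.exp_add]
        congr 1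
        ring
    _ ≤ Real.exp (-L) := Real.exp_le_exp.mpr (Q3_a1 L hL)

private lemma Q3_a7 (b b' lz L : ℝ) (hb : b' ≤ b) (hlz : 0 < lz)
    (h : (8 * b + 12) * lz ≤ L) : (8 * b' + 12) * lz ≤ L := by
  have := mul_le_mul_of_nonneg_right hb hlz.le
  linarith

private lemma Q3_a8 (L C η lz : ℝ) (hC : 0 ≤ C) (hη : 0 < η) (hL : 0 < L) (hlz : η * L ≤ lz) :
    L ^ 2 * (C / lz ^ 2) ≤ C / η ^ 2 := by
  have h0 : 0 < η * L := by positivity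
  have h1 : 0 < lz := by linarith
  rw [mul_div_assoc', div_le_div_iff₀ (by positivity) (by positivity)]
  have h2 : (η * L) ^ 2 ≤ lz ^ 2 := pow_le_pow_left₀ h0.le hlz 2
  have h3 := mul_le_mul_of_nonneg_left h2 hC
  calc L ^ 2 * C * η ^ 2 = C * (η * L) ^ 2 := by ring
    _ ≤ C * lz ^ 2 := h3

/-- PROOF. Let `θ` be the minimum and `b0` the maximum of the constants of `q_err`, `q_err2`, `q_bil`, `rough_T` (all with `β = 1`), `C` the maximum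
of their constants. Given `W, δ`. For `b ≥ b0` let `η = 1/(32 (b + 2))`, `z = ⌈X^η⌉₊`, `L = log X`, `x = log Y ∈ [0.99 L, L]`; for large `X`:
`2 ≤ z`, `W ≤ z`, `z ≤ √X`, `x ≤ √z`, `η L ≤ log z ≤ η L + 1`, `(8b+12) log z ≤ 0.45 L ≤ x`, `exp (2x) ≤ X²`. By `log_win` (`β = 1`, `c = ch χ`,
`N = X²`, `2x ≤ 2L = log (X²)`) for each `t ∈ T`:
`‖WIN (lpc χ) 1 (RS z (X²)) t x‖ ≤ x ‖WIN (ch χ) 1 (RS z (X²)) t x‖ + ‖BW …‖ + ‖WIN ((x - log n + ep n) ch χ) …‖ + (1 + 2L)³ exp (- L²)`.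
Squares (`(a+b+c+d)² ≤ 4(…)`) summed over `T`:
`∑ ‖WIN (lpc χ) 1 (RS z (X²)) t x‖² ≤ 4 [L² (C/(ηL)² (exp (-2b) + exp (- T₀²/4)) + X^(-θ)) + δ₁ + C/(ηL)² + #T (1+2L)⁶ exp (- 2L²)]`, and
`4 C/η² exp (-2b) = 4 C (32 (b+2))² exp (-2b)` is small for large `b`; then `T₀` large, `δ₁` small, `X` large: `≤ δ/10`.
Finally `x PQ χ X Y t = WIN (lpc χ) 1 (QS X) t x + WIN ((x - log n) ch χ) 1 (QS X) t x` (on `QS X` `lpc χ n = log n ch χ n`), `q_cut` and `q_err2`: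
`x² ∑ ‖PQ‖² ≤ 3 (δ/10 + #T/X² + C/(ηL)²) ≤ 0.9 δ`, and `x² ≥ 0.98 L²`. -/
theorem t3q : ∃ θ : ℝ, 0 < θ ∧ θ ≤ 1 / 20 ∧ T3Q θ := by
  obtain ⟨θ₁, hθ1, hθ1', b₁, C₁, hC1, H1⟩ := q_err
  obtain ⟨θ₂, hθ2, hθ2', b₂, C₂, hC2, H2⟩ := q_err2
  obtain ⟨θ₃, hθ3, hθ3', b₃, H3⟩ := q_bil
  obtain ⟨θ₄, hθ4, hθ4', b₄, H4⟩ := rough_T
  obtain ⟨C₄, hC4, H4⟩ := H4 1 one_pos
  obtain ⟨Xc, Hc⟩ := q_cut
  refine ⟨min (min θ₁ θ₂) (min θ₃ θ₄), lt_min (lt_min hθ1 hθ2) (lt_min hθ3 hθ4),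
    (min_le_left _ _).trans ((min_le_left _ _).trans hθ1'), ?_⟩
  set θ := min (min θ₁ θ₂) (min θ₃ θ₄) with hθdef
  have hθa : θ ≤ θ₁ := (min_le_left _ _).trans (min_le_left _ _)
  have hθb : θ ≤ θ₂ := (min_le_left _ _).trans (min_le_right _ _)
  have hθc : θ ≤ θ₃ := (min_le_right _ _).trans (min_le_left _ _)
  have hθd : θ ≤ θ₄ := (min_le_right _ _).trans (min_le_right _ _)
  intro W hW δ hδ
  obtain ⟨X₁, H1⟩ := H1 W hW
  obtain ⟨X₂, H2⟩ := H2 W hW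
  obtain ⟨X₄, H4⟩ := H4 W hW
  obtain ⟨b, hbdef⟩ : ∃ b : ℕ, b = b₁ + b₂ + b₃ + b₄ + 2 + ⌈184320 * C₄ / δ⌉₊ := ⟨_, rfl⟩
  have hbC : 184320 * C₄ / δ ≤ b := by
    refine (Nat.le_ceil _).trans ?_
    exact_mod_cast (by omega : ⌈184320 * C₄ / δ⌉₊ ≤ b)
  have hbsmall := Q3_b C₄ δ hC4 hδ b (by omega) hbC
  have hb1 : (b₁ : ℝ) ≤ b := by exact_mod_cast (by omega : b₁ ≤ b)
  have hb2 : (b₂ : ℝ) ≤ b := by exact_mod_cast (by omega : b₂ ≤ b)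
  have hb3 : (b₃ : ℝ) ≤ b := by exact_mod_cast (by omega : b₃ ≤ b)
  have hb0 : (0 : ℝ) ≤ b := Nat.cast_nonneg b
  obtain ⟨η, hηdef⟩ : ∃ η : ℝ, η = 1 / (32 * ((b : ℝ) + 2)) := ⟨_, rfl⟩
  have hη0 : 0 < η := by rw [hηdef]; positivity
  have hη64 : η ≤ 1 / 64 := by
    rw [hηdef]
    exact one_div_le_one_div_of_le (by norm_num) (by linarith)
  have hηinv : C₄ / η ^ 2 = C₄ * (32 * ((b : ℝ) + 2)) ^ 2 := by
    rw [hηdef]
    field_simp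
  obtain ⟨T₃, hT3, X₃, H3⟩ := H3 W hW η (δ / 60) hη0 (by linarith) (by positivity)
  obtain ⟨T₀, hT0def⟩ : ∃ T₀ : ℝ, T₀ = T₃ + 240 * C₄ / (η ^ 2 * δ) := ⟨_, rfl⟩
  have hT0a : T₃ ≤ T₀ := by
    rw [hT0def]
    have : 0 ≤ 240 * C₄ / (η ^ 2 * δ) := by positivity
    linarith
  have hT0b : 240 * C₄ / (η ^ 2 * δ) ≤ T₀ := by
    rw [hT0def]
    linarith
  have hT01 : 1 ≤ T₀ := hT3.trans hT0a
  have hTsmall := Q3_T C₄ η δ T₀ hC4 hη0 hδ hT01 hT0b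
  refine ⟨T₀, hT01, ?_⟩
  obtain ⟨L₀, hL₀⟩ : ∃ L₀ : ℝ, L₀ = Real.log W / η + 8 / η ^ 2 + 5 * (8 * b + 12) +
    360 / (θ₄ ^ 3 * δ) + 60 * C₁ / (η ^ 2 * δ) + 60 * C₂ / (η ^ 2 * δ) + 60 / δ + 9 := ⟨_, rfl⟩
  have hWr : (1 : ℝ) ≤ W := by exact_mod_cast hW
  have p1 : 0 ≤ Real.log W / η := div_nonneg (Real.log_nonneg hWr) hη0.le
  have p2 : 0 ≤ 8 / η ^ 2 := by positivity
  have p3 : 0 ≤ 5 * (8 * (b : ℝ) + 12) := by positivity
  have p4 : 0 ≤ 360 / (θ₄ ^ 3 * δ) := by positivity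
  have p5 : 0 ≤ 60 * C₁ / (η ^ 2 * δ) := by positivity
  have p6 : 0 ≤ 60 * C₂ / (η ^ 2 * δ) := by positivity
  have p7 : 0 ≤ 60 / δ := by positivity
  refine ⟨X₁ + X₂ + X₃ + X₄ + Xc + ⌈Real.exp L₀⌉₊ + 2, ?_⟩
  intro X hX χ Y hY1 hY2 T hTs hTX hTcard
  have hX2 : (2 : ℝ) ≤ X := by exact_mod_cast (by omega : 2 ≤ X)
  have hX0 : (0 : ℝ) < X := by linarith
  obtain ⟨L, hLdef⟩ : ∃ L : ℝ, L = Real.log X := ⟨_, rfl⟩
  have hL : L₀ ≤ L := by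
    rw [hLdef, Real.le_log_iff_exp_le hX0]
    refine (Nat.le_ceil _).trans ?_
    exact_mod_cast (by omega : ⌈Real.exp L₀⌉₊ ≤ X)
  have q1 : Real.log W / η ≤ L := by linarith
  have q2 : 8 / η ^ 2 ≤ L := by linarith
  have q3 : 5 * (8 * (b : ℝ) + 12) ≤ L := by linarith
  have q4 : 360 / (θ₄ ^ 3 * δ) ≤ L := by linarith
  have q5 : 60 * C₁ / (η ^ 2 * δ) ≤ L := by linarith
  have q6 : 60 * C₂ / (η ^ 2 * δ) ≤ L := by linarith
  have q7 : 60 / δ ≤ L := by linarith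
  have q8 : 9 ≤ L := by linarith
  have hL0 : 0 < L := by linarith
  have hexpL : Real.exp L = X := by rw [hLdef, Real.exp_log hX0]
  -- z
  obtain ⟨z, hzdef⟩ : ∃ z : ℕ, z = ⌈(X : ℝ) ^ η⌉₊ := ⟨_, rfl⟩
  have hXη : (X : ℝ) ^ η = Real.exp (η * L) := by
    rw [Real.rpow_def_of_pos hX0, hLdef, mul_comm]
  have hz1 : (X : ℝ) ^ η ≤ z := by rw [hzdef]; exact Nat.le_ceil _
  have hXη1 : 1 < (X : ℝ) ^ η := Real.one_lt_rpow (by linarith) hη0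
  have hz2 : (z : ℝ) ≤ 2 * (X : ℝ) ^ η := by
    have h1 := Nat.ceil_lt_add_one (a := (X : ℝ) ^ η) (by positivity)
    rw [hzdef]
    linarith
  have hz2' : 2 ≤ z := by
    have h1 : (1 : ℝ) < z := hXη1.trans_le hz1
    exact_mod_cast h1
  have hzr : (2 : ℝ) ≤ z := by exact_mod_cast hz2'
  have hlz1 : η * L ≤ Real.log z := by
    rw [Real.le_log_iff_exp_le (by linarith), ← hXη]
    exact hz1
  have hlz0 : 0 < Real.log z := lt_of_lt_of_le (by positivity) hlz1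
  have hlz2 : Real.log z ≤ η * L + 1 := by
    have h1 := Real.log_le_log (by linarith) hz2
    rw [Real.log_mul (by norm_num) (by positivity), hXη, Real.log_exp] at h1
    have h2 : Real.log 2 ≤ 1 := by
      have := Real.log_two_lt_d9
      linarith
    linarith
  have hWz : W ≤ z := by
    have h1 : (W : ℝ) ≤ z := by
      refine le_trans ?_ hz1
      rw [hXη, ← Real.log_le_iff_le_exp (by linarith)]
      rw [div_le_iff₀ hη0] at q1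
      linarith
    exact_mod_cast h1
  have hzX : z ≤ Nat.sqrt X := by
    rw [Nat.le_sqrt]
    have h1 : (z : ℝ) * z ≤ X := by
      rw [← hexpL]
      exact Q3_a5 η L hη64 q8 z (by linarith) (by rw [← hXη]; exact hz2)
    exact_mod_cast h1
  have hb12 : (8 * (b : ℝ) + 12) * Real.log z ≤ 0.45 * L :=
    Q3_a3 b η L (Real.log z) hb0 hL0 hηdef hlz2 q3
  -- x
  have hY0 : 0 < Y := lt_of_lt_of_le (Real.rpow_pos_of_pos hX0 _) hY1
  obtain ⟨x, hxdef⟩ : ∃ x : ℝ, x = Real.log Y := ⟨_, rfl⟩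
  have hx1 : 0.99 * L ≤ x := by
    rw [hxdef, hLdef, ← Real.log_rpow hX0]
    exact Real.log_le_log (Real.rpow_pos_of_pos hX0 _) hY1
  have hx2 : x ≤ L := by
    rw [hxdef, hLdef]
    exact Real.log_le_log hY0 hY2
  have hx0 : 0 < x := by linarith
  have hxz : x ≤ Real.sqrt z := by
    refine hx2.trans ?_
    have h1 : L ^ 2 ≤ z := by
      refine le_trans ?_ hz1
      rw [hXη]
      exact Q3_a4 η L hη0 hL0 q2
    exact Real.le_sqrt_of_sq_le h1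
  have hcard : ∀ θ' : ℝ, θ ≤ θ' → (#T : ℝ) ≤ (X : ℝ) ^ θ' := fun θ' h =>
    hTcard.trans (Real.rpow_le_rpow_of_exponent_le (by linarith) h)
  have hTle : (#T : ℝ) ≤ X := by
    have h1 := hcard 1 (hθa.trans (by linarith))
    rwa [Real.rpow_one] at h1
  have hTX' : ∀ t ∈ T, |t| ≤ X := fun t ht => (hTX t ht).2
  have hlogX2 : Real.log ((X ^ 2 : ℕ) : ℝ) = 2 * L := by
    rw [Nat.cast_pow, Real.log_pow, hLdef]
    norm_num
  -- the sums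
  have S1 := H1 X (by omega) χ z hz2' hWz x (by rw [← hLdef]; linarith)
    (Q3_a7 b b₁ (Real.log z) x hb1 hlz0 (by linarith)) hxz T hTs hTX' (hcard _ hθa) (X ^ 2)
  have S2 := H2 X (by omega) χ z hz2' hWz hzX x (by rw [← hLdef]; linarith)
    (Q3_a7 b b₂ (Real.log z) x hb2 hlz0 (by linarith)) T hTs hTX' (hcard _ hθb)
  have S3 := H3 X (by omega) χ z hz1
    (by rw [← hLdef]; exact Q3_a7 b b₃ (Real.log z) _ hb3 hlz0 hb12) x
    (by rw [← hLdef]; linarith) T hTs (fun t ht => ⟨hT0a.trans (hTX t ht).1, (hTX t ht).2⟩)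
    (hcard _ hθc)
  have hexp2x : Real.exp (2 * x) ≤ ((X ^ 2 : ℕ) : ℝ) := by
    rw [← Real.le_log_iff_exp_le (by rw [Nat.cast_pow]; positivity), hlogX2]
    linarith
  have S4 := H4 X (by omega) χ b z (by omega) hz2' hWz x (X ^ 2) (by rw [← hLdef]; linarith)
    (by linarith) hexp2x T hTs T₀ (by linarith) hTX (hcard _ hθd)
  obtain ⟨E, hE⟩ : ∃ E : ℝ, E = (1 + 2 * L) ^ 3 * Real.exp (-L ^ 2) := ⟨_, rfl⟩
  have hE0 : 0 ≤ E := by rw [hE]; positivity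
  have hpt : ∀ t ∈ T, (x * ‖PQ χ X Y t‖) ^ 2 ≤
      6 * ((x * ‖WIN (ch χ) 1 (RS z (X ^ 2)) t x‖) ^ 2 +
        ‖BW (lpc χ) (ch χ) (RS z (X ^ 2)) (RS z (X ^ 2)) 1 t x‖ ^ 2 +
        ‖WIN (fun n => ((x - Real.log n + ep n : ℝ) : ℂ) * ch χ n) 1 (RS z (X ^ 2)) t x‖ ^ 2 +
        E ^ 2 + (1 / (X : ℝ)) ^ 2 +
        ‖WIN (fun n => ((x - Real.log n : ℝ) : ℂ) * ch χ n) 1 (QS X) t x‖ ^ 2) := by
    intro t _
    have h1 := log_win 1 one_pos (ch χ) (fun m n _ _ => (PC_ch χ).mul m n) (PC_ch χ).bd t x z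
      (X ^ 2) (Nat.one_le_two_pow.trans (Nat.pow_le_pow_left (by omega : 2 ≤ X) 2))
      (by rw [hlogX2]; linarith)
    rw [hlogX2] at h1
    have h1' : (1 + 2 * L) ^ 3 * Real.exp (-(1 * (2 * L) ^ 2 / 4)) = E := by
      rw [hE]
      congr 2
      ring
    rw [h1'] at h1
    have h2 := Hc X (by omega) W χ z hz2' hzX x t (by rw [← hLdef]; exact hx1)
    have h3 : (x : ℂ) * PQ χ X Y t = WIN (lpc χ) 1 (QS X) t x +
        WIN (fun n => ((x - Real.log n : ℝ) : ℂ) * ch χ n) 1 (QS X) t x := by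
      unfold PQ
      rw [← hxdef]
      unfold WIN
      rw [Finset.mul_sum, ← Finset.sum_add_distrib]
      refine Finset.sum_congr rfl fun n hn => ?_
      have hnp : n.Prime := by
        unfold QS Pool.Agent.Lib.MP_bae66e_nt.AP3.prI at hn
        simp only [Finset.mem_filter] at hn
        exact hn.2
      unfold lpc lp
      rw [if_pos hnp]
      push_cast
      ring
    refine le_trans ?_ Q3_sq6
    refine pow_le_pow_left₀ (by positivity) ?_ 2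
    have h4 : x * ‖PQ χ X Y t‖ = ‖(x : ℂ) * PQ χ X Y t‖ := by
      rw [norm_mul, Complex.norm_real, Real.norm_of_nonneg hx0.le]
    have h5 : x * ‖WIN (ch χ) 1 (RS z (X ^ 2)) t x‖ =
        ‖(x : ℂ) * WIN (ch χ) 1 (RS z (X ^ 2)) t x‖ := by
      rw [norm_mul, Complex.norm_real, Real.norm_of_nonneg hx0.le]
    rw [h4, h5, h3]
    obtain ⟨a, ha⟩ : ∃ a : ℂ, a = WIN (lpc χ) 1 (QS X) t x := ⟨_, rfl⟩
    obtain ⟨a', ha'⟩ : ∃ a' : ℂ, a' = WIN (lpc χ) 1 (RS z (X ^ 2)) t x := ⟨_, rfl⟩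
    obtain ⟨w, hw⟩ : ∃ w : ℂ, w = (x : ℂ) * WIN (ch χ) 1 (RS z (X ^ 2)) t x := ⟨_, rfl⟩
    obtain ⟨u, hu⟩ : ∃ u : ℂ, u = BW (lpc χ) (ch χ) (RS z (X ^ 2)) (RS z (X ^ 2)) 1 t x :=
      ⟨_, rfl⟩
    obtain ⟨e, he⟩ : ∃ e : ℂ, e = WIN (fun n => ((x - Real.log n + ep n : ℝ) : ℂ) * ch χ n) 1
      (RS z (X ^ 2)) t x := ⟨_, rfl⟩
    obtain ⟨f, hf⟩ : ∃ f : ℂ, f = WIN (fun n => ((x - Real.log n : ℝ) : ℂ) * ch χ n) 1
      (QS X) t x := ⟨_, rfl⟩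
    have hl : (fun n => ((lp n : ℝ) : ℂ) * ch χ n) = lpc χ := rfl
    rw [hl, ← ha', ← hw, ← hu, ← he] at h1
    rw [← ha, ← ha'] at h2
    rw [← ha, ← hw, ← hu, ← he, ← hf]
    have h6 : a + f = (a - a') - (w - a' - u - e) + w - u - e + f := by ring
    rw [h6]
    calc ‖(a - a') - (w - a' - u - e) + w - u - e + f‖
        ≤ ‖(a - a') - (w - a' - u - e) + w - u - e‖ + ‖f‖ := norm_add_le _ _
      _ ≤ (‖(a - a') - (w - a' - u - e) + w - u‖ + ‖e‖) + ‖f‖ := by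
          gcongr
          exact norm_sub_le _ _
      _ ≤ ((‖(a - a') - (w - a' - u - e) + w‖ + ‖u‖) + ‖e‖) + ‖f‖ := by
          gcongr
          exact norm_sub_le _ _
      _ ≤ (((‖(a - a') - (w - a' - u - e)‖ + ‖w‖) + ‖u‖) + ‖e‖) + ‖f‖ := by
          gcongr
          exact norm_add_le _ _
      _ ≤ ((((‖a - a'‖ + ‖w - a' - u - e‖) + ‖w‖) + ‖u‖) + ‖e‖) + ‖f‖ := by
          gcongr
          exact norm_sub_le _ _
      _ ≤ ‖w‖ + ‖u‖ + ‖e‖ + E + 1 / (X : ℝ) + ‖f‖ := by linarith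
  have hsum := Finset.sum_le_sum hpt
  rw [← Finset.mul_sum] at hsum
  simp only [Finset.sum_add_distrib, mul_pow, Finset.sum_const, nsmul_eq_mul] at hsum
  rw [← Finset.mul_sum, ← Finset.mul_sum] at hsum
  -- the bounds of the six terms
  have hxL : x ^ 2 ≤ L ^ 2 := pow_le_pow_left₀ hx0.le hx2 2
  have t1 : x ^ 2 * ∑ t ∈ T, ‖WIN (ch χ) 1 (RS z (X ^ 2)) t x‖ ^ 2 ≤ 3 * (δ / 60) := by
    have h0 : 0 ≤ Real.exp (-(2 * (b : ℝ))) + Real.exp (-(T₀ ^ 2 / (4 * 1))) := by positivity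
    have h1 : L ^ 2 * (C₄ / Real.log z ^ 2) ≤ C₄ / η ^ 2 :=
      Q3_a8 L C₄ η (Real.log z) (by linarith) hη0 hL0 hlz1
    have h4 : (X : ℝ) ^ (-θ₄) = Real.exp (-(θ₄ * L)) := by
      rw [Real.rpow_def_of_pos hX0, hLdef]
      congr 1
      ring
    have h5 := Q3_pow L θ₄ δ hθ4 hδ hL0 q4
    have h6 : C₄ / η ^ 2 * Real.exp (-(2 * (b : ℝ))) ≤ δ / 60 := by
      rw [hηinv]
      exact hbsmall
    calc x ^ 2 * ∑ t ∈ T, ‖WIN (ch χ) 1 (RS z (X ^ 2)) t x‖ ^ 2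
        ≤ L ^ 2 * (C₄ / Real.log z ^ 2 * (Real.exp (-(2 * (b : ℝ))) +
            Real.exp (-(T₀ ^ 2 / (4 * 1)))) + (X : ℝ) ^ (-θ₄)) :=
          mul_le_mul hxL S4 (Finset.sum_nonneg fun _ _ => by positivity) (by positivity)
      _ = L ^ 2 * (C₄ / Real.log z ^ 2) * (Real.exp (-(2 * (b : ℝ))) +
            Real.exp (-(T₀ ^ 2 / (4 * 1)))) + L ^ 2 * Real.exp (-(θ₄ * L)) := by
          rw [h4]
          ring
      _ ≤ C₄ / η ^ 2 * (Real.exp (-(2 * (b : ℝ))) + Real.exp (-(T₀ ^ 2 / (4 * 1)))) +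
            L ^ 2 * Real.exp (-(θ₄ * L)) := by
          gcongr
      _ ≤ 3 * (δ / 60) := by
          rw [mul_add]
          linarith
  have t3 := S1.trans (Q3_log C₁ η L δ (Real.log z) hC1 hη0 hδ (by linarith) q5 hlz1)
  have t4 := S2.trans (Q3_log C₂ η L δ (Real.log z) hC2 hη0 hδ (by linarith) q6 hlz1)
  have hexpsmall := Q3_exp L δ hδ q7 hL0
  have t5 : (#T : ℝ) * E ^ 2 ≤ δ / 60 :=
    (Q3_a6 L q8 (#T : ℝ) E (Nat.cast_nonneg _) (by rw [hexpL]; exact hTle) hE).trans hexpsmall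
  have t6 : (#T : ℝ) * (1 / (X : ℝ)) ^ 2 ≤ δ / 60 := by
    refine le_trans ?_ hexpsmall
    rw [Real.exp_neg, hexpL]
    calc (#T : ℝ) * (1 / (X : ℝ)) ^ 2 ≤ X * (1 / (X : ℝ)) ^ 2 :=
          mul_le_mul_of_nonneg_right hTle (by positivity)
      _ = (X : ℝ)⁻¹ := by field_simp
  have htot : x ^ 2 * ∑ t ∈ T, ‖PQ χ X Y t‖ ^ 2 ≤ 0.8 * δ := by
    refine hsum.trans ?_
    linarith
  rw [← hLdef, le_div_iff₀ (by positivity)]
  have hx98 : 0.98 * L ^ 2 ≤ x ^ 2 := Q3_a2 L x hL0 hx1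
  have hS0 : 0 ≤ ∑ t ∈ T, ‖PQ χ X Y t‖ ^ 2 := Finset.sum_nonneg fun _ _ => by positivity
  have h9 := mul_le_mul_of_nonneg_right hx98 hS0
  have h10 : 0.98 * L ^ 2 * ∑ t ∈ T, ‖PQ χ X Y t‖ ^ 2 =
      0.98 * ((∑ t ∈ T, ‖PQ χ X Y t‖ ^ 2) * L ^ 2) := by ring
  linarith

end Pool.Agent.E3
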