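import Pool.Agent.Lib.MP_bae66e_nt.Mg.G017
import Pool.Agent.Lib.MP_bae66e_nt.Mg.G001
import Pool.Agent.Lib.MP_bae66e_nt.Mg.G008
import Pool.Agent.Lib.MP_bae66e_nt.Mg.G002
import Pool.Agent.Lib.MP_bae66e_nt.Mg.G011

/-!
# X1: COREJ
-/

set_option autoImplicit false

namespace Pool.Agent.E3

open Finset MeasureTheory Real Filter
open Pool.Agent.Lib.MP_bae66e_nt.AP3 (prI mem_prI)

private theorem X1_T3Q_min (θ : ℝ) (hT3 : T3Q θ) : T3Q (min θ 1) := by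
  intro W hW δ hδ
  obtain ⟨T₀, hT₀, X₀, h⟩ := hT3 W hW δ hδ
  refine ⟨T₀, hT₀, max X₀ 1, fun X hX χ Y hY1 hY2 T hT1 hT2 hT3' => ?_⟩
  refine h X (le_trans (le_max_left _ _) hX) χ Y hY1 hY2 T hT1 hT2 (hT3'.trans ?_)
  have hX1 : (1 : ℝ) ≤ (X : ℝ) := by exact_mod_cast le_trans (le_max_right _ _) hX
  exact Real.rpow_le_rpow_of_exponent_le hX1 (min_le_left _ _)

/-- the mean value of `Q` alone -/
theorem mvQ : ∃ C : ℝ, 1 ≤ C ∧ ∀ (W : ℕ) (χ : DirichletCharacter ℂ W) (X : ℕ) (Y Δ : ℝ), 64 ≤ X →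
    (X : ℝ) ^ (0.99 : ℝ) ≤ Y → Y ≤ X → 0 < Δ → Δ ≤ 1 → 1 ≤ Δ * Y →
      ∫ t : ℝ, Real.exp (-(Δ * t) ^ 2) * ‖PQ χ X Y t‖ ^ 2 ≤ C / Real.log X := by
  obtain ⟨C, hC, h⟩ := mv_pow
  refine ⟨4 * C, by linarith, fun W χ X Y Δ hX hY1 hY2 hΔ hΔ1 hΔY => ?_⟩
  obtain ⟨hY0, hlY, -, heY⟩ := logY_bounds X Y (by omega) hY1 hY2
  have hX8 : (64 : ℝ) ≤ X := by exact_mod_cast hX
  have hlX : 4 ≤ Real.log X := by
    have e1 : Real.log 64 ≤ Real.log X := Real.log_le_log (by norm_num) hX8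
    have e2 : Real.log 64 = 6 * Real.log 2 := by
      rw [show (64 : ℝ) = 2 ^ 6 by norm_num, Real.log_pow]
      norm_num
    have e3 := Real.log_two_gt_d9
    linarith
  have hy : 2 ≤ Real.log Y := by linarith
  have h1 := h 0 (Nat.sqrt X) (X ^ 2) 1 (Real.log Y) Δ (fun _ => 1) (ch χ) le_rfl hy hΔ hΔ1
    (fun _ => by simp) (fun n => ch_norm_le χ n)
  simp only [pow_zero, one_mul, zero_add, Nat.factorial_one, Nat.cast_one, mul_one] at h1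
  have h2 : ∫ t : ℝ, Real.exp (-(Δ * t) ^ 2) * ‖PQ χ X Y t‖ ^ 2 ≤
      C * (Real.exp (-Real.log Y) / (Δ * Real.log Y) + 1 / Real.log Y) := h1
  refine h2.trans ?_
  rw [heY]
  have h3 : 1 / Y / (Δ * Real.log Y) ≤ 1 / Real.log Y := by
    rw [div_div]
    refine one_div_le_one_div_of_le (by linarith) ?_
    have : Y * (Δ * Real.log Y) = (Δ * Y) * Real.log Y := by ring
    rw [this]
    nlinarith
  have h4 : 1 / Real.log Y ≤ 2 / Real.log X := by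
    rw [div_le_div_iff₀ (by linarith) (by linarith)]
    linarith
  calc C * (1 / Y / (Δ * Real.log Y) + 1 / Real.log Y)
      ≤ C * (2 / Real.log X + 2 / Real.log X) := by
        refine mul_le_mul_of_nonneg_left ?_ (by linarith)
        linarith
    _ = 4 * C / Real.log X := by ring

/-- the conditions on the parameters of `COREJ` -/
structure CJ (a : ℝ) (X R : ℕ) (Y Δ : ℝ) : Prop where
  Rlow : (Real.log X) ^ a ≤ R
  Rup : (R : ℝ) ≤ (Real.log X) ^ (a + 1)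
  Ylow : (X : ℝ) ^ (0.99 : ℝ) ≤ Y
  Yup : Y ≤ X
  Dpos : 0 < Δ
  Dup : Δ ≤ (X : ℝ) ^ (-(1 / 2) : ℝ)
  DY : 1 ≤ Δ * Y
  DX : Real.log X ≤ Δ * X

/-- `X` large makes `log X` and `R` large, and `R^(2α)` beats `(log R)² log X`. -/
theorem CJ_large (a α K : ℝ) (ha : 1 ≤ a) (hα : 0 < α) (haα : 2 ≤ a * α) :
    ∃ X₀ : ℕ, ∀ X : ℕ, X₀ ≤ X → ∀ (R : ℕ) (Y Δ : ℝ), CJ a X R Y Δ →
      64 ≤ X ∧ K ≤ Real.log X ∧ 4 ≤ Real.log X ∧ K ≤ R ∧ 2 ≤ R ∧ 0 < Real.log R ∧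
        K * (Real.log R) ^ 2 * Real.log X * (R : ℝ) ^ (-(2 * α)) ≤ 1 := by
  have h2 : Tendsto (fun M : ℕ => Real.log (M : ℝ)) atTop atTop :=
    Real.tendsto_log_atTop.comp tendsto_natCast_atTop_atTop
  obtain ⟨X₀, hX₀⟩ := eventually_atTop.1 ((h2.eventually_ge_atTop (|K| * (4 / α ^ 2) + |K| + 4)).and
    (eventually_ge_atTop 64))
  refine ⟨X₀, fun X hX R Y Δ h => ?_⟩
  obtain ⟨g1, g2⟩ := hX₀ X hX
  have hK := abs_nonneg K
  have hK1 := le_abs_self K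
  have h4 : 0 ≤ |K| * (4 / α ^ 2) := by positivity
  have hL4 : 4 ≤ Real.log X := by linarith
  have hL0 : 0 < Real.log X := by linarith
  have hR1 : Real.log X ≤ R := by
    refine le_trans ?_ h.Rlow
    calc Real.log X = (Real.log X) ^ (1 : ℝ) := (Real.rpow_one _).symm
      _ ≤ (Real.log X) ^ a := Real.rpow_le_rpow_of_exponent_le (by linarith) ha
  have hR0 : (0 : ℝ) < R := by linarith
  have hlR : 0 < Real.log R := Real.log_pos (by linarith)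
  have hR2 : 2 ≤ R := by
    have : (2 : ℝ) ≤ R := by linarith
    exact_mod_cast this
  refine ⟨g2, by linarith, hL4, by linarith, hR2, hlR, ?_⟩
  -- `(log R)² ≤ (4/α²) R^α`
  have e1 : Real.log R ≤ 2 / α * (R : ℝ) ^ (α / 2) := by
    have := Real.log_le_rpow_div hR0.le (half_pos hα)
    calc Real.log R ≤ (R : ℝ) ^ (α / 2) / (α / 2) := this
      _ = 2 / α * (R : ℝ) ^ (α / 2) := by field_simp
  have e2 : (Real.log R) ^ 2 ≤ 4 / α ^ 2 * (R : ℝ) ^ α := by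
    calc (Real.log R) ^ 2 ≤ (2 / α * (R : ℝ) ^ (α / 2)) ^ 2 := pow_le_pow_left₀ hlR.le e1 2
      _ = 4 / α ^ 2 * ((R : ℝ) ^ (α / 2)) ^ 2 := by ring
      _ = 4 / α ^ 2 * (R : ℝ) ^ α := by
          congr 1
          rw [← Real.rpow_natCast, ← Real.rpow_mul hR0.le]
          congr 1
          push_cast
          ring
  -- `R^α ≥ (log X)²`
  have e3 : (Real.log X) ^ 2 ≤ (R : ℝ) ^ α := by
    calc (Real.log X) ^ 2 = (Real.log X) ^ (2 : ℝ) := by norm_cast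
      _ ≤ (Real.log X) ^ (a * α) := Real.rpow_le_rpow_of_exponent_le (by linarith) haα
      _ = ((Real.log X) ^ a) ^ α := by rw [Real.rpow_mul hL0.le]
      _ ≤ (R : ℝ) ^ α := Real.rpow_le_rpow (Real.rpow_nonneg hL0.le _) h.Rlow hα.le
  have hRα : 0 < (R : ℝ) ^ α := Real.rpow_pos_of_pos hR0 _
  have e4 : (R : ℝ) ^ (-(2 * α)) = 1 / ((R : ℝ) ^ α * (R : ℝ) ^ α) := by
    rw [Real.rpow_neg hR0.le, one_div, ← Real.rpow_add hR0]
    congr 2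
    ring
  rw [e4, mul_one_div, div_le_one (by positivity)]
  have e5 : |K| * (4 / α ^ 2) ≤ Real.log X := by linarith
  calc K * (Real.log R) ^ 2 * Real.log X ≤ |K| * (Real.log R) ^ 2 * Real.log X := by
        have : 0 ≤ (Real.log R) ^ 2 * Real.log X := by positivity
        nlinarith
    _ ≤ |K| * (4 / α ^ 2 * (R : ℝ) ^ α) * Real.log X := by
        gcongr
    _ = (|K| * (4 / α ^ 2)) * Real.log X * (R : ℝ) ^ α := by ring
    _ ≤ Real.log X * Real.log X * (R : ℝ) ^ α := by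
        gcongr
    _ = (Real.log X) ^ 2 * (R : ℝ) ^ α := by ring
    _ ≤ (R : ℝ) ^ α * (R : ℝ) ^ α := mul_le_mul_of_nonneg_right e3 hRα.le

private theorem X1_Dle1 {a : ℝ} {X R : ℕ} {Y Δ : ℝ} (h : CJ a X R Y Δ) (hX : 64 ≤ X) : Δ ≤ 1 := by
  refine h.Dup.trans ?_
  have h1 : (1 : ℝ) ≤ X := by exact_mod_cast (by omega : 1 ≤ X)
  exact Real.rpow_le_one_of_one_le_of_nonpos h1 (by norm_num)

/-- the region where `R` is small -/
theorem coreJ_T1 (a α δ : ℝ) (ha : 1 ≤ a) (hα : 0 < α) (haα : 2 ≤ a * α) (hδ : 0 < δ) :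
    ∃ X₀ : ℕ, ∀ X : ℕ, X₀ ≤ X → ∀ (W : ℕ) (χ₁ χ₃ : DirichletCharacter ℂ W) (R : ℕ) (Y Δ : ℝ),
      CJ a X R Y Δ →
      ∫ t in {t : ℝ | ‖PR χ₁ R t‖ ≤ (R : ℝ) ^ (-α)}, Real.exp (-(Δ * t) ^ 2) *
        ‖PR χ₁ R t * PQ χ₃ X Y t‖ ^ 2 ≤ δ * (1 / (Real.log R * Real.log X)) ^ 2 := by
  obtain ⟨C₁, hC₁, hMV⟩ := mvQ
  obtain ⟨C₂, hC₂, hPR⟩ := PR_norm_le
  obtain ⟨C₃, hC₃, hPQ⟩ := PQ_norm_le
  obtain ⟨X₁, h1⟩ := CJ_large a α (C₁ / δ) ha hα haα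
  refine ⟨X₁, fun X hX W χ₁ χ₃ R Y Δ h => ?_⟩
  obtain ⟨hX64, -, hL4, -, hR2, hlR, hT1⟩ := h1 X hX R Y Δ h
  have hmain := hMV W χ₃ X Y Δ hX64 h.Ylow h.Yup h.Dpos (X1_Dle1 h hX64) h.DY
  have hR0 : (0 : ℝ) < R := by exact_mod_cast (by omega : 0 < R)
  have hDpos := h.Dpos
  set L := Real.log X with hL
  have hL0 : 0 < L := by linarith
  have hb1 : ∀ t, ‖PR χ₁ R t‖ ≤ C₂ / Real.log R := fun t => hPR W χ₁ R t hR2
  have hb3 : ∀ t, ‖PQ χ₃ X Y t‖ ≤ C₃ / L := fun t => hPQ W χ₃ X Y t (by omega) h.Ylow h.Yup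
  have hc1 := PR_continuous χ₁ R
  have hc3 := PQ_continuous χ₃ X Y
  have hi3 : Integrable (fun t : ℝ => Real.exp (-(Δ * t) ^ 2) * ‖PQ χ₃ X Y t‖ ^ 2) := by
    refine gauss_integrable_of_bounded Δ ((C₃ / L) ^ 2) hDpos _ (hc3.norm.pow 2) ?_
    intro t
    rw [abs_of_nonneg (sq_nonneg _)]
    exact pow_le_pow_left₀ (norm_nonneg _) (hb3 t) 2
  have hi13 : Integrable (fun t : ℝ => Real.exp (-(Δ * t) ^ 2) *
      ‖PR χ₁ R t * PQ χ₃ X Y t‖ ^ 2) := by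
    refine gauss_integrable_of_bounded Δ ((C₂ / Real.log R * (C₃ / L)) ^ 2) hDpos _
      ((hc1.mul hc3).norm.pow 2) ?_
    intro t
    rw [abs_of_nonneg (sq_nonneg _)]
    apply pow_le_pow_left₀ (norm_nonneg _)
    rw [norm_mul]
    exact mul_le_mul (hb1 t) (hb3 t) (norm_nonneg _) (le_trans (norm_nonneg _) (hb1 t))
  have hS : MeasurableSet {t : ℝ | ‖PR χ₁ R t‖ ≤ (R : ℝ) ^ (-α)} :=
    (isClosed_le hc1.norm continuous_const).measurableSet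
  have hRα2 : ((R : ℝ) ^ (-α)) ^ 2 = (R : ℝ) ^ (-(2 * α)) := by
    rw [← Real.rpow_natCast, ← Real.rpow_mul hR0.le]
    congr 1
    push_cast
    ring
  have hRαn : 0 < (R : ℝ) ^ (-(2 * α)) := Real.rpow_pos_of_pos hR0 _
  calc ∫ t in {t : ℝ | ‖PR χ₁ R t‖ ≤ (R : ℝ) ^ (-α)}, Real.exp (-(Δ * t) ^ 2) *
        ‖PR χ₁ R t * PQ χ₃ X Y t‖ ^ 2
      ≤ ∫ t in {t : ℝ | ‖PR χ₁ R t‖ ≤ (R : ℝ) ^ (-α)}, (R : ℝ) ^ (-(2 * α)) *
        (Real.exp (-(Δ * t) ^ 2) * ‖PQ χ₃ X Y t‖ ^ 2) := by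
        apply setIntegral_mono_on hi13.integrableOn (hi3.const_mul _).integrableOn hS
        intro t ht
        have ht' : ‖PR χ₁ R t‖ ≤ (R : ℝ) ^ (-α) := ht
        have k1 : ‖PR χ₁ R t‖ ^ 2 ≤ (R : ℝ) ^ (-(2 * α)) := by
          rw [← hRα2]
          exact pow_le_pow_left₀ (norm_nonneg _) ht' 2
        have k2 : ‖PR χ₁ R t * PQ χ₃ X Y t‖ ^ 2 = ‖PR χ₁ R t‖ ^ 2 * ‖PQ χ₃ X Y t‖ ^ 2 := by
          rw [norm_mul, mul_pow]
        rw [k2]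
        have k3 : 0 ≤ Real.exp (-(Δ * t) ^ 2) * ‖PQ χ₃ X Y t‖ ^ 2 := by positivity
        calc Real.exp (-(Δ * t) ^ 2) * (‖PR χ₁ R t‖ ^ 2 * ‖PQ χ₃ X Y t‖ ^ 2)
            = ‖PR χ₁ R t‖ ^ 2 * (Real.exp (-(Δ * t) ^ 2) * ‖PQ χ₃ X Y t‖ ^ 2) := by ring
          _ ≤ _ := mul_le_mul_of_nonneg_right k1 k3
    _ ≤ ∫ t : ℝ, (R : ℝ) ^ (-(2 * α)) * (Real.exp (-(Δ * t) ^ 2) * ‖PQ χ₃ X Y t‖ ^ 2) := by
        apply setIntegral_le_integral (hi3.const_mul _)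
        exact Filter.Eventually.of_forall fun t => by positivity
    _ = (R : ℝ) ^ (-(2 * α)) * ∫ t : ℝ, Real.exp (-(Δ * t) ^ 2) * ‖PQ χ₃ X Y t‖ ^ 2 :=
        integral_const_mul _ _
    _ ≤ (R : ℝ) ^ (-(2 * α)) * (C₁ / L) := mul_le_mul_of_nonneg_left hmain hRαn.le
    _ = (C₁ / δ * (Real.log R) ^ 2 * L * (R : ℝ) ^ (-(2 * α))) *
          (δ * (1 / (Real.log R * L)) ^ 2) := by
        field_simp
    _ ≤ 1 * (δ * (1 / (Real.log R * L)) ^ 2) := mul_le_mul_of_nonneg_right hT1 (by positivity)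
    _ = _ := one_mul _

/-- the region where `R` is large -/
theorem coreJ_T3 (θ : ℝ) (hT3 : T3Q θ) (hN : NLV) (a α δ : ℝ) (ha : 1 ≤ a)
    (hα : 0 < α) (hα1 : α ≤ 1) (haα : 2 ≤ a * α) (hθ : 2 * α + 2 / a ≤ θ) (hδ : 0 < δ) (W : ℕ) (hW : 1 ≤ W) :
    ∃ T₀ : ℝ, 1 ≤ T₀ ∧ ∃ X₀ : ℕ, ∀ X : ℕ, X₀ ≤ X → ∀ (χ₁ χ₃ : DirichletCharacter ℂ W) (R : ℕ) (Y Δ : ℝ),
      CJ a X R Y Δ →
      ∫ t in {t : ℝ | T₀ ≤ |t| ∧ |t| ≤ X ∧ (R : ℝ) ^ (-α) ≤ ‖PR χ₁ R t‖},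
        Real.exp (-(Δ * t) ^ 2) * ‖PR χ₁ R t * PQ χ₃ X Y t‖ ^ 2 ≤ δ * (1 / (Real.log R * Real.log X)) ^ 2 := by
  obtain ⟨C₁, hC₁, hPR⟩ := PR_norm_le
  obtain ⟨C₂, hC₂, hPQ⟩ := PQ_norm_le
  have hC₁0 : 0 < C₁ := by linarith
  obtain ⟨T₀, hT₀, X₁, hT3'⟩ := hT3 W hW (δ / (4 * C₁ ^ 2)) (by positivity)
  obtain ⟨X₂, hN'⟩ := hN a (by linarith) (⌈a⌉₊ + 1) α hα hα1
  obtain ⟨X₃, h3⟩ := CJ_large a α 8 ha hα haα
  refine ⟨T₀, hT₀, max X₁ (max X₂ X₃), fun X hX χ₁ χ₃ R Y Δ h => ?_⟩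
  have hX1 : X₁ ≤ X := le_trans (le_max_left _ _) hX
  have hX2 : X₂ ≤ X := le_trans (le_trans (le_max_left _ _) (le_max_right _ _)) hX
  have hX3 : X₃ ≤ X := le_trans (le_trans (le_max_right _ _) (le_max_right _ _)) hX
  obtain ⟨hX64, hL8, hL4, hR8, hR2, hlR, -⟩ := h3 X hX3 R Y Δ h
  have hX1R : (1 : ℝ) ≤ X := by exact_mod_cast (by omega : 1 ≤ X)
  have hL0 : 0 < Real.log X := by linarith
  set S : Set ℝ := {t : ℝ | T₀ ≤ |t| ∧ |t| ≤ X ∧ (R : ℝ) ^ (-α) ≤ ‖PR χ₁ R t‖} with hS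
  have hms : MeasurableSet S := by
    apply MeasurableSet.inter
    · exact measurableSet_le measurable_const continuous_abs.measurable
    · apply MeasurableSet.inter
      · exact measurableSet_le continuous_abs.measurable measurable_const
      · exact measurableSet_le measurable_const (PR_continuous χ₁ _).norm.measurable
  set g : ℝ → ℝ := fun t => ‖PQ χ₃ X Y t‖ ^ 2 with hg
  have hgc : Continuous g := (PQ_continuous χ₃ X Y).norm.pow 2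
  have hg0 : ∀ t, 0 ≤ g t := fun t => by positivity
  have e1 : ∀ t, ‖PR χ₁ R t‖ ≤ C₁ / Real.log R := fun t => hPR W χ₁ R t hR2
  have e3 : ∀ t, ‖PQ χ₃ X Y t‖ ≤ C₂ / Real.log X := fun t => hPQ W χ₃ X Y t (by omega) h.Ylow h.Yup
  have hgM : ∀ t, g t ≤ (C₂ / Real.log X) ^ 2 := fun t =>
    pow_le_pow_left₀ (norm_nonneg _) (e3 t) 2
  obtain ⟨T₁, T₂, hs1, hs2, hm1, hm2, hint⟩ := unit_points S g ((C₂ / Real.log X) ^ 2) X hms
    hgc.measurable hg0 hgM (fun t ht => ht.2.1)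
  have hRB : (R : ℝ) ≤ (Real.log X) ^ (⌈a⌉₊ + 1) := by
    refine h.Rup.trans ?_
    calc (Real.log X) ^ (a + 1) ≤ (Real.log X) ^ ((⌈a⌉₊ + 1 : ℕ) : ℝ) := by
          refine Real.rpow_le_rpow_of_exponent_le (by linarith) ?_
          push_cast
          linarith [Nat.le_ceil a]
      _ = (Real.log X) ^ (⌈a⌉₊ + 1) := Real.rpow_natCast _ _
  have hT : ∀ T : Finset ℝ, Spaced T → (∀ t ∈ T, t ∈ S) →
      ∑ t ∈ T, g t ≤ δ / (4 * C₁ ^ 2) / (Real.log X) ^ 2 := by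
    intro T hsT hmT
    have hcard := hN' X hX2 W χ₁ R h.Rlow hRB T hsT
      (fun t ht => ⟨(hmT t ht).2.1, (hmT t ht).2.2⟩)
    have hcard2 : (#T : ℝ) ≤ (X : ℝ) ^ θ :=
      le_trans hcard (Real.rpow_le_rpow_of_exponent_le hX1R hθ)
    exact hT3' X hX1 χ₃ Y h.Ylow h.Yup T hsT
      (fun t ht => ⟨(hmT t ht).1, (hmT t ht).2.1⟩) hcard2
  have hi1 : Integrable fun t : ℝ => Real.exp (-(Δ * t) ^ 2) *
      ‖PR χ₁ R t * PQ χ₃ X Y t‖ ^ 2 := by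
    have hc1 : Continuous fun t : ℝ => ‖PR χ₁ R t * PQ χ₃ X Y t‖ ^ 2 :=
      ((((PR_continuous χ₁ R).mul (PQ_continuous χ₃ X Y)).norm).pow 2)
    apply gauss_integrable_of_bounded Δ ((C₁ / Real.log R * (C₂ / Real.log X)) ^ 2) h.Dpos _ hc1
    intro t
    rw [abs_of_nonneg (by positivity), norm_mul]
    apply pow_le_pow_left₀ (by positivity)
    exact mul_le_mul (e1 t) (e3 t) (norm_nonneg _) (by positivity)
  set κ : ℝ := (C₁ / Real.log R) ^ 2 with hκ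
  have hκ0 : 0 ≤ κ := sq_nonneg _
  have hi2 : IntegrableOn (fun t : ℝ => κ * g t) S := by
    have hI : IntegrableOn (fun t : ℝ => κ * g t) (Set.Icc (-(X : ℝ)) X) :=
      (continuous_const.mul hgc).integrableOn_Icc
    apply hI.mono_set
    intro t ht
    exact abs_le.mp ht.2.1
  calc ∫ t in S, Real.exp (-(Δ * t) ^ 2) * ‖PR χ₁ R t * PQ χ₃ X Y t‖ ^ 2
      ≤ ∫ t in S, κ * g t := by
        apply setIntegral_mono_on hi1.integrableOn hi2 hms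
        intro t _
        have hexp : Real.exp (-(Δ * t) ^ 2) ≤ 1 := by
          apply Real.exp_le_one_iff.mpr
          have := sq_nonneg (Δ * t)
          linarith
        rw [norm_mul]
        calc Real.exp (-(Δ * t) ^ 2) * (‖PR χ₁ R t‖ * ‖PQ χ₃ X Y t‖) ^ 2
            ≤ 1 * (‖PR χ₁ R t‖ * ‖PQ χ₃ X Y t‖) ^ 2 :=
              mul_le_mul_of_nonneg_right hexp (sq_nonneg _)
          _ = ‖PR χ₁ R t‖ ^ 2 * g t := by
              rw [hg]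
              ring
          _ ≤ κ * g t := by
              apply mul_le_mul_of_nonneg_right _ (hg0 t)
              exact pow_le_pow_left₀ (norm_nonneg _) (e1 t) 2
    _ = κ * ∫ t in S, g t := integral_const_mul _ _
    _ ≤ κ * (2 * (∑ t ∈ T₁, g t + ∑ t ∈ T₂, g t)) := mul_le_mul_of_nonneg_left hint hκ0
    _ ≤ κ * (2 * (δ / (4 * C₁ ^ 2) / (Real.log X) ^ 2 + δ / (4 * C₁ ^ 2) / (Real.log X) ^ 2)) := by
        apply mul_le_mul_of_nonneg_left _ hκ0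
        have f1 := hT T₁ hs1 hm1
        have f2 := hT T₂ hs2 hm2
        linarith
    _ = δ * (1 / (Real.log R * Real.log X)) ^ 2 := by
        rw [hκ]
        field_simp
        ring

private lemma X1_num (L D X : ℝ) (hL : 4 ≤ L) (hX : X = Real.exp L) (hD : 0 < D)
    (hDX : L ≤ D * X) : Real.exp (-((D * X) ^ 2 / 2)) * (3 / D) ≤ 3 / L := by
  have hX0 : 0 < X := by rw [hX]; exact Real.exp_pos _
  have hL0 : 0 < L := by linarith
  have h1 : 1 / D ≤ Real.exp L := by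
    rw [← hX, div_le_iff₀ hD]
    nlinarith
  have h2 : Real.exp (-((D * X) ^ 2 / 2)) ≤ Real.exp (-(L ^ 2 / 2)) := by
    apply Real.exp_le_exp.mpr
    have := pow_le_pow_left₀ hL0.le hDX 2
    linarith
  have h3 : Real.exp (-(L ^ 2 / 2)) * Real.exp L ≤ 1 / L := by
    rw [← Real.exp_add]
    have h4 : -(L ^ 2 / 2) + L ≤ -L := by nlinarith
    have h5 : Real.exp (-L) ≤ 1 / L := by
      rw [Real.exp_neg, ← one_div]
      apply one_div_le_one_div_of_le hL0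
      have := Real.add_one_le_exp L
      linarith
    exact le_trans (Real.exp_le_exp.mpr h4) h5
  calc Real.exp (-((D * X) ^ 2 / 2)) * (3 / D)
      = 3 * (Real.exp (-((D * X) ^ 2 / 2)) * (1 / D)) := by ring
    _ ≤ 3 * (Real.exp (-(L ^ 2 / 2)) * Real.exp L) := by
        apply mul_le_mul_of_nonneg_left _ (by norm_num)
        exact mul_le_mul h2 h1 (by positivity) (Real.exp_pos _).le
    _ ≤ 3 * (1 / L) := mul_le_mul_of_nonneg_left h3 (by norm_num)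
    _ = 3 / L := by ring

/-- the region `|t| > X` -/
theorem coreJ_T4 (a δ : ℝ) (ha : 1 ≤ a) (hδ : 0 < δ) :
    ∃ X₀ : ℕ, ∀ X : ℕ, X₀ ≤ X → ∀ (W : ℕ) (χ₁ χ₃ : DirichletCharacter ℂ W) (R : ℕ) (Y Δ : ℝ),
      CJ a X R Y Δ →
      ∫ t in {t : ℝ | (X : ℝ) < |t|}, Real.exp (-(Δ * t) ^ 2) *
        ‖PR χ₁ R t * PQ χ₃ X Y t‖ ^ 2 ≤ δ * (1 / (Real.log R * Real.log X)) ^ 2 := by
  obtain ⟨C₁, hC₁, hPR⟩ := PR_norm_le
  obtain ⟨C₂, hC₂, hPQ⟩ := PQ_norm_le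
  set M : ℝ := (C₁ * C₂) ^ 2 with hM
  have hM0 : 0 < M := by positivity
  obtain ⟨X₁, h1⟩ := CJ_large a 2 (max 8 (3 * M / δ)) ha (by norm_num) (by linarith)
  refine ⟨X₁, fun X hX W χ₁ χ₃ R Y Δ h => ?_⟩
  obtain ⟨hX64, hLK, hL4, -, hR2, hlR, -⟩ := h1 X hX R Y Δ h
  have hL8 : 8 ≤ Real.log X := le_trans (le_max_left _ _) hLK
  have hLM : 3 * M / δ ≤ Real.log X := le_trans (le_max_right _ _) hLK
  have hX0 : (0 : ℝ) < X := by exact_mod_cast (by omega : 0 < X)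
  have hL0 : 0 < Real.log X := by linarith
  set G : ℝ := (1 / (Real.log R * Real.log X)) ^ 2 with hG
  have hG0 : 0 ≤ G := sq_nonneg _
  have hbd : ∀ t : ℝ, ‖PR χ₁ R t * PQ χ₃ X Y t‖ ^ 2 ≤ M * G := by
    intro t
    have e1 := hPR W χ₁ R t hR2
    have e3 := hPQ W χ₃ X Y t (by omega) h.Ylow h.Yup
    rw [norm_mul]
    calc (‖PR χ₁ R t‖ * ‖PQ χ₃ X Y t‖) ^ 2
        ≤ (C₁ / Real.log R * (C₂ / Real.log X)) ^ 2 := by
          apply pow_le_pow_left₀ (by positivity)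
          exact mul_le_mul e1 e3 (norm_nonneg _) (by positivity)
      _ = M * G := by
          rw [hM, hG]
          field_simp
  have hcont : Continuous fun t : ℝ => ‖PR χ₁ R t * PQ χ₃ X Y t‖ ^ 2 :=
    ((((PR_continuous χ₁ R).mul (PQ_continuous χ₃ X Y)).norm).pow 2)
  have hint := gauss_integrable_of_bounded Δ (M * G) h.Dpos _ hcont (fun t => by
    rw [abs_of_nonneg (by positivity)]
    exact hbd t)
  have hint2 : Integrable (fun t : ℝ => Real.exp (-(Δ * t) ^ 2) * (M * G)) :=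
    gauss_integrable_of_bounded Δ (M * G) h.Dpos _ continuous_const (fun t => by
      rw [abs_of_nonneg (by positivity)])
  have hms : MeasurableSet {t : ℝ | (X : ℝ) < |t|} :=
    measurableSet_lt measurable_const continuous_abs.measurable
  calc ∫ t in {t : ℝ | (X : ℝ) < |t|}, Real.exp (-(Δ * t) ^ 2) *
        ‖PR χ₁ R t * PQ χ₃ X Y t‖ ^ 2
      ≤ ∫ t in {t : ℝ | (X : ℝ) < |t|}, Real.exp (-(Δ * t) ^ 2) * (M * G) := by
        apply setIntegral_mono_on hint.integrableOn hint2.integrableOn hms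
        intro t _
        exact mul_le_mul_of_nonneg_left (hbd t) (Real.exp_pos _).le
    _ = (∫ t in {t : ℝ | (X : ℝ) < |t|}, Real.exp (-(Δ * t) ^ 2)) * (M * G) :=
        integral_mul_const _ _
    _ ≤ (Real.exp (-((Δ * X) ^ 2 / 2)) * (3 / Δ)) * (M * G) :=
        mul_le_mul_of_nonneg_right (gauss_tail Δ X h.Dpos hX0.le) (by positivity)
    _ ≤ (3 / Real.log X) * (M * G) := by
        apply mul_le_mul_of_nonneg_right _ (by positivity)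
        exact X1_num (Real.log X) Δ X (by linarith) (Real.exp_log hX0).symm h.Dpos h.DX
    _ = (3 * M / Real.log X) * G := by ring
    _ ≤ δ * G := by
        apply mul_le_mul_of_nonneg_right _ hG0
        rw [div_le_iff₀ hL0]
        rw [div_le_iff₀ hδ] at hLM
        linarith

private theorem X1_union {F : ℝ → ℝ} (hF : Integrable F) (h0 : ∀ t, 0 ≤ F t) {S A B C : Set ℝ}
    (hS : S ⊆ A ∪ B ∪ C) : ∫ t in S, F t ≤
      (∫ t in A, F t) + (∫ t in B, F t) + (∫ t in C, F t) := by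
  have h1 : (volume.restrict S : Measure ℝ) ≤ volume.restrict A + volume.restrict B +
      volume.restrict C := by
    refine (Measure.restrict_mono_set volume hS).trans ?_
    refine (Measure.restrict_union_le _ _).trans (add_le_add_left ?_ _)
    exact Measure.restrict_union_le _ _
  have hA : Integrable F (volume.restrict A) := hF.integrableOn
  have hB : Integrable F (volume.restrict B) := hF.integrableOn
  have hC : Integrable F (volume.restrict C) := hF.integrableOn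
  refine (integral_mono_measure h1 (Filter.Eventually.of_forall h0)
    ((hA.add_measure hB).add_measure hC)).trans (le_of_eq ?_)
  rw [integral_add_measure (hA.add_measure hB) hC, integral_add_measure hA hB]

/-- COREJ for all large `a` -/
theorem corej_of (θ : ℝ) (hθ : 0 < θ) (hT3 : T3Q θ) (hN : NLV) :
    ∃ a₀ : ℝ, 3 ≤ a₀ ∧ ∀ a : ℝ, a₀ ≤ a → COREJ a := by
  obtain ⟨θ', hθ', hθ'1, hT3'⟩ : ∃ θ' : ℝ, 0 < θ' ∧ θ' ≤ 1 ∧ T3Q θ' :=
    ⟨min θ 1, lt_min hθ one_pos, min_le_right _ _, X1_T3Q_min θ hT3⟩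
  have h32 : 0 < 32 / θ' := by positivity
  refine ⟨32 / θ' + 3, by linarith, fun a ha => ?_⟩
  have ha3 : 3 ≤ a := by linarith
  have hα : 0 < θ' / 8 := by positivity
  have hα1 : θ' / 8 ≤ 1 := by linarith
  have haα : 2 ≤ a * (θ' / 8) := by
    have h1 : 32 / θ' * (θ' / 8) = 4 := by
      field_simp
      norm_num
    have h2 : 32 / θ' * (θ' / 8) ≤ a * (θ' / 8) := mul_le_mul_of_nonneg_right (by linarith) hα.le
    linarith
  have h2a : 2 * (θ' / 8) + 2 / a ≤ θ' := by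
    have h1 : 2 / a ≤ 2 / (32 / θ') := by
      apply div_le_div_of_nonneg_left (by norm_num) h32
      linarith
    have h2 : 2 / (32 / θ') = θ' / 16 := by
      field_simp
      norm_num
    linarith
  intro W hW δ hδ
  have hδ4 : 0 < δ / 4 := by positivity
  obtain ⟨X₁, hX₁⟩ := coreJ_T1 a (θ' / 8) (δ / 4) (by linarith) hα haα hδ4
  obtain ⟨T₀, hT₀, X₃, hX₃⟩ := coreJ_T3 θ' hT3' hN a (θ' / 8) (δ / 4) (by linarith) hα hα1 haα h2a
    hδ4 W hW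
  obtain ⟨X₄, hX₄⟩ := coreJ_T4 a (δ / 4) (by linarith) hδ4
  obtain ⟨X₅, hX₅⟩ := CJ_large a (θ' / 8) 2 (by linarith) hα haα
  obtain ⟨C₁, hC₁, hR⟩ := PR_norm_le
  obtain ⟨C₂, hC₂, hQ⟩ := PQ_norm_le
  refine ⟨T₀, hT₀, max (max X₁ X₃) (max X₄ X₅), ?_⟩
  intro X hX χ₁ χ₃ R h1 h2 Y Δ h4 h5 h6 h7 h8 h9
  simp only [max_le_iff] at hX
  have hCJ : CJ a X R Y Δ := ⟨h1, h2, h4, h5, h6, h7, h8, h9⟩
  obtain ⟨hX64, -, hL4, -, hR2, hlR, -⟩ := hX₅ X hX.2.2 R Y Δ hCJ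
  have hint : Integrable (fun t : ℝ => Real.exp (-(Δ * t) ^ 2) *
      ‖PR χ₁ R t * PQ χ₃ X Y t‖ ^ 2) := by
    refine gauss_integrable_of_bounded Δ ((C₁ / Real.log R * (C₂ / Real.log X)) ^ 2) h6
      (fun t => ‖PR χ₁ R t * PQ χ₃ X Y t‖ ^ 2) ?_ ?_
    · exact ((((PR_continuous χ₁ R).mul (PQ_continuous χ₃ X Y)).norm).pow 2)
    · intro t
      rw [abs_of_nonneg (by positivity)]
      refine pow_le_pow_left₀ (norm_nonneg _) ?_ 2
      rw [norm_mul]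
      have e1 := hR W χ₁ R t hR2
      have e3 := hQ W χ₃ X Y t (by omega) h4 h5
      exact mul_le_mul e1 e3 (norm_nonneg _) ((norm_nonneg _).trans e1)
  have hnn : ∀ t : ℝ, 0 ≤ Real.exp (-(Δ * t) ^ 2) * ‖PR χ₁ R t * PQ χ₃ X Y t‖ ^ 2 :=
    fun t => by positivity
  have hcov : {t : ℝ | T₀ ≤ |t|} ⊆ {t : ℝ | ‖PR χ₁ R t‖ ≤ (R : ℝ) ^ (-(θ' / 8))} ∪
      {t : ℝ | T₀ ≤ |t| ∧ |t| ≤ X ∧ (R : ℝ) ^ (-(θ' / 8)) ≤ ‖PR χ₁ R t‖} ∪ {t : ℝ | (X : ℝ) < |t|} := by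
    intro t ht
    by_cases hc4 : (X : ℝ) < |t|
    · exact Or.inr hc4
    · left
      by_cases hc1 : ‖PR χ₁ R t‖ ≤ (R : ℝ) ^ (-(θ' / 8))
      · exact Or.inl hc1
      · exact Or.inr ⟨ht, not_lt.1 hc4, le_of_lt (not_le.1 hc1)⟩
  have hmain := X1_union hint hnn hcov
  have b1 := hX₁ X hX.1.1 W χ₁ χ₃ R Y Δ hCJ
  have b3 := hX₃ X hX.1.2 χ₁ χ₃ R Y Δ hCJ
  have b4 := hX₄ X hX.2.1 W χ₁ χ₃ R Y Δ hCJ
  have hG0 : 0 ≤ (1 / (Real.log R * Real.log X)) ^ 2 := sq_nonneg _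
  refine hmain.trans ?_
  nlinarith

end Pool.Agent.E3
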