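import Pool.Agent.Lib.MP_bae66e_nt.Mg.G006
import Pool.Agent.Lib.MP_bae66e_nt.Mg.G007

/-!
# W6: from Gaussian windows to intervals around integers, real points
-/

set_option autoImplicit false

namespace Pool.Agent.E3

open Finset MeasureTheory Real

private lemma J6_log {a b : ℝ} (ha : 0 < a) (hab : a ≤ b) :
    (b - a) / b ≤ Real.log b - Real.log a := by
  have hb : 0 < b := by linarith
  have h1 := Real.log_le_sub_one_of_pos (show 0 < a / b by positivity)
  rw [Real.log_div ha.ne' hb.ne'] at h1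
  have h2 : (b - a) / b = 1 - a / b := by
    field_simp
  rw [h2]
  linarith

private lemma J6_mem {H X m : ℕ} (hX : 100 * H ≤ X) (hm : m ∈ Icc X (2 * X)) :
    (X : ℝ) ≤ m ∧ (m : ℝ) ≤ 2 * X ∧ 100 * (H : ℝ) ≤ X := by
  obtain ⟨h1, h2⟩ := Finset.mem_Icc.1 hm
  exact ⟨by exact_mod_cast h1, by exact_mod_cast h2, by exact_mod_cast hX⟩

private lemma J6_exp {H X m : ℕ} {x : ℝ} (hH : 1 ≤ H) (hX : 100 * H ≤ X)
    (hm : m ∈ Icc X (2 * X)) (hx : x ∈ JJ H m) :
    (m : ℝ) - 2 * H / 3 ≤ Real.exp x ∧ Real.exp x ≤ (m : ℝ) - H / 3 := by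
  obtain ⟨h1, h2, h3⟩ := J6_mem hX hm
  have hHr : (1 : ℝ) ≤ H := by exact_mod_cast hH
  obtain ⟨h4, h5⟩ := hx
  exact ⟨(Real.log_le_iff_le_exp (by linarith)).1 h4, (Real.le_log_iff_exp_le (by linarith)).1 h5⟩

theorem JJ_farR (H X m : ℕ) (n x : ℝ) (hH : 1 ≤ H) (hX : 100 * H ≤ X) (hm : m ∈ Icc X (2 * X)) (hn : 0 < n)
    (hx : x ∈ JJ H m) (hnm : ¬ ((m : ℝ) - H ≤ n ∧ n < m)) : (H : ℝ) / (12 * X) ≤ |x - Real.log n| := by
  obtain ⟨h1, h2, h3⟩ := J6_mem hX hm
  obtain ⟨h4, h5⟩ := J6_exp hH hX hm hx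
  have hHr : (1 : ℝ) ≤ H := by exact_mod_cast hH
  have hX0 : (0 : ℝ) < X := by linarith
  have hy0 : 0 < Real.exp x := Real.exp_pos x
  have hb : ∀ b : ℝ, 0 < b → b ≤ 2 * X → (H : ℝ) / (12 * X) ≤ (H / 3) / b := by
    intro b hb0 hb1
    rw [div_le_div_iff₀ (by positivity) hb0]
    nlinarith
  rw [not_and_or, not_le, not_lt] at hnm
  rcases hnm with h6 | h6
  · have h8 : n + H < m := by linarith
    have h9 := J6_log (a := n) (b := Real.exp x) hn (by linarith)
    rw [Real.log_exp] at h9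
    have h10 := hb (Real.exp x) hy0 (by linarith)
    have h11 : (H / 3 : ℝ) / Real.exp x ≤ (Real.exp x - n) / Real.exp x :=
      div_le_div_of_nonneg_right (by linarith) hy0.le
    exact (h10.trans (h11.trans h9)).trans (le_abs_self _)
  · have h7 : (m : ℝ) ≤ n := h6
    have h8 : Real.log m ≤ Real.log n := Real.log_le_log (by linarith) h7
    have h9 := J6_log (a := Real.exp x) (b := (m : ℝ)) hy0 (by linarith)
    rw [Real.log_exp] at h9
    have h10 := hb (m : ℝ) (by linarith) h2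
    have h11 : (H / 3 : ℝ) / m ≤ (m - Real.exp x) / m :=
      div_le_div_of_nonneg_right (by linarith) (by linarith)
    rw [abs_sub_comm]
    exact (h10.trans (h11.trans (h9.trans (by linarith)))).trans (le_abs_self _)

private theorem J6_gsn_nonneg (L v : ℝ) (hL : 0 < L) : 0 ≤ gsn L v := by
  unfold gsn; positivity

private theorem J6_sqrt_two_pi : Real.sqrt (2 * π) ≤ 2.574 := by
  rw [Real.sqrt_le_left (by norm_num)]
  have := Real.pi_lt_d4
  linarith

private theorem J6_sqrt_two : Real.sqrt 2 * Real.sqrt (2 * π) ≤ 4 := by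
  rw [← Real.sqrt_mul (by norm_num), Real.sqrt_le_left (by norm_num)]
  have := Real.pi_lt_d4
  linarith

open Classical in
/-- PROOF. Let `d = H/(K X)`, `S x = ∑ (u/n) gsn d (x - log n)`, and let `G x = exp (- K²/576) ∑ (u/n) √2 gsn (√2 d) (x - log n)`; by
`gsn_integral` `∫ G ≤ exp (- K²/576) √2 √(2π) M ≤ 4 exp (- K²/576) M`. For `m` in `[X, 2X]` let `U m` be the sum of the `u p`
with `n p ∈ [m - H, m)`. For `x ∈ J_m` the terms of `S x` with `n p ∉ [m - H, m)` add up to at most `G x`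
(`JJ_far`: `|x - log n| ≥ H/(12X) = K d/12`, `gsn_far`), and the integral over `J_m` of the others is `≤ √(2π) ∑ u p/n p`
`≤ (2.6/X) U m` (`n p ≥ X - H ≥ 0.99 X`). With `JJ_len` and `hlow` (on `J_m ⊆ [log X - 1, log X + 1]`):
`H B/(6X) ≤ B |J_m| ≤ (2.6/X) U m + ∫_{J_m} G + ∫_{J_m} E`. If both last integrals are `< H B/(24X)` then
`U m > H B/(12 · 2.6) ≥ H B/50`. So the bad `m` are in the two sets of `markov_JJ` for `g = G` and `g = E`:
their number is `≤ (32 X/B)(4 exp (- K²/576) M + η)`. -/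
theorem win_to_mR {ι : Type} (P : Finset ι) (n : ι → ℝ) (u : ι → ℝ) (H X : ℕ) (K B η M : ℝ) (E : ℝ → ℝ)
    (hn : ∀ p ∈ P, 0 < n p) (hu : ∀ p ∈ P, 0 ≤ u p) (hH : 1 ≤ H) (hX : 100 * H ≤ X) (hK : 1 ≤ K) (hB : 0 < B)
    (hE : ∀ x, 0 ≤ E x) (hEi : IntegrableOn E (Set.Icc (Real.log X - 1) (Real.log X + 1)))
    (hEη : ∫ x in Set.Icc (Real.log X - 1) (Real.log X + 1), E x ≤ η)
    (hM : ∑ p ∈ P, u p / n p ≤ M)
    (hlow : ∀ x ∈ Set.Icc (Real.log X - 1) (Real.log X + 1),
      B ≤ ∑ p ∈ P, u p / n p * gsn (H / (K * X)) (x - Real.log (n p)) + E x) :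
    (#{m ∈ Icc X (2 * X) | ∑ p ∈ P with ((m : ℕ) : ℝ) - H ≤ n p ∧ n p < (m : ℕ), u p < H * B / 50} : ℝ)
      ≤ X / B * (32 * η + 130 * Real.exp (-(K ^ 2 / 576)) * M) := by
  set I : Set ℝ := Set.Icc (Real.log X - 1) (Real.log X + 1) with hI
  have hH0 : (0 : ℝ) < H := by exact_mod_cast hH
  have hX100 : (100 : ℝ) * H ≤ X := by exact_mod_cast hX
  have hX0 : (0 : ℝ) < X := by linarith
  have hK0 : 0 < K := by linarith
  set d : ℝ := (H : ℝ) / (K * X) with hd
  have hd0 : 0 < d := by positivity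
  have hKd : K * d / 12 = (H : ℝ) / (12 * X) := by
    rw [hd]
    field_simp
  set ex : ℝ := Real.exp (-(K ^ 2 / 576)) with hex
  have hex0 : 0 < ex := Real.exp_pos _
  have hs2 : (0 : ℝ) < Real.sqrt 2 := Real.sqrt_pos.mpr (by norm_num)
  have hsd0 : 0 < Real.sqrt 2 * d := by positivity
  set G : ℝ → ℝ := fun x => ex * ∑ p ∈ P, u p / n p * (Real.sqrt 2 * gsn (Real.sqrt 2 * d) (x - Real.log (n p))) with hG
  have hun : ∀ p ∈ P, 0 ≤ u p / n p := fun p hp => div_nonneg (hu p hp) (hn p hp).le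
  have hG0 : ∀ x, 0 ≤ G x := by
    intro x
    refine mul_nonneg hex0.le (Finset.sum_nonneg fun p hp => mul_nonneg (hun p hp) ?_)
    exact mul_nonneg hs2.le (J6_gsn_nonneg _ _ hsd0)
  have hGt : ∀ p ∈ P, Integrable (fun x : ℝ => u p / n p * (Real.sqrt 2 * gsn (Real.sqrt 2 * d) (x - Real.log (n p)))) :=
    fun p _ => ((gsn_integral (Real.sqrt 2 * d) (Real.log (n p)) hsd0).1.const_mul _).const_mul _
  have hGi : Integrable G := (integrable_finsetSum _ hGt).const_mul ex
  have hGint : ∫ x, G x ≤ 4 * ex * M := by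
    simp only [hG]
    rw [integral_const_mul, integral_finsetSum _ hGt]
    have h1 : ∀ p ∈ P, ∫ x : ℝ, u p / n p * (Real.sqrt 2 * gsn (Real.sqrt 2 * d) (x - Real.log (n p)))
        = u p / n p * (Real.sqrt 2 * Real.sqrt (2 * π)) := by
      intro p _
      rw [integral_const_mul, integral_const_mul, (gsn_integral (Real.sqrt 2 * d) (Real.log (n p)) hsd0).2]
    rw [Finset.sum_congr rfl h1, ← Finset.sum_mul]
    have hs0 : 0 ≤ ∑ p ∈ P, u p / n p := Finset.sum_nonneg hun
    calc ex * ((∑ p ∈ P, u p / n p) * (Real.sqrt 2 * Real.sqrt (2 * π)))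
        ≤ ex * ((∑ p ∈ P, u p / n p) * 4) := by
          have := J6_sqrt_two
          gcongr
      _ ≤ ex * (M * 4) := by gcongr
      _ = _ := by ring
  have hGI : ∫ x in I, G x ≤ 4 * ex * M :=
    (setIntegral_le_integral hGi (Filter.Eventually.of_forall hG0)).trans hGint
  -- the key inequality for one m
  have key : ∀ m ∈ Icc X (2 * X), (H : ℝ) * B / (6 * X)
      ≤ 2.6 / X * (∑ p ∈ P with ((m : ℕ) : ℝ) - H ≤ n p ∧ n p < (m : ℕ), u p) + (∫ x in JJ H m, G x) + ∫ x in JJ H m, E x := by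
    intro m hm
    have hmX : X ≤ m := (Finset.mem_Icc.mp hm).1
    have hJI := JJ_sub H X m hH hX hm
    have hJm : MeasurableSet (JJ H m) := measurableSet_Icc
    set Q := P.filter (fun p => ((m : ℕ) : ℝ) - H ≤ n p ∧ n p < (m : ℕ)) with hQ
    set N : ℝ → ℝ := fun x => ∑ p ∈ Q, u p / n p * gsn d (x - Real.log (n p)) with hN
    have hNt : ∀ p ∈ Q, Integrable (fun x : ℝ => u p / n p * gsn d (x - Real.log (n p))) :=
      fun p _ => (gsn_integral d (Real.log (n p)) hd0).1.const_mul _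
    have hNi : Integrable N := integrable_finsetSum _ hNt
    have hN0 : ∀ x, 0 ≤ N x := fun x => Finset.sum_nonneg fun p hp =>
      mul_nonneg (hun p (Finset.mem_filter.mp hp).1) (J6_gsn_nonneg _ _ hd0)
    have hNint : ∫ x in JJ H m, N x ≤ 2.6 / X * ∑ p ∈ Q, u p := by
      refine (setIntegral_le_integral hNi (Filter.Eventually.of_forall hN0)).trans ?_
      simp only [hN]
      rw [integral_finsetSum _ hNt, Finset.mul_sum]
      refine Finset.sum_le_sum fun p hp => ?_
      rw [integral_const_mul, (gsn_integral d (Real.log (n p)) hd0).2]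
      rw [hQ, Finset.mem_filter] at hp
      have hup := hu p hp.1
      have hnp : (0.99 : ℝ) * X ≤ n p := by
        have h2 : (m : ℝ) ≤ n p + H := by linarith [hp.2.1]
        have h3 : (X : ℝ) ≤ m := by exact_mod_cast hmX
        linarith
      have hnp0 : (0 : ℝ) < n p := by
        have : (0 : ℝ) < 0.99 * X := by positivity
        linarith
      calc u p / n p * Real.sqrt (2 * π) ≤ u p / (0.99 * X) * 2.574 := by
            have := J6_sqrt_two_pi
            gcongr
        _ = 2.6 / X * u p := by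
            field_simp
            ring
    have hpt : ∀ x ∈ JJ H m, B ≤ N x + G x + E x := by
      intro x hx
      refine (hlow x (hJI hx)).trans ?_
      have h1 : ∑ p ∈ P, u p / n p * gsn d (x - Real.log (n p)) ≤ N x + G x := by
        rw [← Finset.sum_filter_add_sum_filter_not P (fun p => ((m : ℕ) : ℝ) - H ≤ n p ∧ n p < (m : ℕ))]
        refine add_le_add le_rfl ?_
        simp only [hG]
        rw [Finset.mul_sum]
        refine le_trans (Finset.sum_le_sum (g := fun p => ex * (u p / n p * (Real.sqrt 2 * gsn (Real.sqrt 2 * d) (x - Real.log (n p))))) ?_) ?_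
        · intro p hp
          rw [Finset.mem_filter] at hp
          have hfar := JJ_farR H X m (n p) x hH hX hm (hn p hp.1) hx hp.2
          have h2 := gsn_far d K (x - Real.log (n p)) hd0 hK0.le (by rw [hKd]; exact hfar)
          calc u p / n p * gsn d (x - Real.log (n p))
              ≤ u p / n p * (ex * (Real.sqrt 2 * gsn (Real.sqrt 2 * d) (x - Real.log (n p)))) :=
                mul_le_mul_of_nonneg_left h2 (hun p hp.1)
            _ = _ := by ring
        · refine Finset.sum_le_sum_of_subset_of_nonneg (Finset.filter_subset _ _) fun p hp _ => ?_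
          exact mul_nonneg hex0.le (mul_nonneg (hun p hp) (mul_nonneg hs2.le (J6_gsn_nonneg _ _ hsd0)))
      linarith
    have hEJ : IntegrableOn E (JJ H m) := hEi.mono_set hJI
    have hNJ : IntegrableOn N (JJ H m) := hNi.integrableOn
    have hGJ : IntegrableOn G (JJ H m) := hGi.integrableOn
    have hlen := JJ_len H X m hH hX hm
    have hvol : volume.real (JJ H m) = Real.log ((m : ℝ) - H / 3) - Real.log ((m : ℝ) - 2 * H / 3) := by
      unfold JJ
      rw [Real.volume_real_Icc_of_le]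
      have : (0 : ℝ) < (H : ℝ) / (6 * X) := by positivity
      linarith
    have hBint : B * volume.real (JJ H m) ≤ ∫ x in JJ H m, (N x + G x + E x) := by
      have h1 : ∫ _x in JJ H m, B = B * volume.real (JJ H m) := by
        rw [setIntegral_const, smul_eq_mul, mul_comm]
      rw [← h1]
      refine setIntegral_mono_on ?_ ((hNJ.add hGJ).add hEJ) hJm hpt
      refine integrableOn_const ?_
      unfold JJ
      simp
    have hsplit : ∫ x in JJ H m, (N x + G x + E x)
        = (∫ x in JJ H m, N x) + (∫ x in JJ H m, G x) + ∫ x in JJ H m, E x := by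
      have hNG : IntegrableOn (fun x => N x + G x) (JJ H m) := hNJ.add hGJ
      rw [integral_add hNG hEJ, integral_add hNJ hGJ]
    have h2 : (H : ℝ) * B / (6 * X) ≤ B * volume.real (JJ H m) := by
      rw [hvol]
      calc (H : ℝ) * B / (6 * X) = B * ((H : ℝ) / (6 * X)) := by ring
        _ ≤ _ := mul_le_mul_of_nonneg_left hlen hB.le
    linarith
  -- the bad set
  have hsub : ({m ∈ Icc X (2 * X) | ∑ p ∈ P with ((m : ℕ) : ℝ) - H ≤ n p ∧ n p < (m : ℕ), u p < H * B / 50} : Finset ℕ)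
      ⊆ {m ∈ Icc X (2 * X) | (H : ℝ) * B / (24 * X) ≤ ∫ x in JJ H m, G x}
        ∪ {m ∈ Icc X (2 * X) | (H : ℝ) * B / (24 * X) ≤ ∫ x in JJ H m, E x} := by
    intro m hm
    rw [Finset.mem_filter] at hm
    rw [Finset.mem_union, Finset.mem_filter, Finset.mem_filter]
    by_contra hcon
    push Not at hcon
    have h1 := hcon.1 hm.1
    have h2 := hcon.2 hm.1
    have h3 := key m hm.1
    have h4 : 2.6 / (X : ℝ) * (∑ p ∈ P with ((m : ℕ) : ℝ) - H ≤ n p ∧ n p < (m : ℕ), u p) ≤ 2.6 / X * (H * B / 50) :=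
      mul_le_mul_of_nonneg_left hm.2.le (by positivity)
    have h5 : 2.6 / (X : ℝ) * (H * B / 50) = 0.052 * (H * B / X) := by ring
    have h6 : (H : ℝ) * B / (24 * X) = 1 / 24 * (H * B / X) := by field_simp
    have h7 : (H : ℝ) * B / (6 * X) = 1 / 6 * (H * B / X) := by field_simp
    have h8 : 0 < (H : ℝ) * B / X := by positivity
    rw [h6] at h1 h2
    rw [h7] at h3
    rw [h5] at h4
    linarith
  have hc1 := markov_JJ H X G B hH hX hB hG0 hGi.integrableOn
  have hc2 := markov_JJ H X E B hH hX hB hE hEi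
  have hcard : (#{m ∈ Icc X (2 * X) | ∑ p ∈ P with ((m : ℕ) : ℝ) - H ≤ n p ∧ n p < (m : ℕ), u p < H * B / 50} : ℝ)
      ≤ (#{m ∈ Icc X (2 * X) | (H : ℝ) * B / (24 * X) ≤ ∫ x in JJ H m, G x} : ℝ)
        + (#{m ∈ Icc X (2 * X) | (H : ℝ) * B / (24 * X) ≤ ∫ x in JJ H m, E x} : ℝ) := by
    exact_mod_cast (Finset.card_le_card hsub).trans (Finset.card_union_le _ _)
  have hXB : 0 < 32 * (X : ℝ) / B := by positivity
  have hM0 : 0 ≤ M := le_trans (Finset.sum_nonneg hun) hM
  calc _ ≤ 32 * (X : ℝ) / B * (4 * ex * M) + 32 * (X : ℝ) / B * η := by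
        have h1 := mul_le_mul_of_nonneg_left hGI hXB.le
        have h2 := mul_le_mul_of_nonneg_left hEη hXB.le
        linarith
    _ = X / B * (32 * η + 128 * ex * M) := by ring
    _ ≤ _ := by
        gcongr
        norm_num

end Pool.Agent.E3
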