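import Mathlib

/-!
# F1: the local density of the W-model
-/

set_option autoImplicit false

namespace Pool.Agent.E3

open Finset

/-- PROOF. Chinese remainder: `v ↦ (v % M, v % p)` is a bijection from `range (M * p)` onto `range M ×ˢ range p` (`M`, `p` coprime,
positive), `P v ↔ P (v % M)` and `Q v ↔ Q (v % p)`. -/
theorem card_crt (M p : ℕ) (hM : 0 < M) (hp : 0 < p) (hc : Nat.Coprime M p) (P Q : ℕ → Prop)
    [DecidablePred P] [DecidablePred Q] (hP : ∀ v, P v ↔ P (v % M)) (hQ : ∀ v, Q v ↔ Q (v % p)) :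
    #{v ∈ range (M * p) | P v ∧ Q v} = #{v ∈ range M | P v} * #{v ∈ range p | Q v} := by
  rw [← Finset.card_product]
  refine Finset.card_bij (fun v _ => (v % M, v % p)) ?_ ?_ ?_
  · intro v hv
    rw [Finset.mem_filter] at hv
    rw [Finset.mem_product, Finset.mem_filter, Finset.mem_filter, Finset.mem_range,
      Finset.mem_range]
    exact ⟨⟨Nat.mod_lt _ hM, (hP v).1 hv.2.1⟩, ⟨Nat.mod_lt _ hp, (hQ v).1 hv.2.2⟩⟩
  · intro v hv v' hv' h
    rw [Finset.mem_filter, Finset.mem_range] at hv hv'
    obtain ⟨h1, h2⟩ := Prod.mk.inj h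
    have h3 : v ≡ v' [MOD M * p] := (Nat.modEq_and_modEq_iff_modEq_mul hc).1 ⟨h1, h2⟩
    exact Nat.ModEq.eq_of_lt_of_lt h3 hv.1 hv'.1
  · rintro ⟨a, b⟩ hab
    rw [Finset.mem_product, Finset.mem_filter, Finset.mem_filter, Finset.mem_range,
      Finset.mem_range] at hab
    obtain ⟨⟨ha, hPa⟩, hb, hQb⟩ := hab
    have h1 := (Nat.chineseRemainder hc a b).2
    have h2 := Nat.chineseRemainder_lt_mul hc a b hM.ne' hp.ne'
    have h3 : (Nat.chineseRemainder hc a b : ℕ) % M = a := by
      have := h1.1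
      unfold Nat.ModEq at this
      rw [this]
      exact Nat.mod_eq_of_lt ha
    have h4 : (Nat.chineseRemainder hc a b : ℕ) % p = b := by
      have := h1.2
      unfold Nat.ModEq at this
      rw [this]
      exact Nat.mod_eq_of_lt hb
    refine ⟨(Nat.chineseRemainder hc a b : ℕ), ?_, ?_⟩
    · rw [Finset.mem_filter, Finset.mem_range]
      refine ⟨h2, ?_, ?_⟩
      · rw [hP, h3]
        exact hPa
      · rw [hQ, h4]
        exact hQb
    · rw [h3, h4]

/-- PROOF. `v` and `m - v` are both not divisible by `p`: the residues `0` and `m` modulo `p` are excluded; they coincide iff `p ∣ m`. For `p = 2`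
and `m` even the count is `1 = p - 1`. -/
theorem card_local (p m : ℕ) (hp : p.Prime) (hm : Even m) :
    ((if p = 2 then 1 else p - 2 : ℕ) : ℝ)
      ≤ #{v ∈ range p | Nat.Coprime v p ∧ IsCoprime ((m : ℤ) - (v : ℤ)) (p : ℤ)} := by
  by_cases h2 : p = 2
  · subst h2
    rw [if_pos rfl]
    have h1 : 1 ∈ (range 2).filter (fun v => Nat.Coprime v 2 ∧
        IsCoprime ((m : ℤ) - (v : ℤ)) ((2 : ℕ) : ℤ)) := by
      rw [Finset.mem_filter]
      refine ⟨by simp, by norm_num, ?_⟩
      obtain ⟨k, hk⟩ := hm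
      rw [hk]
      refine ⟨-1, k, ?_⟩
      push_cast
      ring
    have h3 : 1 ≤ #{v ∈ range 2 | Nat.Coprime v 2 ∧ IsCoprime ((m : ℤ) - (v : ℤ)) ((2 : ℕ) : ℤ)} :=
      Finset.card_pos.2 ⟨1, h1⟩
    exact_mod_cast h3
  · rw [if_neg h2]
    have h1 : range p \ {0, m % p} ⊆ (range p).filter (fun v => Nat.Coprime v p ∧
        IsCoprime ((m : ℤ) - (v : ℤ)) (p : ℤ)) := by
      intro v hv
      rw [Finset.mem_sdiff, Finset.mem_range, Finset.mem_insert, Finset.mem_singleton,
        not_or] at hv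
      obtain ⟨hvp, hv0, hvm⟩ := hv
      rw [Finset.mem_filter, Finset.mem_range]
      refine ⟨hvp, ?_, ?_⟩
      · rw [Nat.coprime_comm, hp.coprime_iff_not_dvd]
        intro h
        exact hv0 (Nat.eq_zero_of_dvd_of_lt h hvp)
      · rw [isCoprime_comm]
        have hpi : Prime (p : ℤ) := Nat.prime_iff_prime_int.1 hp
        rw [hpi.coprime_iff_not_dvd]
        intro h
        apply hvm
        have h3 : (v : ℤ) ≡ m [ZMOD p] := (Int.modEq_iff_dvd).2 h
        have h4 : v ≡ m [MOD p] := (Int.natCast_modEq_iff).1 h3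
        have h5 : v % p = m % p := h4
        rw [Nat.mod_eq_of_lt hvp] at h5
        exact h5
    have h3 : p - 2 ≤ #(range p \ {0, m % p}) := by
      have h4 := Finset.le_card_sdiff ({0, m % p} : Finset ℕ) (range p)
      rw [Finset.card_range] at h4
      have h5 : #({0, m % p} : Finset ℕ) ≤ 2 := Finset.card_le_two
      omega
    exact_mod_cast h3.trans (Finset.card_le_card h1)

private theorem F1_twin (w : ℕ) (hw : 2 ≤ w) : (w : ℝ) / (2 * ((w : ℝ) - 1)) ≤
    ∏ p ∈ (range (w + 1)).filter (fun p => p.Prime ∧ 2 < p), (1 - 1 / ((p : ℝ) - 1) ^ 2) := by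
  induction w, hw using Nat.le_induction with
  | base =>
    have h1 : (range (2 + 1)).filter (fun p => p.Prime ∧ 2 < p) = ∅ := by
      rw [Finset.filter_eq_empty_iff]
      intro p hp
      rw [Finset.mem_range] at hp
      omega
    rw [h1, Finset.prod_empty]
    norm_num
  | succ w hw ih =>
    have hw2 : (2 : ℝ) ≤ w := by exact_mod_cast hw
    rw [Finset.range_add_one, Finset.filter_insert]
    split_ifs with h
    · rw [Finset.prod_insert (by simp)]
      push_cast
      have hw0 : (w : ℝ) ≠ 0 := by linarith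
      have h1 : (1 : ℝ) - 1 / ((w : ℝ) + 1 - 1) ^ 2 = ((w : ℝ) - 1) * (w + 1) / w ^ 2 := by
        rw [add_sub_cancel_right]
        field_simp
        ring
      have h2 : 0 ≤ ((w : ℝ) - 1) * (w + 1) / w ^ 2 := by
        have : 0 ≤ (w : ℝ) - 1 := by linarith
        positivity
      rw [h1]
      have h3 : ((w : ℝ) + 1) / (2 * ((w : ℝ) + 1 - 1)) =
          ((w : ℝ) - 1) * (w + 1) / w ^ 2 * ((w : ℝ) / (2 * ((w : ℝ) - 1))) := by
        have h4 : (w : ℝ) - 1 ≠ 0 := by linarith
        rw [add_sub_cancel_right]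
        field_simp
      rw [h3]
      exact mul_le_mul_of_nonneg_left ih h2
    · refine le_trans ?_ ih
      push_cast
      have h4 : 0 < (w : ℝ) - 1 := by linarith
      rw [div_le_div_iff₀ (by linarith) (by linarith)]
      nlinarith

/-- PROOF. The factors are `1 - 1/(p-1)²` with distinct `p - 1 ≥ 2`, so the product is at least
`∏_{k=2}^{w} (1 - 1/k²) = (w+1)/(2w) ≥ 1/2`. (All factors are in `(0, 1]`; `∏_{k ∈ S} ≥ ∏_{k ∈ [2, w]}`.) -/
theorem twin_prod_ge (w : ℕ) : (1 / 2 : ℝ) ≤
    ∏ p ∈ (range (w + 1)).filter (fun p => p.Prime ∧ 2 < p), (1 - 1 / ((p : ℝ) - 1) ^ 2) := by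
  rcases Nat.lt_or_ge w 2 with hw | hw
  · have h1 : (range (w + 1)).filter (fun p => p.Prime ∧ 2 < p) = ∅ := by
      rw [Finset.filter_eq_empty_iff]
      intro p hp
      rw [Finset.mem_range] at hp
      omega
    rw [h1, Finset.prod_empty]
    norm_num
  · refine le_trans ?_ (F1_twin w hw)
    have hw2 : (2 : ℝ) ≤ w := by exact_mod_cast hw
    rw [div_le_div_iff₀ (by norm_num) (by linarith)]
    linarith

private theorem F1_primorial_succ (w : ℕ) : primorial (w + 1) =
    (if (w + 1).Prime then primorial w * (w + 1) else primorial w) := by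
  unfold primorial
  rw [Finset.range_add_one, Finset.filter_insert]
  split_ifs with h
  · rw [Finset.prod_insert (by simp), mul_comm]
  · rfl

open Classical in
private theorem F1_main (w m : ℕ) (hw : 2 ≤ w) (hm : Even m) :
    ((Nat.totient (primorial w) : ℝ)) ^ 2 / (primorial w : ℝ) * (2 *
      ∏ p ∈ (range (w + 1)).filter (fun p => p.Prime ∧ 2 < p), (1 - 1 / ((p : ℝ) - 1) ^ 2))
      ≤ #{v ∈ range (primorial w) | Nat.Coprime v (primorial w) ∧
          IsCoprime ((m : ℤ) - (v : ℤ)) (primorial w : ℤ)} := by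
  induction w, hw using Nat.le_induction with
  | base =>
    have h1 : (range (2 + 1)).filter (fun p => p.Prime ∧ 2 < p) = ∅ := by
      rw [Finset.filter_eq_empty_iff]
      intro p hp
      rw [Finset.mem_range] at hp
      omega
    have h2 : primorial 2 = 2 := by decide
    rw [h1, Finset.prod_empty, h2]
    have h3 := card_local 2 m Nat.prime_two hm
    rw [if_pos rfl] at h3
    rw [Nat.totient_two]
    push_cast at h3 ⊢
    refine le_trans (by norm_num) h3
  | succ w hw ih =>
    by_cases hp : (w + 1).Prime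
    · have hprim : primorial (w + 1) = primorial w * (w + 1) := by
        rw [F1_primorial_succ, if_pos hp]
      have hM : 0 < primorial w := primorial_pos w
      have hcop : Nat.Coprime (primorial w) (w + 1) := by
        unfold primorial
        refine Nat.Coprime.prod_left fun q hq => ?_
        rw [Finset.mem_filter, Finset.mem_range] at hq
        exact (Nat.coprime_primes hq.2 hp).2 (by omega)
      have hw2 : (2 : ℝ) ≤ w := by exact_mod_cast hw
      have hp2 : w + 1 ≠ 2 := by omega
      -- the product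
      have hprod : ∏ p ∈ (range (w + 1 + 1)).filter (fun p => p.Prime ∧ 2 < p),
          (1 - 1 / ((p : ℝ) - 1) ^ 2) = (1 - 1 / (w : ℝ) ^ 2) *
          ∏ p ∈ (range (w + 1)).filter (fun p => p.Prime ∧ 2 < p),
            (1 - 1 / ((p : ℝ) - 1) ^ 2) := by
        rw [Finset.range_add_one, Finset.filter_insert, if_pos ⟨hp, by omega⟩,
          Finset.prod_insert (by simp)]
        congr 1
        push_cast
        ring
      -- the count
      have hcount : #{v ∈ range (primorial (w + 1)) | Nat.Coprime v (primorial (w + 1)) ∧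
          IsCoprime ((m : ℤ) - (v : ℤ)) (primorial (w + 1) : ℤ)} =
          #{v ∈ range (primorial w) | Nat.Coprime v (primorial w) ∧
            IsCoprime ((m : ℤ) - (v : ℤ)) (primorial w : ℤ)} *
          #{v ∈ range (w + 1) | Nat.Coprime v (w + 1) ∧
            IsCoprime ((m : ℤ) - (v : ℤ)) ((w + 1 : ℕ) : ℤ)} := by
        have key : ∀ (M : ℕ) (v : ℕ), (Nat.Coprime v M ∧ IsCoprime ((m : ℤ) - (v : ℤ)) (M : ℤ)) ↔
            (Nat.Coprime (v % M) M ∧ IsCoprime ((m : ℤ) - ((v % M : ℕ) : ℤ)) (M : ℤ)) := by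
          intro M v
          have h1 : Nat.Coprime v M ↔ Nat.Coprime (v % M) M := by
            unfold Nat.Coprime
            rw [Nat.gcd_comm v M, Nat.gcd_rec M v]
          have h2 : (m : ℤ) - (v : ℤ) = ((m : ℤ) - ((v % M : ℕ) : ℤ)) + (M : ℤ) * (-((v / M : ℕ) : ℤ)) := by
            have h3 : (v : ℤ) = ((v % M : ℕ) : ℤ) + (M : ℤ) * ((v / M : ℕ) : ℤ) := by
              exact_mod_cast (Nat.mod_add_div v M).symm
            linarith
          rw [h1, h2, IsCoprime.add_mul_left_left_iff]
        have h1 := card_crt (primorial w) (w + 1) hM (by omega) hcop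
          (fun v => Nat.Coprime v (primorial w) ∧ IsCoprime ((m : ℤ) - (v : ℤ)) (primorial w : ℤ))
          (fun v => Nat.Coprime v (w + 1) ∧ IsCoprime ((m : ℤ) - (v : ℤ)) ((w + 1 : ℕ) : ℤ))
          (key (primorial w)) (key (w + 1))
        rw [← h1, hprim]
        congr 1
        refine Finset.filter_congr fun v _ => ?_
        rw [Nat.coprime_mul_iff_right, Nat.cast_mul, IsCoprime.mul_right_iff]
        tauto
      have hloc := card_local (w + 1) m hp hm
      rw [if_neg hp2] at hloc
      have hloc' : (w : ℝ) - 1 ≤ #{v ∈ range (w + 1) | Nat.Coprime v (w + 1) ∧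
            IsCoprime ((m : ℤ) - (v : ℤ)) ((w + 1 : ℕ) : ℤ)} := by
        refine le_trans (le_of_eq ?_) hloc
        rw [show w + 1 - 2 = w - 1 from rfl, Nat.cast_sub (by omega : 1 ≤ w)]
        push_cast
        ring
      rw [hcount, hprod, hprim, Nat.totient_mul hcop, Nat.totient_prime hp, Nat.cast_mul,
        Nat.cast_mul, Nat.add_sub_cancel, Nat.cast_mul]
      have hMr : (0 : ℝ) < primorial w := by exact_mod_cast hM
      have hw1 : (0 : ℝ) < (w : ℝ) := by linarith
      have hident : ((Nat.totient (primorial w) : ℝ) * (w : ℝ)) ^ 2 /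
          ((primorial w : ℝ) * ((w + 1 : ℕ) : ℝ)) * (2 * ((1 - 1 / (w : ℝ) ^ 2) *
          ∏ p ∈ (range (w + 1)).filter (fun p => p.Prime ∧ 2 < p),
            (1 - 1 / ((p : ℝ) - 1) ^ 2))) =
          (((Nat.totient (primorial w) : ℝ)) ^ 2 / (primorial w : ℝ) * (2 *
      ∏ p ∈ (range (w + 1)).filter (fun p => p.Prime ∧ 2 < p), (1 - 1 / ((p : ℝ) - 1) ^ 2))) *
          ((w : ℝ) - 1) := by
        push_cast
        field_simp
        ring
      rw [hident]
      exact mul_le_mul ih hloc' (by linarith) (Nat.cast_nonneg _)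
    · have hprim : primorial (w + 1) = primorial w := by
        rw [F1_primorial_succ, if_neg hp]
      have hfil : (range (w + 1 + 1)).filter (fun p => p.Prime ∧ 2 < p) =
          (range (w + 1)).filter (fun p => p.Prime ∧ 2 < p) := by
        rw [Finset.range_add_one, Finset.filter_insert, if_neg (fun h => hp h.1)]
      rw [hprim, hfil]
      exact ih

/-- PROOF. Induction on `w` (`primorial_succ`: a new prime `p = w + 1` is coprime to `primorial w`), `card_crt` with
`P v = (v coprime to M and m - v coprime to M)` and `Q` the same for `p` (coprimality to `M p` is coprimality to both), `card_local`. So the count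
is at least `∏_{p ≤ w} ν_p`, `ν_2 = 1`, `ν_p = p - 2`. And `φ(W)²/W = ∏_{p ≤ w} (p-1)²/p`; the quotient of the two products is
`2 ∏_{2 < p ≤ w} (p-2) p/(p-1)² = 2 ∏ (1 - 1/(p-1)²) ≥ 1` (`twin_prod_ge`) for `w ≥ 2`. -/
theorem card_classes (w m : ℕ) (hw : 2 ≤ w) (hm : Even m) :
    ((Nat.totient (primorial w) : ℝ)) ^ 2 / (primorial w : ℝ)
      ≤ #{v ∈ range (primorial w) | Nat.Coprime v (primorial w) ∧
          IsCoprime ((m : ℤ) - (v : ℤ)) (primorial w : ℤ)} := by
  have h1 := F1_main w m hw hm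
  have h2 := twin_prod_ge w
  have h3 : 0 ≤ ((Nat.totient (primorial w) : ℝ)) ^ 2 / (primorial w : ℝ) := by positivity
  have h4 : ((Nat.totient (primorial w) : ℝ)) ^ 2 / (primorial w : ℝ) ≤
      ((Nat.totient (primorial w) : ℝ)) ^ 2 / (primorial w : ℝ) * (2 *
      ∏ p ∈ (range (w + 1)).filter (fun p => p.Prime ∧ 2 < p), (1 - 1 / ((p : ℝ) - 1) ^ 2)) := by
    apply le_mul_of_one_le_right h3
    linarith
  refine h4.trans (h1.trans (le_of_eq ?_))
  congr!

end Pool.Agent.E3
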