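import Pool.Agent.Lib.MP_bae66e_nt.Mg.G104
import Pool.Agent.Lib.MP_bae66e_nt.E3.X1
import Pool.Agent.Lib.MP_bae66e_nt.Mg.G105
import Pool.Agent.Lib.MP_bae66e_nt.E3.Q3
import Pool.Agent.Lib.MP_bae66e_nt.E3.N3e

/-!
# FJ7: a positive proportion of the multipliers
-/

set_option autoImplicit false

namespace Pool.Agent.E3

open Finset

open Classical in
/-- the primes `r ≤ z` for which `r m = p + q` with `p`, `q` prime and `p ≤ z²` -/
noncomputable def MG (m : ℕ) (z : ℝ) : Finset ℕ :=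
  {r ∈ Icc 1 ⌊z⌋₊ | r.Prime ∧ ∃ p q : ℕ, p.Prime ∧ q.Prime ∧ r * m = p + q ∧ (p : ℝ) ≤ z ^ 2}

/-- at least `c z / log z` of the primes `r ≤ z = 2 (log m)^a` are in `MG m z` -/
def GoodJ (a c : ℝ) (m : ℕ) : Prop :=
  c * ((2 * (Real.log m) ^ a) / Real.log (2 * (Real.log m) ^ a)) ≤ ((MG m (2 * (Real.log m) ^ a)).card : ℝ)

theorem mem_MG (m : ℕ) (z : ℝ) (r : ℕ) : r ∈ MG m z ↔ (1 ≤ r ∧ r ≤ ⌊z⌋₊) ∧ r.Prime ∧
    ∃ p q : ℕ, p.Prime ∧ q.Prime ∧ r * m = p + q ∧ (p : ℝ) ≤ z ^ 2 := by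
  classical
  unfold MG
  rw [Finset.mem_filter, Finset.mem_Icc]

/-- PROOF. `L = log M ≤ log m ≤ 2 L`, `R = ⌊L^a⌋ ≥ L^a/2`, `z = 2 (log m)^a`. `s ≤ 2R ≤ z`, `t ≤ 2R² ≤ z²`; `z ≤ 2 · 2^a L^a ≤ 4 · 2^a R` and
`log R ≤ log z`. -/
theorem GM_MG (a : ℝ) (ha : 3 ≤ a) : ∃ M₀ : ℕ, ∀ M m : ℕ, M₀ ≤ M → M ≤ m → m ≤ 2 * M →
    GM a M m ⊆ MG m (2 * (Real.log m) ^ a) ∧
    (2 * (Real.log m) ^ a) / Real.log (2 * (Real.log m) ^ a)
      ≤ 4 * 2 ^ a * (RJ a M / Real.log (RJ a M)) := by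
  have t1 : Filter.Tendsto (fun X : ℕ => Real.log (X : ℝ)) Filter.atTop Filter.atTop :=
    Real.tendsto_log_atTop.comp tendsto_natCast_atTop_atTop
  obtain ⟨M₀, hM₀⟩ := Filter.eventually_atTop.1 (t1.eventually_ge_atTop 2)
  refine ⟨max M₀ 2, fun M m hM hm hm2 => ?_⟩
  have hL := hM₀ M ((le_max_left _ _).trans hM)
  have hM2 : 2 ≤ M := (le_max_right _ _).trans hM
  have hMr : (2 : ℝ) ≤ M := by exact_mod_cast hM2
  have hMpos : (0 : ℝ) < M := by linarith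
  have hmr : (M : ℝ) ≤ m := by exact_mod_cast hm
  have hmr2 : (m : ℝ) ≤ 2 * M := by exact_mod_cast hm2
  have hLm : Real.log M ≤ Real.log m := Real.log_le_log hMpos hmr
  have hLm2 : Real.log m ≤ 2 * Real.log M := by
    have h1 : Real.log m ≤ Real.log (2 * M) := Real.log_le_log (by linarith) hmr2
    rw [Real.log_mul (by norm_num) hMpos.ne'] at h1
    have h2 : Real.log 2 ≤ Real.log M := Real.log_le_log (by norm_num) hMr
    linarith
  set L := Real.log M with hLdef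
  set l := Real.log m with hl
  have hL0 : 0 < L := by linarith
  have hl0 : 0 < l := by linarith
  have hLa : L ^ a ≤ l ^ a := Real.rpow_le_rpow hL0.le hLm (by linarith)
  have hla : l ^ a ≤ 2 ^ a * L ^ a := by
    rw [← Real.mul_rpow (by norm_num) hL0.le]
    exact Real.rpow_le_rpow hl0.le hLm2 (by linarith)
  have hL8 : 8 ≤ L ^ a := by
    calc (8 : ℝ) = (2 : ℝ) ^ (3 : ℝ) := by norm_num
      _ ≤ L ^ (3 : ℝ) := Real.rpow_le_rpow (by norm_num) hL (by norm_num)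
      _ ≤ L ^ a := Real.rpow_le_rpow_of_exponent_le (by linarith) ha
  have hR1 : (RJ a M : ℝ) ≤ L ^ a := Nat.floor_le (by linarith)
  have hR2 : L ^ a / 2 ≤ (RJ a M : ℝ) := by
    have h1 : L ^ a < (RJ a M : ℝ) + 1 := Nat.lt_floor_add_one _
    linarith
  set R := RJ a M with hR
  set z : ℝ := 2 * l ^ a with hz
  have hR4 : (4 : ℝ) ≤ R := by linarith
  have hRz : 2 * (R : ℝ) ≤ z := by rw [hz]; linarith
  have hz0 : 0 < z := by linarith
  refine ⟨?_, ?_⟩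
  · intro s hs
    obtain ⟨hs1, t, ht1, htp, hq⟩ := Finset.mem_filter.1 hs
    have hs' : s.Prime ∧ s ≤ 2 * R := by
      unfold IS at hs1
      simp only [Pool.Agent.Lib.MP_bae66e_nt.AP3.prI, Finset.mem_filter, Finset.mem_Ioc] at hs1
      exact ⟨hs1.2, hs1.1.2⟩
    rw [mem_MG]
    refine ⟨⟨hs'.1.one_lt.le, ?_⟩, hs'.1, t, s * m - t, htp, hq, ?_, ?_⟩
    · apply Nat.le_floor
      have : (s : ℝ) ≤ ((2 * R : ℕ) : ℝ) := by exact_mod_cast hs'.2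
      push_cast at this
      linarith
    · have := hq.pos
      omega
    · have h1 : t ≤ HJ a M := (Finset.mem_Icc.1 ht1).2
      have h2 : (t : ℝ) ≤ 2 * (R : ℝ) ^ 2 := by
        have : (t : ℝ) ≤ (HJ a M : ℝ) := by exact_mod_cast h1
        unfold HJ at this
        push_cast at this
        exact this
      calc (t : ℝ) ≤ 2 * (R : ℝ) ^ 2 := h2
        _ ≤ (2 * (R : ℝ)) ^ 2 := by nlinarith [sq_nonneg (R : ℝ)]
        _ ≤ z ^ 2 := pow_le_pow_left₀ (by positivity) hRz 2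
  · have hlR : 0 < Real.log R := Real.log_pos (by linarith)
    have hlz : Real.log R ≤ Real.log z := Real.log_le_log (by linarith) (by linarith)
    have hzR : z ≤ 4 * 2 ^ a * R := by
      have h2a : (0 : ℝ) < 2 ^ a := Real.rpow_pos_of_pos (by norm_num) _
      calc z ≤ 2 * (2 ^ a * L ^ a) := by rw [hz]; linarith
        _ = 4 * 2 ^ a * (L ^ a / 2) := by ring
        _ ≤ 4 * 2 ^ a * R := mul_le_mul_of_nonneg_left hR2 (by positivity)
    calc z / Real.log z ≤ z / Real.log R := div_le_div_of_nonneg_left hz0.le hlR hlz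
      _ ≤ (4 * 2 ^ a * R) / Real.log R := div_le_div_of_nonneg_right hzR hlR.le
      _ = 4 * 2 ^ a * (R / Real.log R) := by ring

open Classical in
/-- PROOF. `many_of` with `δ/4` (constant `c₁`), `c = c₁/(4 · 2^a)`, `GM_MG`, `dyadic_bad`. -/
theorem many_final_of (a : ℝ) (ha : 3 ≤ a) (h1 : WINJ a) (h2 : VARJ a) (δ : ℝ) (hδ : 0 < δ) :
    ∃ c : ℝ, 0 < c ∧ ∃ N₀ : ℕ, ∀ N : ℕ, N₀ ≤ N →
      (#{m ∈ Icc 1 N | Even m ∧ ¬ GoodJ a c m} : ℝ) ≤ δ * N := by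
  obtain ⟨c₁, hc₁, X1, hX1⟩ := many_of a ha h1 h2 (δ / 4) (by positivity)
  obtain ⟨X2, hX2⟩ := GM_MG a ha
  have h2a : (0 : ℝ) < 2 ^ a := Real.rpow_pos_of_pos (by norm_num) _
  refine ⟨c₁ / (4 * 2 ^ a), by positivity, ?_⟩
  have h4 : ∀ N : ℕ, δ * N = 4 * (δ / 4) * N := fun N => by ring
  simp only [h4]
  refine @dyadic_bad _ _ (δ / 4) (by positivity) (max X1 X2) ?_
  intro X hX
  refine le_trans ?_ (hX1 X ((le_max_left _ _).trans hX))
  rw [Nat.cast_le]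
  apply Finset.card_le_card
  intro m hm
  obtain ⟨hm1, hm2, hm3⟩ := Finset.mem_filter.1 hm
  rw [Finset.mem_filter]
  refine ⟨hm1, hm2, ?_⟩
  by_contra hcon
  push Not at hcon
  apply hm3
  unfold GoodJ
  obtain ⟨hsub, hz⟩ := hX2 X m ((le_max_right _ _).trans hX) (Finset.mem_Icc.1 hm1).1
    (Finset.mem_Icc.1 hm1).2
  calc c₁ / (4 * 2 ^ a) * ((2 * (Real.log m) ^ a) / Real.log (2 * (Real.log m) ^ a))
      ≤ c₁ / (4 * 2 ^ a) * (4 * 2 ^ a * (RJ a X / Real.log (RJ a X))) :=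
        mul_le_mul_of_nonneg_left hz (by positivity)
    _ = c₁ * (RJ a X / Real.log (RJ a X)) := by
        field_simp
    _ ≤ ((GM a X m).card : ℝ) := hcon
    _ ≤ ((MG m (2 * (Real.log m) ^ a)).card : ℝ) := by
        exact_mod_cast Finset.card_le_card hsub

open Classical in
/-- For every sufficiently large `a` and every `δ > 0` there is `c > 0` such that for all but `δ N` of the even `m ≤ N` at least
`c z / log z` of the primes `r ≤ z = 2 (log m)^a` satisfy `r m = p + q` with `p`, `q` prime and `p ≤ z²`. -/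
theorem many_final : ∃ a₀ : ℝ, 3 ≤ a₀ ∧ ∀ a : ℝ, a₀ ≤ a → ∀ δ : ℝ, 0 < δ →
    ∃ c : ℝ, 0 < c ∧ ∃ N₀ : ℕ, ∀ N : ℕ, N₀ ≤ N →
      (#{m ∈ Icc 1 N | Even m ∧ ¬ GoodJ a c m} : ℝ) ≤ δ * N := by
  obtain ⟨θ, hθ, -, hT⟩ := t3q
  obtain ⟨a₀, ha₀, hcore⟩ := corej_of θ hθ hT nlv
  refine ⟨a₀ + 1 / 2, by linarith, fun a ha δ hδ => ?_⟩
  exact many_final_of a (by linarith) (winj_of a (by linarith) (hcore _ (by linarith)) papj)
    (varj a (by linarith)) δ hδ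

end Pool.Agent.E3
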