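import Pool.Agent.Lib.MP_bae66e_nt.E3.A0a

/-!
# A0b: the parameters of the variance
-/

set_option autoImplicit false

namespace Pool.Agent.E3

open Finset Real Filter

/-- the properties of the parameters used in module A (`K` large, `η` small) -/
structure PA (c a K η : ℝ) (X : ℕ) : Prop where
  hX : 16 ≤ X
  hR1 : 2 ≤ RA c X
  hR12 : 2 * RA c X ≤ RB c a X
  hR2X : 2 * RB c a X ≤ Nat.sqrt X
  hHR : HA c X < RB c a X
  hHX : HA c X ≤ X
  hHK : K ≤ HA c X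
  hH1 : 1 ≤ HA c X
  hYl : (X : ℝ) ^ (0.99 : ℝ) ≤ YA c a X
  hYu : YA c a X ≤ X
  hsX : ((4 * (RA c X * RB c a X) : ℕ) : ℝ) ≤ (Nat.sqrt X : ℝ) ^ η
  hF : 0 < FA c a X
  hlog : Real.log (HA c X) * Real.log (RA c X) ≤ RA c X
  hdiag : K * (1 + (Real.log (HA c X)) ^ 2) ≤ HA c X * FA c a X

private theorem A0b_quart (X : ℕ) (hX : 16 ≤ X) : (X : ℝ) ^ (1 / 4 : ℝ) ≤ Nat.sqrt X := by
  set s : ℝ := (X : ℝ) ^ (1 / 4 : ℝ) with hs
  set N : ℕ := Nat.sqrt X with hN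
  have hX0 : (0 : ℝ) ≤ X := Nat.cast_nonneg X
  have hs0 : 0 ≤ s := Real.rpow_nonneg hX0 _
  have h4 : s ^ 4 = X := by
    rw [hs, ← Real.rpow_natCast, ← Real.rpow_mul hX0]
    norm_num
  have hX16 : (16 : ℝ) ≤ X := by exact_mod_cast hX
  have hs2 : 2 ≤ s := by
    by_contra hcon
    push Not at hcon
    have h5 : s ^ 4 < 2 ^ 4 := pow_lt_pow_left₀ hcon hs0 (by norm_num)
    rw [h4] at h5
    norm_num at h5
    linarith
  have h6 : X < (N + 1) * (N + 1) := Nat.lt_succ_sqrt X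
  have h7 : (X : ℝ) < ((N : ℝ) + 1) * ((N : ℝ) + 1) := by exact_mod_cast h6
  have h8 : s ^ 2 < (N : ℝ) + 1 := by
    by_contra hcon
    push Not at hcon
    have h9 : ((N : ℝ) + 1) * ((N : ℝ) + 1) ≤ s ^ 2 * s ^ 2 :=
      mul_le_mul hcon hcon (by positivity) (by positivity)
    have h10 : s ^ 2 * s ^ 2 = X := by rw [← h4]; ring
    linarith
  nlinarith

private theorem A0b_HA (c : ℝ) (hc : 2 ≤ c) : ∀ᶠ X : ℕ in atTop,
    Real.log X * (ll X) ^ (c + 4) / 2 ≤ HA c X ∧ (HA c X : ℝ) ≤ Real.log X * (ll X) ^ (c + 4) := by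
  filter_upwards [eventually_atTop.2 (ll_large 16)] with X h
  obtain ⟨h1, h2, h3⟩ := h
  have h4 : (1 : ℝ) ≤ (ll X) ^ (c + 4) := Real.one_le_rpow (by linarith) (by linarith)
  have h5 : 16 ≤ Real.log X * (ll X) ^ (c + 4) := by nlinarith
  constructor
  · have h6 := Nat.sub_one_lt_floor (Real.log X * (ll X) ^ (c + 4))
    unfold HA
    linarith
  · exact Nat.floor_le (by linarith)

private theorem A0b_prod (c a : ℝ) (hc : 2 ≤ c) (ha : 3 ≤ a) (η : ℝ) (hη : 0 < η) : ∀ᶠ X : ℕ in atTop,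
    4 * ((RA c X : ℝ) * RB c a X) ≤ (X : ℝ) ^ η := by
  filter_upwards [eventually_atTop.2 (ll_large 16), eventually_atTop.2 (RA_bounds c hc 0),
    eventually_atTop.2 (RB_bounds c a hc ha), eventually_atTop.2 (pow_compare a (2 * c) 4 η hη)]
    with X h1 h2 h3 h4
  refine le_trans ?_ h4.2
  have hl : 0 < ll X := by linarith [h1.1]
  have hL : 0 < Real.log X := by linarith [h1.2.1]
  have e1 : (ll X) ^ (2 * c) = (ll X) ^ c * (ll X) ^ c := by
    rw [← Real.rpow_add hl]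
    congr 1
    ring
  rw [e1]
  have hLa : 0 ≤ (Real.log X) ^ a := by positivity
  have hlc : 0 ≤ (ll X) ^ c := by positivity
  have hRA : (0 : ℝ) ≤ RA c X := Nat.cast_nonneg _
  have h5 : (RA c X : ℝ) * RB c a X ≤ (ll X) ^ c * ((Real.log X) ^ a * (ll X) ^ c) := by
    apply mul_le_mul h2.2.2.2 _ (Nat.cast_nonneg _) hlc
    exact h3.2.trans (mul_le_mul_of_nonneg_left h2.2.2.2 hLa)
  calc 4 * ((RA c X : ℝ) * RB c a X) ≤ 4 * ((ll X) ^ c * ((Real.log X) ^ a * (ll X) ^ c)) := by linarith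
    _ = _ := by ring

/-- PROOF. With `L = log X`, `l = ll X`: `RA_bounds`, `RB_bounds`, `pow_compare`. `RB ≥ L^a ≥ L³ ≥ 2 l^c ≥ 2 RA`; `RB ≤ L^a l^c`
(`RA ≤ l^c`), so `2 RB ≤ 4 RA RB ≤ 4 L^a l^(2c)`, which is `≤ X^(η/4) ≤ (Nat.sqrt X)^η` (for `X ≥ 16`: `X^(1/4) ≤ Nat.sqrt X`,
`log_sqrt_ge` of `MVa.lean`, or directly `Nat.sqrt X + 1 > √X`) and `≤ Nat.sqrt X`. `HA ≤ L l^(c+4) < L³ ≤ RB` and `≤ X`.
`YA = X/(RA RB)`: `RA RB ≥ 1` and `RA RB ≤ L^a l^(2c) ≤ X^0.01`. -/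
theorem par_A1 (c a K η : ℝ) (hc : 2 ≤ c) (ha : 3 ≤ a) (hη : 0 < η) : ∃ X₀ : ℕ, ∀ X : ℕ, X₀ ≤ X →
    16 ≤ X ∧ 2 ≤ RA c X ∧ 2 * RA c X ≤ RB c a X ∧ 2 * RB c a X ≤ Nat.sqrt X ∧ HA c X < RB c a X ∧ HA c X ≤ X ∧
      K ≤ HA c X ∧ 1 ≤ HA c X ∧ (X : ℝ) ^ (0.99 : ℝ) ≤ YA c a X ∧ YA c a X ≤ X ∧
      ((4 * (RA c X * RB c a X) : ℕ) : ℝ) ≤ (Nat.sqrt X : ℝ) ^ η := by
  rw [← eventually_atTop (p := fun X : ℕ => 16 ≤ X ∧ 2 ≤ RA c X ∧ 2 * RA c X ≤ RB c a X ∧
    2 * RB c a X ≤ Nat.sqrt X ∧ HA c X < RB c a X ∧ HA c X ≤ X ∧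
      K ≤ HA c X ∧ 1 ≤ HA c X ∧ (X : ℝ) ^ (0.99 : ℝ) ≤ YA c a X ∧ YA c a X ≤ X ∧
      ((4 * (RA c X * RB c a X) : ℕ) : ℝ) ≤ (Nat.sqrt X : ℝ) ^ η)]
  filter_upwards [eventually_atTop.2 (ll_large 16), eventually_atTop.2 (ll_large (2 * K)),
    eventually_atTop.2 (RA_bounds c hc 0),
    eventually_atTop.2 (RB_bounds c a hc ha), eventually_atTop.2 (pow_compare 0 c 2 1 one_pos),
    eventually_atTop.2 (pow_compare 1 (c + 4) 2 1 one_pos), A0b_HA c hc,
    A0b_prod c a hc ha (1 / 4) (by norm_num), A0b_prod c a hc ha (η / 4) (by positivity),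
    A0b_prod c a hc ha (1 / 100) (by norm_num)]
    with X h1 h1K h2 h3 h4 h5 h6 h7 h8 h9
  obtain ⟨hl, hL, hX⟩ := h1
  obtain ⟨-, hRA2, hRAl, hRAu⟩ := h2
  have hX16 : 16 ≤ X := by exact_mod_cast hX
  have hX0 : (0 : ℝ) < X := by linarith
  have hLa : Real.log X ≤ (Real.log X) ^ a := by
    conv_lhs => rw [← Real.rpow_one (Real.log X)]
    exact Real.rpow_le_rpow_of_exponent_le (by linarith) (by linarith)
  have hLa2 : (Real.log X) ^ (2 : ℝ) ≤ (Real.log X) ^ a :=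
    Real.rpow_le_rpow_of_exponent_le (by linarith) (by linarith)
  have hlc4 : (1 : ℝ) ≤ (ll X) ^ (c + 4) := Real.one_le_rpow (by linarith) (by linarith)
  have hRA2' : (2 : ℝ) ≤ RA c X := by exact_mod_cast hRA2
  have hRB1 : (16 : ℝ) ≤ RB c a X := by linarith [h3.1]
  have hLl : Real.log X ≤ Real.log X * (ll X) ^ (c + 4) := by nlinarith
  have hHA1 : (8 : ℝ) ≤ HA c X := by linarith [h6.1]
  have hq := A0b_quart X hX16
  refine ⟨hX16, hRA2, ?_, ?_, ?_, ?_, ?_, ?_, ?_, ?_, ?_⟩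
  · have e1 : (2 : ℝ) * RA c X ≤ RB c a X := by
      have e2 := h4.1
      rw [Real.rpow_zero, one_mul, zero_add, Real.rpow_one] at e2
      linarith [h3.1]
    exact_mod_cast e1
  · have e1 : (2 : ℝ) * RB c a X ≤ Nat.sqrt X := by
      refine le_trans ?_ (h7.trans hq)
      nlinarith
    exact_mod_cast e1
  · have e1 : (HA c X : ℝ) < RB c a X := by
      have e2 := h5.1
      rw [Real.rpow_one, show (1 : ℝ) + 1 = 2 by norm_num] at e2
      linarith [h3.1, h6.2]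
    exact_mod_cast e1
  · have e1 : (HA c X : ℝ) ≤ X := by
      have e2 := h5.2
      rw [Real.rpow_one, Real.rpow_one] at e2
      have e3 : 0 ≤ Real.log X * (ll X) ^ (c + 4) := by linarith
      have e4 : Real.log X * (ll X) ^ (c + 4) ≤ 2 * (Real.log X * (ll X) ^ (c + 4)) := by linarith
      exact h6.2.trans (e4.trans e2)
    exact_mod_cast e1
  · have e3 := h1K.2.1
    linarith [h6.1]
  · have e1 : (1 : ℝ) ≤ HA c X := by linarith
    exact_mod_cast e1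
  · unfold YA
    have hpos : (0 : ℝ) < (RA c X : ℝ) * RB c a X := by positivity
    rw [le_div_iff₀ hpos]
    have e1 : (X : ℝ) ^ (0.99 : ℝ) * (X : ℝ) ^ (1 / 100 : ℝ) = X := by
      rw [← Real.rpow_add hX0]
      norm_num
    calc (X : ℝ) ^ (0.99 : ℝ) * ((RA c X : ℝ) * RB c a X)
        ≤ (X : ℝ) ^ (0.99 : ℝ) * (X : ℝ) ^ (1 / 100 : ℝ) := by
          apply mul_le_mul_of_nonneg_left _ (Real.rpow_nonneg hX0.le _)
          linarith
      _ = X := e1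
  · unfold YA
    apply div_le_self hX0.le
    nlinarith
  · push_cast
    refine h8.trans ?_
    have e1 : (X : ℝ) ^ (η / 4) = ((X : ℝ) ^ (1 / 4 : ℝ)) ^ η := by
      rw [← Real.rpow_mul hX0.le]
      congr 1
      ring
    rw [e1]
    exact Real.rpow_le_rpow (Real.rpow_nonneg hX0.le _) hq hη.le

/-- PROOF. `log RA ≥ log 2 > 0`, `log RB ≥ log RA > 0`, `log X > 0`. `log HA ≤ log (L l^(c+4)) = l + (c + 4) log l ≤ 2 l`
(`log_ll_compare`), `log RA ≤ c log l`, so `log HA log RA ≤ 2 c l log l ≤ l²/2 ≤ l^c/2 ≤ RA`. And `log RB ≤ a l + c log l ≤ (a + 1) l`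
(`RB_bounds`: `log RB ≤ a l + log RA`), `log RA ≤ c log l ≤ l`, `HA ≥ L l^(c+4)/2`, so `HA FA ≥ l^(c+4)/(2 l (a+1) l) = l^(c+2)/(2 (a + 1)) ≥ l⁴/(2(a+1))`,
and `K (1 + (2 l)²) ≤ l⁴/(2 (a + 1))` for large `X`. -/
theorem par_A2 (c a K : ℝ) (hc : 2 ≤ c) (ha : 3 ≤ a) : ∃ X₀ : ℕ, ∀ X : ℕ, X₀ ≤ X →
    0 < FA c a X ∧ Real.log (HA c X) * Real.log (RA c X) ≤ RA c X ∧
      K * (1 + (Real.log (HA c X)) ^ 2) ≤ HA c X * FA c a X := by
  rw [← eventually_atTop (p := fun X : ℕ => 0 < FA c a X ∧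
    Real.log (HA c X) * Real.log (RA c X) ≤ RA c X ∧
      K * (1 + (Real.log (HA c X)) ^ 2) ≤ HA c X * FA c a X)]
  filter_upwards [eventually_atTop.2 (ll_large 16), eventually_atTop.2 (ll_large (10 * (a + 1) * |K|)),
    eventually_atTop.2 (RA_bounds c hc 0),
    eventually_atTop.2 (RB_bounds c a hc ha), eventually_atTop.2 (log_ll_compare (c + 4) 1 one_pos),
    eventually_atTop.2 (log_ll_compare (4 * c) 1 one_pos), A0b_HA c hc]
    with X h1 h1K h2 h3 h4 h5 h6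
  obtain ⟨hl, hL, hX⟩ := h1
  obtain ⟨-, hRA2, hRAl, hRAu⟩ := h2
  rw [Real.rpow_one] at h4 h5
  have hl0 : 0 < ll X := by linarith
  have hL0 : 0 < Real.log X := by linarith
  have hRA2' : (2 : ℝ) ≤ RA c X := by exact_mod_cast hRA2
  have hLa : Real.log X ≤ (Real.log X) ^ a := by
    conv_lhs => rw [← Real.rpow_one (Real.log X)]
    exact Real.rpow_le_rpow_of_exponent_le (by linarith) (by linarith)
  have hRB1 : (16 : ℝ) ≤ RB c a X := by linarith [h3.1]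
  have hlRA : 0 < Real.log (RA c X) := Real.log_pos (by linarith)
  have hlRB : 0 < Real.log (RB c a X) := Real.log_pos (by linarith)
  have hlogl : 0 < Real.log (ll X) := Real.log_pos (by linarith)
  have hlRAu : Real.log (RA c X) ≤ c * Real.log (ll X) := by
    have e1 := Real.log_le_log (by linarith) hRAu
    rwa [Real.log_rpow hl0] at e1
  have hlRAl : Real.log (RA c X) ≤ ll X := by nlinarith
  have hlRBu : Real.log (RB c a X) ≤ (a + 1) * ll X := by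
    have e1 := Real.log_le_log (by linarith) h3.2
    rw [Real.log_mul (by positivity) (by positivity), Real.log_rpow hL0] at e1
    have e2 : Real.log (Real.log X) = ll X := rfl
    rw [e2] at e1
    linarith
  have hlc4 : (1 : ℝ) ≤ (ll X) ^ (c + 4) := Real.one_le_rpow (by linarith) (by linarith)
  have hLl : Real.log X ≤ Real.log X * (ll X) ^ (c + 4) := by nlinarith
  have hHA1 : (8 : ℝ) ≤ HA c X := by linarith [h6.1]
  have hlHA : Real.log (HA c X) ≤ 2 * ll X := by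
    have e1 := Real.log_le_log (by linarith) h6.2
    rw [Real.log_mul (by positivity) (by positivity), Real.log_rpow hl0] at e1
    have e2 : Real.log (Real.log X) = ll X := rfl
    rw [e2] at e1
    linarith
  have hlHA0 : 0 ≤ Real.log (HA c X) := Real.log_natCast_nonneg _
  have hl2 : (ll X) ^ 2 ≤ (ll X) ^ c := by
    rw [← Real.rpow_natCast]
    exact Real.rpow_le_rpow_of_exponent_le (by linarith) (by exact_mod_cast hc)
  refine ⟨?_, ?_, ?_⟩
  · unfold FA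
    positivity
  · calc Real.log (HA c X) * Real.log (RA c X) ≤ (2 * ll X) * (c * Real.log (ll X)) :=
          mul_le_mul hlHA hlRAu hlRA.le (by linarith)
      _ = (ll X / 2) * (4 * c * Real.log (ll X)) := by ring
      _ ≤ (ll X / 2) * ll X := mul_le_mul_of_nonneg_left h5 (by linarith)
      _ = (ll X) ^ 2 / 2 := by ring
      _ ≤ (ll X) ^ c / 2 := by linarith
      _ ≤ RA c X := hRAl
  · have hFA : 1 / (ll X * ((a + 1) * ll X) * Real.log X) ≤ FA c a X := by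
      unfold FA
      apply one_div_le_one_div_of_le (by positivity)
      apply mul_le_mul_of_nonneg_right _ hL0.le
      exact mul_le_mul hlRAl hlRBu hlRB.le hl0.le
    have e1 : (ll X) ^ (c + 4) = (ll X) ^ c * (ll X) ^ 4 := by
      rw [Real.rpow_add hl0]
      norm_cast
    have e2 : (ll X) ^ c * (ll X) ^ 2 / (2 * (a + 1)) ≤ HA c X * FA c a X := by
      calc (ll X) ^ c * (ll X) ^ 2 / (2 * (a + 1))
          = (Real.log X * (ll X) ^ (c + 4) / 2) * (1 / (ll X * ((a + 1) * ll X) * Real.log X)) := by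
            rw [e1]
            have ha1 : a + 1 ≠ 0 := by linarith
            field_simp
        _ ≤ HA c X * FA c a X := mul_le_mul h6.1 hFA (by positivity) (by linarith)
    refine le_trans ?_ e2
    have e3 : K * (1 + (Real.log (HA c X)) ^ 2) ≤ |K| * (5 * (ll X) ^ 2) := by
      have e4 : (Real.log (HA c X)) ^ 2 ≤ (2 * ll X) ^ 2 := pow_le_pow_left₀ hlHA0 hlHA 2
      have e5 : 1 + (Real.log (HA c X)) ^ 2 ≤ 5 * (ll X) ^ 2 := by nlinarith
      calc K * (1 + (Real.log (HA c X)) ^ 2) ≤ |K| * (1 + (Real.log (HA c X)) ^ 2) :=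
            mul_le_mul_of_nonneg_right (le_abs_self K) (by positivity)
        _ ≤ |K| * (5 * (ll X) ^ 2) := mul_le_mul_of_nonneg_left e5 (abs_nonneg K)
    refine e3.trans ?_
    rw [le_div_iff₀ (by linarith)]
    have e6 : 10 * (a + 1) * |K| ≤ (ll X) ^ c := by
      have e7 : ll X ≤ (ll X) ^ 2 := by nlinarith
      linarith [h1K.1]
    calc |K| * (5 * (ll X) ^ 2) * (2 * (a + 1)) = (10 * (a + 1) * |K|) * (ll X) ^ 2 := by ring
      _ ≤ (ll X) ^ c * (ll X) ^ 2 := mul_le_mul_of_nonneg_right e6 (by positivity)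

/-- PROOF. `par_A1`, `par_A2`. -/
theorem par_A (c a K η : ℝ) (hc : 2 ≤ c) (ha : 3 ≤ a) (hη : 0 < η) : ∃ X₀ : ℕ, ∀ X : ℕ, X₀ ≤ X →
    PA c a K η X := by
  obtain ⟨X₁, h1⟩ := par_A1 c a K η hc ha hη
  obtain ⟨X₂, h2⟩ := par_A2 c a K hc ha
  refine ⟨max X₁ X₂, fun X hX => ?_⟩
  obtain ⟨a1, a2, a3, a4, a5, a6, a7, a8, a9, a10, a11⟩ := h1 X ((le_max_left _ _).trans hX)
  obtain ⟨b1, b2, b3⟩ := h2 X ((le_max_right _ _).trans hX)
  exact ⟨a1, a2, a3, a4, a5, a6, a7, a8, a9, a10, a11, b1, b2, b3⟩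

end Pool.Agent.E3
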