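import Pool.Agent.Lib.MP_bae66e_nt.Mg.G038
import Pool.Agent.Lib.MP_bae66e_nt.Mg.G036
import Pool.Agent.Lib.MP_bae66e_nt.E3.A0b

/-!
# P4: PAP2
-/

set_option autoImplicit false

namespace Pool.Agent.E3

open Finset Real Filter
open Pool.Agent.Lib.MP_bae66e_nt.AP3 (prI mem_prI)

/-- PROOF. `c₁ = exp (-16)/64`. For large `X`: `par_A c a K η` with `η = 1/10` gives `2 RA ≤ RB`, `4 RA RB ≤ (Nat.sqrt X)^(1/10) ≤ X^(1/10)`, and `RA_bounds` gives
`RA ≥ max W R₀` (`R₀` from `recip_SS_ge`). For `s ∈ SS (RA) (RB)`: `SS_props`, and `YA = X/(RA RB)` satisfies `X/s ≤ YA ≤ 4 X/s`. So `one_s` gives at least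
`exp (-16)/(s φ(W) log X)` for the inner sum, and `recip_SS_ge` finishes (`FA = 1/(log RA log RB log X)`). -/
theorem pap2 : PAP2 := by
  refine ⟨Real.exp (-16) / 64, by positivity, ?_⟩
  intro a c ha hc W hW L hL hL1
  obtain ⟨X₁, hPA⟩ := par_A c a 1 (1 / 10) hc ha (by norm_num)
  obtain ⟨R₀, hR₀, hrec⟩ := recip_SS_ge
  obtain ⟨X₂, hRA⟩ := RA_bounds c hc ((W : ℝ) + R₀)
  obtain ⟨X₃, hone⟩ := one_s W hW L hL hL1
  refine ⟨max X₁ (max X₂ X₃), fun X hX v hv x hx => ?_⟩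
  have hX1 : X₁ ≤ X := (le_max_left _ _).trans hX
  have hX2 : X₂ ≤ X := ((le_max_left _ _).trans (le_max_right _ _)).trans hX
  have hX3 : X₃ ≤ X := ((le_max_right _ _).trans (le_max_right _ _)).trans hX
  have P := hPA X hX1
  have hRK := (hRA X hX2).1
  have hW0 : (0 : ℝ) ≤ W := Nat.cast_nonneg W
  have hR₀0 : (0 : ℝ) ≤ R₀ := Nat.cast_nonneg R₀
  have hWR : W ≤ RA c X := by
    have : (W : ℝ) ≤ RA c X := by linarith
    exact_mod_cast this
  have hRR : R₀ ≤ RA c X := by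
    have : (R₀ : ℝ) ≤ RA c X := by linarith
    exact_mod_cast this
  have hR1 := P.hR1
  have hR12 := P.hR12
  have hR12' : RA c X ≤ RB c a X := by omega
  have hXr : (16 : ℝ) ≤ X := by exact_mod_cast P.hX
  have hlogX : 0 < Real.log X := Real.log_pos (by linarith)
  have hφ : (0 : ℝ) < (Nat.totient W : ℝ) := by
    exact_mod_cast Nat.totient_pos.mpr (by omega)
  have hRAr : (2 : ℝ) ≤ (RA c X : ℝ) := by exact_mod_cast hR1
  have hRBr : (2 : ℝ) ≤ (RB c a X : ℝ) := by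
    have : 2 ≤ RB c a X := by omega
    exact_mod_cast this
  have hsq : (Nat.sqrt X : ℝ) ^ (1 / 10 : ℝ) ≤ (X : ℝ) ^ (1 / 10 : ℝ) := by
    apply Real.rpow_le_rpow (Nat.cast_nonneg _)
    · exact_mod_cast Nat.sqrt_le_self X
    · norm_num
  have hterm : ∀ s ∈ SS (RA c X) (RB c a X),
      Real.exp (-16) / ((Nat.totient W : ℝ) * Real.log X) * (1 / (s : ℝ)) ≤
        ∑ q ∈ (QS X).filter (fun q => s * q ≡ v [MOD W]),
          om (YA c a X) q / (s * q) * gsn L (x - Real.log (s * q)) := by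
    intro s hs
    obtain ⟨s1, s2, s3, s4⟩ := SS_props (RA c X) (RB c a X) W s hW hWR hR12' hs
    have hs0 : (0 : ℝ) < s := by exact_mod_cast s4
    have s2' : (RA c X : ℝ) * RB c a X ≤ s := by exact_mod_cast s2
    have s3' : (s : ℝ) ≤ 4 * ((RA c X : ℝ) * RB c a X) := by exact_mod_cast s3
    have hsX : (s : ℝ) ≤ (X : ℝ) ^ (1 / 10 : ℝ) := by
      refine le_trans ?_ (P.hsX.trans hsq)
      exact_mod_cast s3
    have hRR0 : (0 : ℝ) < (RA c X : ℝ) * RB c a X := by positivity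
    have hX0 : (0 : ℝ) ≤ X := Nat.cast_nonneg X
    have hY1 : (X : ℝ) / s ≤ YA c a X := by
      unfold YA
      exact div_le_div_of_nonneg_left hX0 hRR0 s2'
    have hY2 : YA c a X ≤ 4 * X / s := by
      unfold YA
      rw [div_le_div_iff₀ hRR0 hs0]
      nlinarith
    have h := hone X hX3 (YA c a X) x s v hx s4 hsX s1 hv hY1 hY2
    refine le_trans (le_of_eq ?_) h
    field_simp
  have hrec' := hrec (RA c X) (RB c a X) hRR hR12
  have hA : 0 ≤ Real.exp (-16) / ((Nat.totient W : ℝ) * Real.log X) := by positivity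
  calc Real.exp (-16) / 64 * FA c a X / Nat.totient W
      = Real.exp (-16) / ((Nat.totient W : ℝ) * Real.log X) *
          (1 / (64 * (Real.log (RA c X) * Real.log (RB c a X)))) := by
        unfold FA
        ring
    _ ≤ Real.exp (-16) / ((Nat.totient W : ℝ) * Real.log X) *
          ∑ s ∈ SS (RA c X) (RB c a X), 1 / (s : ℝ) := mul_le_mul_of_nonneg_left hrec' hA
    _ = ∑ s ∈ SS (RA c X) (RB c a X),
          Real.exp (-16) / ((Nat.totient W : ℝ) * Real.log X) * (1 / (s : ℝ)) := by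
        rw [Finset.mul_sum]
    _ ≤ _ := Finset.sum_le_sum hterm

end Pool.Agent.E3
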