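import Pool.Agent.Lib.MP_bae66e_nt.Mg.G001

/-!
# A0a: the sizes of `R₁`, `R₂`
-/

set_option autoImplicit false

namespace Pool.Agent.E3

open Finset Real Filter

/-- PROOF. `log log X → ∞` along the natural numbers. -/
theorem ll_large (K : ℝ) : ∃ X₀ : ℕ, ∀ X : ℕ, X₀ ≤ X → K ≤ ll X ∧ K ≤ Real.log X ∧ K ≤ X := by
  have h1 := (tendsto_natCast_atTop_atTop (R := ℝ)).eventually_ge_atTop K
  have h2 := (Real.tendsto_log_atTop.comp
    (tendsto_natCast_atTop_atTop (R := ℝ))).eventually_ge_atTop K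
  have h3 := (Real.tendsto_log_atTop.comp (Real.tendsto_log_atTop.comp
    (tendsto_natCast_atTop_atTop (R := ℝ)))).eventually_ge_atTop K
  obtain ⟨X₀, h⟩ := eventually_atTop.mp (h3.and (h2.and h1))
  exact ⟨X₀, fun X hX => h X hX⟩

/-- PROOF. `RA = ⌊l^c⌋` with `l = ll X → ∞` (`ll_large`), so `l^c - 1 < RA ≤ l^c` and `l^c / 2 ≤ l^c - 1` once `l^c ≥ 2`;
`l^c ≥ l² ≥ 2 K` for large `X`. -/
theorem RA_bounds (c : ℝ) (hc : 2 ≤ c) (K : ℝ) : ∃ X₀ : ℕ, ∀ X : ℕ, X₀ ≤ X →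
    K ≤ RA c X ∧ 2 ≤ RA c X ∧ (ll X) ^ c / 2 ≤ RA c X ∧ (RA c X : ℝ) ≤ (ll X) ^ c := by
  obtain ⟨X₀, h0⟩ := ll_large (2 + |K|)
  refine ⟨X₀, fun X hX => ?_⟩
  have h1 := (h0 X hX).1
  have hK := le_abs_self K
  have hK0 := abs_nonneg K
  have hl2 : 2 ≤ ll X := by linarith
  have h2 : (ll X) ^ (2 : ℕ) ≤ (ll X) ^ c := by
    rw [← Real.rpow_natCast]
    exact Real.rpow_le_rpow_of_exponent_le (by linarith) (by exact_mod_cast hc)
  have h3 : 2 * ll X ≤ (ll X) ^ c := by nlinarith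
  have h4 : (ll X) ^ c < (RA c X : ℝ) + 1 := Nat.lt_floor_add_one _
  have h5 : (RA c X : ℝ) ≤ (ll X) ^ c := Nat.floor_le (by linarith)
  have h6 : (ll X) ^ c / 2 ≤ RA c X := by linarith
  refine ⟨by linarith, ?_, h6, h5⟩
  have h7 : (2 : ℝ) ≤ RA c X := by linarith
  exact_mod_cast h7

/-- PROOF. `RB = RA^ℓ`, `ℓ = ⌈a l / log RA⌉₊` with `l = ll X`, `log RA > 0`, so `a l ≤ ℓ log RA = log RB ≤ a l + log RA`; exponentiate
(`exp (a l) = (log X)^a`). -/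
theorem RB_bounds (c a : ℝ) (hc : 2 ≤ c) (ha : 3 ≤ a) : ∃ X₀ : ℕ, ∀ X : ℕ, X₀ ≤ X →
    (Real.log X) ^ a ≤ RB c a X ∧ (RB c a X : ℝ) ≤ (Real.log X) ^ a * RA c X := by
  obtain ⟨X₁, h1⟩ := RA_bounds c hc 2
  obtain ⟨X₂, h2⟩ := ll_large 1
  refine ⟨max X₁ X₂, fun X hX => ?_⟩
  obtain ⟨-, g1, -, -⟩ := h1 X (le_trans (le_max_left _ _) hX)
  obtain ⟨g2, g3, -⟩ := h2 X (le_trans (le_max_right _ _) hX)
  have hR : (2 : ℝ) ≤ RA c X := by exact_mod_cast g1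
  have hR0 : (0 : ℝ) < RA c X := by linarith
  have hlR : 0 < Real.log (RA c X) := Real.log_pos (by linarith)
  have hL0 : 0 < Real.log X := by linarith
  have hq0 : 0 ≤ a * ll X / Real.log (RA c X) := by positivity
  have e1 : a * ll X / Real.log (RA c X) ≤ (LA c a X : ℝ) := Nat.le_ceil _
  have e2 : (LA c a X : ℝ) < a * ll X / Real.log (RA c X) + 1 := Nat.ceil_lt_add_one hq0
  rw [div_le_iff₀ hlR] at e1
  have e3 : (LA c a X : ℝ) * Real.log (RA c X) ≤ a * ll X + Real.log (RA c X) := by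
    have := mul_le_mul_of_nonneg_right e2.le hlR.le
    rwa [add_mul, one_mul, div_mul_cancel₀ _ hlR.ne'] at this
  have e4 : (Real.log X) ^ a = Real.exp (a * ll X) := by
    rw [Real.rpow_def_of_pos hL0, mul_comm]
    rfl
  have e5 : (RB c a X : ℝ) = Real.exp ((LA c a X : ℝ) * Real.log (RA c X)) := by
    unfold RB
    rw [Nat.cast_pow, mul_comm, Real.exp_mul, Real.exp_log hR0, Real.rpow_natCast]
  rw [e4, e5]
  refine ⟨Real.exp_le_exp.2 e1, ?_⟩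
  calc Real.exp ((LA c a X : ℝ) * Real.log (RA c X)) ≤
        Real.exp (a * ll X + Real.log (RA c X)) := Real.exp_le_exp.2 e3
    _ = _ := by rw [Real.exp_add, Real.exp_log hR0]

private theorem A0a_aux1 (B K η : ℝ) (hη : 0 < η) : ∃ y₀ : ℝ, ∀ y : ℝ, y₀ ≤ y →
    K * (Real.log y) ^ B ≤ y ^ η := by
  have h0 : (0 : ℝ) < 1 / (|K| + 1) := by positivity
  have h1 := (isLittleO_log_rpow_rpow_atTop B hη).def h0
  obtain ⟨y₀, h2⟩ := eventually_atTop.mp h1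
  refine ⟨max y₀ 1, fun y hy => ?_⟩
  have hy1 : 1 ≤ y := le_trans (le_max_right _ _) hy
  have h3 := h2 y (le_trans (le_max_left _ _) hy)
  have hl : 0 ≤ (Real.log y) ^ B := Real.rpow_nonneg (Real.log_nonneg hy1) _
  have hyη : 0 ≤ y ^ η := Real.rpow_nonneg (by linarith) _
  rw [Real.norm_of_nonneg hl, Real.norm_of_nonneg hyη] at h3
  have hK0 := abs_nonneg K
  have h4 : (|K| + 1) * (Real.log y) ^ B ≤ y ^ η := by
    have := mul_le_mul_of_nonneg_left h3 (show 0 ≤ |K| + 1 by linarith)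
    rwa [← mul_assoc, mul_one_div_cancel (by linarith), one_mul] at this
  have h5 : K * (Real.log y) ^ B ≤ (|K| + 1) * (Real.log y) ^ B :=
    mul_le_mul_of_nonneg_right (by linarith [le_abs_self K]) hl
  exact h5.trans h4

/-- Comparison of powers: for all real `A, B, K` and `η > 0`, for large `X` (with `L = log X`, `l = log log X`):
`K L^A l^B ≤ L^(A+η)` and `K L^A l^B ≤ X^η`.

PROOF. `isLittleO_log_rpow_rpow_atTop` (powers of `log` against powers), for `l = log L` against `L` and for `L = log X` against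
`X`. It is enough to treat large nonnegative exponents `A, B`, `K`. -/
theorem pow_compare (A B K η : ℝ) (hη : 0 < η) : ∃ X₀ : ℕ, ∀ X : ℕ, X₀ ≤ X →
    K * ((Real.log X) ^ A * (ll X) ^ B) ≤ (Real.log X) ^ (A + η) ∧
    K * ((Real.log X) ^ A * (ll X) ^ B) ≤ (X : ℝ) ^ η := by
  obtain ⟨y₁, h1⟩ := A0a_aux1 B K η hη
  obtain ⟨y₂, h2⟩ := A0a_aux1 B K 1 one_pos
  obtain ⟨y₃, h3⟩ := A0a_aux1 (A + 1) 1 η hη
  obtain ⟨X₀, h0⟩ := ll_large (max 1 (max y₁ (max y₂ y₃)))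
  refine ⟨X₀, fun X hX => ?_⟩
  obtain ⟨-, g2, g3⟩ := h0 X hX
  have hL1 : 1 ≤ Real.log X := le_trans (le_max_left _ _) g2
  have hL0 : 0 < Real.log X := by linarith
  have hLA : 0 ≤ (Real.log X) ^ A := Real.rpow_nonneg hL0.le _
  have e1 := h1 (Real.log X) (le_trans (le_trans (le_max_left _ _) (le_max_right _ _)) g2)
  have e2 := h2 (Real.log X) (le_trans (le_trans (le_trans (le_max_left _ _) (le_max_right _ _))
    (le_max_right _ _)) g2)
  have e3 := h3 (X : ℝ) (le_trans (le_trans (le_trans (le_max_right _ _) (le_max_right _ _))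
    (le_max_right _ _)) g3)
  have e4 : ∀ θ : ℝ, K * (Real.log (Real.log X)) ^ B ≤ (Real.log X) ^ θ →
      K * ((Real.log X) ^ A * (ll X) ^ B) ≤ (Real.log X) ^ (A + θ) := by
    intro θ hθ
    have := mul_le_mul_of_nonneg_left hθ hLA
    rw [Real.rpow_add hL0]
    unfold ll
    linarith
  refine ⟨e4 η e1, (e4 1 e2).trans ?_⟩
  rwa [one_mul] at e3

/-- Comparison of a power of `l = log log X` with `log l`: for `η > 0`, `K`: `K log (l) ≤ l^η`, large `X`.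

PROOF. `isLittleO_log_rpow_atTop` at `l → ∞`. -/
theorem log_ll_compare (K η : ℝ) (hη : 0 < η) : ∃ X₀ : ℕ, ∀ X : ℕ, X₀ ≤ X →
    K * Real.log (ll X) ≤ (ll X) ^ η := by
  obtain ⟨y₁, h1⟩ := A0a_aux1 1 K η hη
  obtain ⟨X₀, h0⟩ := ll_large y₁
  refine ⟨X₀, fun X hX => ?_⟩
  have h2 := h1 (ll X) (h0 X hX).1
  rwa [Real.rpow_one] at h2

end Pool.Agent.E3
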