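import Mathlib
import Pool.Agent.Lib.MP_bae66e_nt.AP3.Mert
import Pool.Agent.Lib.MP_bae66e_nt.Cheb

/-!
# F6: small primes do not suffice
-/

set_option autoImplicit false

namespace Pool.Agent.E3

open Finset

/-- PROOF. `AP3.exists_sum_inv_le` with `y = 2`: `∑_{2 < p ≤ z} 1/p ≤ log (log z / log 2) + C / log 2`, plus `1/2`. -/
theorem sum_inv_primes : ∃ C : ℝ, 1 ≤ C ∧ ∀ z : ℕ, 3 ≤ z →
    ∑ p ∈ (Icc 1 z).filter Nat.Prime, 1 / (p : ℝ) ≤ Real.log (Real.log z) + C := by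
  obtain ⟨C0, hC0, h⟩ := Lib.MP_bae66e_nt.AP3.exists_sum_inv_le
  have hl2 : 0 < Real.log 2 := Real.log_pos (by norm_num)
  have hl2' := Real.log_two_gt_d9
  refine ⟨2 + C0 / Real.log 2, by have : 0 ≤ C0 / Real.log 2 := by positivity
                                  linarith, ?_⟩
  intro z hz
  have h1 := h 2 z le_rfl (by omega)
  have hset : (Icc 1 z).filter Nat.Prime =
      insert 2 (Lib.MP_bae66e_nt.AP3.prI 2 z) := by
    ext p
    rw [mem_filter, mem_Icc, mem_insert, Lib.MP_bae66e_nt.AP3.mem_prI]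
    constructor
    · rintro ⟨⟨h2, h3⟩, h4⟩
      rcases Nat.lt_or_ge 2 p with h5 | h5
      · exact Or.inr ⟨⟨h5, h3⟩, h4⟩
      · left
        have := h4.two_le
        omega
    · rintro (rfl | ⟨⟨h5, h3⟩, h4⟩)
      · exact ⟨⟨by norm_num, by omega⟩, Nat.prime_two⟩
      · exact ⟨⟨by omega, h3⟩, h4⟩
  have hnot : 2 ∉ Lib.MP_bae66e_nt.AP3.prI 2 z := by
    rw [Lib.MP_bae66e_nt.AP3.mem_prI]
    rintro ⟨⟨h5, _⟩, _⟩
    omega
  rw [hset, sum_insert hnot]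
  have hlz : 0 < Real.log z := Real.log_pos (by exact_mod_cast (by omega : 1 < z))
  have h2 := (abs_le.1 h1).2
  push_cast at h2
  rw [Real.log_div hlz.ne' hl2.ne'] at h2
  have h3 : -Real.log (Real.log 2) ≤ 1 / Real.log 2 - 1 := by
    have h4 := Real.log_le_sub_one_of_pos (x := 1 / Real.log 2) (by positivity)
    rw [one_div, Real.log_inv] at h4
    rw [one_div]
    exact h4
  have h5 : 1 / Real.log 2 ≤ 3 / 2 := by
    rw [div_le_div_iff₀ hl2 (by norm_num)]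
    linarith
  push_cast
  linarith

/-- the number of primes up to `M` -/
private lemma F6_card_primes (M : ℕ) :
    (((Icc 1 M).filter Nat.Prime).card : ℝ) ≤ (Nat.primeCounting M : ℝ) := by
  rw [Nat.primeCounting, Nat.primeCounting', Nat.count_eq_card_filter_range]
  exact_mod_cast card_le_card (by
    intro p hp
    rw [mem_filter, mem_Icc] at hp
    rw [mem_filter, mem_range]
    exact ⟨by omega, hp.2⟩)

/-- the largeness conditions -/
private lemma F6_large (C : ℝ) : ∃ N₀ : ℕ, ∀ N : ℕ, N₀ ≤ N →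
    3 ≤ Real.log N ∧ 1 ≤ Real.log (Real.log (Real.log N)) ∧
      2 * (Real.log N) ^ (2 * C) ≤ (N : ℝ) ^ ((1 : ℝ) / 2) := by
  have hN : Filter.Tendsto (fun N : ℕ => (N : ℝ)) Filter.atTop Filter.atTop :=
    tendsto_natCast_atTop_atTop
  have hL : Filter.Tendsto (fun N : ℕ => Real.log (N : ℝ)) Filter.atTop Filter.atTop :=
    Real.tendsto_log_atTop.comp hN
  have hLLL : Filter.Tendsto (fun N : ℕ => Real.log (Real.log (Real.log (N : ℝ))))
      Filter.atTop Filter.atTop :=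
    Real.tendsto_log_atTop.comp (Real.tendsto_log_atTop.comp hL)
  have h1 := hL.eventually_ge_atTop 3
  have h2 := hLLL.eventually_ge_atTop 1
  have h3 : ∀ᶠ x : ℝ in Filter.atTop,
      ‖Real.log x ^ (2 * C)‖ ≤ (1 / 2) * ‖x ^ ((1 : ℝ) / 2)‖ :=
    (isLittleO_log_rpow_rpow_atTop (2 * C) (by norm_num : (0 : ℝ) < 1 / 2)).bound (by norm_num)
  have h4 := hN.eventually h3
  obtain ⟨N₀, hN₀⟩ := Filter.eventually_atTop.1 ((h1.and h2).and h4)
  refine ⟨N₀, fun N hN' => ?_⟩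
  obtain ⟨⟨h5, h6⟩, h7⟩ := hN₀ N hN'
  refine ⟨h5, h6, ?_⟩
  rw [Real.norm_of_nonneg (by positivity), Real.norm_of_nonneg (by positivity)] at h7
  linarith

/-- the number of primes `q ≤ N / k` for small `k` -/
private lemma F6_pi (N k : ℕ) (hk : 1 ≤ k) (hL : 3 ≤ Real.log N)
    (hkN : 2 * (k : ℝ) ≤ (N : ℝ) ^ ((1 : ℝ) / 2)) :
    (((Icc 1 (N / k)).filter Nat.Prime).card : ℝ) ≤ 10 * (N / Real.log N) * (1 / k) := by
  have hk0 : (0 : ℝ) < k := by exact_mod_cast hk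
  have hN1 : (1 : ℝ) < N := by
    by_contra hcon
    push Not at hcon
    have := Real.log_nonpos (Nat.cast_nonneg N) hcon
    linarith
  have hN0 : (0 : ℝ) < N := by linarith
  set w : ℝ := (N : ℝ) ^ ((1 : ℝ) / 2) with hw
  have hw0 : 0 < w := by positivity
  have hww : w * w = N := by
    rw [hw, ← Real.rpow_add hN0]
    norm_num
  -- `w ≤ N / k / 2`
  have h1 : 2 * w ≤ (N : ℝ) / k := by
    rw [le_div_iff₀ hk0, ← hww]
    nlinarith
  have hM1 : (N : ℝ) / k < ((N / k : ℕ) : ℝ) + 1 := by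
    have h2 : N < k * (N / k + 1) := by
      have := Nat.lt_mul_div_succ N (by omega : 0 < k)
      simpa using this
    have h3 : (N : ℝ) < k * (((N / k : ℕ) : ℝ) + 1) := by exact_mod_cast h2
    rw [div_lt_iff₀ hk0]
    linarith
  have hlw : Real.log w = Real.log N / 2 := by
    rw [hw, Real.log_rpow hN0]
    ring
  have hw1 : 1 ≤ w := by
    rw [hw]
    exact Real.one_le_rpow hN1.le (by norm_num)
  have hwM : w ≤ ((N / k : ℕ) : ℝ) := by linarith
  have hw4 : 4 ≤ w := by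
    have h2 : Real.log 4 ≤ Real.log w := by
      have h3 := Real.log_two_lt_d9
      have h4 : Real.log 4 = 2 * Real.log 2 := by
        rw [show (4 : ℝ) = 2 ^ 2 by norm_num, Real.log_pow]
        norm_num
      rw [hlw, h4]
      linarith
    exact (Real.log_le_log_iff (by norm_num) hw0).1 h2
  have hM2 : 2 ≤ N / k := by
    have : (2 : ℝ) ≤ ((N / k : ℕ) : ℝ) := by linarith
    exact_mod_cast this
  have h5 := (F6_card_primes (N / k)).trans (Lib.MP_bae66e_nt.pi_upper (N / k) hM2)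
  refine h5.trans ?_
  have hlM : Real.log N / 2 ≤ Real.log ((N / k : ℕ) : ℝ) := by
    rw [← hlw]
    exact Real.log_le_log hw0 hwM
  have hMle : ((N / k : ℕ) : ℝ) ≤ N / k := Nat.cast_div_le
  have hL0 : 0 < Real.log N := by linarith
  calc 5 * ((N / k : ℕ) : ℝ) / Real.log ((N / k : ℕ) : ℝ)
      ≤ 5 * ((N : ℝ) / k) / (Real.log N / 2) := by
        gcongr
    _ = 10 * (N / Real.log N) * (1 / k) := by
        field_simp
        ring

open Classical in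
/-- PROOF. Let `y = ⌊(log N)^C⌋₊`. The number is at most `∑_{r₁, r₂ ≤ y} π(N/(r₁ r₂))` (for given `r₁, r₂` the map `q ↦ r₁ r₂ q` is
injective), and `r₁ r₂ ≤ (log N)^(2C) ≤ √N` for large `N`, so `π(N/(r₁r₂)) ≤ 5 (N/(r₁ r₂))/log (N/(r₁ r₂)) ≤ 20 N/(r₁ r₂ log N)`
(`Lib.MP_bae66e_nt.pi_upper`). By `sum_inv_primes` `∑_{r ≤ y} 1/r ≤ log log y + C' ≤ log log log N + log C + C' ≤ K' log log log N`
for large `N`. -/
theorem count_three (C : ℝ) (hC : 1 ≤ C) : ∃ K : ℝ, 1 ≤ K ∧ ∃ N₀ : ℕ, ∀ N : ℕ, N₀ ≤ N →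
    (#{n ∈ Icc 1 N | ∃ r₁ r₂ q : ℕ, r₁.Prime ∧ r₂.Prime ∧ q.Prime ∧ n = r₁ * r₂ * q ∧
      (r₁ : ℝ) ≤ (Real.log N) ^ C ∧ (r₂ : ℝ) ≤ (Real.log N) ^ C} : ℝ)
      ≤ K * (N / Real.log N) * (Real.log (Real.log (Real.log N))) ^ 2 := by
  obtain ⟨C1, hC1, hsum⟩ := sum_inv_primes
  obtain ⟨N₀, hN₀⟩ := F6_large C
  have hlC : 0 ≤ Real.log C := Real.log_nonneg hC
  refine ⟨10 * (1 + Real.log C + C1) ^ 2, by nlinarith, N₀, ?_⟩
  intro N hN
  obtain ⟨hL, hLLL, hbig⟩ := hN₀ N hN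
  have hL0 : 0 < Real.log N := by linarith
  have hN1 : (1 : ℝ) < N := by
    by_contra hcon
    push Not at hcon
    have := Real.log_nonpos (Nat.cast_nonneg N) hcon
    linarith
  set Y : ℝ := (Real.log N) ^ C with hY
  have hY0 : 0 < Y := by positivity
  have hY3 : 3 ≤ Y := by
    calc (3 : ℝ) ≤ Real.log N := hL
      _ = (Real.log N) ^ (1 : ℝ) := (Real.rpow_one _).symm
      _ ≤ Y := Real.rpow_le_rpow_of_exponent_le (by linarith) hC
  have hYY : Y * Y = (Real.log N) ^ (2 * C) := by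
    rw [hY, ← Real.rpow_add hL0]
    ring_nf
  set y : ℕ := ⌊Y⌋₊ with hy
  have hy3 : 3 ≤ y := Nat.le_floor (by exact_mod_cast hY3)
  have hyY : (y : ℝ) ≤ Y := Nat.floor_le hY0.le
  set P : Finset ℕ := (Icc 1 y).filter Nat.Prime with hP
  have hsub : ({n ∈ Icc 1 N | ∃ r₁ r₂ q : ℕ, r₁.Prime ∧ r₂.Prime ∧ q.Prime ∧ n = r₁ * r₂ * q ∧
      (r₁ : ℝ) ≤ Y ∧ (r₂ : ℝ) ≤ Y} : Finset ℕ) ⊆
      (P ×ˢ P).biUnion (fun r => ((Icc 1 (N / (r.1 * r.2))).filter Nat.Prime).image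
        (fun q => r.1 * r.2 * q)) := by
    intro n hn
    rw [mem_filter, mem_Icc] at hn
    obtain ⟨⟨hn1, hn2⟩, r₁, r₂, q, h1, h2, h3, h4, h5, h6⟩ := hn
    rw [mem_biUnion]
    refine ⟨(r₁, r₂), ?_, ?_⟩
    · rw [mem_product, hP, mem_filter, mem_filter, mem_Icc, mem_Icc]
      exact ⟨⟨⟨h1.one_lt.le, Nat.le_floor h5⟩, h1⟩, ⟨⟨h2.one_lt.le, Nat.le_floor h6⟩, h2⟩⟩
    · rw [mem_image]
      refine ⟨q, ?_, h4.symm⟩
      rw [mem_filter, mem_Icc]
      refine ⟨⟨h3.one_lt.le, ?_⟩, h3⟩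
      rw [Nat.le_div_iff_mul_le (Nat.mul_pos h1.pos h2.pos)]
      calc q * (r₁ * r₂) = n := by rw [h4]; ring
        _ ≤ N := hn2
  have hcard := (card_le_card hsub).trans card_biUnion_le
  have hterm : ∀ r ∈ P ×ˢ P, ((((Icc 1 (N / (r.1 * r.2))).filter Nat.Prime).image
      (fun q => r.1 * r.2 * q)).card : ℝ) ≤
        10 * (N / Real.log N) * ((1 / (r.1 : ℝ)) * (1 / (r.2 : ℝ))) := by
    intro r hr
    rw [mem_product, hP, mem_filter, mem_filter, mem_Icc, mem_Icc] at hr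
    obtain ⟨⟨⟨h1, h2⟩, h3⟩, ⟨⟨h4, h5⟩, h6⟩⟩ := hr
    have h7 : (((Icc 1 (N / (r.1 * r.2))).filter Nat.Prime).image
      (fun q => r.1 * r.2 * q)).card ≤ ((Icc 1 (N / (r.1 * r.2))).filter Nat.Prime).card :=
      card_image_le
    have h8 : ((r.1 * r.2 : ℕ) : ℝ) ≤ Y * Y := by
      push_cast
      have e1 : (r.1 : ℝ) ≤ Y := le_trans (by exact_mod_cast h2) hyY
      have e2 : (r.2 : ℝ) ≤ Y := le_trans (by exact_mod_cast h5) hyY
      exact mul_le_mul e1 e2 (Nat.cast_nonneg _) hY0.le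
    have h9 := F6_pi N (r.1 * r.2) (Nat.mul_pos h1 h4) hL (by rw [hYY] at h8; linarith)
    calc ((((Icc 1 (N / (r.1 * r.2))).filter Nat.Prime).image
      (fun q => r.1 * r.2 * q)).card : ℝ)
        ≤ (((Icc 1 (N / (r.1 * r.2))).filter Nat.Prime).card : ℝ) := by exact_mod_cast h7
      _ ≤ 10 * (N / Real.log N) * (1 / ((r.1 * r.2 : ℕ) : ℝ)) := h9
      _ = _ := by
        push_cast
        rw [one_div_mul_one_div]
  have hS : ∑ p ∈ P, 1 / (p : ℝ) ≤ (1 + Real.log C + C1) * Real.log (Real.log (Real.log N)) := by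
    have h1 := hsum y hy3
    have hly : Real.log y ≤ C * Real.log (Real.log N) := by
      have h2 : Real.log y ≤ Real.log Y :=
        Real.log_le_log (by exact_mod_cast (by omega : 0 < y)) hyY
      rwa [hY, Real.log_rpow hL0] at h2
    have hly0 : 0 < Real.log y := Real.log_pos (by exact_mod_cast (by omega : 1 < y))
    have hLL : 0 < Real.log (Real.log N) := Real.log_pos (by linarith)
    have h3 : Real.log (Real.log y) ≤ Real.log C + Real.log (Real.log (Real.log N)) := by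
      rw [← Real.log_mul (by linarith) hLL.ne']
      exact Real.log_le_log hly0 hly
    nlinarith
  have hS0 : 0 ≤ ∑ p ∈ P, 1 / (p : ℝ) := sum_nonneg fun p _ => by positivity
  have hA : 0 ≤ 10 * ((N : ℝ) / Real.log N) := by positivity
  calc (#{n ∈ Icc 1 N | ∃ r₁ r₂ q : ℕ, r₁.Prime ∧ r₂.Prime ∧ q.Prime ∧ n = r₁ * r₂ * q ∧
      (r₁ : ℝ) ≤ Y ∧ (r₂ : ℝ) ≤ Y} : ℝ)
      ≤ ∑ r ∈ P ×ˢ P, ((((Icc 1 (N / (r.1 * r.2))).filter Nat.Prime).image
        (fun q => r.1 * r.2 * q)).card : ℝ) := by exact_mod_cast hcard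
    _ ≤ ∑ r ∈ P ×ˢ P, 10 * (N / Real.log N) * ((1 / (r.1 : ℝ)) * (1 / (r.2 : ℝ))) :=
        sum_le_sum hterm
    _ = 10 * (N / Real.log N) * ((∑ p ∈ P, 1 / (p : ℝ)) * ∑ p ∈ P, 1 / (p : ℝ)) := by
        rw [← mul_sum, sum_mul_sum, sum_product]
    _ ≤ 10 * (N / Real.log N) * (((1 + Real.log C + C1) * Real.log (Real.log (Real.log N))) *
          ((1 + Real.log C + C1) * Real.log (Real.log (Real.log N)))) := by
        refine mul_le_mul_of_nonneg_left ?_ hA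
        exact mul_le_mul hS hS hS0 (hS0.trans hS)
    _ = 10 * (1 + Real.log C + C1) ^ 2 * (N / Real.log N) *
          (Real.log (Real.log (Real.log N))) ^ 2 := by ring

/-- the largeness condition of `few_small` -/
private lemma F6_large2 (K δ : ℝ) (hK : 0 < K) (hδ : 0 < δ) : ∃ N₀ : ℕ, ∀ N : ℕ, N₀ ≤ N →
    4 ≤ Real.log N ∧ 10 * K * (Real.log (Real.log (Real.log N))) ^ 2 ≤
      δ * Real.log (Real.log N) := by
  have hN : Filter.Tendsto (fun N : ℕ => (N : ℝ)) Filter.atTop Filter.atTop :=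
    tendsto_natCast_atTop_atTop
  have hL : Filter.Tendsto (fun N : ℕ => Real.log (N : ℝ)) Filter.atTop Filter.atTop :=
    Real.tendsto_log_atTop.comp hN
  have hLL : Filter.Tendsto (fun N : ℕ => Real.log (Real.log (N : ℝ)))
      Filter.atTop Filter.atTop := Real.tendsto_log_atTop.comp hL
  have h1 := hL.eventually_ge_atTop 4
  have h2 := hLL.eventually_ge_atTop 1
  have h3 : ∀ᶠ x : ℝ in Filter.atTop,
      ‖Real.log x ^ (2 : ℝ)‖ ≤ (δ / (10 * K)) * ‖x ^ (1 : ℝ)‖ :=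
    (isLittleO_log_rpow_rpow_atTop 2 (by norm_num : (0 : ℝ) < 1)).bound (by positivity)
  have h4 := hLL.eventually h3
  obtain ⟨N₀, hN₀⟩ := Filter.eventually_atTop.1 ((h1.and h2).and h4)
  refine ⟨N₀, fun N hN' => ?_⟩
  obtain ⟨⟨h5, h6⟩, h7⟩ := hN₀ N hN'
  refine ⟨h5, ?_⟩
  have h8 : 0 ≤ Real.log (Real.log (Real.log (N : ℝ))) := Real.log_nonneg h6
  rw [Real.norm_of_nonneg (by positivity), Real.rpow_one, Real.norm_of_nonneg (by linarith),
    Real.rpow_two] at h7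
  calc 10 * K * (Real.log (Real.log (Real.log (N : ℝ)))) ^ 2
      ≤ 10 * K * (δ / (10 * K) * Real.log (Real.log (N : ℝ))) := by gcongr
    _ = δ * Real.log (Real.log N) := by
        field_simp

open Classical in
/-- PROOF. If `m ≤ N` is in the set, then `m = p + n` with `p ≤ log m ≤ log N` prime and `n ≤ N` in the set of `count_three`. So the number is
`≤ π(log N) · K (N/log N) (log log log N)² ≤ 10 (log N/log log N) K (N/log N) (log log log N)² = 10 K N (log log log N)²/log log N ≤ δ N`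
for large `N` (`pi_upper` for `⌊log N⌋₊`). -/
theorem few_small (C : ℝ) (hC : 1 ≤ C) (δ : ℝ) (hδ : 0 < δ) : ∃ N₀ : ℕ, ∀ N : ℕ, N₀ ≤ N →
    (#{m ∈ Icc 1 N | ∃ p r₁ r₂ q : ℕ, p.Prime ∧ r₁.Prime ∧ r₂.Prime ∧ q.Prime ∧
      m = p + r₁ * r₂ * q ∧ (p : ℝ) ≤ Real.log m ∧ (r₁ : ℝ) ≤ (Real.log m) ^ C ∧
      (r₂ : ℝ) ≤ (Real.log m) ^ C} : ℝ) ≤ δ * N := by
  obtain ⟨K, hK, N₁, hN₁⟩ := count_three C hC
  obtain ⟨N₂, hN₂⟩ := F6_large2 K δ (by linarith) hδ
  refine ⟨max N₁ N₂, ?_⟩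
  intro N hN
  have hcount := hN₁ N ((le_max_left _ _).trans hN)
  obtain ⟨hL, hsmall⟩ := hN₂ N ((le_max_right _ _).trans hN)
  have hL0 : 0 < Real.log N := by linarith
  set A : Finset ℕ := {n ∈ Icc 1 N | ∃ r₁ r₂ q : ℕ, r₁.Prime ∧ r₂.Prime ∧ q.Prime ∧
    n = r₁ * r₂ * q ∧ (r₁ : ℝ) ≤ (Real.log N) ^ C ∧ (r₂ : ℝ) ≤ (Real.log N) ^ C} with hA
  set l : ℕ := ⌊Real.log (N : ℝ)⌋₊ with hl
  have hl4 : 4 ≤ l := Nat.le_floor (by exact_mod_cast hL)
  have hlL : (l : ℝ) ≤ Real.log N := Nat.floor_le hL0.le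
  set P : Finset ℕ := (Icc 1 l).filter Nat.Prime with hP
  have hsub : ({m ∈ Icc 1 N | ∃ p r₁ r₂ q : ℕ, p.Prime ∧ r₁.Prime ∧ r₂.Prime ∧ q.Prime ∧
      m = p + r₁ * r₂ * q ∧ (p : ℝ) ≤ Real.log m ∧ (r₁ : ℝ) ≤ (Real.log m) ^ C ∧
      (r₂ : ℝ) ≤ (Real.log m) ^ C} : Finset ℕ) ⊆ (P ×ˢ A).image (fun x => x.1 + x.2) := by
    intro m hm
    rw [mem_filter, mem_Icc] at hm
    obtain ⟨⟨hm1, hm2⟩, p, r₁, r₂, q, h1, h2, h3, h4, h5, h6, h7, h8⟩ := hm
    have hm0 : (0 : ℝ) < m := by exact_mod_cast hm1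
    have hlog : Real.log m ≤ Real.log N := Real.log_le_log hm0 (by exact_mod_cast hm2)
    have hlog0 : 0 ≤ Real.log m := Real.log_nonneg (by exact_mod_cast hm1)
    have hpow : (Real.log m) ^ C ≤ (Real.log N) ^ C :=
      Real.rpow_le_rpow hlog0 hlog (by linarith)
    rw [mem_image]
    refine ⟨(p, r₁ * r₂ * q), ?_, h5.symm⟩
    rw [mem_product, hP, hA, mem_filter, mem_filter, mem_Icc, mem_Icc]
    have hpos : 0 < r₁ * r₂ * q := Nat.mul_pos (Nat.mul_pos h2.pos h3.pos) h4.pos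
    refine ⟨⟨⟨h1.one_lt.le, Nat.le_floor (h6.trans hlog)⟩, h1⟩, ⟨hpos, ?_⟩, ?_⟩
    · have e : r₁ * r₂ * q ≤ m := by omega
      exact e.trans hm2
    · exact ⟨r₁, r₂, q, h2, h3, h4, rfl, h7.trans hpow, h8.trans hpow⟩
  have hcard : (#{m ∈ Icc 1 N | ∃ p r₁ r₂ q : ℕ, p.Prime ∧ r₁.Prime ∧ r₂.Prime ∧ q.Prime ∧
      m = p + r₁ * r₂ * q ∧ (p : ℝ) ≤ Real.log m ∧ (r₁ : ℝ) ≤ (Real.log m) ^ C ∧
      (r₂ : ℝ) ≤ (Real.log m) ^ C} : ℝ) ≤ (P.card : ℝ) * (A.card : ℝ) := by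
    have h1 := (card_le_card hsub).trans card_image_le
    rw [card_product] at h1
    exact_mod_cast h1
  have hlog2 : Real.log (Real.log N) / 2 ≤ Real.log l := by
    have hs : √(Real.log N) ≤ (l : ℝ) := by
      have h1 : Real.log N < (l : ℝ) + 1 := Nat.lt_floor_add_one _
      have h2 : √(Real.log N) * √(Real.log N) = Real.log N := Real.mul_self_sqrt hL0.le
      have h3 : 2 ≤ √(Real.log N) := by
        rw [Real.le_sqrt (by norm_num) hL0.le]
        linarith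
      nlinarith
    have h4 : Real.log (√(Real.log N)) ≤ Real.log l :=
      Real.log_le_log (Real.sqrt_pos.2 hL0) hs
    rwa [Real.log_sqrt hL0.le] at h4
  have hLL : 0 < Real.log (Real.log N) := Real.log_pos (by linarith)
  have hPc : (P.card : ℝ) ≤ 10 * Real.log N / Real.log (Real.log N) := by
    refine (F6_card_primes l).trans ((Lib.MP_bae66e_nt.pi_upper l (by omega)).trans ?_)
    calc 5 * (l : ℝ) / Real.log l ≤ 5 * Real.log N / (Real.log (Real.log N) / 2) := by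
          gcongr
      _ = 10 * Real.log N / Real.log (Real.log N) := by
          field_simp
          ring
  refine hcard.trans ?_
  calc (P.card : ℝ) * (A.card : ℝ)
      ≤ (10 * Real.log N / Real.log (Real.log N)) *
          (K * (N / Real.log N) * (Real.log (Real.log (Real.log N))) ^ 2) :=
        mul_le_mul hPc hcount (Nat.cast_nonneg _) (by positivity)
    _ = (10 * K * (Real.log (Real.log (Real.log N))) ^ 2) / Real.log (Real.log N) * N := by
        field_simp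
    _ ≤ (δ * Real.log (Real.log N)) / Real.log (Real.log N) * N := by
        gcongr
    _ = δ * N := by
        field_simp

end Pool.Agent.E3
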