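import Pool.Agent.Lib.MP_bae66e_nt.Mg.G110
import Pool.Agent.Lib.MP_bae66e_nt.Mg.G009

/-!
# M8: WINB2
-/

set_option autoImplicit false

namespace Pool.Agent.E3

open Finset MeasureTheory Real Filter
open Pool.Agent.Lib.MP_bae66e_nt.AP3 (prI mem_prI)

private lemma M8_ll : Tendsto (fun X : ℕ => ll X) atTop atTop :=
  Real.tendsto_log_atTop.comp (Real.tendsto_log_atTop.comp tendsto_natCast_atTop_atTop)

private lemma M8_pow_le (s e : ℝ) (he : 0 < e) : ∀ᶠ x : ℝ in atTop, x ^ s ≤ e * Real.exp x := by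
  have h := tendsto_rpow_mul_exp_neg_mul_atTop_nhds_zero s 1 one_pos
  filter_upwards [h.eventually (gt_mem_nhds he)] with x hx
  have h2 : x ^ s * Real.exp (-1 * x) * Real.exp x = x ^ s := by
    rw [mul_assoc, ← Real.exp_add, show -1 * x + x = 0 by ring, Real.exp_zero, mul_one]
  have h3 := mul_le_mul_of_nonneg_right hx.le (Real.exp_pos x).le
  rw [h2] at h3
  exact h3

private lemma M8_facts (a c K : ℝ) (ha : 3 ≤ a) : ∃ X₀ : ℕ, ∀ X : ℕ, X₀ ≤ X →
    8 ≤ X ∧ 2 ≤ ll X ∧ 2 * K ≤ ll X ∧ (ll X) ^ c ≤ 1 / 2 * Real.exp (ll X) ∧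
      (ll X) ^ (c + 4) ≤ 1 / 100 * Real.exp (ll X) ∧ (a + 2) * ll X ≤ 1 / 100 * Real.exp (ll X) := by
  have e1 := M8_pow_le c (1 / 2) (by norm_num)
  have e2 := M8_pow_le (c + 4) (1 / 100) (by norm_num)
  have e3 := M8_pow_le 1 (1 / 100 / (a + 2)) (by positivity)
  have e4 : ∀ᶠ x : ℝ in atTop, 2 ≤ x ∧ 2 * K ≤ x ∧ x ^ c ≤ 1 / 2 * Real.exp x ∧
      x ^ (c + 4) ≤ 1 / 100 * Real.exp x ∧ (a + 2) * x ≤ 1 / 100 * Real.exp x := by
    filter_upwards [e1, e2, e3, eventually_ge_atTop 2, eventually_ge_atTop (2 * K)] with x h1 h2 h3 h4 h5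
    refine ⟨h4, h5, h1, h2, ?_⟩
    rw [Real.rpow_one] at h3
    have h6 : 0 < a + 2 := by linarith
    calc (a + 2) * x ≤ (a + 2) * (1 / 100 / (a + 2) * Real.exp x) := mul_le_mul_of_nonneg_left h3 h6.le
      _ = 1 / 100 * Real.exp x := by field_simp
  have e5 := (M8_ll.eventually e4).and (eventually_ge_atTop 8)
  obtain ⟨X₀, h⟩ := eventually_atTop.1 e5
  exact ⟨X₀, fun X hX => ⟨(h X hX).2, (h X hX).1⟩⟩

/-- PROOF. Let `λ = ll X`, `L = log X = exp λ`. `RA = ⌊λ^c⌋ ≥ λ^c/4`, `RA → ∞`. `LA = ⌈a λ/log RA⌉`, so `RA^LA ≥ exp (a λ) = L^a`, and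
`RA^LA ≤ RA · L^a ≤ λ^c L^a ≤ L^(a+1)` for large `X`; `2 RA ≤ L^a ≤ RB`. `RA RB ≤ λ^c L^(a+1) ≤ X^0.01`, so `YG ≥ X^0.99`.
`Δ = HA/(K X)`: `Δ RA^LA YG = HA/(K RA) ≥ (L λ^(c+4)/2)/(K λ^c) = L λ^4/(2K) ≥ L λ^3`; `Δ X = HA/K ≥ L`; `Δ ≤ L λ^(c+4)/X ≤ X^(-1/2)`. -/
theorem par2 (a c K : ℝ) (ha : 3 ≤ a) (hc : 2 ≤ c) (hK : 1 ≤ K) : ∃ X₀ : ℕ, ∀ X : ℕ, X₀ ≤ X →
    PG (RA c X) (RB c a X) X ∧ 1 ≤ HA c X ∧ 100 * HA c X ≤ X ∧
      CH2 a c X (RA c X) (LA c a X) (YG (RA c X) (RB c a X) X) (HA c X / (K * X)) := by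
  obtain ⟨X₀, h₀⟩ := M8_facts a c K ha
  refine ⟨X₀, fun X hX => ?_⟩
  obtain ⟨hX8, hl2, hlK, hlc, hlc4, hla⟩ := h₀ X hX
  have hXR : (8 : ℝ) ≤ X := by exact_mod_cast hX8
  have hX0 : (0 : ℝ) < X := by linarith
  have hK0 : 0 < K := by linarith
  set lam : ℝ := ll X with hlam
  have hlam0 : 0 < lam := by linarith
  have hL0 : 0 < Real.log X := Real.log_pos (by linarith)
  have hLe : Real.log X = Real.exp lam := by
    rw [hlam]
    unfold ll
    rw [Real.exp_log hL0]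
  have hXe : (X : ℝ) = Real.exp (Real.log X) := (Real.exp_log hX0).symm
  set L : ℝ := Real.log X with hL
  have hLa : ∀ s : ℝ, L ^ s = Real.exp (s * lam) := by
    intro s
    rw [hLe, ← Real.exp_mul, mul_comm]
  have hXs : ∀ s : ℝ, (X : ℝ) ^ s = Real.exp (s * L) := by
    intro s
    rw [hXe, ← Real.exp_mul, mul_comm]
  have hlc0 : 0 < lam ^ c := Real.rpow_pos_of_pos hlam0 c
  have hlc1 : lam ≤ lam ^ c := by
    calc lam = lam ^ (1 : ℝ) := (Real.rpow_one _).symm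
      _ ≤ lam ^ c := Real.rpow_le_rpow_of_exponent_le (by linarith) (by linarith)
  -- `RA`
  have hRA1 : (RA c X : ℝ) ≤ lam ^ c := Nat.floor_le hlc0.le
  have hRA2 : lam ^ c - 1 < (RA c X : ℝ) := by
    have := Nat.lt_floor_add_one (lam ^ c)
    unfold RA
    rw [← hlam]
    linarith
  have hRA3 : lam ^ c / 4 ≤ (RA c X : ℝ) := by linarith
  have hRA4 : 2 ≤ RA c X := by
    unfold RA
    rw [← hlam]
    exact Nat.le_floor (by push_cast; linarith)
  have hRA5 : (2 : ℝ) ≤ (RA c X : ℝ) := by exact_mod_cast hRA4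
  have hRA0 : (0 : ℝ) < (RA c X : ℝ) := by linarith
  have hlR : 0 < Real.log (RA c X) := Real.log_pos (by linarith)
  -- `LA`
  have hpw : ((RA c X : ℝ)) ^ (LA c a X) = Real.exp (LA c a X * Real.log (RA c X)) := by
    rw [Real.exp_nat_mul, Real.exp_log hRA0]
  have hLA1 : a * lam ≤ LA c a X * Real.log (RA c X) := by
    have h1 : a * lam / Real.log (RA c X) ≤ (LA c a X : ℝ) := Nat.le_ceil _
    rwa [div_le_iff₀ hlR] at h1
  have hLA2 : LA c a X * Real.log (RA c X) ≤ a * lam + Real.log (RA c X) := by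
    have h1 : (LA c a X : ℝ) < a * lam / Real.log (RA c X) + 1 :=
      Nat.ceil_lt_add_one (by positivity)
    have h2 := mul_le_mul_of_nonneg_right h1.le hlR.le
    have h3 : (a * lam / Real.log (RA c X) + 1) * Real.log (RA c X) = a * lam + Real.log (RA c X) := by
      field_simp
    linarith
  have hR2low : L ^ a ≤ ((RA c X : ℝ)) ^ (LA c a X) := by
    rw [hLa, hpw]
    exact Real.exp_le_exp.2 hLA1
  have hpw2 : ((RA c X : ℝ)) ^ (LA c a X) ≤ Real.exp (a * lam) * (1 / 2 * Real.exp lam) := by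
    rw [hpw]
    calc Real.exp (LA c a X * Real.log (RA c X)) ≤ Real.exp (a * lam + Real.log (RA c X)) :=
          Real.exp_le_exp.2 hLA2
      _ = Real.exp (a * lam) * (RA c X : ℝ) := by rw [Real.exp_add, Real.exp_log hRA0]
      _ ≤ Real.exp (a * lam) * (1 / 2 * Real.exp lam) :=
          mul_le_mul_of_nonneg_left (hRA1.trans hlc) (Real.exp_pos _).le
  have hR2up : ((RA c X : ℝ)) ^ (LA c a X) ≤ L ^ (a + 1) := by
    refine hpw2.trans ?_
    rw [hLa, show (a + 1) * lam = a * lam + lam by ring, Real.exp_add]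
    have := Real.exp_pos (a * lam)
    have := Real.exp_pos lam
    nlinarith [mul_pos (Real.exp_pos (a * lam)) (Real.exp_pos lam)]
  have hRBc : (RB c a X : ℝ) = ((RA c X : ℝ)) ^ (LA c a X) := by
    unfold RB
    push_cast
    rfl
  have hRB0 : (0 : ℝ) < (RB c a X : ℝ) := by
    rw [hRBc]
    positivity
  have hR2 : 2 * RA c X ≤ RB c a X := by
    have h1 : (2 : ℝ) * (RA c X : ℝ) ≤ (RB c a X : ℝ) := by
      rw [hRBc]
      refine le_trans ?_ hR2low
      rw [hLa]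
      have h2 : Real.exp lam ≤ Real.exp (a * lam) := Real.exp_le_exp.2 (by nlinarith)
      linarith
    exact_mod_cast h1
  have hRR : (RA c X : ℝ) * RB c a X ≤ (X : ℝ) ^ (0.01 : ℝ) := by
    rw [hRBc, hXs]
    calc (RA c X : ℝ) * ((RA c X : ℝ)) ^ (LA c a X)
        ≤ Real.exp lam * Real.exp ((a + 1) * lam) := by
          refine mul_le_mul ?_ ?_ (by positivity) (Real.exp_pos _).le
          · have := Real.exp_pos lam
            linarith
          · rw [← hLa]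
            exact hR2up
      _ = Real.exp ((a + 2) * lam) := by rw [← Real.exp_add]; ring_nf
      _ ≤ Real.exp (0.01 * L) := by
          refine Real.exp_le_exp.2 ?_
          rw [hLe]
          norm_num
          linarith
  have hRR0 : (0 : ℝ) < (RA c X : ℝ) * RB c a X := by positivity
  have hYlow : (X : ℝ) ^ (0.99 : ℝ) ≤ YG (RA c X) (RB c a X) X := by
    unfold YG
    rw [le_div_iff₀ hRR0]
    calc (X : ℝ) ^ (0.99 : ℝ) * ((RA c X : ℝ) * RB c a X)
        ≤ (X : ℝ) ^ (0.99 : ℝ) * (X : ℝ) ^ (0.01 : ℝ) :=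
          mul_le_mul_of_nonneg_left hRR (by positivity)
      _ = (X : ℝ) := by
          rw [← Real.rpow_add hX0]
          norm_num
  have hPG : PG (RA c X) (RB c a X) X := ⟨hX8, hRA4, hR2, hYlow⟩
  -- `HA`
  have hlc40 : 0 < lam ^ (c + 4) := Real.rpow_pos_of_pos hlam0 _
  have hlc41 : lam ≤ lam ^ (c + 4) := by
    calc lam = lam ^ (1 : ℝ) := (Real.rpow_one _).symm
      _ ≤ lam ^ (c + 4) := Real.rpow_le_rpow_of_exponent_le (by linarith) (by linarith)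
  have hL2 : 2 ≤ L := by
    rw [hLe]
    have := Real.add_one_le_exp lam
    linarith
  have hHA1 : (HA c X : ℝ) ≤ L * lam ^ (c + 4) := Nat.floor_le (by positivity)
  have hHA2 : L * lam ^ (c + 4) - 1 < (HA c X : ℝ) := by
    have h1 := Nat.lt_floor_add_one (L * lam ^ (c + 4))
    unfold HA
    rw [← hlam, ← hL]
    linarith
  have hprod : 4 ≤ L * lam ^ (c + 4) := by nlinarith
  have hHA3 : L * lam ^ (c + 4) / 2 ≤ (HA c X : ℝ) := by linarith
  have hHA4 : 1 ≤ HA c X := by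
    have h1 : (0 : ℝ) < (HA c X : ℝ) := by linarith
    exact_mod_cast h1
  have hHA5 : (0 : ℝ) < (HA c X : ℝ) := by linarith
  have hHAexp : L * lam ^ (c + 4) ≤ 1 / 100 * Real.exp (2 * lam) := by
    rw [show 2 * lam = lam + lam by ring, Real.exp_add, hLe]
    have := Real.exp_pos lam
    nlinarith
  have h2lam : 2 * lam ≤ 1 / 2 * L := by
    rw [hLe]
    have h1 : 2 * lam ≤ (a + 2) * lam := by nlinarith
    have := Real.exp_pos lam
    linarith
  have hHA6 : 100 * HA c X ≤ X := by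
    have h1 : (100 : ℝ) * (HA c X : ℝ) ≤ (X : ℝ) := by
      calc (100 : ℝ) * (HA c X : ℝ) ≤ Real.exp (2 * lam) := by linarith
        _ ≤ Real.exp L := Real.exp_le_exp.2 (by linarith)
        _ = X := hXe.symm
    exact_mod_cast h1
  refine ⟨hPG, hHA4, hHA6, ?_⟩
  refine ⟨hRA3, hRA1, hR2low, hR2up, hYlow, hPG.Yup, by positivity, ?_, ?_, ?_⟩
  · -- `Dup`
    rw [div_le_iff₀ (by positivity), hXs]
    have h1 : Real.exp (-(1 / 2) * L) * (K * X) = K * Real.exp (1 / 2 * L) := by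
      have h2 : Real.exp (-(1 / 2) * L) * (X : ℝ) = Real.exp (1 / 2 * L) := by
        rw [hXe]
        rw [← Real.exp_add]
        ring_nf
      calc Real.exp (-(1 / 2) * L) * (K * X) = K * (Real.exp (-(1 / 2) * L) * X) := by ring
        _ = K * Real.exp (1 / 2 * L) := by rw [h2]
    rw [h1]
    calc (HA c X : ℝ) ≤ 1 / 100 * Real.exp (2 * lam) := hHA1.trans hHAexp
      _ ≤ Real.exp (2 * lam) := by
          have := Real.exp_pos (2 * lam)
          linarith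
      _ ≤ Real.exp (1 / 2 * L) := Real.exp_le_exp.2 h2lam
      _ ≤ K * Real.exp (1 / 2 * L) := le_mul_of_one_le_left (Real.exp_pos _).le hK
  · -- `DRY`
    have h1 : (HA c X : ℝ) / (K * X) * ((RA c X : ℝ)) ^ (LA c a X) * YG (RA c X) (RB c a X) X =
        (HA c X : ℝ) / (K * RA c X) := by
      unfold YG
      rw [← hRBc]
      field_simp
    rw [h1, le_div_iff₀ (by positivity)]
    have h3 : lam ^ (c + 4) = lam ^ c * lam ^ 4 := by
      rw [Real.rpow_add hlam0]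
      norm_cast
    calc L * lam ^ 3 * (K * (RA c X : ℝ)) ≤ L * lam ^ 3 * (K * lam ^ c) := by gcongr
      _ = L * lam ^ c * lam ^ 3 * (2 * K) / 2 := by ring
      _ ≤ L * lam ^ c * lam ^ 3 * lam / 2 := by gcongr
      _ = L * lam ^ (c + 4) / 2 := by rw [h3]; ring
      _ ≤ (HA c X : ℝ) := hHA3
  · -- `DX`
    have h1 : (HA c X : ℝ) / (K * X) * X = (HA c X : ℝ) / K := by
      field_simp
    rw [h1, le_div_iff₀ hK0]
    calc L * K = L * (2 * K) / 2 := by ring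
      _ ≤ L * lam ^ (c + 4) / 2 := by
          have : 2 * K ≤ lam ^ (c + 4) := hlK.trans hlc41
          gcongr
      _ ≤ (HA c X : ℝ) := hHA3

/-- PROOF. `HA/(K X) ≤ (log X)(ll X)^(c+4)/X → 0`. -/
theorem par2_small (c K δ : ℝ) (hc : 2 ≤ c) (hK : 1 ≤ K) (hδ : 0 < δ) : ∃ X₀ : ℕ, ∀ X : ℕ, X₀ ≤ X →
    (HA c X : ℝ) / (K * X) ≤ δ := by
  obtain ⟨X₀, h₀⟩ := par2 3 c K le_rfl hc hK
  refine ⟨max X₀ (max 1 ⌈(1 / δ) ^ 2⌉₊), fun X hX => ?_⟩
  have h1 := (h₀ X ((le_max_left _ _).trans hX)).2.2.2.Dup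
  have h2 : 1 ≤ X := (le_max_left _ _).trans ((le_max_right _ _).trans hX)
  have h3 : ⌈(1 / δ) ^ 2⌉₊ ≤ X := (le_max_right _ _).trans ((le_max_right _ _).trans hX)
  have h4 : (1 / δ) ^ 2 ≤ (X : ℝ) := (Nat.le_ceil _).trans (by exact_mod_cast h3)
  have h5 : (0 : ℝ) < X := by exact_mod_cast h2
  refine h1.trans ?_
  rw [Real.rpow_neg h5.le, ← Real.sqrt_eq_rpow]
  have h6 : 1 / δ ≤ Real.sqrt X := Real.le_sqrt_of_sq_le h4
  have h7 := inv_anti₀ (by positivity) h6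
  rwa [one_div, inv_inv] at h7

/-- PROOF. Let `c₁` be from `PAP2`, `C` from `winb_one`, `C'` from `char_window_g`; `c₀ = c₁/50`. Given `W, δ` choose `K ≥ 1` with
`130 exp (- K²/576) C φ(W)/c₁ ≤ δ/2` and `η > 0` with `32 √(2η) φ(W)/c₁ ≤ δ/2`; `T₀, X₀` from `CORE2 a c` for `W, η/2`; `T = max T₀ (2C'/η)`
(and `≥ 1`), `l = 1/T²` (`≤ 1`). For large `X`: `par2`, `par2_small` (`HA/(K X) ≤ l`). `CORE2` with `R = RA`, `ℓ = LA`, `Y = YG = YA`,
`Δ = HA/(K X)`, `χ₁ = χ₂ = χ₃ = χ` (the fields of `CH2`; `RB = RA^LA` by definition, its right side is `(η/2) FG²`), then `char_window_g` gives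
`∫ ‖WX d - WX l‖² ≤ (C'/T + η/2) FG² ≤ η FG²`. `PAP2` with `L = l` gives the lower bound for `WV` (`FA = FG`, `YA = YG` by definition).
`winb_one` gives `≤ δ X`. -/
theorem winb2_of (a c : ℝ) (ha : 3 ≤ a) (hc : 2 ≤ c) (hC : CORE2 a c) (hP : PAP2) : WINB2 a c := by
  obtain ⟨c₁, hc₁, hP⟩ := hP
  obtain ⟨C, hC1, hwin⟩ := winb_one
  obtain ⟨C', hC'1, hchar⟩ := char_window_g
  refine ⟨c₁ / 50, by positivity, fun W hW δ hδ => ?_⟩
  have hφ : (0 : ℝ) < (Nat.totient W : ℝ) := by exact_mod_cast Nat.totient_pos.2 hW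
  -- the choice of `K`
  set A : ℝ := 130 * C * (Nat.totient W / c₁) with hA
  have hA0 : 0 < A := by positivity
  set K : ℝ := max 1 (1152 * A / δ) with hKdef
  have hK1 : 1 ≤ K := le_max_left _ _
  have hKA : A * Real.exp (-(K ^ 2 / 576)) ≤ δ / 2 := by
    have h1 : 1152 * A / δ ≤ K := le_max_right _ _
    have h2 : Real.exp (-(K ^ 2 / 576)) ≤ 576 / K := by
      have h3 : K ^ 2 / 576 ≤ Real.exp (K ^ 2 / 576) := by
        have := Real.add_one_le_exp (K ^ 2 / 576)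
        linarith
      rw [Real.exp_neg]
      calc (Real.exp (K ^ 2 / 576))⁻¹ ≤ (K ^ 2 / 576)⁻¹ := inv_anti₀ (by positivity) h3
        _ = 576 / K / K := by field_simp
        _ ≤ 576 / K := div_le_self (by positivity) hK1
    calc A * Real.exp (-(K ^ 2 / 576)) ≤ A * (576 / K) := mul_le_mul_of_nonneg_left h2 hA0.le
      _ ≤ δ / 2 := by
          rw [div_le_iff₀ hδ] at h1
          rw [← mul_div_assoc, div_le_iff₀ (by positivity)]
          linarith
  -- the choice of `η`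
  set s : ℝ := δ * c₁ / (64 * Nat.totient W) with hs
  have hs0 : 0 < s := by positivity
  set η : ℝ := s ^ 2 / 2 with hη
  have hη0 : 0 < η := by positivity
  have hsη : Real.sqrt (2 * η) = s := by
    rw [hη, show 2 * (s ^ 2 / 2) = s ^ 2 by ring, Real.sqrt_sq hs0.le]
  obtain ⟨T₀, hT₀, X₁, hcore⟩ := hC W hW (η / 2) (by positivity)
  set T : ℝ := max T₀ (2 * C' / η) with hT
  have hT1 : T₀ ≤ T := le_max_left _ _
  have hT2 : 2 * C' / η ≤ T := le_max_right _ _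
  have hT3 : 1 ≤ T := hT₀.trans hT1
  have hl0 : 0 < 1 / T ^ 2 := by positivity
  have hl1 : 1 / T ^ 2 ≤ 1 := by
    rw [div_le_one (by positivity)]
    exact one_le_pow₀ hT3
  obtain ⟨X₂, hpap⟩ := hP a c ha hc W hW (1 / T ^ 2) hl0 hl1
  obtain ⟨X₃, hpar⟩ := par2 a c K ha hc hK1
  obtain ⟨X₄, hsmall⟩ := par2_small c K (1 / T ^ 2) hc hK1 hl0
  refine ⟨max (max X₁ X₂) (max X₃ X₄), fun X hX v hv => ?_⟩
  have hX1 : X₁ ≤ X := (le_max_left _ _).trans ((le_max_left _ _).trans hX)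
  have hX2 : X₂ ≤ X := (le_max_right _ _).trans ((le_max_left _ _).trans hX)
  have hX3 : X₃ ≤ X := (le_max_left _ _).trans ((le_max_right _ _).trans hX)
  have hX4 : X₄ ≤ X := (le_max_right _ _).trans ((le_max_right _ _).trans hX)
  obtain ⟨hPG, hHA1, hHA2, hCH⟩ := hpar X hX3
  have hd1 := hsmall X hX4
  have hRBc : (RB c a X : ℝ) = ((RA c X : ℝ)) ^ (LA c a X) := by
    unfold RB
    push_cast
    rfl
  have hFG0 : 0 < FG (RA c X) (RB c a X) X := hPG.pos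
  have hχ : ∀ χ : DirichletCharacter ℂ W,
      ∫ x : ℝ, ‖WX χ (RA c X) (RB c a X) X (HA c X / (K * X)) x -
        WX χ (RA c X) (RB c a X) X (1 / T ^ 2) x‖ ^ 2 ≤ η * (FG (RA c X) (RB c a X) X) ^ 2 := by
    intro χ
    have h1 := hcore X hX1 χ χ χ (RA c X) (LA c a X) hCH.Rlow hCH.Rup hCH.R2low hCH.R2up
      (YG (RA c X) (RB c a X) X) (HA c X / (K * X)) hCH.Ylow hCH.Yup hCH.Dpos hCH.Dup hCH.DRY hCH.DX
    have h2 := hchar (RA c X) (RB c a X) X hPG W χ T₀ T (HA c X / (K * X)) (η / 2) hT3 hT1 hCH.Dpos hd1 (by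
      unfold PPP FG
      rw [hRBc]
      exact h1)
    refine h2.trans (mul_le_mul_of_nonneg_right ?_ (by positivity))
    have h3 : C' / T ≤ η / 2 := by
      rw [div_le_iff₀ hη0] at hT2
      rw [div_le_iff₀ (by linarith)]
      linarith
    linarith
  have hlow : ∀ x : ℝ, |x - Real.log X| ≤ 1 → c₁ * FG (RA c X) (RB c a X) X / Nat.totient W ≤
      WV W v (RA c X) (RB c a X) X (1 / T ^ 2) x := fun x hx => hpap X hX2 v hv x hx
  have key := hwin (RA c X) (RB c a X) X (HA c X) W v K (1 / T ^ 2) η c₁ hPG hHA1 hHA2 hW hv hK1 hl0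
    hη0.le hc₁ hχ hlow
  refine le_trans key ?_
  rw [hsη]
  have h5 : (Nat.totient W / c₁) * (32 * s + 130 * Real.exp (-(K ^ 2 / 576)) * C) =
      32 * s * (Nat.totient W / c₁) + A * Real.exp (-(K ^ 2 / 576)) := by
    rw [hA]
    ring
  have h6 : 32 * s * (Nat.totient W / c₁) = δ / 2 := by
    rw [hs]
    field_simp
    ring
  rw [mul_assoc, h5, h6, mul_comm]
  refine mul_le_mul_of_nonneg_right ?_ (Nat.cast_nonneg _)
  linarith

end Pool.Agent.E3
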