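import Pool.Agent.Lib.MP_bae66e_nt.Mg.G103
import Pool.Agent.Lib.MP_bae66e_nt.E3.F6
import Pool.Agent.Lib.MP_bae66e_nt.Mg.G113
import Pool.Agent.Lib.MP_bae66e_nt.E3.M8
import Pool.Agent.Lib.MP_bae66e_nt.Mg.G115
import Pool.Agent.Lib.MP_bae66e_nt.E3.P4
import Pool.Agent.Lib.MP_bae66e_nt.E3.Q3
import Pool.Agent.Lib.MP_bae66e_nt.E3.N3e
import Pool.Agent.Lib.MP_bae66e_nt.Mg.G029
import Pool.Agent.Lib.MP_bae66e_nt.Mg.G110

/-!
# F7: assembly of the campaign
-/

set_option autoImplicit false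

namespace Pool.Agent.E3

/-- The upper bound: for almost all even `m` there is a representation `m = p + r₁ r₂ q` with `p ≤ log m (log log m)^C`. -/
theorem final2 : FINAL2 := by
  obtain ⟨θ, hθ, -, hT⟩ := t3q
  obtain ⟨a, c, ha, hc, hcore⟩ := core2_of θ hθ hT nlv (mv1 slp slf)
  exact final2_of a c hc ha (winb2_of a c ha hc hcore pap2) (vara2_of slp a c ha hc)

end Pool.Agent.E3
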