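import Pool.Agent.Lib.MP_bae66e_nt.E3.F6

/-!
# F8: the first moment bound for `p ≤ log m (log log m)^η`, `η < 1`
-/

set_option autoImplicit false

namespace Pool.Agent.E3

open Finset

/-- the largeness condition of `few_small2` -/
private lemma F8_large (K δ η : ℝ) (hK : 0 < K) (hδ : 0 < δ) (hη : η < 1) :
    ∃ N₀ : ℕ, ∀ N : ℕ, N₀ ≤ N →
    4 ≤ Real.log N ∧ 1 ≤ Real.log (Real.log N) ∧ 3 ≤ δ / 2 * N ∧
    10 * K * (Real.log (Real.log (Real.log N))) ^ 2 ≤
      δ / 2 * (Real.log (Real.log N)) ^ (1 - η) := by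
  have hN : Filter.Tendsto (fun N : ℕ => (N : ℝ)) Filter.atTop Filter.atTop :=
    tendsto_natCast_atTop_atTop
  have hL : Filter.Tendsto (fun N : ℕ => Real.log (N : ℝ)) Filter.atTop Filter.atTop :=
    Real.tendsto_log_atTop.comp hN
  have hLL : Filter.Tendsto (fun N : ℕ => Real.log (Real.log (N : ℝ)))
      Filter.atTop Filter.atTop := Real.tendsto_log_atTop.comp hL
  have h1 := hL.eventually_ge_atTop 4
  have h2 := hLL.eventually_ge_atTop 1
  have h0 := hN.eventually_ge_atTop (6 / δ)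
  have h3 : ∀ᶠ x : ℝ in Filter.atTop,
      ‖Real.log x ^ (2 : ℝ)‖ ≤ (δ / 2 / (10 * K)) * ‖x ^ (1 - η)‖ :=
    (isLittleO_log_rpow_rpow_atTop 2 (by linarith : (0 : ℝ) < 1 - η)).bound (by positivity)
  have h4 := hLL.eventually h3
  obtain ⟨N₀, hN₀⟩ := Filter.eventually_atTop.1 ((h0.and (h1.and h2)).and h4)
  refine ⟨N₀, fun N hN' => ?_⟩
  obtain ⟨⟨h00, h5, h6⟩, h7⟩ := hN₀ N hN'
  refine ⟨h5, h6, ?_, ?_⟩
  · rw [div_le_iff₀ hδ] at h00
    linarith
  have h8 : 0 ≤ Real.log (Real.log (Real.log (N : ℝ))) := Real.log_nonneg h6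
  rw [Real.norm_of_nonneg (by positivity), Real.norm_of_nonneg (by positivity),
    Real.rpow_two] at h7
  calc 10 * K * (Real.log (Real.log (Real.log (N : ℝ)))) ^ 2
      ≤ 10 * K * (δ / 2 / (10 * K) * (Real.log (Real.log N)) ^ (1 - η)) := by gcongr
    _ = δ / 2 * (Real.log (Real.log N)) ^ (1 - η) := by
        field_simp

open Classical in
/-- PROOF. As `few_small` in `F6`, with `y = log N (log log N)^η` instead of `log N`: the number of such `m ≤ N` is at most
`3 + π(y) K (N/log N) (log log log N)² ≤ 3 + 10 K N (log log log N)² (log log N)^(η - 1) ≤ δ N`. -/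
theorem few_small2 (C η : ℝ) (hC : 1 ≤ C) (hη0 : 0 ≤ η) (hη : η < 1) (δ : ℝ) (hδ : 0 < δ) :
    ∃ N₀ : ℕ, ∀ N : ℕ, N₀ ≤ N →
    (#{m ∈ Icc 1 N | ∃ p r₁ r₂ q : ℕ, p.Prime ∧ r₁.Prime ∧ r₂.Prime ∧ q.Prime ∧
      m = p + r₁ * r₂ * q ∧ (p : ℝ) ≤ Real.log m * (Real.log (Real.log m)) ^ η ∧
      (r₁ : ℝ) ≤ (Real.log m) ^ C ∧ (r₂ : ℝ) ≤ (Real.log m) ^ C} : ℝ) ≤ δ * N := by
  obtain ⟨K, hK, N₁, hN₁⟩ := count_three C hC
  obtain ⟨N₂, hN₂⟩ := F8_large K δ η (by linarith) hδ hη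
  refine ⟨max N₁ N₂, ?_⟩
  intro N hN
  have hcount := hN₁ N ((le_max_left _ _).trans hN)
  obtain ⟨hL, hLL1, h3N, hsmall⟩ := hN₂ N ((le_max_right _ _).trans hN)
  have hL0 : 0 < Real.log N := by linarith
  have hLL : 0 < Real.log (Real.log N) := by linarith
  set A : Finset ℕ := {n ∈ Icc 1 N | ∃ r₁ r₂ q : ℕ, r₁.Prime ∧ r₂.Prime ∧ q.Prime ∧
    n = r₁ * r₂ * q ∧ (r₁ : ℝ) ≤ (Real.log N) ^ C ∧ (r₂ : ℝ) ≤ (Real.log N) ^ C} with hA
  set y : ℝ := Real.log N * (Real.log (Real.log N)) ^ η with hy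
  have hpow1 : 1 ≤ (Real.log (Real.log N)) ^ η := Real.one_le_rpow hLL1 hη0
  have hyL : Real.log N ≤ y := le_mul_of_one_le_right hL0.le hpow1
  have hy0 : 0 < y := by linarith
  set l : ℕ := ⌊y⌋₊ with hl
  have hl4 : 4 ≤ l := Nat.le_floor (by push_cast; linarith)
  have hlL : (l : ℝ) ≤ y := Nat.floor_le hy0.le
  set P : Finset ℕ := (Icc 1 l).filter Nat.Prime with hP
  have hsub : ({m ∈ Icc 1 N | ∃ p r₁ r₂ q : ℕ, p.Prime ∧ r₁.Prime ∧ r₂.Prime ∧ q.Prime ∧
      m = p + r₁ * r₂ * q ∧ (p : ℝ) ≤ Real.log m * (Real.log (Real.log m)) ^ η ∧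
      (r₁ : ℝ) ≤ (Real.log m) ^ C ∧
      (r₂ : ℝ) ≤ (Real.log m) ^ C} : Finset ℕ) ⊆
        range 3 ∪ (P ×ˢ A).image (fun x => x.1 + x.2) := by
    intro m hm
    rw [mem_filter, mem_Icc] at hm
    obtain ⟨⟨hm1, hm2⟩, p, r₁, r₂, q, h1, h2, h3, h4, h5, h6, h7, h8⟩ := hm
    rw [mem_union]
    by_cases hm3 : m < 3
    · exact Or.inl (mem_range.2 hm3)
    right
    push Not at hm3
    have hm0 : (0 : ℝ) < m := by exact_mod_cast hm1
    have hm3' : (3 : ℝ) ≤ m := by exact_mod_cast hm3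
    have hlogm1 : 1 < Real.log m := by
      rw [Real.lt_log_iff_exp_lt hm0]
      have := Real.exp_one_lt_d9
      linarith
    have hllm : 0 < Real.log (Real.log m) := Real.log_pos hlogm1
    have hlog : Real.log m ≤ Real.log N := Real.log_le_log hm0 (by exact_mod_cast hm2)
    have hloglog : Real.log (Real.log m) ≤ Real.log (Real.log N) :=
      Real.log_le_log (by linarith) hlog
    have hlog0 : 0 ≤ Real.log m := by linarith
    have hpow : (Real.log m) ^ C ≤ (Real.log N) ^ C :=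
      Real.rpow_le_rpow hlog0 hlog (by linarith)
    have hpowη : (Real.log (Real.log m)) ^ η ≤ (Real.log (Real.log N)) ^ η :=
      Real.rpow_le_rpow hllm.le hloglog hη0
    have hy1 : Real.log m * (Real.log (Real.log m)) ^ η ≤ y :=
      mul_le_mul hlog hpowη (Real.rpow_nonneg hllm.le _) hL0.le
    rw [mem_image]
    refine ⟨(p, r₁ * r₂ * q), ?_, h5.symm⟩
    rw [mem_product, hP, hA, mem_filter, mem_filter, mem_Icc, mem_Icc]
    have hpos : 0 < r₁ * r₂ * q := Nat.mul_pos (Nat.mul_pos h2.pos h3.pos) h4.pos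
    refine ⟨⟨⟨h1.one_lt.le, Nat.le_floor (h6.trans hy1)⟩, h1⟩, ⟨hpos, ?_⟩, ?_⟩
    · have e : r₁ * r₂ * q ≤ m := by omega
      exact e.trans hm2
    · exact ⟨r₁, r₂, q, h2, h3, h4, rfl, h7.trans hpow, h8.trans hpow⟩
  have hcard : (#{m ∈ Icc 1 N | ∃ p r₁ r₂ q : ℕ, p.Prime ∧ r₁.Prime ∧ r₂.Prime ∧ q.Prime ∧
      m = p + r₁ * r₂ * q ∧ (p : ℝ) ≤ Real.log m * (Real.log (Real.log m)) ^ η ∧
      (r₁ : ℝ) ≤ (Real.log m) ^ C ∧
      (r₂ : ℝ) ≤ (Real.log m) ^ C} : ℝ) ≤ 3 + (P.card : ℝ) * (A.card : ℝ) := by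
    have h1 := (card_le_card hsub).trans ((card_union_le _ _).trans
      (add_le_add_right (card_image_le (s := P ×ˢ A) (f := fun x : ℕ × ℕ => x.1 + x.2)) _))
    rw [card_product, card_range] at h1
    exact_mod_cast h1
  have hlog2 : Real.log (Real.log N) / 2 ≤ Real.log l := by
    have hs : √(Real.log N) ≤ (l : ℝ) := by
      have h1 : y < (l : ℝ) + 1 := Nat.lt_floor_add_one _
      have h2 : √(Real.log N) * √(Real.log N) = Real.log N := Real.mul_self_sqrt hL0.le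
      have h3 : 2 ≤ √(Real.log N) := by
        rw [Real.le_sqrt (by norm_num) hL0.le]
        linarith
      nlinarith
    have h4 : Real.log (√(Real.log N)) ≤ Real.log l :=
      Real.log_le_log (Real.sqrt_pos.2 hL0) hs
    rwa [Real.log_sqrt hL0.le] at h4
  have hcardP : (P.card : ℝ) ≤ 5 * (l : ℝ) / Real.log l := by
    have h1 : P ⊆ (range (l + 1)).filter Nat.Prime := by
      intro p hp
      rw [hP, mem_filter, mem_Icc] at hp
      rw [mem_filter, mem_range]
      exact ⟨by omega, hp.2⟩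
    have h2 : (P.card : ℝ) ≤ (((range (l + 1)).filter Nat.Prime).card : ℝ) := by
      exact_mod_cast card_le_card h1
    refine h2.trans ?_
    have h3 := Lib.MP_bae66e_nt.pi_upper l (by omega)
    rw [Nat.primeCounting, Nat.primeCounting', Nat.count_eq_card_filter_range] at h3
    exact h3
  have hPc : (P.card : ℝ) ≤ 10 * y / Real.log (Real.log N) := by
    refine hcardP.trans ?_
    calc 5 * (l : ℝ) / Real.log l ≤ 5 * y / (Real.log (Real.log N) / 2) := by
          gcongr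
      _ = 10 * y / Real.log (Real.log N) := by
          field_simp
          ring
  have hη1 : (Real.log (Real.log N)) ^ η * (Real.log (Real.log N)) ^ (1 - η) =
      Real.log (Real.log N) := by
    rw [← Real.rpow_add hLL]
    simp
  have hηpos : 0 < (Real.log (Real.log N)) ^ η := Real.rpow_pos_of_pos hLL _
  have hηpos' : 0 < (Real.log (Real.log N)) ^ (1 - η) := Real.rpow_pos_of_pos hLL _
  have hmain : (P.card : ℝ) * (A.card : ℝ) ≤ δ / 2 * N := by
    calc (P.card : ℝ) * (A.card : ℝ)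
        ≤ (10 * y / Real.log (Real.log N)) *
            (K * (N / Real.log N) * (Real.log (Real.log (Real.log N))) ^ 2) :=
          mul_le_mul hPc hcount (Nat.cast_nonneg _) (by positivity)
      _ = (10 * K * (Real.log (Real.log (Real.log N))) ^ 2) *
            ((Real.log (Real.log N)) ^ η / Real.log (Real.log N)) * N := by
          rw [hy]
          field_simp
      _ ≤ (δ / 2 * (Real.log (Real.log N)) ^ (1 - η)) *
            ((Real.log (Real.log N)) ^ η / Real.log (Real.log N)) * N := by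
          gcongr
      _ = δ / 2 * (((Real.log (Real.log N)) ^ η * (Real.log (Real.log N)) ^ (1 - η)) /
            Real.log (Real.log N)) * N := by ring
      _ = δ / 2 * N := by
          rw [hη1, div_self hLL.ne', mul_one]
  linarith

end Pool.Agent.E3
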