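import Pool.Agent.Lib.MP_bae66e_nt.Mg.G024
import Pool.Agent.Lib.MP_bae66e_nt.Mg.G082
import Pool.Agent.Lib.MP_bae66e_nt.Mg.G098

/-!
# J11: VARJ
-/

set_option autoImplicit false

namespace Pool.Agent.E3

open Finset MeasureTheory Real Filter
open Pool.Agent.Lib.MP_bae66e_nt.AP3 (prI mem_prI)
open Pool.Agent.Lib.MP_bae66e_nt.LL (fP gW nu)

/-- PROOF. By definition (`PP.EL`, file PP/G3a.lean, where the same is a private lemma). -/
theorem EL_eq (W H n : ℕ) : fP H (n : ℤ) - gW W H (n : ℤ) = Pool.Agent.PP.EL W H n := by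
  unfold Pool.Agent.Lib.MP_bae66e_nt.LL.fP Pool.Agent.Lib.MP_bae66e_nt.LL.gW Pool.Agent.PP.EL
    Pool.Agent.Lib.MP_bae66e_nt.LL.nu Pool.Agent.PP.nu
  by_cases h : 1 ≤ n ∧ n ≤ H
  · have h1 : (1 : ℤ) ≤ (n : ℤ) := by exact_mod_cast h.1
    have h2 : (n : ℤ) ≤ (H : ℤ) := by exact_mod_cast h.2
    have h3 : IsCoprime (n : ℤ) (W : ℤ) ↔ n.Coprime W := Nat.isCoprime_iff_coprime
    simp only [h1, h2, h.1, h.2, true_and, and_self, if_true, Int.toNat_natCast, h3]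
  · have h' : ¬ ((1 : ℤ) ≤ (n : ℤ) ∧ (n : ℤ) ≤ (H : ℤ)) := by
      rintro ⟨h1, h2⟩
      exact h ⟨by exact_mod_cast h1, by exact_mod_cast h2⟩
    rw [if_neg h', if_neg h, if_neg (fun hh => h' ⟨hh.1, hh.2.1⟩), sub_zero]

private theorem J11_EL_abs (W H n : ℕ) (hW : 1 ≤ W) (hH : 1 ≤ H) :
    |Pool.Agent.PP.EL W H n| ≤ Real.log H + W := by
  have hlog : 0 ≤ Real.log H := Real.log_natCast_nonneg H
  have hWR : (1 : ℝ) ≤ W := by exact_mod_cast hW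
  have hnu0 : 0 ≤ Pool.Agent.PP.nu W n := by
    unfold Pool.Agent.PP.nu
    split_ifs
    · positivity
    · exact le_rfl
  have hnu1 : Pool.Agent.PP.nu W n ≤ W := by
    unfold Pool.Agent.PP.nu
    split_ifs
    · have h1 : (1 : ℝ) ≤ Nat.totient W := by
        exact_mod_cast Nat.totient_pos.2 (by omega)
      rw [div_le_iff₀ (by linarith)]
      nlinarith
    · linarith
  unfold Pool.Agent.PP.EL
  split_ifs
  · rw [abs_le]
    constructor <;> linarith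
  · rw [abs_le]
    constructor <;> linarith
  · rw [abs_zero]
    linarith

/-- PROOF. `0 ≤ fP ≤ log H` and `0 ≤ gW ≤ W/φ(W) ≤ W` for `W ≥ 1`; `EL W H 0 = 0`. The sums have `H` terms. -/
theorem EL_bounds (W H : ℕ) (hW : 1 ≤ W) (hH : 1 ≤ H) :
    Pool.Agent.PP.EL W H 0 = 0 ∧ ∑ t ∈ Icc 1 H, (Pool.Agent.PP.EL W H t) ^ 2 ≤ H * (Real.log H + W) ^ 2 ∧
      ∑ t ∈ Icc 1 H, |Pool.Agent.PP.EL W H t| ≤ H * (Real.log H + W) := by
  refine ⟨?_, ?_, ?_⟩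
  · unfold Pool.Agent.PP.EL
    rw [if_neg (by omega)]
  · calc ∑ t ∈ Icc 1 H, (Pool.Agent.PP.EL W H t) ^ 2
        ≤ ∑ _t ∈ Icc 1 H, (Real.log H + W) ^ 2 := by
          refine Finset.sum_le_sum fun t _ => ?_
          rw [← sq_abs]
          exact pow_le_pow_left₀ (abs_nonneg _) (J11_EL_abs W H t hW hH) 2
      _ = H * (Real.log H + W) ^ 2 := by
          rw [Finset.sum_const, Nat.card_Icc, nsmul_eq_mul, Nat.add_sub_cancel]
  · calc ∑ t ∈ Icc 1 H, |Pool.Agent.PP.EL W H t|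
        ≤ ∑ _t ∈ Icc 1 H, (Real.log H + W) :=
          Finset.sum_le_sum fun t _ => J11_EL_abs W H t hW hH
      _ = H * (Real.log H + W) := by
          rw [Finset.sum_const, Nat.card_Icc, nsmul_eq_mul, Nat.add_sub_cancel]

private theorem J11_log_small (c d : ℝ) (hc : 0 ≤ c) (hd : 0 ≤ d) :
    ∀ᶠ x : ℝ in atTop, (c + d * Real.log x) ^ 4 ≤ x := by
  have h1 := (Real.isLittleO_pow_log_id_atTop (n := 4)).bound
    (show (0 : ℝ) < 1 / (d + 1) ^ 4 by positivity)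
  have h2 : ∀ᶠ x : ℝ in atTop, c ≤ Real.log x := Real.tendsto_log_atTop.eventually_ge_atTop c
  filter_upwards [h1, h2, eventually_ge_atTop (1 : ℝ)] with x h1 h2 h3
  have hx : (0 : ℝ) ≤ Real.log x := Real.log_nonneg h3
  rw [Real.norm_of_nonneg (by positivity), id_eq, Real.norm_of_nonneg (by linarith)] at h1
  calc (c + d * Real.log x) ^ 4 ≤ ((d + 1) * Real.log x) ^ 4 := by
        refine pow_le_pow_left₀ (by positivity) ?_ 4
        linarith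
    _ = (d + 1) ^ 4 * (Real.log x) ^ 4 := by ring
    _ ≤ (d + 1) ^ 4 * (1 / (d + 1) ^ 4 * x) := mul_le_mul_of_nonneg_left h1 (by positivity)
    _ = x := by
        field_simp

private theorem J11_exp_big (s B : ℝ) (hB : 0 ≤ B) : ∀ᶠ x : ℝ in atTop, B * x ^ s ≤ Real.exp x := by
  have h1 := (isLittleO_rpow_exp_atTop s).bound (show (0 : ℝ) < 1 / (B + 1) by positivity)
  filter_upwards [h1, eventually_ge_atTop (0 : ℝ)] with x h1 h2
  rw [Real.norm_of_nonneg (by positivity), Real.norm_of_nonneg (by positivity)] at h1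
  have h3 : 0 ≤ x ^ s := by positivity
  have h4 : (B + 1) * x ^ s ≤ Real.exp x := by
    calc (B + 1) * x ^ s ≤ (B + 1) * (1 / (B + 1) * Real.exp x) :=
          mul_le_mul_of_nonneg_left h1 (by positivity)
      _ = Real.exp x := by
          field_simp
  nlinarith

/-- PROOF. `R = ⌊(log M)^a⌋ ≥ (log M)^a/2`, `H = 2R²`, so `log H ≤ 4 a log log M` for large `M`, and powers of `log M` beat powers of `log log M`
(`a ≥ 3`, so `H ≥ (log M)^6/2`), and `M` beats the powers of `log M`. -/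
theorem par_J (a K : ℝ) (ha : 3 ≤ a) : ∃ M₀ : ℕ, ∀ M : ℕ, M₀ ≤ M →
    2 ≤ RJ a M ∧ K ≤ RJ a M ∧ 1 ≤ Real.log (RJ a M) ∧ 1 ≤ Real.log M ∧
    K * ((Real.log (HJ a M) + K) ^ 2 * (Real.log M) ^ 2) ≤ HJ a M ∧
    K * (HJ a M * ((Real.log (HJ a M) + K) ^ 2 * (Real.log M) ^ 2)) ≤ M ∧
    K * ((Real.log (HJ a M) + K) ^ 4 * Real.log (RJ a M)) ≤ RJ a M ∧
    4 * (RJ a M + HJ a M) ≤ M := by
  have hLt : Tendsto (fun M : ℕ => Real.log (M : ℝ)) atTop atTop :=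
    Real.tendsto_log_atTop.comp tendsto_natCast_atTop_atTop
  have e1 := hLt.eventually (J11_log_small (Real.log 2 + |K|) (2 * a)
    (add_nonneg (Real.log_nonneg (by norm_num)) (abs_nonneg K)) (by linarith))
  have e2 := hLt.eventually (J11_exp_big (2 * a + 3) (2 * |K|) (by positivity))
  have e3 := hLt.eventually (J11_exp_big (2 * a) 12 (by norm_num))
  have e4 := hLt.eventually_ge_atTop (2 * |K| + 8)
  have e5 : ∀ᶠ M : ℕ in atTop, 1 ≤ M := eventually_ge_atTop 1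
  have e6 := hLt.eventually (J11_log_small 0 a le_rfl (by linarith))
  obtain ⟨M₀, hM₀⟩ := eventually_atTop.1
    (e1.and (e2.and (e3.and (e4.and (e5.and e6)))))
  refine ⟨M₀, fun M hM => ?_⟩
  obtain ⟨f1, f2, f3, f4, f5, f6⟩ := hM₀ M hM
  have hMR : (0 : ℝ) < M := by exact_mod_cast f5
  rw [Real.exp_log hMR] at f2 f3
  obtain ⟨x, hx⟩ : ∃ x : ℝ, x = Real.log M := ⟨_, rfl⟩
  rw [← hx] at f1 f2 f3 f4 f6
  have hK0 : 0 ≤ |K| := abs_nonneg K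
  have hKK : K ≤ |K| := le_abs_self K
  have hx8 : 8 ≤ x := by linarith
  have hxK : 2 * |K| ≤ x := by linarith
  have hxpos : 0 < x := by linarith
  have hlogx : 0 ≤ Real.log x := Real.log_nonneg (by linarith)
  have hxa3 : x ^ 3 ≤ x ^ a := by
    rw [← Real.rpow_natCast]
    exact Real.rpow_le_rpow_of_exponent_le (by linarith) (by push_cast; linarith)
  have hx64 : 64 * x ≤ x ^ 3 := by nlinarith [mul_pos hxpos hxpos]
  have hRle : (RJ a M : ℝ) ≤ x ^ a := by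
    unfold RJ
    rw [← hx]
    exact Nat.floor_le (by positivity)
  have hRge : x ^ a / 2 ≤ RJ a M := by
    unfold RJ
    rw [← hx]
    have h1 := Nat.lt_floor_add_one (x ^ a)
    have h2 : 2 ≤ x ^ a := by nlinarith
    linarith
  have hR3 : x ^ 3 / 2 ≤ RJ a M := by linarith
  have hH : (HJ a M : ℝ) = 2 * (RJ a M : ℝ) ^ 2 := by
    unfold HJ
    push_cast
    ring
  have hR1 : (1 : ℝ) ≤ RJ a M := by nlinarith
  have hRpos : (0 : ℝ) < RJ a M := by linarith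
  have hx2a : x ^ (2 * a) = (x ^ a) ^ 2 := by
    rw [two_mul, Real.rpow_add hxpos, sq]
  have hHle : (HJ a M : ℝ) ≤ 2 * x ^ (2 * a) := by
    rw [hH, hx2a]
    have := pow_le_pow_left₀ hRpos.le hRle 2
    linarith
  have hHpos : (0 : ℝ) < HJ a M := by
    rw [hH]
    positivity
  have hlogR : Real.log (RJ a M) ≤ a * Real.log x := by
    rw [← Real.log_rpow hxpos]
    exact Real.log_le_log hRpos hRle
  have hlogH : Real.log (HJ a M) ≤ Real.log 2 + 2 * a * Real.log x := by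
    rw [hH, Real.log_mul (by norm_num) (by positivity), Real.log_pow]
    push_cast
    linarith
  have hlogH0 : 0 ≤ Real.log (HJ a M) := Real.log_natCast_nonneg _
  have hlogR0 : 0 ≤ Real.log (RJ a M) := Real.log_natCast_nonneg _
  have hbase : |Real.log (HJ a M) + K| ≤ Real.log 2 + |K| + 2 * a * Real.log x := by
    refine (abs_add_le _ _).trans ?_
    rw [abs_of_nonneg hlogH0]
    linarith
  have h4 : (Real.log (HJ a M) + K) ^ 4 ≤ x := by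
    refine le_trans ?_ f1
    have h5 : (Real.log (HJ a M) + K) ^ 4 = |Real.log (HJ a M) + K| ^ 4 := by
      rw [← abs_pow, abs_of_nonneg (by positivity)]
    rw [h5]
    exact pow_le_pow_left₀ (abs_nonneg _) hbase 4
  have h2 : (Real.log (HJ a M) + K) ^ 2 ≤ x := by
    have h5 : (Real.log (HJ a M) + K) ^ 4 = ((Real.log (HJ a M) + K) ^ 2) ^ 2 := by ring
    rw [h5] at h4
    have h6 : 0 ≤ (Real.log (HJ a M) + K) ^ 2 := by positivity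
    by_contra h7
    push Not at h7
    nlinarith
  have hlogRx : Real.log (RJ a M) ≤ x := by
    have h5 : 0 ≤ a * Real.log x := by positivity
    refine hlogR.trans ?_
    by_contra h7
    push Not at h7
    have h8 : (1 : ℝ) ≤ a * Real.log x := by linarith
    have h9 : a * Real.log x ≤ (0 + a * Real.log x) ^ 4 := by
      rw [zero_add]
      calc a * Real.log x = (a * Real.log x) ^ 1 := (pow_one _).symm
        _ ≤ (a * Real.log x) ^ 4 := pow_le_pow_right₀ h8 (by norm_num)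
    linarith
  have h20 : 0 ≤ (Real.log (HJ a M) + K) ^ 2 := by positivity
  have h40 : 0 ≤ (Real.log (HJ a M) + K) ^ 4 := by positivity
  rw [← hx]
  refine ⟨?_, ?_, ?_, ?_, ?_, ?_, ?_, ?_⟩
  · have h5 : (2 : ℝ) ≤ RJ a M := by nlinarith
    exact_mod_cast h5
  · nlinarith
  · rw [Real.le_log_iff_exp_le hRpos]
    have h5 := Real.exp_one_lt_d9
    nlinarith
  · linarith
  · -- K * (A² x²) ≤ H
    have h5 : K * ((Real.log (HJ a M) + K) ^ 2 * x ^ 2) ≤ |K| * (x * x ^ 2) := by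
      have h6 : 0 ≤ (Real.log (HJ a M) + K) ^ 2 * x ^ 2 := by positivity
      calc K * ((Real.log (HJ a M) + K) ^ 2 * x ^ 2)
          ≤ |K| * ((Real.log (HJ a M) + K) ^ 2 * x ^ 2) := mul_le_mul_of_nonneg_right hKK h6
        _ ≤ |K| * (x * x ^ 2) := by gcongr
    refine h5.trans ?_
    rw [hH]
    have h7 : (x ^ 3 / 2) ^ 2 ≤ (RJ a M : ℝ) ^ 2 := pow_le_pow_left₀ (by positivity) hR3 2
    have h8 : |K| * (x * x ^ 2) ≤ x / 2 * (x * x ^ 2) :=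
      mul_le_mul_of_nonneg_right (by linarith) (by positivity)
    have h9 : x / 2 * (x * x ^ 2) ≤ 2 * (x ^ 3 / 2) ^ 2 := by
      have h10 : 0 ≤ x ^ 4 := by positivity
      nlinarith [mul_nonneg h10 (sub_nonneg.2 hx8), mul_nonneg h10 (mul_pos hxpos hxpos).le]
    linarith
  · have h5 : K * (HJ a M * ((Real.log (HJ a M) + K) ^ 2 * x ^ 2)) ≤
        |K| * ((2 * x ^ (2 * a)) * (x * x ^ 2)) := by
      have h6 : 0 ≤ (HJ a M : ℝ) * ((Real.log (HJ a M) + K) ^ 2 * x ^ 2) := by positivity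
      calc K * (HJ a M * ((Real.log (HJ a M) + K) ^ 2 * x ^ 2))
          ≤ |K| * (HJ a M * ((Real.log (HJ a M) + K) ^ 2 * x ^ 2)) :=
            mul_le_mul_of_nonneg_right hKK h6
        _ ≤ |K| * ((2 * x ^ (2 * a)) * (x * x ^ 2)) := by gcongr
    refine h5.trans (le_trans (le_of_eq ?_) f2)
    have h7 : x ^ (2 * a + 3) = x ^ (2 * a) * x ^ 3 := by
      rw [Real.rpow_add hxpos]
      norm_num
    rw [h7]
    ring
  · have h5 : K * ((Real.log (HJ a M) + K) ^ 4 * Real.log (RJ a M)) ≤ |K| * (x * x) := by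
      have h6 : 0 ≤ (Real.log (HJ a M) + K) ^ 4 * Real.log (RJ a M) := by positivity
      calc K * ((Real.log (HJ a M) + K) ^ 4 * Real.log (RJ a M))
          ≤ |K| * ((Real.log (HJ a M) + K) ^ 4 * Real.log (RJ a M)) :=
            mul_le_mul_of_nonneg_right hKK h6
        _ ≤ |K| * (x * x) := by gcongr
    refine h5.trans ?_
    have h8 : |K| * (x * x) ≤ x / 2 * (x * x) :=
      mul_le_mul_of_nonneg_right (by linarith) (by positivity)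
    nlinarith
  · have h5 : ((4 * (RJ a M + HJ a M) : ℕ) : ℝ) ≤ (M : ℝ) := by
      push_cast
      have h6 : x ^ a ≤ x ^ (2 * a) := by
        rw [hx2a]
        have : 1 ≤ x ^ a := by nlinarith
        nlinarith
      linarith
    exact_mod_cast h5

/-- The second factor. -/
private theorem J11_energy (C₆ ε R H lam A n S2 rh I4 : ℝ) (hC₆p : 0 < C₆) (hε0 : 0 < ε)
    (hRR : 2 ≤ R) (hHR : H = 2 * R ^ 2) (hlpos : 0 < lam) (c3 : A ^ 4 ≤ ε * R)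
    (c4 : 25 * A ^ 4 * lam ≤ C₆ * ε * R) (hn0 : 0 ≤ n)
    (hrh0 : 0 ≤ rh) (hI40 : 0 ≤ I4) (i1 : n ≤ C₆ * R / lam) (i2 : rh ≤ C₆ / lam)
    (g0 : S2 ^ 2 ≤ H ^ 2 * A ^ 4) (hI4 : I4 ≤ ε * H ^ 3) :
    n * S2 ^ 2 + rh * I4 + 1 / R * (π ^ 2 / 4 * ((2 * R) ^ 2 + 2 * (H + 1))) * S2 ^ 2
      ≤ 3 * C₆ * ε * H ^ 3 / lam := by
  have hRpos : 0 < R := by linarith
  have hHpos : 0 < H := by
    rw [hHR]
    positivity
  have hS : 0 ≤ S2 ^ 2 := sq_nonneg _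
  have hRH : R ^ 2 ≤ H := by
    rw [hHR]
    have := sq_nonneg R
    linarith
  have g1 : n * S2 ^ 2 ≤ C₆ * ε * H ^ 3 / lam := by
    calc n * S2 ^ 2 ≤ (C₆ * R / lam) * (H ^ 2 * A ^ 4) := by gcongr
      _ ≤ (C₆ * R / lam) * (H ^ 2 * (ε * R)) := by gcongr
      _ = C₆ * ε * H ^ 2 * R ^ 2 / lam := by ring
      _ ≤ C₆ * ε * H ^ 2 * H / lam := by gcongr
      _ = C₆ * ε * H ^ 3 / lam := by ring
  have g2 : rh * I4 ≤ C₆ * ε * H ^ 3 / lam := by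
    calc rh * I4 ≤ (C₆ / lam) * (ε * H ^ 3) := by gcongr
      _ = C₆ * ε * H ^ 3 / lam := by ring
  have g3 : 1 / R * (π ^ 2 / 4 * ((2 * R) ^ 2 + 2 * (H + 1))) * S2 ^ 2 ≤
      C₆ * ε * H ^ 3 / lam := by
    have h1 : π ^ 2 ≤ 10 := by
      have h5 := Real.pi_lt_d2
      have h6 := Real.pi_pos
      calc π ^ 2 ≤ 3.15 ^ 2 := pow_le_pow_left₀ h6.le h5.le 2
        _ ≤ 10 := by norm_num
    have h0 : 1 ≤ R ^ 2 := one_le_pow₀ (by linarith)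
    have h2 : (2 * R) ^ 2 + 2 * (H + 1) ≤ 10 * R ^ 2 := by
      rw [hHR]
      calc (2 * R) ^ 2 + 2 * (2 * R ^ 2 + 1) = 8 * R ^ 2 + 2 := by ring
        _ ≤ 10 * R ^ 2 := by linarith
    have h3 : π ^ 2 / 4 * ((2 * R) ^ 2 + 2 * (H + 1)) ≤ 25 * R ^ 2 := by
      calc π ^ 2 / 4 * ((2 * R) ^ 2 + 2 * (H + 1)) ≤ 10 / 4 * (10 * R ^ 2) := by
            gcongr
        _ = 25 * R ^ 2 := by ring
    calc 1 / R * (π ^ 2 / 4 * ((2 * R) ^ 2 + 2 * (H + 1))) * S2 ^ 2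
        ≤ 1 / R * (25 * R ^ 2) * (H ^ 2 * A ^ 4) := by
          gcongr
      _ = R * H ^ 2 / lam * (25 * A ^ 4 * lam) := by
          field_simp
      _ ≤ R * H ^ 2 / lam * (C₆ * ε * R) := mul_le_mul_of_nonneg_left c4 (by positivity)
      _ = C₆ * ε * H ^ 2 * R ^ 2 / lam := by ring
      _ ≤ C₆ * ε * H ^ 2 * H / lam := by gcongr
      _ = C₆ * ε * H ^ 3 / lam := by ring
  have g4 : 3 * C₆ * ε * H ^ 3 / lam = C₆ * ε * H ^ 3 / lam + C₆ * ε * H ^ 3 / lam +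
      C₆ * ε * H ^ 3 / lam := by ring
  rw [g4]
  linarith

private theorem J11_first (C₆ η R H M L lam A n S1 S2 : ℝ) (hC₆p : 0 < C₆)
    (hRR : 2 ≤ R) (hH : 0 < H) (hM : 1 ≤ M) (hL : 0 < L) (hlpos : 0 < lam) (hA : 0 ≤ A)
    (c1 : 8 * C₆ ^ 2 * A ^ 2 * L ^ 2 ≤ η * H) (c2 : 8 * C₆ ^ 2 * H * A ^ 2 * L ^ 2 ≤ η * M)
    (hn0 : 0 ≤ n) (hS1 : 0 ≤ S1) (hS2 : 0 ≤ S2) (i1 : n ≤ C₆ * R / lam)
    (f1 : S2 ≤ H * A ^ 2) (f2 : S1 ≤ H * A) :
    n * (n * ((M + 1) * S2 + 2 * H * S1 ^ 2)) ≤ η / 2 * M * ((R * H) / (lam * L)) ^ 2 := by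
  have hRpos : 0 < R := by linarith
  have hMpos : 0 < M := by linarith
  have g1 : (M + 1) * S2 + 2 * H * S1 ^ 2 ≤ 2 * M * (H * A ^ 2) + 2 * H * (H * A) ^ 2 := by
    have h1 : M + 1 ≤ 2 * M := by linarith
    gcongr
  have g2 : C₆ ^ 2 * (2 * M * (H * A ^ 2) + 2 * H * (H * A) ^ 2) * L ^ 2 ≤ η / 2 * M * H ^ 2 := by
    have h1 := mul_le_mul_of_nonneg_left c1 (show (0 : ℝ) ≤ M * H / 4 by positivity)
    have h2 := mul_le_mul_of_nonneg_left c2 (show (0 : ℝ) ≤ H ^ 2 / 4 by positivity)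
    calc C₆ ^ 2 * (2 * M * (H * A ^ 2) + 2 * H * (H * A) ^ 2) * L ^ 2
        = M * H / 4 * (8 * C₆ ^ 2 * A ^ 2 * L ^ 2) + H ^ 2 / 4 * (8 * C₆ ^ 2 * H * A ^ 2 * L ^ 2) := by
          ring
      _ ≤ M * H / 4 * (η * H) + H ^ 2 / 4 * (η * M) := add_le_add h1 h2
      _ = η / 2 * M * H ^ 2 := by ring
  have g0 : 0 ≤ (M + 1) * S2 + 2 * H * S1 ^ 2 := by positivity
  calc n * (n * ((M + 1) * S2 + 2 * H * S1 ^ 2))
      ≤ (C₆ * R / lam) * ((C₆ * R / lam) * (2 * M * (H * A ^ 2) + 2 * H * (H * A) ^ 2)) := by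
        gcongr
    _ = (R ^ 2 / (lam ^ 2 * L ^ 2)) *
        (C₆ ^ 2 * (2 * M * (H * A ^ 2) + 2 * H * (H * A) ^ 2) * L ^ 2) := by
        field_simp
    _ ≤ (R ^ 2 / (lam ^ 2 * L ^ 2)) * (η / 2 * M * H ^ 2) :=
        mul_le_mul_of_nonneg_left g2 (by positivity)
    _ = η / 2 * M * ((R * H) / (lam * L)) ^ 2 := by
        rw [div_pow, mul_pow, mul_pow]
        ring

private theorem J11_second (C₁ C₄ C₆ η τ ε R H M L lam n Sg E : ℝ) (hC₁ : 0 < C₁) (hC₄ : 0 < C₄)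
    (hC₆p : 0 < C₆) (hη : 0 < η) (hτ : τ = η / (4 * C₁ * C₆ ^ 2)) (hε : 0 < ε)
    (hετ : 6 * C₄ * ε = τ ^ 2) (hR : 0 < R) (hH : 0 < H) (hM : 0 < M) (hL : 0 < L)
    (hlpos : 0 < lam) (hn0 : 0 ≤ n) (hSg0 : 0 ≤ Sg)
    (i1 : n ≤ C₆ * R / lam) (hE : E ≤ 3 * C₆ * ε * H ^ 3 / lam)
    (hcl : Sg ≤ Real.sqrt (n * (2 * R) * (C₄ * H)) * Real.sqrt E) :
    n * (2 * (C₁ * (M / L ^ 2)) * Sg) ≤ η / 2 * M * ((R * H) / (lam * L)) ^ 2 := by
  have hτ0 : 0 < τ := by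
    rw [hτ]
    positivity
  have hSgle : Sg ≤ τ * (C₆ * R * H ^ 2 / lam) := by
    refine hcl.trans ?_
    have g1 : n * (2 * R) * (C₄ * H) ≤ 2 * C₄ * C₆ * R ^ 2 * H / lam := by
      calc n * (2 * R) * (C₄ * H) ≤ (C₆ * R / lam) * (2 * R) * (C₄ * H) := by gcongr
        _ = 2 * C₄ * C₆ * R ^ 2 * H / lam := by ring
    calc Real.sqrt (n * (2 * R) * (C₄ * H)) * Real.sqrt E
        ≤ Real.sqrt (2 * C₄ * C₆ * R ^ 2 * H / lam) * Real.sqrt (3 * C₆ * ε * H ^ 3 / lam) := by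
          gcongr
      _ = Real.sqrt ((τ * (C₆ * R * H ^ 2 / lam)) ^ 2) := by
          rw [← Real.sqrt_mul (by positivity)]
          congr 1
          rw [mul_pow, ← hετ]
          field_simp
          ring
      _ = τ * (C₆ * R * H ^ 2 / lam) := Real.sqrt_sq (by positivity)
  calc n * (2 * (C₁ * (M / L ^ 2)) * Sg)
      ≤ (C₆ * R / lam) * (2 * (C₁ * (M / L ^ 2)) * (τ * (C₆ * R * H ^ 2 / lam))) := by
        gcongr
    _ = (2 * C₁ * C₆ ^ 2 * τ) * M * ((R * H) / (lam * L)) ^ 2 := by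
        field_simp
    _ = η / 2 * M * ((R * H) / (lam * L)) ^ 2 := by
        have h1 : 2 * C₁ * C₆ ^ 2 * τ = η / 2 := by
          rw [hτ]
          field_simp
          ring
        rw [h1]

/-- PROOF. Notation: `R = RJ a M`, `H = HJ a M = 2R²`, `L = log M`, `λ = log R`, `A = log H + W`, `W = primorial w`; `C₁` from `pair_m`, `C₄` from
`class_sum_le`, `C₆` from `IS_bounds`. Choose `ε > 0` with `2 C₁ C₆² √(6 C₄ ε) ≤ η/2`, `w₀` from `fourth_EL pntap ε` (PP/G3b.lean, PP/G1.lean), `w ≥ w₀`, and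
`K = K(C₁, C₄, C₆, ε, η, W, y₀)` large in `par_J`. By `EL_eq` and `var_total` (`B = C₁ M/L²`; `2 (b + h) ≤ 2(2R + H) ≤ M`) and `class_sum_le` for `f = PP.EL W H`
(`SF f H` is the `expSum` of `fourth_EL`, so `I₄ ≤ ε H³`), with `EL_bounds`:
first part `≤ (C₆ R/λ)² (2 M H A² + 2 H³ A²) ≤ (η/2) M (R H/(λ L))²` since `8 C₆² A² L² ≤ η H` and `8 C₆² H A² L² ≤ η M`;
second part `≤ (C₆ R/λ) (2 C₁ M/L²) √((C₆ R/λ) 2R C₄ H) √E`, where `E ≤ (C₆ R/λ) H² A⁴ + (C₆/λ) ε H³ + 25 R H² A⁴ ≤ 3 C₆ ε H³/λ` (as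
`π²/4 (4R² + 2(H+1)) ≤ 25 R²` and `R A⁴ ≤ ε H`, `25 R A⁴ λ ≤ C₆ ε H`), so it is `≤ 2 C₁ C₆² √(6 C₄ ε) M (R H/(λ L))² ≤ (η/2) M (GJ a M)²`. -/
theorem varj (a : ℝ) (ha : 3 ≤ a) : VARJ a := by
  intro η hη
  obtain ⟨C₁, hC₁, M₁, hpair⟩ := pair_m
  obtain ⟨C₄, hC₄, hclass⟩ := class_sum_le
  obtain ⟨C₆, hC₆, hIS⟩ := IS_bounds
  obtain ⟨τ, hτ⟩ : ∃ τ : ℝ, τ = η / (4 * C₁ * C₆ ^ 2) := ⟨_, rfl⟩
  have hC₁p : 0 < C₁ := by linarith
  have hC₄p : 0 < C₄ := by linarith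
  have hC₆p : 0 < C₆ := by linarith
  have hτ0 : 0 < τ := by
    rw [hτ]
    positivity
  obtain ⟨ε, hε⟩ : ∃ ε : ℝ, ε = τ ^ 2 / (6 * C₄) := ⟨_, rfl⟩
  have hε0 : 0 < ε := by
    rw [hε]
    positivity
  have hετ : 6 * C₄ * ε = τ ^ 2 := by
    rw [hε]
    field_simp
  obtain ⟨w₀, hw₀⟩ := Pool.Agent.PP.fourth_EL Pool.Agent.PP.pntap ε hε0
  refine ⟨w₀, fun w hw => ?_⟩
  obtain ⟨y₀, hy₀⟩ := hw₀ w hw
  obtain ⟨W, hWdef⟩ : ∃ W, W = primorial w := ⟨_, rfl⟩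
  have hW1 : 1 ≤ W := by
    rw [hWdef]
    exact primorial_pos w
  have hWR : (1 : ℝ) ≤ W := by exact_mod_cast hW1
  obtain ⟨K, hK⟩ : ∃ K : ℝ, K = (y₀ : ℝ) + W + 8 * C₆ ^ 2 / η + 1 / ε + 25 / (C₆ * ε) := ⟨_, rfl⟩
  have hy0 : (0 : ℝ) ≤ y₀ := Nat.cast_nonneg _
  have t1 : 0 < 8 * C₆ ^ 2 / η := by positivity
  have t2 : 0 < 1 / ε := by positivity
  have t3 : 0 < 25 / (C₆ * ε) := by positivity
  have hKW : (W : ℝ) ≤ K := by linarith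
  have hKy : (y₀ : ℝ) ≤ K := by linarith
  have hK1 : 8 * C₆ ^ 2 / η ≤ K := by linarith
  have hK2 : 1 / ε ≤ K := by linarith
  have hK3 : 25 / (C₆ * ε) ≤ K := by linarith
  have hKpos : 0 < K := by linarith
  obtain ⟨M₂, hpar⟩ := par_J a K ha
  refine ⟨max M₁ (max M₂ 1), fun M hM => ?_⟩
  have hM1 : M₁ ≤ M := (le_max_left _ _).trans hM
  have hM2 : M₂ ≤ M := ((le_max_left _ _).trans (le_max_right _ _)).trans hM
  have hM3 : 1 ≤ M := ((le_max_right _ _).trans (le_max_right _ _)).trans hM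
  obtain ⟨p1, p2, p3, p4, p5, p6, p7, p8⟩ := hpar M hM2
  obtain ⟨R, hR⟩ : ∃ R, R = RJ a M := ⟨_, rfl⟩
  obtain ⟨H, hH⟩ : ∃ H, H = HJ a M := ⟨_, rfl⟩
  rw [← hWdef] at hy₀ ⊢
  have hG : GJ a M = ((R : ℝ) * H) / (Real.log R * Real.log M) := by
    unfold GJ
    rw [← hR, ← hH]
  have hHR : (H : ℝ) = 2 * (R : ℝ) ^ 2 := by
    rw [hH, hR]
    unfold HJ
    push_cast
    ring
  rw [hG]
  rw [← hR] at p1 p2 p3 p7 p8 ⊢
  rw [← hH] at p5 p6 p7 p8 ⊢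
  obtain ⟨L, hL⟩ : ∃ L : ℝ, L = Real.log M := ⟨_, rfl⟩
  obtain ⟨lam, hlam⟩ : ∃ lam : ℝ, lam = Real.log R := ⟨_, rfl⟩
  rw [← hL] at p4 p5 p6 ⊢
  rw [← hlam] at p3 p7 ⊢
  obtain ⟨A, hA⟩ : ∃ A : ℝ, A = Real.log H + W := ⟨_, rfl⟩
  have hlogH : 0 ≤ Real.log H := Real.log_natCast_nonneg H
  have hA0 : 0 ≤ A := by linarith
  have hAK : A ≤ Real.log H + K := by linarith
  have hA2 : A ^ 2 ≤ (Real.log H + K) ^ 2 := pow_le_pow_left₀ hA0 hAK 2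
  have hA4 : A ^ 4 ≤ (Real.log H + K) ^ 4 := pow_le_pow_left₀ hA0 hAK 4
  have hRR : (2 : ℝ) ≤ R := by exact_mod_cast p1
  have hRpos : (0 : ℝ) < R := by linarith
  have hHpos : (0 : ℝ) < H := by
    rw [hHR]
    positivity
  have hH1 : 1 ≤ H := by
    have : 0 < H := by exact_mod_cast hHpos
    omega
  have hMpos : (0 : ℝ) < M := by exact_mod_cast hM3
  have hLpos : 0 < L := by linarith
  have hlpos : 0 < lam := by linarith
  have hHM : H ≤ M := by omega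
  -- the conditions on the parameters
  have c1 : 8 * C₆ ^ 2 * A ^ 2 * L ^ 2 ≤ η * H := by
    have h1 : 8 * C₆ ^ 2 / η * (A ^ 2 * L ^ 2) ≤ H :=
      calc 8 * C₆ ^ 2 / η * (A ^ 2 * L ^ 2) ≤ K * ((Real.log H + K) ^ 2 * L ^ 2) := by gcongr
        _ ≤ (H : ℝ) := p5
    calc 8 * C₆ ^ 2 * A ^ 2 * L ^ 2 = η * (8 * C₆ ^ 2 / η * (A ^ 2 * L ^ 2)) := by field_simp
      _ ≤ η * H := mul_le_mul_of_nonneg_left h1 hη.le
  have c2 : 8 * C₆ ^ 2 * H * A ^ 2 * L ^ 2 ≤ η * M := by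
    have h1 : 8 * C₆ ^ 2 / η * (H * (A ^ 2 * L ^ 2)) ≤ M :=
      calc 8 * C₆ ^ 2 / η * (H * (A ^ 2 * L ^ 2)) ≤ K * (H * ((Real.log H + K) ^ 2 * L ^ 2)) := by
            gcongr
        _ ≤ (M : ℝ) := p6
    calc 8 * C₆ ^ 2 * H * A ^ 2 * L ^ 2 = η * (8 * C₆ ^ 2 / η * (H * (A ^ 2 * L ^ 2))) := by
          field_simp
      _ ≤ η * M := mul_le_mul_of_nonneg_left h1 hη.le
  have c3 : A ^ 4 ≤ ε * R := by
    have h1 : 1 / ε * A ^ 4 ≤ R :=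
      calc 1 / ε * A ^ 4 ≤ K * (Real.log H + K) ^ 4 := by gcongr
        _ = K * ((Real.log H + K) ^ 4 * 1) := by ring
        _ ≤ K * ((Real.log H + K) ^ 4 * lam) := by gcongr
        _ ≤ (R : ℝ) := p7
    calc A ^ 4 = ε * (1 / ε * A ^ 4) := by field_simp
      _ ≤ ε * R := mul_le_mul_of_nonneg_left h1 hε0.le
  have c4 : 25 * A ^ 4 * lam ≤ C₆ * ε * R := by
    have h1 : 25 / (C₆ * ε) * (A ^ 4 * lam) ≤ R :=
      calc 25 / (C₆ * ε) * (A ^ 4 * lam) ≤ K * ((Real.log H + K) ^ 4 * lam) := by gcongr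
        _ ≤ (R : ℝ) := p7
    calc 25 * A ^ 4 * lam = C₆ * ε * (25 / (C₆ * ε) * (A ^ 4 * lam)) := by field_simp
      _ ≤ C₆ * ε * R := mul_le_mul_of_nonneg_left h1 (by positivity)
  have hyH : y₀ ≤ H := by
    have h1 : (y₀ : ℝ) ≤ H := by
      rw [hHR]
      nlinarith
    exact_mod_cast h1
  obtain ⟨f0, f1, f2⟩ := EL_bounds W H hW1 hH1
  rw [← hA] at f1 f2
  have hI4 := hy₀ H hyH
  obtain ⟨i1, i2⟩ := hIS R p1
  rw [← hlam] at i1 i2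
  have hvar := var_total (Pool.Agent.PP.EL W H) H R M (C₁ * (M / L ^ 2)) hHM
    (fun s b h hs hb hh hhH => by
      have hs' := hs
      rw [IS, mem_prI] at hs'
      have h1 := hpair M hM1 s b h hs'.2 hh (by omega)
      rw [← hL] at h1
      exact h1)
  have hcl := hclass (Pool.Agent.PP.EL W H) H R f0 (by omega)
  -- the left side
  have hlhs : ∑ m ∈ Icc M (2 * M), (∑ s ∈ IS R, ∑ t ∈ Icc 1 H,
        (fP H (t : ℤ) - gW W H (t : ℤ)) * (if (s * m - t).Prime then 1 else 0)) ^ 2 =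
      ∑ m ∈ Icc M (2 * M), (∑ s ∈ IS R, ∑ t ∈ Icc 1 H,
        Pool.Agent.PP.EL W H t * (if (s * m - t).Prime then 1 else 0)) ^ 2 := by
    refine Finset.sum_congr rfl fun m _ => ?_
    refine congrArg (· ^ 2) ?_
    refine Finset.sum_congr rfl fun s _ => Finset.sum_congr rfl fun t _ => ?_
    rw [EL_eq]
  rw [hlhs]
  refine hvar.trans ?_
  -- abbreviations
  obtain ⟨n, hn⟩ : ∃ n : ℝ, n = (#(IS R) : ℝ) := ⟨_, rfl⟩
  obtain ⟨S2, hS2⟩ : ∃ S2 : ℝ, S2 = ∑ t ∈ Icc 1 H, Pool.Agent.PP.EL W H t ^ 2 := ⟨_, rfl⟩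
  obtain ⟨S1, hS1⟩ : ∃ S1 : ℝ, S1 = ∑ t ∈ Icc 1 H, |Pool.Agent.PP.EL W H t| := ⟨_, rfl⟩
  obtain ⟨rh, hrh⟩ : ∃ rh : ℝ, rh = ∑ s ∈ IS R, 1 / (s : ℝ) := ⟨_, rfl⟩
  obtain ⟨Sg, hSg⟩ : ∃ Sg : ℝ, Sg = ∑ s ∈ IS R, ∑ h ∈ Icc 1 H, ∑ b ∈ range s,
    (Fr h) ^ 2 * |cb (Pool.Agent.PP.EL W H) H s b h| := ⟨_, rfl⟩
  obtain ⟨I4, hI4d⟩ : ∃ I4 : ℝ, I4 = ∫ θ in (0:ℝ)..1, ‖SF (Pool.Agent.PP.EL W H) H θ‖ ^ 4 :=
    ⟨_, rfl⟩
  have hI4' : I4 ≤ ε * (H : ℝ) ^ 3 := by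
    rw [hI4d]
    exact hI4
  have hI40 : 0 ≤ I4 := by
    rw [hI4d]
    refine intervalIntegral.integral_nonneg zero_le_one fun θ _ => by positivity
  rw [← hn, ← hS2, ← hrh, ← hI4d, ← hSg] at hcl
  rw [← hn, ← hS2, ← hS1, ← hSg]
  rw [← hS2] at f1
  rw [← hS1] at f2
  rw [← hn] at i1
  rw [← hrh] at i2
  have hn0 : 0 ≤ n := by
    rw [hn]
    positivity
  have hS20 : 0 ≤ S2 := by
    rw [hS2]
    exact Finset.sum_nonneg fun _ _ => sq_nonneg _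
  have hS10 : 0 ≤ S1 := by
    rw [hS1]
    exact Finset.sum_nonneg fun _ _ => abs_nonneg _
  have hrh0 : 0 ≤ rh := by
    rw [hrh]
    exact Finset.sum_nonneg fun _ _ => by positivity
  have hfirst := J11_first C₆ η R H M L lam A n S1 S2 hC₆p hRR hHpos (by exact_mod_cast hM3) hLpos
    hlpos hA0 c1 c2 hn0 hS10 hS20 i1 f1 f2
  have g0 : S2 ^ 2 ≤ H ^ 2 * A ^ 4 := by
    calc S2 ^ 2 ≤ (H * A ^ 2) ^ 2 := pow_le_pow_left₀ hS20 f1 2
      _ = H ^ 2 * A ^ 4 := by ring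
  have hE := J11_energy C₆ ε R H lam A n S2 rh I4 hC₆p hε0 hRR hHR hlpos c3 c4 hn0 hrh0 hI40 i1 i2
    g0 hI4'
  have hSg0 : 0 ≤ Sg := by
    rw [hSg]
    refine Finset.sum_nonneg fun _ _ => Finset.sum_nonneg fun _ _ =>
      Finset.sum_nonneg fun _ _ => by positivity
  have hsecond := J11_second C₁ C₄ C₆ η τ ε R H M L lam n Sg _ hC₁p hC₄p hC₆p hη hτ hε0 hετ hRpos
    hHpos hMpos hLpos hlpos hn0 hSg0 i1 hE hcl
  calc n * (n * ((M + 1) * S2 + 2 * H * S1 ^ 2) + 2 * (C₁ * (M / L ^ 2)) * Sg)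
      = n * (n * ((M + 1) * S2 + 2 * H * S1 ^ 2)) + n * (2 * (C₁ * (M / L ^ 2)) * Sg) := by ring
    _ ≤ η / 2 * M * (((R : ℝ) * H) / (lam * L)) ^ 2 +
        η / 2 * M * (((R : ℝ) * H) / (lam * L)) ^ 2 := add_le_add hfirst hsecond
    _ = η * M * (((R : ℝ) * H) / (lam * L)) ^ 2 := by ring

end Pool.Agent.E3
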