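import Pool.Agent.Lib.MP_bae66e_nt.Mg.G003
import Pool.Agent.Lib.MP_bae66e_nt.Mg.G010

/-!
# N3d: large values of a prime polynomial
-/

set_option autoImplicit false

namespace Pool.Agent.E3

open Finset MeasureTheory Real
open Pool.Agent.Lib.MP_bae66e_nt.AP3 (prI mem_prI)

/-- PROOF. `pow_expand` writes `(DP f (IS R) t)^k` as a sum over `φ : Fin k → IS R` with frequencies `log n`, `n = ∏ φ i`,
`n ≤ (2R)^k`, and coefficients of modulus `≤ ∏ 1/φ_i`. `discrete_mv` with `J = k!` (`prime_fiber`), `N = (2R)^k`, and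
`∑_φ ∏ φ_i^(-2) = (∑_r 1/r²)^k ≤ R^(-k)`, `∑_φ ∏ φ_i^(-1) = (∑_r 1/r)^k ≤ 1` (`pow_expand_real`, `recip_IS_le_one`). The left
side is at most `∑_{t ∈ T} ‖DP‖^(2k)`. -/
theorem large_ineq (k R : ℕ) (hR : 2 ≤ R) (f : ℕ → ℂ) (hf : ∀ n, ‖f n‖ ≤ 1) (X V : ℝ) (hX : 1 ≤ X) (hV : 0 ≤ V)
    (T : Finset ℝ) (hT : Spaced T) (hTX : ∀ t ∈ T, |t| ≤ X) (hTV : ∀ t ∈ T, V ≤ ‖DP f (IS R) t‖) :
    (#T : ℝ) * V ^ (2 * k)
      ≤ 40 * k.factorial * (1 + (k * Real.log (2 * R)) ^ 2) * (X / (R : ℝ) ^ k + 10) := by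
  classical
  set P := Fintype.piFinset (fun _ : Fin k => IS R) with hP
  let n : (Fin k → ℕ) → ℕ := fun x => ∏ i, x i
  let Y : (Fin k → ℕ) → ℂ := fun x => ∏ i, f (x i) / (x i : ℂ)
  have hISp : ∀ r ∈ IS R, r.Prime := fun r hr => (mem_prI.mp hr).2
  have hISb : ∀ r ∈ IS R, r ≤ 2 * R := fun r hr => (mem_prI.mp hr).1.2
  have hR0 : (0 : ℝ) < R := by exact_mod_cast (by omega : 0 < R)
  have hn1 : ∀ x ∈ P, ∀ i, 1 ≤ x i ∧ x i ≤ 2 * R := by
    intro x hx i
    have hx1 : ∀ i, x i ∈ IS R := Fintype.mem_piFinset.mp hx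
    exact ⟨(hISp _ (hx1 i)).one_lt.le, hISb _ (hx1 i)⟩
  have hn : ∀ x ∈ P, 1 ≤ n x ∧ (n x : ℝ) ≤ (2 * R : ℝ) ^ k := by
    intro x hx
    refine ⟨Nat.one_le_iff_ne_zero.mpr (Finset.prod_ne_zero_iff.mpr fun i _ => ?_), ?_⟩
    · have := (hn1 x hx i).1
      omega
    · have h1 : n x ≤ ∏ _i : Fin k, 2 * R := Finset.prod_le_prod' fun i _ => (hn1 x hx i).2
      rw [Finset.prod_const, Finset.card_univ, Fintype.card_fin] at h1
      exact_mod_cast h1
  have hexp : ∀ t, (DP f (IS R) t) ^ k = ∑ i ∈ P, Y i * ph t (Real.log (n i)) := by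
    intro t
    have e1 : DP f (IS R) t = ∑ r ∈ IS R, (f r / (r : ℂ)) * ph t (Real.log r) := by
      unfold DP
      refine Finset.sum_congr rfl fun r _ => ?_
      push_cast
      ring
    rw [e1, pow_expand (IS R) (fun r hr => (hISp r hr).one_lt.le) (fun r => f r / (r : ℂ)) t k]
  have hJ : ∀ m, (#{i ∈ P | n i = m} : ℝ) ≤ (k.factorial : ℝ) := fun m => by
    exact_mod_cast prime_fiber (IS R) hISp k m
  have hmain := discrete_mv P Y n (k.factorial : ℝ) X ((2 * R : ℝ) ^ k) hX (Nat.cast_nonneg _) hn hJ T hT hTX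
  have hlow : (#T : ℝ) * V ^ (2 * k) ≤ ∑ t ∈ T, ‖∑ i ∈ P, Y i * ph t (Real.log (n i))‖ ^ 2 := by
    rw [← nsmul_eq_mul]
    refine Finset.card_nsmul_le_sum _ _ _ fun t ht => ?_
    rw [← hexp t, norm_pow, ← pow_mul, mul_comm k 2]
    exact pow_le_pow_left₀ hV (hTV t ht) _
  refine hlow.trans (hmain.trans ?_)
  rw [Real.log_pow]
  have hterm : ∀ x ∈ P, ‖Y x‖ ^ 2 * (X + 10 * n x)
      ≤ X * (∏ i, 1 / (x i : ℝ) ^ 2) + 10 * (∏ i, 1 / (x i : ℝ)) := by
    intro x hx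
    set U : ℝ := ∏ i, 1 / (x i : ℝ) with hU
    have hU0 : 0 ≤ U := Finset.prod_nonneg fun i _ => by positivity
    have hUX : ‖Y x‖ ≤ U := by
      simp only [Y]
      rw [norm_prod]
      refine Finset.prod_le_prod (fun i _ => norm_nonneg _) fun i _ => ?_
      rw [norm_div, Complex.norm_natCast]
      exact div_le_div_of_nonneg_right (hf _) (Nat.cast_nonneg _)
    have hU2 : ∏ i, 1 / (x i : ℝ) ^ 2 = U ^ 2 := by
      rw [hU, ← Finset.prod_pow]
      refine Finset.prod_congr rfl fun i _ => ?_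
      rw [div_pow, one_pow]
    have hUn : U * (n x : ℝ) = 1 := by
      show U * ((∏ i, x i : ℕ) : ℝ) = 1
      rw [hU, Nat.cast_prod, ← Finset.prod_mul_distrib]
      refine Finset.prod_eq_one fun i _ => ?_
      have : (x i : ℝ) ≠ 0 := by
        have : (0 : ℝ) < x i := by exact_mod_cast (hn1 x hx i).1
        exact this.ne'
      field_simp
    rw [hU2]
    have h1 : ‖Y x‖ ^ 2 ≤ U ^ 2 := pow_le_pow_left₀ (norm_nonneg _) hUX 2
    have hn0 : (0 : ℝ) ≤ n x := Nat.cast_nonneg _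
    calc ‖Y x‖ ^ 2 * (X + 10 * n x) ≤ U ^ 2 * (X + 10 * n x) :=
          mul_le_mul_of_nonneg_right h1 (by positivity)
      _ = X * U ^ 2 + 10 * (U * (U * n x)) := by ring
      _ = _ := by rw [hUn, mul_one]
  have hsum : ∑ x ∈ P, ‖Y x‖ ^ 2 * (X + 10 * n x) ≤ X / (R : ℝ) ^ k + 10 := by
    refine (Finset.sum_le_sum hterm).trans ?_
    rw [Finset.sum_add_distrib, ← Finset.mul_sum, ← Finset.mul_sum,
      pow_expand_real (IS R) (fun r => 1 / (r : ℝ) ^ 2) k, pow_expand_real (IS R) (fun r => 1 / (r : ℝ)) k]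
    obtain ⟨hr1, hr2⟩ := recip_IS_le_one R (by omega)
    have ht1 : 0 ≤ ∑ r ∈ IS R, 1 / (r : ℝ) ^ 2 := Finset.sum_nonneg fun r _ => by positivity
    have ht2 : 0 ≤ ∑ r ∈ IS R, 1 / (r : ℝ) := Finset.sum_nonneg fun r _ => by positivity
    have k1 : (∑ r ∈ IS R, 1 / (r : ℝ) ^ 2) ^ k ≤ (1 / (R : ℝ)) ^ k := pow_le_pow_left₀ ht1 hr2 k
    have k2 : (∑ r ∈ IS R, 1 / (r : ℝ)) ^ k ≤ 1 := pow_le_one₀ ht2 hr1
    have m1 := mul_le_mul_of_nonneg_left k1 (show (0 : ℝ) ≤ X by linarith)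
    have m2 : X * (1 / (R : ℝ)) ^ k = X / (R : ℝ) ^ k := by
      rw [one_div, inv_pow, div_eq_mul_inv]
    rw [m2] at m1
    linarith
  exact mul_le_mul_of_nonneg_left hsum (by positivity)

/-- PROOF. Let `L = log X` and `k = ⌈L / log R⌉`, so `X ≤ R^k ≤ X R` (as reals; `k ≤ L/log R + 1`), `k ≤ L/(a log L) + 1 ≤ L` for
large `X` (`log R ≥ a log L`), `k log (2R) ≤ 2 k log R ≤ 2 (L + log R) ≤ 4 L`. `large_ineq` with `V = R^(-α)`:
`#T ≤ R^(2αk) · 40 k! (1 + 16 L²) · 11`. Here `R^(2αk) ≤ (X R)^(2α) ≤ X^(2α) L^(2Aα)` and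
`k! ≤ k^k ≤ L^k = exp (k log L) ≤ exp (L/a + log L) = X^(1/a) L`. So `#T ≤ 440 · 17 · X^(2α + 1/a) L^(2Aα + 3) ≤ X^(2α+1/a+η)` for
large `X`. -/
theorem large_values (a α A η : ℝ) (ha : 1 ≤ a) (hα : 0 ≤ α) (hA : 0 ≤ A) (hη : 0 < η) :
    ∃ X₀ : ℕ, ∀ X : ℕ, X₀ ≤ X → ∀ (R : ℕ) (f : ℕ → ℂ) (T : Finset ℝ), (Real.log X) ^ a ≤ R →
      (R : ℝ) ≤ (Real.log X) ^ A → (∀ n, ‖f n‖ ≤ 1) → Spaced T →
      (∀ t ∈ T, |t| ≤ X ∧ (R : ℝ) ^ (-α) ≤ ‖DP f (IS R) t‖) →
      (#T : ℝ) ≤ (X : ℝ) ^ (2 * α + 1 / a + η) := by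
  have hLt : Filter.Tendsto (fun X : ℕ => Real.log X) Filter.atTop Filter.atTop :=
    Real.tendsto_log_atTop.comp tendsto_natCast_atTop_atTop
  have hlo : ∀ c : ℝ, 0 < c → ∀ᶠ L : ℝ in Filter.atTop, Real.log L ≤ c * L := by
    intro c hc
    have h := (Real.isLittleO_log_id_atTop).bound hc
    filter_upwards [h, Filter.eventually_ge_atTop 1] with L hL h1
    have h2 : 0 ≤ Real.log L := Real.log_nonneg h1
    simpa [abs_of_nonneg h2, abs_of_nonneg (show (0 : ℝ) ≤ L by linarith)] using hL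
  have hB : (0 : ℝ) < 2 * A * α + 3 := by positivity
  have ev : ∀ᶠ L : ℝ in Filter.atTop, 8 ≤ L ∧ A * Real.log L ≤ L ∧ 2 ≤ Real.log L ∧
      Real.log 7480 + (2 * A * α + 3) * Real.log L ≤ η * L := by
    have e1 := hlo (1 / (A + 1)) (by positivity)
    have e2 := hlo (η / 2 / (2 * A * α + 3)) (by positivity)
    have e3 : ∀ᶠ L : ℝ in Filter.atTop, 2 ≤ Real.log L := Real.tendsto_log_atTop.eventually_ge_atTop 2
    filter_upwards [e1, e2, e3, Filter.eventually_ge_atTop 8, Filter.eventually_ge_atTop (Real.log 7480 / (η / 2))]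
      with L h1 h2 h3 h4 h5
    refine ⟨h4, ?_, h3, ?_⟩
    · have h6 : (A + 1) * Real.log L ≤ L := by
        have := mul_le_mul_of_nonneg_left h1 (show 0 ≤ A + 1 by linarith)
        rw [← mul_assoc, mul_one_div_cancel (by linarith), one_mul] at this
        exact this
      nlinarith
    · have h6 : (2 * A * α + 3) * Real.log L ≤ η / 2 * L := by
        have := mul_le_mul_of_nonneg_left h2 hB.le
        calc (2 * A * α + 3) * Real.log L ≤ (2 * A * α + 3) * (η / 2 / (2 * A * α + 3) * L) := this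
          _ = _ := by field_simp
      rw [div_le_iff₀ (by positivity)] at h5
      nlinarith
  obtain ⟨X₀, hX₀⟩ := Filter.eventually_atTop.mp (hLt.eventually ev)
  refine ⟨max X₀ 1, ?_⟩
  intro X hX R f T hR1 hR2 hf hT hTt
  obtain ⟨hL8, hAL, hLL2, hfin⟩ := hX₀ X (le_trans (le_max_left _ _) hX)
  have hX1 : 1 ≤ X := le_trans (le_max_right _ _) hX
  set L := Real.log X with hL
  have hX1' : (1 : ℝ) ≤ X := by exact_mod_cast hX1
  have hX0 : (0 : ℝ) < X := by linarith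
  have hL0 : 0 < L := by linarith
  have hLR : L ≤ R := by
    refine le_trans ?_ hR1
    calc L = L ^ (1 : ℝ) := (Real.rpow_one L).symm
      _ ≤ L ^ a := Real.rpow_le_rpow_of_exponent_le (by linarith) ha
  have hR2' : 2 ≤ R := by
    have : (2 : ℝ) ≤ R := by linarith
    exact_mod_cast this
  have hR0 : (0 : ℝ) < R := by linarith
  set r := Real.log R with hr
  set l := Real.log L with hl
  have hr1 : a * l ≤ r := by
    have := Real.log_le_log (Real.rpow_pos_of_pos hL0 a) hR1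
    rwa [Real.log_rpow hL0] at this
  have hr2 : r ≤ A * l := by
    have := Real.log_le_log hR0 hR2
    rwa [Real.log_rpow hL0] at this
  have hl0 : 0 < l := by linarith
  have hal : 0 < a * l := by positivity
  have hr0 : 0 < r := by linarith
  set k := ⌈L / r⌉₊ with hk
  have hk1 : L / r ≤ k := Nat.le_ceil _
  have hk2 : (k : ℝ) ≤ L / r + 1 := (Nat.ceil_lt_add_one (by positivity)).le
  have hkr : (k : ℝ) * r ≤ L + r := by
    calc (k : ℝ) * r ≤ (L / r + 1) * r := mul_le_mul_of_nonneg_right hk2 hr0.le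
      _ = L + r := by field_simp
  have hLkr : L ≤ k * r := by rwa [div_le_iff₀ hr0] at hk1
  have hLr : L / r ≤ L / (a * l) := div_le_div_of_nonneg_left hL0.le hal hr1
  have hkl : (k : ℝ) * l ≤ L / a + l := by
    calc (k : ℝ) * l ≤ (L / (a * l) + 1) * l := mul_le_mul_of_nonneg_right (by linarith) hl0.le
      _ = L / a + l := by field_simp
  have hkL : (k : ℝ) ≤ L := by
    have h1 : L / (a * l) ≤ L / 2 := div_le_div_of_nonneg_left hL0.le (by norm_num) (by nlinarith)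
    linarith
  have hRk : (R : ℝ) ^ k = Real.exp (k * r) := by
    rw [hr, mul_comm, Real.exp_mul, Real.exp_log hR0, Real.rpow_natCast]
  have hXL : (X : ℝ) = Real.exp L := (Real.exp_log hX0).symm
  have hXRk : (X : ℝ) / (R : ℝ) ^ k ≤ 1 := by
    rw [div_le_one (by positivity), hRk, hXL]
    exact Real.exp_le_exp.mpr hLkr
  have hV : (R : ℝ) ^ (-α) = Real.exp (-(α * r)) := by
    rw [Real.rpow_def_of_pos hR0]
    congr 1
    rw [← hr]
    ring
  have hineq := large_ineq k R hR2' f hf X ((R : ℝ) ^ (-α)) hX1' (by positivity) T hT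
    (fun t ht => (hTt t ht).1) (fun t ht => (hTt t ht).2)
  have hVk : ((R : ℝ) ^ (-α)) ^ (2 * k) = Real.exp (-(2 * α * (k * r))) := by
    rw [hV, ← Real.exp_nat_mul]
    congr 1
    push_cast
    ring
  rw [hVk] at hineq
  have hlog2R : Real.log (2 * R) ≤ 2 * r := by
    rw [Real.log_mul (by norm_num) hR0.ne']
    have : Real.log 2 ≤ r := Real.log_le_log (by norm_num) (by exact_mod_cast hR2')
    linarith
  have hlog2R0 : 0 ≤ Real.log (2 * R) := Real.log_nonneg (by linarith)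
  have hk0 : (0 : ℝ) ≤ k := Nat.cast_nonneg _
  have hklog : k * Real.log (2 * R) ≤ 4 * L := by
    have h1 : k * Real.log (2 * R) ≤ k * (2 * r) := mul_le_mul_of_nonneg_left hlog2R hk0
    linarith
  have hsq : (k * Real.log (2 * R)) ^ 2 ≤ 16 * L ^ 2 := by
    have h1 : 0 ≤ k * Real.log (2 * R) := mul_nonneg hk0 hlog2R0
    nlinarith
  have hfac : (k.factorial : ℝ) ≤ Real.exp (k * l) := by
    have h1 : (k.factorial : ℝ) ≤ (k : ℝ) ^ k := by exact_mod_cast Nat.factorial_le_pow k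
    refine h1.trans ((pow_le_pow_left₀ hk0 hkL k).trans (le_of_eq ?_))
    rw [hl, mul_comm, Real.exp_mul, Real.exp_log hL0, Real.rpow_natCast]
  have hfac0 : (0 : ℝ) ≤ (k.factorial : ℝ) := Nat.cast_nonneg _
  have hbig : 40 * (k.factorial : ℝ) * (1 + (k * Real.log (2 * R)) ^ 2) * ((X : ℝ) / (R : ℝ) ^ k + 10)
      ≤ 7480 * Real.exp (k * l) * Real.exp (2 * l) := by
    have e2 : Real.exp (2 * l) = L ^ 2 := by
      rw [hl, mul_comm, Real.exp_mul, Real.exp_log hL0]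
      norm_num
    rw [e2]
    have h1 : (1 + (k * Real.log (2 * R)) ^ 2) ≤ 17 * L ^ 2 := by nlinarith
    have h2 : (X : ℝ) / (R : ℝ) ^ k + 10 ≤ 11 := by linarith
    calc 40 * (k.factorial : ℝ) * (1 + (k * Real.log (2 * R)) ^ 2) * ((X : ℝ) / (R : ℝ) ^ k + 10)
        ≤ 40 * Real.exp (k * l) * (17 * L ^ 2) * 11 := by
          gcongr
      _ = _ := by ring
  have hT1 : (#T : ℝ) ≤ 7480 * Real.exp (k * l) * Real.exp (2 * l) * Real.exp (2 * α * (k * r)) := by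
    have h1 := mul_le_mul_of_nonneg_right (hineq.trans hbig) (Real.exp_pos (2 * α * (k * r))).le
    rwa [mul_assoc, ← Real.exp_add, neg_add_cancel, Real.exp_zero, mul_one] at h1
  refine hT1.trans ?_
  rw [Real.rpow_def_of_pos hX0, ← hL]
  have h7480 : (7480 : ℝ) = Real.exp (Real.log 7480) := (Real.exp_log (by norm_num)).symm
  rw [h7480, ← Real.exp_add, ← Real.exp_add, ← Real.exp_add]
  apply Real.exp_le_exp.mpr
  have h1 : 2 * α * (k * r) ≤ 2 * α * L + 2 * α * (A * l) := by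
    have : 2 * α * (k * r) ≤ 2 * α * (L + A * l) := mul_le_mul_of_nonneg_left (by linarith) (by linarith)
    linarith
  have h2 : L * (2 * α + 1 / a + η) = 2 * α * L + L / a + η * L := by
    field_simp
  rw [h2]
  nlinarith

end Pool.Agent.E3
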