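import Pool.Agent.Lib.MP_bae66e_nt.Mg.G021
import Pool.Agent.Lib.MP_bae66e_nt.Mg.G024
import Pool.Agent.Lib.MP_bae66e_nt.Mg.G023
import Pool.Agent.Lib.MP_bae66e_nt.Mg.G026

/-!
# Y7a: the twisted windows of the primes are small in mean square
-/

set_option autoImplicit false

namespace Pool.Agent.E3

open Finset MeasureTheory Real

/-- the twisted character is multiplicative -/
private theorem Y7a_tw_mul {W : ℕ} (χ : DirichletCharacter ℂ W) (σ : ℝ) (m n : ℕ) (hm : 1 ≤ m) (hn : 1 ≤ n) :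
    tw σ (ch χ) (m * n) = tw σ (ch χ) m * tw σ (ch χ) n := by
  have hm0 : (m : ℝ) ≠ 0 := by
    have : m ≠ 0 := by omega
    exact_mod_cast this
  have hn0 : (n : ℝ) ≠ 0 := by
    have : n ≠ 0 := by omega
    exact_mod_cast this
  have h1 : Real.exp (-(σ * Real.log ((m * n : ℕ) : ℝ)))
      = Real.exp (-(σ * Real.log m)) * Real.exp (-(σ * Real.log n)) := by
    rw [Nat.cast_mul, Real.log_mul hm0 hn0, ← Real.exp_add]
    congr 1
    ring
  have h2 : ch χ (m * n) = ch χ m * ch χ n := by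
    unfold ch
    rw [Nat.cast_mul, map_mul]
  unfold tw
  rw [h1, h2, Complex.ofReal_mul]
  ring

private theorem Y7a_tw_norm {W : ℕ} (χ : DirichletCharacter ℂ W) (σ : ℝ) (hσ : 0 ≤ σ) (n : ℕ) :
    ‖tw σ (ch χ) n‖ ≤ 1 := by
  unfold tw
  rw [norm_mul, Complex.norm_real, Real.norm_eq_abs, abs_of_pos (Real.exp_pos _)]
  have h1 : ‖ch χ n‖ ≤ 1 := DirichletCharacter.norm_le_one χ _
  have h2 : Real.exp (-(σ * Real.log n)) ≤ 1 := by
    rw [Real.exp_le_one_iff]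
    have h3 : 0 ≤ Real.log n := Real.log_natCast_nonneg n
    have h4 := mul_nonneg hσ h3
    linarith
  have h5 := norm_nonneg (ch χ n)
  have h6 := Real.exp_pos (-(σ * Real.log n))
  nlinarith

private theorem Y7a_lp_tw {W : ℕ} (χ : DirichletCharacter ℂ W) (σ : ℝ) :
    (fun n => ((lp n : ℝ) : ℂ) * tw σ (ch χ) n) = tw σ (lpc χ) := by
  funext n
  unfold tw lpc
  ring

private theorem Y7a_sq (w A1 B A3 A4 : ℝ) (hw : 0 ≤ w) (h : w ≤ A1 + B + A3 + A4) :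
    w ^ 2 ≤ 4 * (A1 ^ 2 + A3 ^ 2 + A4 ^ 2) + 4 * B ^ 2 := by
  have h1 : w ^ 2 ≤ (A1 + B + A3 + A4) ^ 2 := pow_le_pow_left₀ hw h 2
  nlinarith [sq_nonneg (A1 - B), sq_nonneg (A1 - A3), sq_nonneg (A1 - A4), sq_nonneg (B - A3),
    sq_nonneg (B - A4), sq_nonneg (A3 - A4)]

private theorem Y7a_int (w B : ℝ → ℝ) (α β K : ℝ) (hαβ : α ≤ β)
    (hw : Integrable (fun x => w x ^ 2)) (hB : Integrable (fun x => B x ^ 2))
    (h : ∀ x ∈ Set.Icc α β, w x ^ 2 ≤ K + 4 * B x ^ 2) :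
    ∫ x in Set.Icc α β, w x ^ 2 ≤ K * (β - α) + 4 * ∫ x : ℝ, B x ^ 2 := by
  have hc : IntegrableOn (fun _ : ℝ => K) (Set.Icc α β) := by
    apply ContinuousOn.integrableOn_compact isCompact_Icc continuousOn_const
  have hB4 : IntegrableOn (fun x => 4 * B x ^ 2) (Set.Icc α β) := (hB.const_mul 4).integrableOn
  have h1 : ∫ x in Set.Icc α β, w x ^ 2 ≤ ∫ x in Set.Icc α β, (K + 4 * B x ^ 2) :=
    setIntegral_mono_on hw.integrableOn (hc.add hB4) measurableSet_Icc h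
  refine h1.trans ?_
  rw [integral_add hc hB4, setIntegral_const, integral_const_mul, Real.volume_real_Icc_of_le hαβ,
    smul_eq_mul]
  have h2 : ∫ x in Set.Icc α β, B x ^ 2 ≤ ∫ x, B x ^ 2 :=
    setIntegral_le_integral hB (Filter.Eventually.of_forall fun x => sq_nonneg _)
  linarith

/-- the choice of `z` -/
private theorem Y7a_z (W b : ℕ) (η : ℝ) (hη : 0 < η) (hη1 : η ≤ 1) : ∃ L₀ : ℝ, 1 ≤ L₀ ∧ ∀ L : ℝ, L₀ ≤ L →
    ∃ z : ℕ, 2 ≤ z ∧ W ≤ z ∧ (8 * b + 12) * Real.log z ≤ η / 2 * L ∧ Real.log z + 1 ≤ η / 2 * L ∧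
      L + 1 ≤ Real.sqrt z ∧ η / (32 * (b + 2)) * L ≤ Real.log z := by
  have hb : (0 : ℝ) ≤ b := Nat.cast_nonneg b
  set η' : ℝ := η / (32 * (b + 2)) with hη'
  have hη'0 : 0 < η' := by positivity
  have hη'1 : η' ≤ η / 64 := by
    rw [hη']
    apply div_le_div_of_nonneg_left hη.le (by norm_num)
    linarith
  refine ⟨max (max 1 (W / η')) (max (4 * (8 * b + 12) / η) (24 / η' ^ 3)),
    (le_max_left _ _).trans (le_max_left _ _), ?_⟩
  intro L hL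
  have hL1 : 1 ≤ L := ((le_max_left _ _).trans (le_max_left _ _)).trans hL
  have hL2 : W / η' ≤ L := ((le_max_right _ _).trans (le_max_left _ _)).trans hL
  have hL3 : 4 * (8 * b + 12) / η ≤ L := ((le_max_left _ _).trans (le_max_right _ _)).trans hL
  have hL4 : 24 / η' ^ 3 ≤ L := ((le_max_right _ _).trans (le_max_right _ _)).trans hL
  rw [div_le_iff₀ hη'0] at hL2
  rw [div_le_iff₀ hη] at hL3
  rw [div_le_iff₀ (by positivity)] at hL4
  have hy : 0 < η' * L := by positivity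
  have hexp1 : 1 < Real.exp (η' * L) := Real.one_lt_exp_iff.mpr hy
  refine ⟨⌈Real.exp (η' * L)⌉₊, ?_⟩
  have hz1 : Real.exp (η' * L) ≤ (⌈Real.exp (η' * L)⌉₊ : ℝ) := Nat.le_ceil _
  have hz2 : (⌈Real.exp (η' * L)⌉₊ : ℝ) < Real.exp (η' * L) + 1 := Nat.ceil_lt_add_one (Real.exp_pos _).le
  set z : ℕ := ⌈Real.exp (η' * L)⌉₊ with hz
  have hz0 : (0 : ℝ) < z := lt_of_lt_of_le (Real.exp_pos _) hz1
  have hlow : η' * L ≤ Real.log z := by
    rw [Real.le_log_iff_exp_le hz0]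
    exact hz1
  have hup : Real.log z ≤ η' * L + 1 := by
    rw [Real.log_le_iff_le_exp hz0, Real.exp_add]
    have h1 : (2 : ℝ) ≤ Real.exp 1 := by
      have := Real.add_one_le_exp (1 : ℝ)
      linarith
    nlinarith
  have hbη : (8 * b + 12) * η' ≤ η / 4 := by
    rw [hη', ← mul_div_assoc, div_le_div_iff₀ (by positivity) (by norm_num)]
    nlinarith
  refine ⟨?_, ?_, ?_, ?_, ?_, hlow⟩
  · have h1 : (1 : ℝ) < z := lt_of_lt_of_le hexp1 hz1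
    have h2 : 1 < z := by exact_mod_cast h1
    omega
  · have h1 := Real.add_one_le_exp (η' * L)
    have h2 : (W : ℝ) ≤ z := by
      have : (W : ℝ) ≤ η' * L := by linarith
      linarith
    exact_mod_cast h2
  · calc (8 * (b : ℝ) + 12) * Real.log z ≤ (8 * b + 12) * (η' * L + 1) := by gcongr
      _ = (8 * b + 12) * η' * L + (8 * b + 12) := by ring
      _ ≤ η / 4 * L + (8 * b + 12) := by gcongr
      _ ≤ η / 2 * L := by linarith
  · have h1 : η' * L ≤ η / 64 * L := by gcongr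
    have h2 : 48 ≤ L * η := by linarith
    linarith
  · apply Real.le_sqrt_of_sq_le
    have h1 : (η' * L) ^ 3 / 6 ≤ Real.exp (η' * L) := by
      have := Real.pow_div_factorial_le_exp (η' * L) hy.le 3
      have h3 : ((Nat.factorial 3 : ℕ) : ℝ) = 6 := by norm_num [Nat.factorial]
      rw [h3] at this
      exact this
    have h2 : (L + 1) ^ 2 ≤ 4 * L ^ 2 := by nlinarith
    have h3 : 4 * L ^ 2 ≤ (η' * L) ^ 3 / 6 := by
      have h4 : (η' * L) ^ 3 = (L * η' ^ 3) * L ^ 2 := by ring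
      rw [h4]
      have h5 : 0 ≤ L ^ 2 := sq_nonneg L
      nlinarith
    linarith

/-- the choice of `b` -/
private theorem Y7a_b (b0 : ℕ) (K ε : ℝ) (hK : 0 < K) (hε : 0 < ε) : ∃ b : ℕ, b0 ≤ b ∧
    K * ((b + 2) * Real.exp (-(b : ℝ))) ≤ ε := by
  obtain ⟨n, hn⟩ := exists_nat_gt (4 * K / ε)
  refine ⟨max b0 (n + 1), le_max_left _ _, ?_⟩
  set b : ℕ := max b0 (n + 1) with hb
  have hbn : (n : ℝ) ≤ b := by exact_mod_cast (by omega : n ≤ b)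
  have hb1 : (1 : ℝ) ≤ b := by exact_mod_cast (by omega : 1 ≤ b)
  have h1 : ((b : ℝ) + 2) / 2 ≤ Real.exp (b / 2) := by
    have := Real.add_one_le_exp ((b : ℝ) / 2)
    linarith
  have h2 : Real.exp (b : ℝ) = Real.exp (b / 2) * Real.exp (b / 2) := by
    rw [← Real.exp_add]
    congr 1
    ring
  have h3 : (b + 2) * Real.exp (-(b : ℝ)) ≤ 4 / b := by
    rw [Real.exp_neg, ← div_eq_mul_inv, div_le_div_iff₀ (Real.exp_pos _) (by linarith), h2]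
    have h4 : ((b : ℝ) + 2) / 2 * (((b : ℝ) + 2) / 2) ≤ Real.exp (b / 2) * Real.exp (b / 2) :=
      mul_le_mul h1 h1 (by positivity) (Real.exp_pos _).le
    nlinarith
  have h5 : 4 * K / ε < b := lt_of_lt_of_le hn hbn
  rw [div_lt_iff₀ hε] at h5
  calc K * ((b + 2) * Real.exp (-(b : ℝ))) ≤ K * (4 / b) := by gcongr
    _ = 4 * K / b := by ring
    _ ≤ ε := by
      rw [div_le_iff₀ (by linarith)]
      linarith

private theorem Y7a_exp_small (T ε : ℝ) (hε : 0 < ε) (hT1 : 1 ≤ T) (hT : 32 / ε ≤ T) :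
    Real.exp (-(T ^ 2 / 32)) ≤ ε := by
  rw [div_le_iff₀ hε] at hT
  have h1 : T ≤ T ^ 2 := by nlinarith
  have h2 := Real.add_one_le_exp (T ^ 2 / 32)
  have h3 : 1 / ε ≤ T ^ 2 / 32 + 1 := by
    rw [div_le_iff₀ hε]
    nlinarith
  rw [Real.exp_neg, inv_le_comm₀ (Real.exp_pos _) hε]
  rw [one_div] at h3
  linarith

/-- PROOF. Constants: `b0, C₀` from `small_primes`, `C₁` from `prime_win_le`, `C₂` from `BW_full_ms`. For `b ≥ b0` put
`η' = η / (32 (b + 2))`, `z = ⌈exp (η' L)⌉₊`, so `η' L ≤ log z ≤ η' L + 1`; for large `L` (depending on `b, η, W`) all side conditions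
hold: `W ≤ z`, `(8b+12) log z ≤ (η/2) L`, `log z + 1 ≤ (η/2) L`, `2 log z ≤ η L`, `L + 1 ≤ √z`. `N ≥ exp (M L)` with `M ≥ 4`, so
`2 x ≤ 2 (L+1) ≤ log N`. Let `c = tw (1/L) (ch χ)` (multiplicative on `n ≥ 1`, bounded by `1`), `lp n c n = tw (1/L) (lpc χ) n`.
By `prime_win_le` and `small_primes`, with `E = exp (- T₀²/8) + exp (-b) + κ`, for `x ∈ [η L, L + 1]`:
`‖WIN (tw (1/L) (lpc χ)) 2 (Icc 1 N) t x‖ ≤ (L+1) C₀ E / log z + ‖BW_full x‖ + C₀ E + C₁ / log z`, so the square is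
`≤ 4 [(2 C₀ E/η')² + ‖BW_full x‖² + (C₀ E)² + (C₁/(η' L))²]`; integrating over an interval of length `≤ L + 1 ≤ 2 L`
and with `BW_full_ms`, where `M = δ₂ L` by `zsup W δ₂` (`T₀/2 ≥ T₁`):
`∫ ≤ 8 L [(2 C₀ E/η')² + (C₀ E)² + (C₁/(η' L))²] + 4 C₂ [δ₂² L / η'² + exp (- T₀²/32) L / η'²]`.
Choose `b` with `8 (3 C₀ · 32 (b+2)/η · 3 exp (-b))² ≤ δ/8`, then `κ = exp (-b)`, then `δ₂`, then `T₀` (with `exp (- T₀²/32)` small, in
particular `exp (- T₀²/8) ≤ exp (-b)`), then `L₀`. -/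
theorem z2tw : ∀ W : ℕ, 1 ≤ W → ∀ η δ : ℝ, 0 < η → η ≤ 1 → 0 < δ → ∃ T₀ M L₀ : ℝ, 1 ≤ T₀ ∧ 4 ≤ M ∧ 1 ≤ L₀ ∧
    ∀ L : ℝ, L₀ ≤ L → ∀ (χ : DirichletCharacter ℂ W) (t : ℝ), T₀ ≤ |t| → |t| ≤ Real.exp L → ∀ N : ℕ,
    Real.exp (M * L) ≤ N →
      ∫ x in Set.Icc (η * L) (L + 1), ‖WIN (tw (1 / L) (lpc χ)) 2 (Icc 1 N) t x‖ ^ 2 ≤ δ * L := by
  obtain ⟨b0, C₀, hC₀, hsp⟩ := small_primes
  obtain ⟨C₁, hC₁, hpw⟩ := prime_win_le
  obtain ⟨C₂, hC₂, hbw⟩ := BW_full_ms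
  intro W hW η δ hη hη1 hδ
  obtain ⟨b, hb0, hb⟩ := Y7a_b b0 (192 * C₀ / η) (Real.sqrt δ / 8) (by positivity) (by positivity)
  have hbR : (0 : ℝ) ≤ b := Nat.cast_nonneg b
  have hκ : 0 < Real.exp (-(b : ℝ)) := Real.exp_pos _
  obtain ⟨L1, hL1, hsp⟩ := hsp W hW η (Real.exp (-(b : ℝ))) hη hη1 hκ
  obtain ⟨L3, hL3, hz⟩ := Y7a_z W b η hη hη1
  have hη'0 : 0 < η / (32 * ((b : ℝ) + 2)) := by positivity
  have hη'1 : η / (32 * ((b : ℝ) + 2)) ≤ 1 := by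
    rw [div_le_one (by positivity)]
    linarith
  set η' : ℝ := η / (32 * ((b : ℝ) + 2)) with hη'
  have hsδ : 0 < Real.sqrt δ := Real.sqrt_pos.mpr hδ
  obtain ⟨T₁, M, L2, hT₁, hM, hL2, hzs⟩ := zsup W hW (η' * Real.sqrt (δ / (16 * C₂))) (by positivity)
  have hε : 0 < δ * η' ^ 2 / (16 * C₂) := by positivity
  refine ⟨max (2 * T₁) (max (8 * b) (32 / (δ * η' ^ 2 / (16 * C₂)))), max M 4,
    max (max L1 L2) (max L3 (C₁ / (η' * (Real.sqrt δ / 6)))), ?_, le_max_right _ _, ?_, ?_⟩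
  · exact (by linarith : (1 : ℝ) ≤ 2 * T₁).trans (le_max_left _ _)
  · exact (hL1.trans (le_max_left _ _)).trans (le_max_left _ _)
  intro L hL χ t ht htL N hN
  have hLL1 : L1 ≤ L := ((le_max_left _ _).trans (le_max_left _ _)).trans hL
  have hLL2 : L2 ≤ L := ((le_max_right _ _).trans (le_max_left _ _)).trans hL
  have hLL3 : L3 ≤ L := ((le_max_left _ _).trans (le_max_right _ _)).trans hL
  have hLL4 : C₁ / (η' * (Real.sqrt δ / 6)) ≤ L := ((le_max_right _ _).trans (le_max_right _ _)).trans hL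
  have hL1' : 1 ≤ L := hL1.trans hLL1
  have hL0 : 0 < L := by linarith
  set T₀ : ℝ := max (2 * T₁) (max (8 * b) (32 / (δ * η' ^ 2 / (16 * C₂)))) with hT₀
  have hT1 : 2 * T₁ ≤ T₀ := le_max_left _ _
  have hT2 : 8 * (b : ℝ) ≤ T₀ := (le_max_left _ _).trans (le_max_right _ _)
  have hT3 : 32 / (δ * η' ^ 2 / (16 * C₂)) ≤ T₀ := (le_max_right _ _).trans (le_max_right _ _)
  have hT01 : 1 ≤ T₀ := by linarith
  obtain ⟨z, hz2, hWz, hz3, hz4, hz5, hz6⟩ := hz L hLL3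
  have hlz : 0 < Real.log z := lt_of_lt_of_le (by positivity) hz6
  have hM4 : Real.exp (4 * L) ≤ N := by
    refine le_trans ?_ hN
    apply Real.exp_le_exp.mpr
    have := le_max_right M 4
    nlinarith
  have hMM : Real.exp (M * L) ≤ N := by
    refine le_trans ?_ hN
    apply Real.exp_le_exp.mpr
    have := le_max_left M 4
    nlinarith
  have hN0 : (0 : ℝ) < N := lt_of_lt_of_le (Real.exp_pos _) hM4
  have hN1 : 1 ≤ N := by exact_mod_cast hN0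
  have hlogN : 4 * L ≤ Real.log N := by
    rw [Real.le_log_iff_exp_le hN0]
    exact hM4
  have hN2 : Real.exp (2 * (L + 1)) ≤ N := by
    refine le_trans (Real.exp_le_exp.mpr ?_) hM4
    linarith
  have ht2 : |t| ≤ 2 * Real.exp L := by
    have := Real.exp_pos L
    linarith
  -- the error term
  have hE : Real.exp (-(t ^ 2 / 8)) + Real.exp (-(b : ℝ)) + Real.exp (-(b : ℝ)) ≤ 3 * Real.exp (-(b : ℝ)) := by
    have h1 : Real.exp (-(t ^ 2 / 8)) ≤ Real.exp (-(b : ℝ)) := by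
      apply Real.exp_le_exp.mpr
      have h2 : T₀ ^ 2 ≤ t ^ 2 := by
        rw [← sq_abs t]
        exact pow_le_pow_left₀ (by linarith) ht 2
      have h3 : T₀ ≤ T₀ ^ 2 := by nlinarith
      linarith
    linarith
  have hE0 : 0 ≤ Real.exp (-(t ^ 2 / 8)) + Real.exp (-(b : ℝ)) + Real.exp (-(b : ℝ)) := by positivity
  set E : ℝ := 3 * Real.exp (-(b : ℝ)) with hEdef
  have hE0' : 0 < E := by positivity
  -- the pointwise bound
  have hpt : ∀ x ∈ Set.Icc (η * L) (L + 1), ‖WIN (tw (1 / L) (lpc χ)) 2 (Icc 1 N) t x‖ ^ 2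
      ≤ 4 * ((2 * C₀ * E / η') ^ 2 + (C₀ * E) ^ 2 + (C₁ / (η' * L)) ^ 2)
        + 4 * ‖BW (tw (1 / L) (lpc χ)) (tw (1 / L) (ch χ)) (Icc 1 N) (RS z N) 2 t x‖ ^ 2 := by
    intro x hx
    obtain ⟨hx1, hx2⟩ := hx
    have hx0 : 0 < x := lt_of_lt_of_le (by positivity) hx1
    apply Y7a_sq _ _ _ _ _ (norm_nonneg _)
    have h1 := hpw (tw (1 / L) (ch χ)) (fun m n hm hn => Y7a_tw_mul χ (1 / L) m n hm hn)
      (fun n => Y7a_tw_norm χ (1 / L) (by positivity) n) t x z N hz2 hN1 (by linarith) (by linarith)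
      (by linarith)
    rw [Y7a_lp_tw] at h1
    obtain ⟨h2, h3⟩ := hsp L hLL1 χ b z hb0 hz2 hWz x t N hx1 hx2 hz3 hz4 hN2 ht2
    have h4 : x * ‖WIN (tw (1 / L) (ch χ)) 2 (RS z N) t x‖ ≤ 2 * C₀ * E / η' := by
      have h5 : ‖WIN (tw (1 / L) (ch χ)) 2 (RS z N) t x‖ ≤ C₀ / Real.log z * E := by
        refine h2.trans ?_
        gcongr
      calc x * ‖WIN (tw (1 / L) (ch χ)) 2 (RS z N) t x‖ ≤ (2 * L) * (C₀ / Real.log z * E) := by
            apply mul_le_mul _ h5 (norm_nonneg _) (by positivity)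
            linarith
        _ ≤ (2 * L) * (C₀ / (η' * L) * E) := by gcongr
        _ = 2 * C₀ * E / η' := by
            field_simp
    have h6 : ‖BW (tw (1 / L) (lpc χ)) (tw (1 / L) (ch χ)) (Icc 1 z) (RS z N) 2 t x‖ ≤ C₀ * E := by
      refine h3.trans ?_
      gcongr
    have h7 : C₁ / Real.log z ≤ C₁ / (η' * L) := by gcongr
    linarith
  have hint := Y7a_int (fun x => ‖WIN (tw (1 / L) (lpc χ)) 2 (Icc 1 N) t x‖)
    (fun x => ‖BW (tw (1 / L) (lpc χ)) (tw (1 / L) (ch χ)) (Icc 1 N) (RS z N) 2 t x‖)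
    (η * L) (L + 1) (4 * ((2 * C₀ * E / η') ^ 2 + (C₀ * E) ^ 2 + (C₁ / (η' * L)) ^ 2))
    (by nlinarith)
    (planch_WIN _ _ 2 t (by norm_num)).1 (planch_BW _ _ _ _ 2 t (by norm_num)).1 hpt
  refine hint.trans ?_
  -- the bilinear window
  have hB := hbw W χ L T₀ t (η' * Real.sqrt (δ / (16 * C₂)) * L) z N hL1' hz2 (by linarith) ht htL
    (fun u hu1 hu2 => hzs L hLL2 χ N hMM u (by linarith) hu2)
  have hsq : Real.sqrt (δ / (16 * C₂)) ^ 2 = δ / (16 * C₂) := Real.sq_sqrt (by positivity)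
  have hB1 : (η' * Real.sqrt (δ / (16 * C₂)) * L) ^ 2 * L / (Real.log z) ^ 2 ≤ δ / (16 * C₂) * L := by
    rw [div_le_iff₀ (by positivity)]
    have h1 : (η' * L) ^ 2 ≤ (Real.log z) ^ 2 := pow_le_pow_left₀ (by positivity) hz6 2
    calc (η' * Real.sqrt (δ / (16 * C₂)) * L) ^ 2 * L
        = Real.sqrt (δ / (16 * C₂)) ^ 2 * L * (η' * L) ^ 2 := by ring
      _ = δ / (16 * C₂) * L * (η' * L) ^ 2 := by rw [hsq]
      _ ≤ δ / (16 * C₂) * L * (Real.log z) ^ 2 := by gcongr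
  have hB2 : Real.exp (-(T₀ ^ 2 / 32)) * (L / Real.log z) ^ 2 * L ≤ δ / (16 * C₂) * L := by
    have h1 := Y7a_exp_small T₀ _ hε hT01 hT3
    have h2 : L / Real.log z ≤ 1 / η' := by
      rw [div_le_div_iff₀ hlz hη'0]
      linarith
    have h3 : (L / Real.log z) ^ 2 ≤ (1 / η') ^ 2 := pow_le_pow_left₀ (by positivity) h2 2
    calc Real.exp (-(T₀ ^ 2 / 32)) * (L / Real.log z) ^ 2 * L
        ≤ (δ * η' ^ 2 / (16 * C₂)) * (1 / η') ^ 2 * L := by gcongr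
      _ = δ / (16 * C₂) * L := by
        field_simp
  have hB3 : 4 * ∫ x : ℝ, ‖BW (tw (1 / L) (lpc χ)) (tw (1 / L) (ch χ)) (Icc 1 N) (RS z N) 2 t x‖ ^ 2
      ≤ δ / 2 * L := by
    calc 4 * ∫ x : ℝ, ‖BW (tw (1 / L) (lpc χ)) (tw (1 / L) (ch χ)) (Icc 1 N) (RS z N) 2 t x‖ ^ 2
        ≤ 4 * (C₂ * ((η' * Real.sqrt (δ / (16 * C₂)) * L) ^ 2 * L / (Real.log z) ^ 2
            + Real.exp (-(T₀ ^ 2 / 32)) * (L / Real.log z) ^ 2 * L)) := by gcongr
      _ ≤ 4 * (C₂ * (δ / (16 * C₂) * L + δ / (16 * C₂) * L)) := by gcongr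
      _ = δ / 2 * L := by
        field_simp
        ring
  -- the other terms
  have hA1 : 2 * C₀ * E / η' ≤ Real.sqrt δ / 8 := by
    refine le_trans (le_of_eq ?_) hb
    rw [hEdef, hη']
    field_simp
    ring
  have hA10 : 0 ≤ 2 * C₀ * E / η' := by positivity
  have hA3 : C₀ * E ≤ Real.sqrt δ / 8 := by
    refine le_trans ?_ hA1
    rw [le_div_iff₀ hη'0]
    have : 0 < C₀ * E := by positivity
    nlinarith
  have hA4 : C₁ / (η' * L) ≤ Real.sqrt δ / 6 := by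
    rw [div_le_iff₀ (by positivity)] at hLL4 ⊢
    linarith
  have hδs : Real.sqrt δ ^ 2 = δ := Real.sq_sqrt hδ.le
  have hK : 4 * ((2 * C₀ * E / η') ^ 2 + (C₀ * E) ^ 2 + (C₁ / (η' * L)) ^ 2) ≤ δ / 4 := by
    have h1 : (2 * C₀ * E / η') ^ 2 ≤ (Real.sqrt δ / 8) ^ 2 := pow_le_pow_left₀ hA10 hA1 2
    have h2 : (C₀ * E) ^ 2 ≤ (Real.sqrt δ / 8) ^ 2 := pow_le_pow_left₀ (by positivity) hA3 2
    have h3 : (C₁ / (η' * L)) ^ 2 ≤ (Real.sqrt δ / 6) ^ 2 := pow_le_pow_left₀ (by positivity) hA4 2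
    have h4 : (Real.sqrt δ / 8) ^ 2 = δ / 64 := by
      rw [div_pow, hδs]
      norm_num
    have h5 : (Real.sqrt δ / 6) ^ 2 = δ / 36 := by
      rw [div_pow, hδs]
      norm_num
    rw [h4] at h1 h2
    rw [h5] at h3
    linarith
  have hlen : L + 1 - η * L ≤ 2 * L := by nlinarith
  have hlen0 : 0 ≤ L + 1 - η * L := by nlinarith
  have hK0 : 0 ≤ 4 * ((2 * C₀ * E / η') ^ 2 + (C₀ * E) ^ 2 + (C₁ / (η' * L)) ^ 2) := by positivity
  have hfin : 4 * ((2 * C₀ * E / η') ^ 2 + (C₀ * E) ^ 2 + (C₁ / (η' * L)) ^ 2) * (L + 1 - η * L)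
      ≤ δ / 4 * (2 * L) := mul_le_mul hK hlen hlen0 (by positivity)
  have hgoal : 4 * ((2 * C₀ * E / η') ^ 2 + (C₀ * E) ^ 2 + (C₁ / (η' * L)) ^ 2) * (L + 1 - η * L)
      + 4 * ∫ x : ℝ, ‖BW (tw (1 / L) (lpc χ)) (tw (1 / L) (ch χ)) (Icc 1 N) (RS z N) 2 t x‖ ^ 2
      ≤ δ * L := by linarith
  exact hgoal

end Pool.Agent.E3
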