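import Pool.Agent.Lib.MP_bae66e_nt.Mg.G003
import Pool.Agent.Lib.MP_bae66e_nt.Mg.G023
import Pool.Agent.Lib.MP_bae66e_nt.Mg.G021

/-!
# ZC1: bounds for the twisted windows of the rough integers
-/

set_option autoImplicit false

namespace Pool.Agent.E3

open Finset MeasureTheory Real
open Pool.Agent.Lib.MP_bae66e_nt.AP3 (KT)

private lemma ZC1_ph (u v : ℝ) : ‖ph u v‖ = 1 := by
  rw [ph, Complex.norm_exp_ofReal_mul_I]

private lemma ZC1_ch {W : ℕ} (χ : DirichletCharacter ℂ W) (n : ℕ) : ‖ch χ n‖ ≤ 1 := by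
  rw [ch]
  exact DirichletCharacter.norm_le_one χ _

private lemma ZC1_gs_nonneg (β x v : ℝ) : 0 ≤ gs β x v := (Real.exp_pos _).le

private lemma ZC1_WIN_le (a : ℕ → ℂ) (β : ℝ) (S : Finset ℕ) (t x : ℝ) (h : ∀ n ∈ S, ‖a n‖ ≤ 1) :
    ‖WIN a β S t x‖ ≤ ∑ n ∈ S, gs β x (Real.log n) / n := by
  rw [WIN]
  refine (norm_sum_le _ _).trans (Finset.sum_le_sum fun n hn => ?_)
  rw [norm_mul, norm_mul, ZC1_ph, mul_one, Complex.norm_real, Real.norm_eq_abs,
    abs_of_nonneg (div_nonneg (ZC1_gs_nonneg _ _ _) (Nat.cast_nonneg n))]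
  have h1 : 0 ≤ gs β x (Real.log n) / n := div_nonneg (ZC1_gs_nonneg _ _ _) (Nat.cast_nonneg n)
  have h2 := h n hn
  nlinarith

private lemma ZC1_tw_norm {W : ℕ} (χ : DirichletCharacter ℂ W) {τ : ℝ} (hτ : 0 < τ) (n : ℕ)
    (hn : 1 ≤ n) : ‖tw τ (ch χ) n‖ ≤ 1 := by
  rw [tw, norm_mul, Complex.norm_real, Real.norm_eq_abs, abs_of_pos (Real.exp_pos _)]
  have h1 : 0 ≤ Real.log n := Real.log_nonneg (by exact_mod_cast hn)
  have h2 : Real.exp (-(τ * Real.log n)) ≤ 1 := by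
    rw [Real.exp_le_one_iff]
    have := mul_nonneg hτ.le h1
    linarith
  have h3 := ZC1_ch χ n
  calc ‖ch χ n‖ * Real.exp (-(τ * Real.log n)) ≤ 1 * 1 :=
        mul_le_mul h3 h2 (Real.exp_pos _).le zero_le_one
    _ = 1 := one_mul 1

private lemma ZC1_RS_one {y N n : ℕ} (hn : n ∈ RS y N) : 1 ≤ n := by
  classical
  rw [RS, Finset.mem_filter, Finset.mem_Icc] at hn
  omega

private lemma ZC1_one (C : ℝ) (h : ∀ (z N : ℕ) (x : ℝ), 2 ≤ z →
      ∑ n ∈ RS z N, gs 2 x (Real.log n) / n ≤ C / Real.log z)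
    {W : ℕ} (χ : DirichletCharacter ℂ W) {τ u : ℝ} (hτ : 0 < τ) (y N : ℕ) (hy : 2 ≤ y) {x : ℝ}
    (hx : x ≤ 0) :
    ‖WIN (tw τ (ch χ)) 2 (RS y N) u x‖ ≤ C / Real.log y * Real.exp (-(2 * x ^ 2)) := by
  refine (ZC1_WIN_le _ _ _ _ _ fun n hn => ZC1_tw_norm χ hτ n (ZC1_RS_one hn)).trans ?_
  have h1 : ∀ n ∈ RS y N, gs 2 x (Real.log n) / n
      ≤ Real.exp (-(2 * x ^ 2)) * (gs 2 0 (Real.log n) / n) := by
    intro n hn
    have h2 : 0 ≤ Real.log n := Real.log_nonneg (by exact_mod_cast ZC1_RS_one hn)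
    rw [← mul_div_assoc]
    refine div_le_div_of_nonneg_right ?_ (Nat.cast_nonneg n)
    rw [gs, gs, ← Real.exp_add]
    refine Real.exp_le_exp.2 ?_
    have h3 : x * Real.log n ≤ 0 := mul_nonpos_of_nonpos_of_nonneg hx h2
    nlinarith
  refine (Finset.sum_le_sum h1).trans ?_
  rw [← Finset.mul_sum, mul_comm]
  exact mul_le_mul_of_nonneg_right (h y N 0 hy) (Real.exp_pos _).le

private lemma ZC1_tau {τ : ℝ} (hτ : 0 < τ) (hτ1 : τ ≤ 1) (x : ℝ) :
    Real.exp (-(τ * x) + τ ^ 2 / (4 * 2)) ≤ 2 * Real.exp (-(τ * x)) := by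
  rw [Real.exp_add, mul_comm]
  refine mul_le_mul_of_nonneg_right ?_ (Real.exp_pos _).le
  have h1 : τ ^ 2 / (4 * 2) ≤ 1 / 8 := by nlinarith
  refine (Real.exp_le_exp.2 h1).trans ?_
  have h2 : Real.exp (1 / 8 : ℝ) ≤ Real.exp (1 / 8 * 1 : ℝ) := by rw [mul_one]
  have h3 := Real.exp_bound_div_one_sub_of_interval (x := (1 / 8 : ℝ)) (by norm_num) (by norm_num)
  refine h3.trans ?_
  norm_num

private lemma ZC1_two (C : ℝ) (h : ∀ (z N : ℕ) (x : ℝ), 2 ≤ z →
      ∑ n ∈ RS z N, gs 2 x (Real.log n) / n ≤ C / Real.log z)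
    {W : ℕ} (χ : DirichletCharacter ℂ W) {τ u : ℝ} (hτ : 0 < τ) (hτ1 : τ ≤ 1) (y N : ℕ)
    (hy : 2 ≤ y) (x : ℝ) :
    ‖WIN (tw τ (ch χ)) 2 (RS y N) u x‖ ≤ (2 * C) / Real.log y * Real.exp (-(τ * x)) := by
  rw [WIN_tw _ _ _ _ _ _ (by norm_num : (0 : ℝ) < 2), norm_mul, Complex.norm_real,
    Real.norm_eq_abs, abs_of_pos (Real.exp_pos _)]
  have h1 := ZC1_tau hτ hτ1 x
  have h2 : ‖WIN (ch χ) 2 (RS y N) u (x - τ / (2 * 2))‖ ≤ C / Real.log y :=
    (ZC1_WIN_le _ _ _ _ _ fun n _ => ZC1_ch χ n).trans (h y N _ hy)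
  calc Real.exp (-(τ * x) + τ ^ 2 / (4 * 2)) * ‖WIN (ch χ) 2 (RS y N) u (x - τ / (2 * 2))‖
      ≤ (2 * Real.exp (-(τ * x))) * (C / Real.log y) :=
        mul_le_mul h1 h2 (norm_nonneg _) (by positivity)
    _ = (2 * C) / Real.log y * Real.exp (-(τ * x)) := by ring

private lemma ZC1_log_large {c L D : ℝ} (hc : 0 < c) (hL : 0 ≤ L) (hD : 8 * D / c ^ 2 ≤ L) :
    D * L ≤ Real.exp (c * L / 2) := by
  have h1 : (c * L / 2) ^ 2 / 2 ≤ Real.exp (c * L / 2) := by
    have := Real.quadratic_le_exp_of_nonneg (x := c * L / 2) (by positivity)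
    have h2 : 0 ≤ c * L / 2 := by positivity
    linarith
  refine le_trans ?_ h1
  have h3 : 8 * D ≤ c ^ 2 * L := by
    rw [div_le_iff₀ (by positivity)] at hD
    linarith
  nlinarith

open Classical in
/-- PROOF. `RS y N` is the index set of `rwin`: `WIN (ch χ) 2 (RS y N) u x = rwin χ 2 y N u x`. By `WIN_tw` (`β = 2`, `σ = τ`)
`‖WIN (tw τ (ch χ)) 2 (RS y N) u x‖ = exp (- τ x + τ²/8) ‖WIN (ch χ) 2 (RS y N) u (x - τ/4)‖`. The third claim (`x ≥ 0`): `tb_rough 2`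
(`exp (1/8) ≤ 2`). The second (`x ≤ 0`): `exp (- τ log n) ≤ 1` and `gs 2 x (log n) ≤ exp (- 2 x²) gs 2 0 (log n)`, `tb_rough 2`. The last:
`b0` from `rough_window 2`, `K₀ = 20 b0 + 40`, `b = ⌊x / (20 log y)⌋₊ ≥ b0`, `(8 b + 12) log y ≤ 0.4 x + 12 log y ≤ x - 1/4 ≤ x - τ/4`,
`exp (2 (x - τ/4)) ≤ exp (2 x) ≤ N`, `|u| ≤ y^A ≤ exp (A (x - τ/4))`; `rough_window` gives
`≤ 2 exp (- τ x) (√(π/2) KT y (2 [χ = 1] exp (- u²/8) + exp (-b)) + C' exp (- c (x - 1/4)))` with `C', c` depending on `A, W`.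
`KT y ≤ 1 / log y` (`KT_le`), `exp (- b) ≤ e exp (- x/(20 log y))`, and for `y ≥ y₀(A, W)`:
`C' exp (- c (x - 1/4)) ≤ (1 / log y) exp (- x / (20 log y))`, because `c/2 ≥ 1/(20 log y)` and
`C' exp (c/4) exp (- c x/2) ≤ C' exp (c/4) y^(- c K₀/2) ≤ 1 / log y`. -/
theorem rough_tw_bound : ∃ C K₀ : ℝ, 1 ≤ C ∧ 1 ≤ K₀ ∧ ∀ A : ℕ, 1 ≤ A → ∀ W : ℕ, 1 ≤ W → ∃ y₀ : ℕ, 3 ≤ y₀ ∧
    ∀ y : ℕ, y₀ ≤ y → ∀ (χ : DirichletCharacter ℂ W) (τ u : ℝ), 0 < τ → τ ≤ 1 → |u| ≤ (y : ℝ) ^ A →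
    ∀ (N : ℕ) (x : ℝ),
      (x ≤ 0 → ‖WIN (tw τ (ch χ)) 2 (RS y N) u x‖ ≤ C / Real.log y * Real.exp (-(2 * x ^ 2))) ∧
      (0 ≤ x → ‖WIN (tw τ (ch χ)) 2 (RS y N) u x‖ ≤ C / Real.log y * Real.exp (-(τ * x))) ∧
      (K₀ * Real.log y ≤ x → Real.exp (2 * x) ≤ N →
        ‖WIN (tw τ (ch χ)) 2 (RS y N) u x‖ ≤ C / Real.log y *
          ((if χ = 1 then Real.exp (-(u ^ 2 / 8)) * Real.exp (-(τ * x)) else 0)
            + Real.exp (-(x / (20 * Real.log y))))) := by
  obtain ⟨CT, hCT1, hCT⟩ := tb_rough 2 (by norm_num)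
  obtain ⟨b0, hb0⟩ := rough_window 2 (by norm_num)
  refine ⟨2 * CT + 14, 20 * b0 + 40, by linarith, by
    have : (0 : ℝ) ≤ b0 := Nat.cast_nonneg b0
    linarith, ?_⟩
  intro A hA W hW
  obtain ⟨c, C', hc0, hc1, hC'1, hwin⟩ := hb0 A hA W hW
  -- the threshold
  obtain ⟨y₁, hy₁⟩ := exists_nat_ge (Real.exp (max (1 / (10 * c)) (8 * (2 * C') / c ^ 2)))
  refine ⟨max 3 (max W y₁), le_max_left _ _, ?_⟩
  intro y hy χ τ u hτ0 hτ1 hu N x
  have hy3 : 3 ≤ y := (le_max_left _ _).trans hy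
  have hWy : W ≤ y := ((le_max_left _ _).trans (le_max_right _ _)).trans hy
  have hyy₁ : y₁ ≤ y := ((le_max_right _ _).trans (le_max_right _ _)).trans hy
  have hy0 : (0 : ℝ) < y := by
    have : (3 : ℝ) ≤ y := by exact_mod_cast hy3
    linarith
  set L : ℝ := Real.log y with hL
  have hL1 : 1 ≤ L := by
    rw [hL, Real.le_log_iff_exp_le hy0]
    have h3 : (3 : ℝ) ≤ y := by exact_mod_cast hy3
    have := Real.exp_one_lt_d9
    linarith
  have hL0 : 0 < L := by linarith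
  have hLm : max (1 / (10 * c)) (8 * (2 * C') / c ^ 2) ≤ L := by
    rw [hL, Real.le_log_iff_exp_le hy0]
    exact hy₁.trans (by exact_mod_cast hyy₁)
  have hLc : 1 / (10 * c) ≤ L := (le_max_left _ _).trans hLm
  have hLC : 8 * (2 * C') / c ^ 2 ≤ L := (le_max_right _ _).trans hLm
  have hCC : (2 * CT) / L ≤ (2 * CT + 14) / L := by
    refine div_le_div_of_nonneg_right ?_ hL0.le
    linarith
  have hC1C : CT / L ≤ (2 * CT + 14) / L := by
    refine div_le_div_of_nonneg_right ?_ hL0.le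
    linarith
  refine ⟨fun hx => ?_, fun hx => ?_, fun hx hN => ?_⟩
  · refine (ZC1_one CT hCT χ hτ0 y N (by omega) hx).trans ?_
    exact mul_le_mul_of_nonneg_right hC1C (Real.exp_pos _).le
  · refine (ZC1_two CT hCT χ hτ0 hτ1 y N (by omega) x).trans ?_
    exact mul_le_mul_of_nonneg_right hCC (Real.exp_pos _).le
  · have hb0' : (0 : ℝ) ≤ b0 := Nat.cast_nonneg b0
    have hx40 : 40 * L ≤ x := by nlinarith
    have hx0 : 0 < x := by linarith
    set b : ℕ := ⌊x / (20 * L)⌋₊ with hb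
    have hxL : 0 ≤ x / (20 * L) := by positivity
    have hbb0 : b0 ≤ b := by
      rw [hb, Nat.le_floor_iff hxL, le_div_iff₀ (by positivity)]
      nlinarith
    have hble : (b : ℝ) ≤ x / (20 * L) := Nat.floor_le hxL
    have hblt : x / (20 * L) < b + 1 := Nat.lt_floor_add_one _
    have hbL : (b : ℝ) * L ≤ x / 20 := by
      have h1 : (b : ℝ) * L ≤ x / (20 * L) * L := mul_le_mul_of_nonneg_right hble hL0.le
      have h2 : x / (20 * L) * L = x / 20 := by field_simp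
      linarith
    have hx' : (8 * (b : ℝ) + 12) * L ≤ x - τ / (2 * 2) := by nlinarith
    have hN' : Real.exp (2 * (x - τ / (2 * 2))) ≤ N := by
      refine le_trans (Real.exp_le_exp.2 ?_) hN
      linarith
    have hu' : |u| ≤ Real.exp (A * (x - τ / (2 * 2))) := by
      refine hu.trans ?_
      have h1 : (y : ℝ) ^ A = Real.exp (A * L) := by
        rw [mul_comm, Real.exp_mul, hL, Real.exp_log hy0, Real.rpow_natCast]
      rw [h1]
      refine Real.exp_le_exp.2 (mul_le_mul_of_nonneg_left ?_ (Nat.cast_nonneg A))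
      linarith
    have hw := hwin χ b y hbb0 (by omega) hWy (x - τ / (2 * 2)) u N hx' hN' hu'
    set E : ℝ := Real.exp (-(x / (20 * L))) with hE
    have hE0 : 0 < E := Real.exp_pos _
    have hKT : KT y ≤ 1 / L := by
      refine (Pool.Agent.Lib.MP_bae66e_nt.AP3.KT_le y (by omega)).trans ?_
      refine one_div_le_one_div_of_le hL0 ?_
      exact Real.log_le_log hy0 (by linarith)
    have hKT0 : 0 < KT y := Pool.Agent.Lib.MP_bae66e_nt.AP3.KT_pos y
    have hsq : Real.sqrt (π / 2) ≤ 2 := by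
      rw [show (2 : ℝ) = Real.sqrt 4 by
        rw [show (4 : ℝ) = 2 ^ 2 by norm_num, Real.sqrt_sq (by norm_num)]]
      refine Real.sqrt_le_sqrt ?_
      rw [show Real.sqrt 4 = 2 by
        rw [show (4 : ℝ) = 2 ^ 2 by norm_num, Real.sqrt_sq (by norm_num)]]
      have := Real.pi_le_four
      linarith
    have hexpb : Real.exp (-(b : ℝ)) ≤ 3 * E := by
      have h1 : -(b : ℝ) ≤ 1 + -(x / (20 * L)) := by linarith
      refine (Real.exp_le_exp.2 h1).trans ?_
      rw [Real.exp_add]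
      refine mul_le_mul_of_nonneg_right ?_ hE0.le
      have := Real.exp_one_lt_d9
      linarith
    have hC'E : C' * Real.exp (-(c * (x - τ / (2 * 2)))) ≤ 1 / L * E := by
      have h1 : -(c * (x - τ / (2 * 2))) ≤ c / 4 + -(c * x / 2) + -(c * x / 2) := by nlinarith
      have h2 : Real.exp (c / 4) ≤ 2 := by
        have h3 : c / 4 ≤ 1 / 8 := by linarith
        refine (Real.exp_le_exp.2 h3).trans ?_
        have h4 := Real.exp_bound_div_one_sub_of_interval (x := (1 / 8 : ℝ)) (by norm_num)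
          (by norm_num)
        refine h4.trans ?_
        norm_num
      have h5 : Real.exp (-(c * x / 2)) ≤ E := by
        rw [hE]
        refine Real.exp_le_exp.2 (neg_le_neg ?_)
        have h6 : x / (20 * L) = x * (1 / (20 * L)) := by ring
        have h7 : 1 / (20 * L) ≤ c / 2 := by
          rw [div_le_iff₀ (by positivity)] at hLc ⊢
          nlinarith
        rw [h6]
        nlinarith
      have h8 : 2 * C' * L ≤ Real.exp (c * x / 2) := by
        refine (ZC1_log_large hc0 hL0.le hLC).trans (Real.exp_le_exp.2 ?_)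
        nlinarith
      have h9 : 2 * C' * Real.exp (-(c * x / 2)) ≤ 1 / L := by
        rw [Real.exp_neg, le_div_iff₀ hL0]
        have h10 := Real.exp_pos (c * x / 2)
        rw [mul_assoc, mul_comm (Real.exp (c * x / 2))⁻¹ L, ← mul_assoc, ← div_eq_mul_inv,
          div_le_iff₀ h10, one_mul]
        exact h8
      calc C' * Real.exp (-(c * (x - τ / (2 * 2))))
          ≤ C' * Real.exp (c / 4 + -(c * x / 2) + -(c * x / 2)) :=
            mul_le_mul_of_nonneg_left (Real.exp_le_exp.2 h1) (by linarith)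
        _ = (C' * Real.exp (c / 4) * Real.exp (-(c * x / 2))) * Real.exp (-(c * x / 2)) := by
            rw [Real.exp_add, Real.exp_add]
            ring
        _ ≤ (C' * 2 * Real.exp (-(c * x / 2))) * E := by
            refine mul_le_mul ?_ h5 (Real.exp_pos _).le ?_
            · refine mul_le_mul_of_nonneg_right ?_ (Real.exp_pos _).le
              exact mul_le_mul_of_nonneg_left h2 (by linarith)
            · have := Real.exp_pos (-(c * x / 2))
              positivity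
        _ = (2 * C' * Real.exp (-(c * x / 2))) * E := by ring
        _ ≤ 1 / L * E := mul_le_mul_of_nonneg_right h9 hE0.le
    have hI : (if χ = 1 then 2 * Real.exp (-(u ^ 2 / (4 * 2))) else 0)
        = 2 * (if χ = 1 then Real.exp (-(u ^ 2 / 8)) else 0) := by
      split_ifs
      · norm_num
      · norm_num
    set I : ℝ := if χ = 1 then Real.exp (-(u ^ 2 / 8)) else 0 with hIdef
    have hI0 : 0 ≤ I := by
      rw [hIdef]
      split_ifs
      · exact (Real.exp_pos _).le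
      · exact le_rfl
    have hI' : (if χ = 1 then Real.exp (-(u ^ 2 / 8)) * Real.exp (-(τ * x)) else 0)
        = I * Real.exp (-(τ * x)) := by
      rw [hIdef]
      split_ifs
      · rfl
      · rw [zero_mul]
    rw [hI] at hw
    have hrw : ‖rwin χ 2 y N u (x - τ / (2 * 2))‖ ≤ 1 / L * (4 * I + 7 * E) := by
      refine hw.trans ?_
      have h1 : Real.sqrt (π / 2) * KT y ≤ 2 * (1 / L) :=
        mul_le_mul hsq hKT hKT0.le (by norm_num)
      have h2 : 2 * I + Real.exp (-(b : ℝ)) ≤ 2 * I + 3 * E := by linarith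
      have h3 : 0 ≤ 2 * I + Real.exp (-(b : ℝ)) := by
        have := Real.exp_pos (-(b : ℝ))
        linarith
      have h4 : 0 ≤ 1 / L := by positivity
      calc Real.sqrt (π / 2) * KT y * (2 * I + Real.exp (-(b : ℝ)))
            + C' * Real.exp (-(c * (x - τ / (2 * 2))))
          ≤ 2 * (1 / L) * (2 * I + 3 * E) + 1 / L * E :=
            add_le_add (mul_le_mul h1 h2 h3 (by positivity)) hC'E
        _ = 1 / L * (4 * I + 7 * E) := by ring
    have hexp1 : Real.exp (-(τ * x)) ≤ 1 := by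
      rw [Real.exp_le_one_iff]
      have := mul_pos hτ0 hx0
      linarith
    have hexp0 : 0 < Real.exp (-(τ * x)) := Real.exp_pos _
    have hWIN : WIN (ch χ) 2 (RS y N) u (x - τ / (2 * 2)) = rwin χ 2 y N u (x - τ / (2 * 2)) := rfl
    rw [hI', WIN_tw _ _ _ _ _ _ (by norm_num : (0 : ℝ) < 2), norm_mul, Complex.norm_real,
      Real.norm_eq_abs, abs_of_pos (Real.exp_pos _), hWIN]
    have h1 := ZC1_tau hτ0 hτ1 x
    have h4 : 0 ≤ 1 / L := by positivity
    calc Real.exp (-(τ * x) + τ ^ 2 / (4 * 2)) * ‖rwin χ 2 y N u (x - τ / (2 * 2))‖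
        ≤ (2 * Real.exp (-(τ * x))) * (1 / L * (4 * I + 7 * E)) :=
          mul_le_mul h1 hrw (norm_nonneg _) (by positivity)
      _ = 1 / L * (8 * (I * Real.exp (-(τ * x))) + 14 * (E * Real.exp (-(τ * x)))) := by ring
      _ ≤ 1 / L * ((2 * CT + 14) * (I * Real.exp (-(τ * x)) + E)) := by
          refine mul_le_mul_of_nonneg_left ?_ h4
          have h5 : E * Real.exp (-(τ * x)) ≤ E := by
            calc E * Real.exp (-(τ * x)) ≤ E * 1 := mul_le_mul_of_nonneg_left hexp1 hE0.le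
              _ = E := mul_one E
          have h6 : 0 ≤ I * Real.exp (-(τ * x)) := mul_nonneg hI0 hexp0.le
          nlinarith
      _ = (2 * CT + 14) / L * (I * Real.exp (-(τ * x)) + E) := by ring

end Pool.Agent.E3
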